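import Mathlib

-- part Pool.Agent.P.MP_b53add_lc.Switch
section

set_option autoImplicit false

namespace Pool.Agent.P.MP_b53add_lc

open Finset Classical

/-- every input has a certificate of size at most `w` for its value -/
def Cert {X : Type} (w : ℕ) (f : (X → Bool) → Prop) : Prop :=
  ∀ y, ∃ S : Finset X, S.card ≤ w ∧ ∀ y', (∀ i ∈ S, y' i = y i) → (f y' ↔ f y)

/-- every accepted input has a certificate of size at most `w` -/
def Cert1 {X : Type} (w : ℕ) (f : (X → Bool) → Prop) : Prop :=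
  ∀ y, f y → ∃ S : Finset X, S.card ≤ w ∧ ∀ y', (∀ i ∈ S, y' i = y i) → f y'

theorem agree_card {A B : Type} [Fintype A] [Fintype B] (D : Finset A) (a' : A → B)
    (F : Finset (A → B)) (hF : ∀ a ∈ F, ∀ p, p ∉ D → a p = a' p) :
    F.card ≤ Fintype.card B ^ D.card := by
  have : F.card ≤ (univ : Finset (D → B)).card := by
    apply Finset.card_le_card_of_injOn (fun a => fun p : D => a p.1)
    · intro a _; simp
    · intro a ha b hb hab
      funext p
      by_cases hp : p ∈ D
      · exact congrFun hab ⟨p, hp⟩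
      · rw [hF a ha p hp, hF b hb p hp]
  simpa [Fintype.card_fun] using this

theorem near_card {A C : Type} [Fintype A] [Fintype C] (D : Finset A)
    (B : Finset (C × (A → Bool))) :
    (univ.filter fun ca : C × (A → Bool) =>
      ∃ a', (ca.1, a') ∈ B ∧ ∀ p, p ∉ D → ca.2 p = a' p).card ≤ 2 ^ D.card * B.card := by
  have hsub : (univ.filter fun ca : C × (A → Bool) =>
      ∃ a', (ca.1, a') ∈ B ∧ ∀ p, p ∉ D → ca.2 p = a' p) ⊆
      B.biUnion fun b => (univ.filter fun a : A → Bool => ∀ p, p ∉ D → a p = b.2 p).image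
        fun a => (b.1, a) := by
    intro ca hca
    simp only [mem_filter, mem_univ, true_and] at hca
    obtain ⟨a', hB, h⟩ := hca
    simp only [mem_biUnion, mem_image, mem_filter, mem_univ, true_and]
    exact ⟨(ca.1, a'), hB, ca.2, h, rfl⟩
  refine (card_le_card hsub).trans ((card_biUnion_le).trans ?_)
  rw [mul_comm, ← smul_eq_mul]
  apply Finset.sum_le_card_nsmul
  intro b _
  refine card_image_le.trans ?_
  simpa using agree_card D b.2 _ (fun a ha => (mem_filter.1 ha).2)

theorem near_card' {A : Type} [Fintype A] (D : Finset A) (B : Finset (A → Bool)) :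
    (univ.filter fun a : A → Bool =>
      ∃ a', a' ∈ B ∧ ∀ p, p ∉ D → a p = a' p).card ≤ 2 ^ D.card * B.card := by
  have hsub : (univ.filter fun a : A → Bool => ∃ a', a' ∈ B ∧ ∀ p, p ∉ D → a p = a' p) ⊆
      B.biUnion fun b => (univ.filter fun a : A → Bool => ∀ p, p ∉ D → a p = b p) := by
    intro a ha
    simp only [mem_filter, mem_univ, true_and] at ha
    obtain ⟨a', hB, h⟩ := ha
    simp only [mem_biUnion, mem_filter, mem_univ, true_and]
    exact ⟨a', hB, h⟩
  refine (card_le_card hsub).trans ((card_biUnion_le).trans ?_)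
  rw [mul_comm, ← smul_eq_mul]
  apply Finset.sum_le_card_nsmul
  intro b _
  simpa using agree_card D b _ (fun a ha => (mem_filter.1 ha).2)

theorem kcount {G : Type} [Fintype G] {K : ℕ} (P : Finset (G × Fin K)) :
    (univ.filter fun k : G → Fin K => ∀ p ∈ P, k p.1 = p.2).card * K ^ P.card
      ≤ K ^ Fintype.card G := by
  rcases (univ.filter fun k : G → Fin K => ∀ p ∈ P, k p.1 = p.2).eq_empty_or_nonempty with h | h
  · rw [h]; simp
  obtain ⟨k0, hk0⟩ := h
  simp only [mem_filter, mem_univ, true_and] at hk0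
  set Q := P.image Prod.fst with hQ
  have hQc : Q.card = P.card := by
    apply card_image_of_injOn
    intro p hp q hq hpq
    have h1 := hk0 p hp
    have h2 := hk0 q hq
    ext
    · exact hpq
    · rw [← h1, ← h2, hpq]
  have hsub : (univ.filter fun k : G → Fin K => ∀ p ∈ P, k p.1 = p.2) ⊆
      (univ.filter fun k : G → Fin K => ∀ g, g ∉ Qᶜ → k g = k0 g) := by
    intro k hk
    simp only [mem_filter, mem_univ, true_and] at hk ⊢
    intro g hg
    simp only [mem_compl, not_not, hQ, mem_image] at hg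
    obtain ⟨p, hp, rfl⟩ := hg
    rw [hk p hp, hk0 p hp]
  have h1 := (card_le_card hsub).trans (agree_card Qᶜ k0 _ (fun a ha => (mem_filter.1 ha).2))
  rw [Fintype.card_fin, card_compl] at h1
  have h2 : Q.card ≤ Fintype.card G := card_le_univ Q
  calc _ ≤ K ^ (Fintype.card G - Q.card) * K ^ P.card := Nat.mul_le_mul_right _ h1
    _ = K ^ Fintype.card G := by rw [← pow_add, ← hQc]; congr 1; omega

section Switching

variable {G : Type} [Fintype G] {K : ℕ}

/-- `β` agrees with `α` outside the free starred positions -/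
def Sim (k : G → Fin K) (P : Finset (G × Fin K)) (α β : G × Fin K → Bool) : Prop :=
  ∀ p, (k p.1 ≠ p.2 ∨ p ∈ P) → β p = α p

def Bad (f : (G × Fin K → Bool) → Prop) (s : ℕ) (P : Finset (G × Fin K)) (k : G → Fin K)
    (α : G × Fin K → Bool) : Prop :=
  ∃ β0, Sim k P α β0 ∧ ∀ S : Finset (G × Fin K), S.card < s →
    ∃ β, Sim k P α β ∧ (∀ p ∈ S, β p = β0 p) ∧ ¬ (f β ↔ f β0)

def IsTerm (f : (G × Fin K → Bool) → Prop) (w : ℕ)
    (T : Finset (G × Fin K) × (G × Fin K → Bool)) : Prop :=
  T.1.card ≤ w ∧ ∀ x, (∀ p ∈ T.1, x p = T.2 p) → f x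

noncomputable def rank (T : Finset (G × Fin K) × (G × Fin K → Bool)) : ℕ :=
  (Fintype.equivFin _ T : ℕ)

theorem rank_inj {T T' : Finset (G × Fin K) × (G × Fin K → Bool)} (h : rank T = rank T') :
    T = T' := by
  unfold rank at h
  exact (Fintype.equivFin _).injective (Fin.ext h)

def First (f : (G × Fin K → Bool) → Prop) (w : ℕ)
    (T : Finset (G × Fin K) × (G × Fin K → Bool)) (β : G × Fin K → Bool) : Prop :=
  IsTerm f w T ∧ (∀ p ∈ T.1, β p = T.2 p) ∧
    ∀ T', IsTerm f w T' → (∀ p ∈ T'.1, β p = T'.2 p) → rank T ≤ rank T'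

noncomputable def ov {A : Type} (D : Finset A) (τ β : A → Bool) : A → Bool :=
  fun p => if p ∈ D then τ p else β p

noncomputable def badSet (f : (G × Fin K → Bool) → Prop) (s : ℕ) (P : Finset (G × Fin K))
    (R : (G × Fin K → Bool) → Prop) : Finset ((G → Fin K) × (G × Fin K → Bool)) :=
  univ.filter fun ka => (∀ p ∈ P, ka.1 p.1 = p.2) ∧ Bad f s P ka.1 ka.2 ∧
    ∀ β, Sim ka.1 P ka.2 β → R β

theorem step_cover {f : (G × Fin K → Bool) → Prop} {w : ℕ} (hf : Cert1 w f) {s : ℕ}
    (hs : 0 < s) (P : Finset (G × Fin K)) (R : (G × Fin K → Bool) → Prop)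
    (ka : (G → Fin K) × (G × Fin K → Bool)) (h : ka ∈ badSet f s P R) :
    ∃ T : Finset (G × Fin K) × (G × Fin K → Bool), ∃ D : Finset (G × Fin K),
      D ⊆ T.1 ∧ D.Nonempty ∧ Disjoint P D ∧ ∃ α', (ka.1, α') ∈ badSet f (s - D.card) (P ∪ D)
        (fun β => R (ov D T.2 β) ∧ First f w T (ov D T.2 β)) ∧ ∀ p, p ∉ D → ka.2 p = α' p := by
  obtain ⟨k, α⟩ := ka
  simp only [badSet, mem_filter, mem_univ, true_and] at h
  obtain ⟨hP, ⟨β0, hβ0, hbad⟩, hR⟩ := h
  dsimp only
  -- alive terms
  let Alive : Finset (G × Fin K) × (G × Fin K → Bool) → Prop := fun T =>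
    IsTerm f w T ∧ ∀ p ∈ T.1, (k p.1 ≠ p.2 ∨ p ∈ P) → α p = T.2 p
  have alive_of : ∀ β, Sim k P α β → f β → ∃ T, Alive T := by
    intro β hβ hfβ
    obtain ⟨S, hS, hS'⟩ := hf β hfβ
    refine ⟨(S, β), ⟨hS, fun x hx => hS' x hx⟩, fun p _ hp => (hβ p hp).symm⟩
  have hex : ∃ T, Alive T := by
    obtain ⟨β, hβ, -, hne⟩ := hbad ∅ (by simpa using hs)
    by_cases h1 : f β
    · exact alive_of β hβ h1
    · have h2 : f β0 := by tauto
      exact alive_of β0 hβ0 h2
  obtain ⟨T, hT, hmin⟩ : ∃ T, Alive T ∧ ∀ T', Alive T' → rank T ≤ rank T' := by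
    obtain ⟨T, hT, hmin⟩ := (univ.filter Alive).exists_min_image rank
      (by obtain ⟨T, hT⟩ := hex; exact ⟨T, by simpa using hT⟩)
    exact ⟨T, by simpa using hT, fun T' h' => hmin T' (by simpa using h')⟩
  set D := T.1.filter fun p => k p.1 = p.2 ∧ p ∉ P with hD
  have memD : ∀ p, p ∈ D ↔ p ∈ T.1 ∧ k p.1 = p.2 ∧ p ∉ P := by intro p; simp [hD]
  have hDne : D.Nonempty := by
    by_contra hne
    have hall : ∀ β, Sim k P α β → f β := by
      intro β hβ
      apply hT.1.2
      intro p hp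
      have : k p.1 ≠ p.2 ∨ p ∈ P := by
        by_contra hc
        push Not at hc
        exact hne ⟨p, (memD p).2 ⟨hp, hc.1, hc.2⟩⟩
      rw [hβ p this, hT.2 p hp this]
    obtain ⟨β, hβ, -, hne'⟩ := hbad ∅ (by simpa using hs)
    exact hne' ⟨fun _ => hall β0 hβ0, fun _ => hall β hβ⟩
  refine ⟨T, D, filter_subset _ _, hDne, ?_, ov D β0 α, ?_, ?_⟩
  · rw [Finset.disjoint_right]; intro p hp; exact ((memD p).1 hp).2.2
  · simp only [badSet, mem_filter, mem_univ, true_and]
    have simdown : ∀ β, Sim k (P ∪ D) (ov D β0 α) β → ∀ τ, Sim k P α (ov D τ β) := by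
      intro β hβ τ p hp
      have hpD : p ∉ D := by
        rw [memD]; rintro ⟨-, h1, h2⟩; rcases hp with hp | hp
        · exact hp h1
        · exact h2 hp
      have := hβ p (by rcases hp with hp | hp; exact Or.inl hp; exact Or.inr (mem_union_left _ hp))
      simpa [ov, hpD] using this
    refine ⟨?_, ⟨β0, ?_, ?_⟩, ?_⟩
    · intro p hp
      rcases mem_union.1 hp with hp | hp
      · exact hP p hp
      · exact ((memD p).1 hp).2.1
    · intro p hp
      by_cases hpD : p ∈ D
      · simp [ov, hpD]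
      · simp only [ov, hpD, if_false]
        apply hβ0 p
        rcases hp with hp | hp
        · exact Or.inl hp
        · exact Or.inr ((mem_union.1 hp).resolve_right hpD)
    · intro S hS
      obtain ⟨β, hβ, hag, hne⟩ := hbad (S ∪ D) (by
        have := card_union_le S D; omega)
      refine ⟨β, ?_, fun p hp => hag p (mem_union_left _ hp), hne⟩
      intro p hp
      by_cases hpD : p ∈ D
      · simp only [ov, hpD, if_true]; exact hag p (mem_union_right _ hpD)
      · simp only [ov, hpD, if_false]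
        apply hβ p
        rcases hp with hp | hp
        · exact Or.inl hp
        · exact Or.inr ((mem_union.1 hp).resolve_right hpD)
    · intro β hβ
      have hs' := simdown β hβ T.2
      refine ⟨hR _ hs', hT.1, ?_, ?_⟩
      · intro p hp
        by_cases hpD : p ∈ D
        · simp [ov, hpD]
        · have : k p.1 ≠ p.2 ∨ p ∈ P := by
            by_contra hc
            push Not at hc
            exact hpD ((memD p).2 ⟨hp, hc.1, hc.2⟩)
          rw [hs' p this, hT.2 p hp this]
      · intro T' hT' hsat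
        apply hmin T'
        refine ⟨hT', fun p hp hp' => ?_⟩
        rw [← hs' p hp', hsat p hp]
  · intro p hp; simp [ov, hp]

theorem pow_sum_le {A : Type} (S : Finset A) {w K : ℕ} (hS : S.card ≤ w) (hK : 16 * w ≤ K)
    (hK0 : 0 < K) :
    ∑ D ∈ S.powerset.filter (fun D => D.Nonempty), (8 / (K : ℝ)) ^ D.card ≤ 1 := by
  have hKr : (0 : ℝ) < K := by exact_mod_cast hK0
  have h1 : ∑ D ∈ S.powerset, (8 / (K : ℝ)) ^ D.card = (8 / (K : ℝ) + 1) ^ S.card := by
    have := Finset.sum_pow_mul_eq_add_pow (8 / (K : ℝ)) 1 S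
    simpa using this
  have h2 : ∑ D ∈ S.powerset, (8 / (K : ℝ)) ^ D.card =
      ∑ D ∈ S.powerset.filter (fun D => D.Nonempty), (8 / (K : ℝ)) ^ D.card + 1 := by
    rw [← Finset.sum_filter_add_sum_filter_not S.powerset (fun D => D.Nonempty)]
    congr 1
    have : S.powerset.filter (fun D => ¬ D.Nonempty) = {∅} := by
      ext D; simp only [mem_filter, mem_powerset, not_nonempty_iff_eq_empty, mem_singleton]
      constructor
      · exact fun h => h.2
      · rintro rfl; simp
    rw [this]; simp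
  have h3 : (8 / (K : ℝ) + 1) ^ S.card ≤ 2 := by
    have ha : (0 : ℝ) ≤ 8 / K := by positivity
    have h4 : (8 / (K : ℝ) + 1) ^ S.card ≤ Real.exp (8 / K) ^ S.card :=
      pow_le_pow_left₀ (by positivity) (Real.add_one_le_exp _) _
    rw [← Real.exp_nat_mul] at h4
    have h5 : (S.card : ℝ) * (8 / K) ≤ 1 / 2 := by
      have : (16 : ℝ) * S.card ≤ K := by
        have : 16 * S.card ≤ K := by omega
        exact_mod_cast this
      rw [mul_div_assoc', div_le_iff₀ hKr]; linarith
    have h6 : Real.exp (1 / 2) ≤ 2 := by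
      have h7 : Real.exp (1 / 2) ^ 2 = Real.exp 1 := by rw [← Real.exp_nat_mul]; norm_num
      have h8 := Real.exp_one_lt_d9
      nlinarith [Real.exp_pos (1 / 2)]
    exact h4.trans ((Real.exp_le_exp.2 h5).trans h6)
  linarith

theorem switch_aux {f : (G × Fin K → Bool) → Prop} {w : ℕ} (hf : Cert1 w f)
    (hK : 16 * w ≤ K) (hK0 : 0 < K) (s : ℕ) :
    ∀ (P : Finset (G × Fin K)) (R : (G × Fin K → Bool) → Prop),
      ((badSet f s P R).card : ℝ) * (K : ℝ) ^ P.card * 2 ^ s
        ≤ (K : ℝ) ^ Fintype.card G * (univ.filter R).card := by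
  induction s using Nat.strong_induction_on with
  | _ s ih =>
  intro P R
  have hKr : (0 : ℝ) < K := by exact_mod_cast hK0
  rcases Nat.eq_zero_or_pos s with rfl | hs
  · have hsub : badSet f 0 P R ⊆
        (univ.filter fun k : G → Fin K => ∀ p ∈ P, k p.1 = p.2) ×ˢ (univ.filter R) := by
      intro ka h
      simp only [badSet, mem_filter, mem_univ, true_and] at h
      simp only [mem_product, mem_filter, mem_univ, true_and]
      exact ⟨h.1, h.2.2 _ (fun _ _ => rfl)⟩
    have h1 := card_le_card hsub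
    rw [card_product] at h1
    have h2 := kcount P
    have h3 : (badSet f 0 P R).card * K ^ P.card ≤ K ^ Fintype.card G * (univ.filter R).card := by
      calc _ ≤ ((univ.filter fun k : G → Fin K => ∀ p ∈ P, k p.1 = p.2).card *
            (univ.filter R).card) * K ^ P.card := Nat.mul_le_mul_right _ h1
        _ = ((univ.filter fun k : G → Fin K => ∀ p ∈ P, k p.1 = p.2).card * K ^ P.card) *
            (univ.filter R).card := by ring
        _ ≤ _ := Nat.mul_le_mul_right _ h2
    simp only [pow_zero, mul_one]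
    exact_mod_cast h3
  -- inductive step
  let piece : Finset (G × Fin K) × (G × Fin K → Bool) → Finset (G × Fin K) →
      Finset ((G → Fin K) × (G × Fin K → Bool)) := fun T D =>
    univ.filter fun ka => Disjoint P D ∧ ∃ α', (ka.1, α') ∈ badSet f (s - D.card) (P ∪ D)
        (fun β => R (ov D T.2 β) ∧ First f w T (ov D T.2 β)) ∧ ∀ p, p ∉ D → ka.2 p = α' p
  let r : Finset (G × Fin K) × (G × Fin K → Bool) → ℕ := fun T =>
    (univ.filter fun β => R β ∧ First f w T β).card
  have hsub : badSet f s P R ⊆ univ.biUnion fun T : Finset (G × Fin K) × (G × Fin K → Bool) =>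
      (T.1.powerset.filter (fun D => D.Nonempty)).biUnion fun D => piece T D := by
    intro ka h
    obtain ⟨T, D, h1, h2, h3, h4⟩ := step_cover hf hs P R ka h
    simp only [mem_biUnion, mem_univ, true_and, mem_filter, mem_powerset]
    exact ⟨T, D, ⟨h1, h2⟩, by simp only [piece, mem_filter, mem_univ, true_and]; exact ⟨h3, h4⟩⟩
  have hpiece : ∀ T D, D.Nonempty → ((piece T D).card : ℝ) * (K : ℝ) ^ P.card * 2 ^ s ≤
      (K : ℝ) ^ Fintype.card G * r T * (8 / K) ^ D.card := by
    intro T D hD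
    by_cases hdis : Disjoint P D
    swap
    · have : piece T D = ∅ := by simp [piece, hdis]
      rw [this]; simp only [card_empty, Nat.cast_zero, zero_mul]; positivity
    have hDc : 0 < D.card := card_pos.2 hD
    have h1 : (piece T D).card ≤ 2 ^ D.card * (badSet f (s - D.card) (P ∪ D)
        (fun β => R (ov D T.2 β) ∧ First f w T (ov D T.2 β))).card := by
      refine le_trans (card_le_card ?_) (near_card D _)
      intro ka h
      simp only [piece, mem_filter, mem_univ, true_and] at h ⊢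
      exact h.2
    have h2 := ih (s - D.card) (by omega) (P ∪ D)
      (fun β => R (ov D T.2 β) ∧ First f w T (ov D T.2 β))
    rw [card_union_of_disjoint hdis] at h2
    have h3 : (univ.filter fun β => R (ov D T.2 β) ∧ First f w T (ov D T.2 β)).card
        ≤ 2 ^ D.card * r T := by
      refine le_trans (card_le_card ?_) (near_card' D _)
      intro β h
      simp only [mem_filter, mem_univ, true_and] at h ⊢
      exact ⟨ov D T.2 β, h, fun p hp => by simp [ov, hp]⟩
    have h4 : (2 : ℝ) ^ s ≤ 2 ^ (s - D.card) * 2 ^ D.card := by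
      rw [← pow_add]; exact pow_le_pow_right₀ (by norm_num) (by omega)
    set B := (badSet f (s - D.card) (P ∪ D)
        (fun β => R (ov D T.2 β) ∧ First f w T (ov D T.2 β))).card
    have h1' : ((piece T D).card : ℝ) ≤ 2 ^ D.card * B := by exact_mod_cast h1
    have h3' : ((univ.filter fun β => R (ov D T.2 β) ∧ First f w T (ov D T.2 β)).card : ℝ)
        ≤ 2 ^ D.card * r T := by exact_mod_cast h3
    have h5 : (B : ℝ) * K ^ (P.card + D.card) * 2 ^ (s - D.card) ≤
        (K : ℝ) ^ Fintype.card G * (2 ^ D.card * r T) := by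
      refine h2.trans (mul_le_mul_of_nonneg_left (le_trans (le_of_eq ?_) h3') (by positivity))
      congr 2
      ext β; simp
    have hKD : (0 : ℝ) < (K : ℝ) ^ D.card := by positivity
    rw [div_pow, mul_div_assoc', le_div_iff₀ hKD]
    have h8 : (8 : ℝ) ^ D.card = 2 ^ D.card * 2 ^ D.card * 2 ^ D.card := by
      rw [← mul_pow, ← mul_pow]; norm_num
    calc ((piece T D).card : ℝ) * (K : ℝ) ^ P.card * 2 ^ s * (K : ℝ) ^ D.card
        ≤ (2 ^ D.card * B) * (K : ℝ) ^ P.card * (2 ^ (s - D.card) * 2 ^ D.card) *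
          (K : ℝ) ^ D.card := by gcongr
      _ = (2 ^ D.card * 2 ^ D.card) * ((B : ℝ) * K ^ (P.card + D.card) * 2 ^ (s - D.card)) := by
          rw [pow_add]; ring
      _ ≤ (2 ^ D.card * 2 ^ D.card) * ((K : ℝ) ^ Fintype.card G * (2 ^ D.card * r T)) := by gcongr
      _ = _ := by rw [h8]; ring
  have hsumr : ∑ T, r T ≤ (univ.filter R).card := by
    rw [← card_biUnion]
    · apply card_le_card
      intro β h
      simp only [mem_biUnion, mem_univ, true_and, mem_filter] at h ⊢
      obtain ⟨T, h, -⟩ := h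
      exact h
    · intro T _ T' _ hne
      rw [Function.onFun, Finset.disjoint_left]
      intro β h h'
      simp only [mem_filter, mem_univ, true_and] at h h'
      apply hne
      apply rank_inj
      exact le_antisymm (h.2.2.2 T' h'.2.1 h'.2.2.1) (h'.2.2.2 T h.2.1 h.2.2.1)
  have hcard : ((badSet f s P R).card : ℝ) ≤ ∑ T : Finset (G × Fin K) × (G × Fin K → Bool),
      ∑ D ∈ T.1.powerset.filter (fun D => D.Nonempty), ((piece T D).card : ℝ) := by
    have := (card_le_card hsub).trans (card_biUnion_le.trans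
      (Finset.sum_le_sum fun T _ => card_biUnion_le))
    exact_mod_cast this
  have hT : ∀ T : Finset (G × Fin K) × (G × Fin K → Bool),
      (∑ D ∈ T.1.powerset.filter (fun D => D.Nonempty), ((piece T D).card : ℝ)) *
        (K : ℝ) ^ P.card * 2 ^ s ≤ (K : ℝ) ^ Fintype.card G * r T := by
    intro T
    by_cases hterm : T.1.card ≤ w
    · rw [Finset.sum_mul, Finset.sum_mul]
      calc _ ≤ ∑ D ∈ T.1.powerset.filter (fun D => D.Nonempty),
            (K : ℝ) ^ Fintype.card G * r T * (8 / K) ^ D.card :=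
            Finset.sum_le_sum fun D hD => hpiece T D (mem_filter.1 hD).2
        _ = (K : ℝ) ^ Fintype.card G * r T *
            ∑ D ∈ T.1.powerset.filter (fun D => D.Nonempty), (8 / (K : ℝ)) ^ D.card := by
            rw [Finset.mul_sum]
        _ ≤ (K : ℝ) ^ Fintype.card G * r T * 1 := by
            gcongr; exact pow_sum_le _ hterm hK hK0
        _ = _ := by ring
    · have hr : r T = 0 := by
        simp only [r, card_eq_zero, filter_eq_empty_iff, mem_univ, true_implies]
        intro β h; exact hterm h.2.1.1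
      rw [Finset.sum_mul, Finset.sum_mul]
      calc _ ≤ ∑ D ∈ T.1.powerset.filter (fun D => D.Nonempty),
            (K : ℝ) ^ Fintype.card G * r T * (8 / K) ^ D.card :=
            Finset.sum_le_sum fun D hD => hpiece T D (mem_filter.1 hD).2
        _ = _ := by simp [hr]
  calc ((badSet f s P R).card : ℝ) * (K : ℝ) ^ P.card * 2 ^ s
      ≤ (∑ T : Finset (G × Fin K) × (G × Fin K → Bool),
        ∑ D ∈ T.1.powerset.filter (fun D => D.Nonempty), ((piece T D).card : ℝ)) *
        (K : ℝ) ^ P.card * 2 ^ s := by gcongr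
    _ = ∑ T : Finset (G × Fin K) × (G × Fin K → Bool),
        (∑ D ∈ T.1.powerset.filter (fun D => D.Nonempty), ((piece T D).card : ℝ)) *
        (K : ℝ) ^ P.card * 2 ^ s := by rw [Finset.sum_mul, Finset.sum_mul]
    _ ≤ ∑ T : Finset (G × Fin K) × (G × Fin K → Bool), (K : ℝ) ^ Fintype.card G * r T :=
        Finset.sum_le_sum fun T _ => hT T
    _ = (K : ℝ) ^ Fintype.card G * ((∑ T, r T : ℕ) : ℝ) := by
        rw [← Finset.mul_sum]; push_cast; rfl
    _ ≤ _ := by gcongr

/-- The switching lemma for one star per block, with a union bound. -/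
theorem switch_family {J : Type} [Fintype J] (f : J → (G × Fin K → Bool) → Prop) {w s : ℕ}
    (hf : ∀ j, Cert1 w (f j)) (hK : 16 * w ≤ K) (hK0 : 0 < K) (hJ : Fintype.card J < 2 ^ s) :
    ∃ (k : G → Fin K) (α : G × Fin K → Bool), ∀ j, ¬ Bad (f j) s ∅ k α := by
  by_contra hcon
  push Not at hcon
  have hKr : (0 : ℝ) < K := by exact_mod_cast hK0
  have hsub : (univ : Finset ((G → Fin K) × (G × Fin K → Bool))) ⊆
      univ.biUnion fun j => badSet (f j) s ∅ (fun _ => True) := by
    intro ka _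
    obtain ⟨j, hj⟩ := hcon ka.1 ka.2
    simp only [mem_biUnion, mem_univ, true_and, badSet, mem_filter]
    exact ⟨j, by simp, hj, by simp⟩
  have h1 := (card_le_card hsub).trans card_biUnion_le
  set tot : ℝ := (K : ℝ) ^ Fintype.card G * (univ : Finset (G × Fin K → Bool)).card with htot
  have h2 : ∀ j, ((badSet (f j) s ∅ (fun _ => True)).card : ℝ) * 2 ^ s ≤ tot := by
    intro j
    have := switch_aux (hf j) hK hK0 s ∅ (fun _ => True)
    simpa [htot] using this
  have h3 : ((univ : Finset ((G → Fin K) × (G × Fin K → Bool))).card : ℝ) = tot := by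
    simp [htot, Fintype.card_prod]
  have hpos : 0 < tot := by
    rw [htot]; have : 0 < (univ : Finset (G × Fin K → Bool)).card := card_pos.2 univ_nonempty
    positivity
  have h4 : tot * 2 ^ s ≤ Fintype.card J * tot := by
    calc tot * 2 ^ s ≤ (∑ j, ((badSet (f j) s ∅ (fun _ => True)).card : ℝ)) * 2 ^ s := by
          rw [← h3]; gcongr; exact_mod_cast h1
      _ = ∑ j, ((badSet (f j) s ∅ (fun _ => True)).card : ℝ) * 2 ^ s := by rw [Finset.sum_mul]
      _ ≤ ∑ _j : J, tot := Finset.sum_le_sum fun j _ => h2 j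
      _ = _ := by simp
  have h5 : (Fintype.card J : ℝ) < 2 ^ s := by exact_mod_cast hJ
  nlinarith

end Switching

end Pool.Agent.P.MP_b53add_lc
end

-- part Pool.Agent.P.MP_b53add_lc.Round
section

set_option autoImplicit false

namespace Pool.Agent.P.MP_b53add_lc

open Finset Classical

/-- every output coordinate depends on at most one input coordinate -/
def Proj {X Y : Type} (ρ : (X → Bool) → (Y → Bool)) : Prop :=
  ∀ q : Y, ∃ S : Finset X, S.card ≤ 1 ∧ ∀ y y', (∀ i ∈ S, y' i = y i) → ρ y' q = ρ y q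

theorem proj_pull {X Y : Type} {ρ : (X → Bool) → (Y → Bool)} (hρ : Proj ρ) (S : Finset Y) :
    ∃ S' : Finset X, S'.card ≤ S.card ∧
      ∀ y y', (∀ i ∈ S', y' i = y i) → ∀ q ∈ S, ρ y' q = ρ y q := by
  choose T hT hT' using hρ
  refine ⟨S.biUnion T, ?_, ?_⟩
  · refine card_biUnion_le.trans ?_
    have := Finset.sum_le_card_nsmul S (fun q => (T q).card) 1 (fun q _ => hT q)
    simpa using this
  · intro y y' h q hq
    exact hT' q y y' (fun i hi => h i (mem_biUnion.2 ⟨q, hq, hi⟩))

theorem Cert.comp {X Y : Type} {ρ : (X → Bool) → (Y → Bool)} (hρ : Proj ρ) {w : ℕ}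
    {f : (Y → Bool) → Prop} (hf : Cert w f) : Cert w (fun y => f (ρ y)) := by
  intro y
  obtain ⟨S, hS, h⟩ := hf (ρ y)
  obtain ⟨S', hS', h'⟩ := proj_pull hρ S
  exact ⟨S', hS'.trans hS, fun y' hy' => h _ (h' y y' hy')⟩

theorem Cert1.comp {X Y : Type} {ρ : (X → Bool) → (Y → Bool)} (hρ : Proj ρ) {w : ℕ}
    {f : (Y → Bool) → Prop} (hf : Cert1 w f) : Cert1 w (fun y => f (ρ y)) := by
  intro y hy
  obtain ⟨S, hS, h⟩ := hf (ρ y) hy
  obtain ⟨S', hS', h'⟩ := proj_pull hρ S
  exact ⟨S', hS'.trans hS, fun y' hy' => h _ (h' y y' hy')⟩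

theorem Cert.mono {X : Type} {w w' : ℕ} (h : w ≤ w') {f : (X → Bool) → Prop} (hf : Cert w f) :
    Cert w' f := fun y => by
  obtain ⟨S, hS, h'⟩ := hf y
  exact ⟨S, hS.trans h, h'⟩

theorem Cert.not {X : Type} {w : ℕ} {f : (X → Bool) → Prop} (hf : Cert w f) :
    Cert w (fun y => ¬ f y) := fun y => by
  obtain ⟨S, hS, h'⟩ := hf y
  exact ⟨S, hS, fun y' hy' => not_congr (h' y' hy')⟩

theorem Cert.congr {X : Type} {w : ℕ} {f g : (X → Bool) → Prop} (hf : Cert w f)
    (h : ∀ y, g y ↔ f y) : Cert w g := by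
  have : g = f := funext fun y => propext (h y)
  rwa [this]

theorem Cert1.congr {X : Type} {w : ℕ} {f g : (X → Bool) → Prop} (hf : Cert1 w f)
    (h : ∀ y, g y ↔ f y) : Cert1 w g := by
  have : g = f := funext fun y => propext (h y)
  rwa [this]

theorem Cert.cert1 {X : Type} {w : ℕ} {f : (X → Bool) → Prop} (hf : Cert w f) : Cert1 w f :=
  fun y hy => by
    obtain ⟨S, hS, h'⟩ := hf y
    exact ⟨S, hS, fun y' hy' => (h' y' hy').2 hy⟩

/-- a function that is a union of functions with small positive certificates -/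
theorem cert1_of_cover {X : Type} {w : ℕ} {f : (X → Bool) → Prop}
    (h : ∀ y, f y → ∃ g : (X → Bool) → Prop, Cert1 w g ∧ g y ∧ ∀ y', g y' → f y') :
    Cert1 w f := fun y hy => by
  obtain ⟨g, hg, hgy, hgf⟩ := h y hy
  obtain ⟨S, hS, h'⟩ := hg y hgy
  exact ⟨S, hS, fun y' hy' => hgf y' (h' y' hy')⟩

def b2z (b : Bool) : ZMod 2 := if b then 1 else 0

theorem b2z_xor (a b : Bool) : b2z (xor a b) = b2z a + b2z b := by
  cases a <;> cases b <;> decide

theorem b2z_surj (z : ZMod 2) : ∃ b, b2z b = z := by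
  revert z; decide

theorem b2z_eq_one (b : Bool) : b2z b = 1 ↔ b = true := by
  cases b <;> decide

theorem round {G J : Type} [Fintype G] [Fintype J] {K w t : ℕ}
    (f : J → (G × Fin K → Bool) → Prop)
    (hf : ∀ j, Cert1 w (f j) ∨ Cert1 w (fun y => ¬ f j y)) (hK : 16 * w ≤ K) (hK0 : 0 < K)
    (hJ : Fintype.card J < 2 ^ (t + 1)) :
    ∃ ρ : (G → Bool) → (G × Fin K → Bool), Proj ρ ∧
      (∀ y g, ∑ j, b2z (ρ y (g, j)) = b2z (y g)) ∧ ∀ j, Cert t (fun y => f j (ρ y)) := by
  let f' : J → (G × Fin K → Bool) → Prop := fun j =>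
    if Cert1 w (f j) then f j else fun y => ¬ f j y
  have hf' : ∀ j, Cert1 w (f' j) := by
    intro j
    by_cases h : Cert1 w (f j)
    · simpa [f', h] using h
    · simpa [f', h] using (hf j).resolve_left h
  obtain ⟨k, α, hk⟩ := switch_family f' hf' hK hK0 hJ
  choose c hc using fun g : G => b2z_surj (∑ j ∈ univ.erase (k g), b2z (α (g, j)))
  let ρ : (G → Bool) → (G × Fin K → Bool) := fun y p =>
    if k p.1 = p.2 then xor (y p.1) (c p.1) else α p
  have hsim : ∀ y, Sim k ∅ α (ρ y) := by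
    intro y p hp
    have : k p.1 ≠ p.2 := by simpa using hp
    simp [ρ, this]
  refine ⟨ρ, ?_, ?_, ?_⟩
  · intro q
    refine ⟨{q.1}, by simp, fun y y' h => ?_⟩
    have := h q.1 (by simp)
    simp [ρ, this]
  · intro y g
    rw [← Finset.add_sum_erase univ _ (mem_univ (k g))]
    have h1 : ∑ j ∈ univ.erase (k g), b2z (ρ y (g, j)) = ∑ j ∈ univ.erase (k g), b2z (α (g, j)) := by
      apply Finset.sum_congr rfl
      intro j hj
      have : k g ≠ j := fun h => (mem_erase.1 hj).1 h.symm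
      simp [ρ, this]
    rw [h1, ← hc g]
    simp only [ρ, if_true, b2z_xor]
    rw [add_assoc, CharTwo.add_self_eq_zero, add_zero]
  · intro j
    have hc' : Cert t (fun y => f' j (ρ y)) := by
      intro y
      have hb := hk j
      unfold Bad at hb
      push Not at hb
      obtain ⟨S, hS, h⟩ := hb (ρ y) (hsim y)
      refine ⟨S.image Prod.fst, card_image_le.trans (by omega), fun y' hy' => ?_⟩
      apply h (ρ y') (hsim y')
      intro p hp
      have := hy' p.1 (mem_image_of_mem _ hp)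
      simp [ρ, this]
    by_cases h : Cert1 w (f j)
    · simpa [f', h] using hc'
    · have := hc'.not
      simpa [f', h] using this

/-! ### limits -/

/-- rejected inputs have small certificates valid for all larger inputs -/
def UCert {X : Type} (w : ℕ) (h : (X → Bool) → Prop) : Prop :=
  ∀ y, ¬ h y → ∃ S : Finset X, S.card ≤ w ∧
    ∀ y', (∀ i, y i = true → y' i = true) → (∀ i ∈ S, y' i = y i) → ¬ h y'

theorem ucert_of_cert1 {X : Type} {w : ℕ} {h : (X → Bool) → Prop}
    (hh : Cert1 w (fun y => ¬ h y)) : UCert w h := fun y hy => by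
  obtain ⟨S, hS, h'⟩ := hh y hy
  exact ⟨S, hS, fun y' _ hy' => h' y' hy'⟩

/-- `h` is a union of members of the pool that have property `Z` -/
def Sig {X Pl : Type} (Z : Pl → Prop) (pool : Pl → (X → Bool) → Prop)
    (h : (X → Bool) → Prop) : Prop :=
  ∀ y, h y → ∃ q, Z q ∧ pool q y ∧ ∀ y', pool q y' → h y'

theorem limit_one {R T : Type} [Fintype R] [Fintype T] {w : ℕ} {g : (R × T → Bool) → Prop}
    (hg : UCert w g) (hle : ∀ y, g y → ∀ i, ∃ j, y (i, j) = true) (u : ℕ) :
    ∀ (Y : Finset (R × T)) (A : Finset (R → T)), Y.card + u = Fintype.card R →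
      (∀ J ∈ A, g (fun p => decide (J p.1 = p.2)) ∧ ∀ p ∈ Y, J p.1 = p.2) → A.card ≤ w ^ u := by
  induction u with
  | zero =>
    intro Y A hY hA
    rw [pow_zero, card_le_one]
    intro J hJ J' hJ'
    have hinj : Set.InjOn Prod.fst (Y : Set (R × T)) := by
      intro p hp q hq hpq
      have h1 := (hA J hJ).2 p hp
      have h2 := (hA J hJ).2 q hq
      ext
      · exact hpq
      · rw [← h1, ← h2, hpq]
    have hc : (Y.image Prod.fst).card = Fintype.card R := by
      rw [card_image_of_injOn hinj]; omega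
    have hu : Y.image Prod.fst = univ := eq_univ_of_card _ hc
    funext i
    have : i ∈ Y.image Prod.fst := by rw [hu]; exact mem_univ _
    obtain ⟨p, hp, rfl⟩ := mem_image.1 this
    rw [(hA J hJ).2 p hp, (hA J' hJ').2 p hp]
  | succ u ih =>
    intro Y A hY hA
    have hneg : ¬ g (fun p => decide (p ∈ Y)) := by
      intro hgy
      have h1 := hle _ hgy
      have hu : Y.image Prod.fst = univ := by
        apply eq_univ_of_forall
        intro i
        obtain ⟨j, hj⟩ := h1 i
        exact mem_image.2 ⟨(i, j), by simpa using hj, rfl⟩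
      have h2 : (Y.image Prod.fst).card ≤ Y.card := card_image_le
      rw [hu, card_univ] at h2
      omega
    obtain ⟨S, hS, hS'⟩ := hg _ hneg
    have hsub : A ⊆ (S.filter fun p => p ∉ Y).biUnion fun p => A.filter fun J => J p.1 = p.2 := by
      intro J hJ
      by_contra hcon
      simp only [mem_biUnion, mem_filter, not_exists, not_and, and_imp] at hcon
      apply hS' (fun p => decide (J p.1 = p.2)) _ _ (hA J hJ).1
      · intro p hp
        simpa using (hA J hJ).2 p (by simpa using hp)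
      · intro p hp
        by_cases hpY : p ∈ Y
        · simpa [hpY] using (hA J hJ).2 p hpY
        · simpa [hpY] using hcon p hp hpY hJ
    refine (card_le_card hsub).trans (card_biUnion_le.trans ?_)
    have h1 := Finset.sum_le_card_nsmul (S.filter fun p => p ∉ Y)
      (fun p => (A.filter fun J => J p.1 = p.2).card) (w ^ u) (by
        intro p hp
        have hpY : p ∉ Y := (mem_filter.1 hp).2
        apply ih (Y.cons p hpY)
        · rw [card_cons]; omega
        · intro J hJ
          obtain ⟨hJA, hJp⟩ := mem_filter.1 hJ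
          refine ⟨(hA J hJA).1, fun q hq => ?_⟩
          rcases mem_cons.1 hq with rfl | hq
          · exact hJp
          · exact (hA J hJA).2 q hq)
    refine h1.trans ?_
    rw [smul_eq_mul, pow_succ, mul_comm]
    exact Nat.mul_le_mul_left _ ((card_filter_le _ _).trans hS)

theorem limit {R T Pl : Type} [Fintype R] [Fintype T] [Fintype Pl] {w : ℕ}
    {pool : Pl → (R × T → Bool) → Prop}
    (h : Sig (fun q => UCert w (pool q)) pool (fun y => ∀ i, ∃ j, y (i, j) = true)) :
    Fintype.card T ^ Fintype.card R ≤ Fintype.card Pl * w ^ Fintype.card R := by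
  let A : Pl → Finset (R → T) := fun q => univ.filter fun J =>
    (UCert w (pool q) ∧ ∀ y, pool q y → ∀ i, ∃ j, y (i, j) = true) ∧
      pool q (fun p => decide (J p.1 = p.2))
  have hsub : (univ : Finset (R → T)) ⊆ univ.biUnion A := by
    intro J _
    obtain ⟨q, h1, h2, h3⟩ := h (fun p => decide (J p.1 = p.2)) (fun i => ⟨J i, by simp⟩)
    exact mem_biUnion.2 ⟨q, mem_univ _, by simp only [A, mem_filter, mem_univ, true_and]; exact ⟨⟨h1, h3⟩, h2⟩⟩
  have h1 := (card_le_card hsub).trans card_biUnion_le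
  rw [card_univ, Fintype.card_fun] at h1
  refine h1.trans ?_
  have := Finset.sum_le_card_nsmul univ (fun q => (A q).card) (w ^ Fintype.card R) (by
    intro q _
    rcases (A q).eq_empty_or_nonempty with he | ⟨J, hJ⟩
    · rw [he]; simp
    · have hq := (mem_filter.1 hJ).2.1
      apply limit_one hq.1 hq.2 _ ∅ (A q) (by simp)
      intro J' hJ'
      exact ⟨(mem_filter.1 hJ').2.2, by simp⟩)
  simpa using this

end Pool.Agent.P.MP_b53add_lc
end

-- part Pool.Agent.P.MP_b53add_lc.Circuit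
section

set_option autoImplicit false

namespace Pool.Agent.P.MP_b53add_lc

open Finset Classical

structure Circ (I : Type) where
  m : ℕ
  kind : Fin m → Fin 3
  inp : Fin m → Finset I
  prd : Fin m → Finset (Fin m)
  acyc : ∀ j, ∀ k ∈ prd j, k < j
  fan : ∀ j, kind j = 2 → (inp j).card + (prd j).card = 1

variable {I : Type}

def Circ.Eqn (C : Circ I) (ξ : I → Prop) (g : Fin C.m → Prop) (j : Fin C.m) : Prop :=
  (C.kind j = 0 → (g j ↔ (∃ i ∈ C.inp j, ξ i) ∨ ∃ k ∈ C.prd j, g k)) ∧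
  (C.kind j = 1 → (g j ↔ (∀ i ∈ C.inp j, ξ i) ∧ ∀ k ∈ C.prd j, g k)) ∧
  (C.kind j = 2 → (g j ↔ ¬ ((∀ i ∈ C.inp j, ξ i) ∧ ∀ k ∈ C.prd j, g k)))

def Circ.Sem (C : Circ I) (ξ : I → Prop) (g : Fin C.m → Prop) : Prop := ∀ j, C.Eqn ξ g j

theorem fin3_cases (a : Fin 3) : a = 0 ∨ a = 1 ∨ a = 2 := by
  revert a; decide

theorem Circ.Eqn.congr {C : Circ I} {ξ : I → Prop} {g g' : Fin C.m → Prop} {j : Fin C.m}
    (h : C.Eqn ξ g j) (hj : g' j ↔ g j) (hk : ∀ k ∈ C.prd j, (g' k ↔ g k)) : C.Eqn ξ g' j := by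
  have e1 : (∃ k ∈ C.prd j, g' k) ↔ ∃ k ∈ C.prd j, g k :=
    ⟨fun ⟨k, a, b⟩ => ⟨k, a, (hk k a).1 b⟩, fun ⟨k, a, b⟩ => ⟨k, a, (hk k a).2 b⟩⟩
  have e2 : (∀ k ∈ C.prd j, g' k) ↔ ∀ k ∈ C.prd j, g k :=
    ⟨fun a k b => (hk k b).1 (a k b), fun a k b => (hk k b).2 (a k b)⟩
  unfold Circ.Eqn at h ⊢
  rw [e1, e2, hj]
  exact h

theorem Circ.exists_sem (C : Circ I) (ξ : I → Prop) : ∃ g, C.Sem ξ g := by
  have : ∀ r : ℕ, ∃ g : Fin C.m → Prop, ∀ j : Fin C.m, j.val < r → C.Eqn ξ g j := by
    intro r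
    induction r with
    | zero => exact ⟨fun _ => True, fun j hj => absurd hj (by omega)⟩
    | succ r ih =>
      obtain ⟨g, hg⟩ := ih
      let g' : Fin C.m → Prop := fun j => if j.val = r then
        (if C.kind j = 0 then (∃ i ∈ C.inp j, ξ i) ∨ ∃ k ∈ C.prd j, g k
        else if C.kind j = 1 then (∀ i ∈ C.inp j, ξ i) ∧ ∀ k ∈ C.prd j, g k
        else ¬ ((∀ i ∈ C.inp j, ξ i) ∧ ∀ k ∈ C.prd j, g k)) else g j
      have hlow : ∀ j : Fin C.m, j.val ≤ r → ∀ k ∈ C.prd j, (g' k ↔ g k) := by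
        intro j hj k hk
        have := C.acyc j k hk
        have h2 : k.val ≠ r := by have : k.val < j.val := this; omega
        simp [g', h2]
      refine ⟨g', fun j hj => ?_⟩
      by_cases hr : j.val = r
      · have e1 : (∃ k ∈ C.prd j, g' k) ↔ ∃ k ∈ C.prd j, g k :=
          ⟨fun ⟨k, a, b⟩ => ⟨k, a, (hlow j hr.le k a).1 b⟩,
            fun ⟨k, a, b⟩ => ⟨k, a, (hlow j hr.le k a).2 b⟩⟩
        have e2 : (∀ k ∈ C.prd j, g' k) ↔ ∀ k ∈ C.prd j, g k :=
          ⟨fun a k b => (hlow j hr.le k b).1 (a k b), fun a k b => (hlow j hr.le k b).2 (a k b)⟩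
        unfold Circ.Eqn
        rw [e1, e2]
        refine ⟨fun h => ?_, fun h => ?_, fun h => ?_⟩
        · simp only [g', hr, if_true, h]
        · simp only [g', hr, if_true, h]; simp
        · simp only [g', hr, if_true, h]; simp
      · exact (hg j (by omega)).congr (by simp [g', hr]) (hlow j (by omega))
  obtain ⟨g, hg⟩ := this C.m
  exact ⟨g, fun j => hg j j.2⟩

theorem Circ.sem_unique {C : Circ I} {ξ : I → Prop} {g g' : Fin C.m → Prop} (h : C.Sem ξ g)
    (h' : C.Sem ξ g') (j : Fin C.m) : g' j ↔ g j := by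
  induction j using (wellFounded_lt (α := Fin C.m)).induction with
  | _ j ih =>
  have hk : ∀ k ∈ C.prd j, (g' k ↔ g k) := fun k hk => ih k (C.acyc j k hk)
  have e1 : (∃ k ∈ C.prd j, g' k) ↔ ∃ k ∈ C.prd j, g k :=
    ⟨fun ⟨k, a, b⟩ => ⟨k, a, (hk k a).1 b⟩, fun ⟨k, a, b⟩ => ⟨k, a, (hk k a).2 b⟩⟩
  have e2 : (∀ k ∈ C.prd j, g' k) ↔ ∀ k ∈ C.prd j, g k :=
    ⟨fun a k b => (hk k b).1 (a k b), fun a k b => (hk k b).2 (a k b)⟩
  obtain ⟨a0, a1, a2⟩ := h j
  obtain ⟨b0, b1, b2⟩ := h' j
  rcases fin3_cases (C.kind j) with hc | hc | hc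
  · rw [a0 hc, b0 hc, e1]
  · rw [a1 hc, b1 hc, e2]
  · rw [a2 hc, b2 hc, e2]

/-- nodes: inputs and gates -/
def Circ.Child (C : Circ I) (j : Fin C.m) : I ⊕ Fin C.m → Prop
  | Sum.inl i => i ∈ C.inp j
  | Sum.inr k => k ∈ C.prd j

theorem Circ.Sem.ex {C : Circ I} {ξ : I → Prop} {g : Fin C.m → Prop} (h : C.Sem ξ g)
    {j : Fin C.m} (hj : C.kind j = 0) : g j ↔ ∃ u, C.Child j u ∧ Sum.elim ξ g u := by
  rw [(h j).1 hj]; simp [Circ.Child]

theorem Circ.Sem.all {C : Circ I} {ξ : I → Prop} {g : Fin C.m → Prop} (h : C.Sem ξ g)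
    {j : Fin C.m} (hj : C.kind j = 1) : g j ↔ ∀ u, C.Child j u → Sum.elim ξ g u := by
  rw [(h j).2.1 hj]; simp [Circ.Child]

theorem Circ.neg_child (C : Circ I) {j : Fin C.m} (hj : C.kind j = 2) :
    ∃ u, C.Child j u ∧ ∀ (ξ : I → Prop) (g : Fin C.m → Prop), C.Sem ξ g →
      (g j ↔ ¬ Sum.elim ξ g u) := by
  have hf := C.fan j hj
  rcases Nat.eq_zero_or_pos (C.inp j).card with h0 | h0
  · obtain ⟨k, hk⟩ := card_eq_one.1 (by omega : (C.prd j).card = 1)
    have hi : C.inp j = ∅ := card_eq_zero.1 h0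
    refine ⟨Sum.inr k, by simp [Circ.Child, hk], fun ξ g h => ?_⟩
    rw [(h j).2.2 hj, hi, hk]; simp
  · obtain ⟨i, hi⟩ := card_eq_one.1 (by omega : (C.inp j).card = 1)
    have hk : C.prd j = ∅ := card_eq_zero.1 (by omega)
    refine ⟨Sum.inl i, by simp [Circ.Child, hi], fun ξ g h => ?_⟩
    rw [(h j).2.2 hj, hi, hk]; simp

/-- the circuit with AND and OR exchanged -/
def Circ.dual (C : Circ I) : Circ I where
  m := C.m
  kind := fun j => if C.kind j = 0 then 1 else if C.kind j = 1 then 0 else 2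
  inp := C.inp
  prd := C.prd
  acyc := C.acyc
  fan := fun j hj => C.fan j (by
    rcases fin3_cases (C.kind j) with h | h | h
    · simp [h] at hj
    · simp [h] at hj
    · exact h)

theorem Circ.Sem.dual {C : Circ I} {ξ : I → Prop} {g : Fin C.m → Prop} (h : C.Sem ξ g) :
    C.dual.Sem (fun i => ¬ ξ i) (fun j => ¬ g j) := by
  intro j
  obtain ⟨a0, a1, a2⟩ := h j
  rcases fin3_cases (C.kind j) with hc | hc | hc
  · refine ⟨fun h => ?_, fun _ => ?_, fun h => ?_⟩
    · simp [Circ.dual, hc] at h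
    · change ¬ g j ↔ (∀ i ∈ C.inp j, ¬ ξ i) ∧ ∀ k ∈ C.prd j, ¬ g k
      rw [a0 hc]; push Not; rfl
    · simp [Circ.dual, hc] at h
  · refine ⟨fun _ => ?_, fun h => ?_, fun h => ?_⟩
    · change ¬ g j ↔ (∃ i ∈ C.inp j, ¬ ξ i) ∨ ∃ k ∈ C.prd j, ¬ g k
      rw [a1 hc, not_and_or]; push Not; rfl
    · simp [Circ.dual, hc] at h
    · simp [Circ.dual, hc] at h
  · refine ⟨fun h => ?_, fun h => ?_, fun _ => ?_⟩
    · simp [Circ.dual, hc] at h
    · simp [Circ.dual, hc] at h
    · change ¬ g j ↔ ¬ ((∀ i ∈ C.inp j, ¬ ξ i) ∧ ∀ k ∈ C.prd j, ¬ g k)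
      have hf := C.fan j hc
      rw [a2 hc]
      rcases Nat.eq_zero_or_pos (C.inp j).card with h0 | h0
      · obtain ⟨k, hk⟩ := card_eq_one.1 (by omega : (C.prd j).card = 1)
        have hi : C.inp j = ∅ := card_eq_zero.1 h0
        rw [hi, hk]; simp
      · obtain ⟨i, hi⟩ := card_eq_one.1 (by omega : (C.inp j).card = 1)
        have hk : C.prd j = ∅ := card_eq_zero.1 (by omega)
        rw [hi, hk]; simp

/-- signed nodes -/
def sv {X : Type} {m : ℕ} (ξ : (X → Bool) → I → Prop) (G : (X → Bool) → Fin m → Prop)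
    (q : (I ⊕ Fin m) × Bool) (y : X → Bool) : Prop :=
  if q.2 = true then Sum.elim (ξ y) (G y) q.1 else ¬ Sum.elim (ξ y) (G y) q.1

theorem sv_true {X : Type} {m : ℕ} (ξ : (X → Bool) → I → Prop) (G : (X → Bool) → Fin m → Prop)
    (u : I ⊕ Fin m) (y : X → Bool) : sv ξ G (u, true) y ↔ Sum.elim (ξ y) (G y) u := by
  simp [sv]

theorem sv_false {X : Type} {m : ℕ} (ξ : (X → Bool) → I → Prop) (G : (X → Bool) → Fin m → Prop)
    (u : I ⊕ Fin m) (y : X → Bool) : sv ξ G (u, false) y ↔ ¬ Sum.elim (ξ y) (G y) u := by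
  simp [sv]

theorem Sig.self {X Pl : Type} {Z : Pl → Prop} {pool : Pl → (X → Bool) → Prop} {q : Pl}
    (hq : Z q) {h : (X → Bool) → Prop} (hh : ∀ y, h y ↔ pool q y) : Sig Z pool h :=
  fun y hy => ⟨q, hq, (hh y).1 hy, fun y' h' => (hh y').2 h'⟩

theorem Sig.cover {X Pl : Type} {Z : Pl → Prop} {pool : Pl → (X → Bool) → Prop}
    {h : (X → Bool) → Prop}
    (hh : ∀ y, h y → ∃ g : (X → Bool) → Prop, Sig Z pool g ∧ g y ∧ ∀ y', g y' → h y') :
    Sig Z pool h := fun y hy => by
  obtain ⟨g, hg, hgy, hgh⟩ := hh y hy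
  obtain ⟨q, h1, h2, h3⟩ := hg y hgy
  exact ⟨q, h1, h2, fun y' h' => hgh y' (h3 y' h')⟩

theorem Sig.congr {X Pl : Type} {Z : Pl → Prop} {pool : Pl → (X → Bool) → Prop}
    {h h' : (X → Bool) → Prop} (hh : Sig Z pool h) (e : ∀ y, h' y ↔ h y) : Sig Z pool h' := by
  have : h' = h := funext fun y => propext (e y)
  rwa [this]

/-! ### depth counted without the NOT gates -/

/-- level function that ignores NOT gates -/
def Circ.FreeLvl (C : Circ I) (lvl : Fin C.m → ℕ) : Prop :=
  (∀ j, C.kind j ≠ 2 → 1 ≤ lvl j) ∧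
    ∀ j, ∀ k ∈ C.prd j, lvl k + (if C.kind j = 2 then 0 else 1) ≤ lvl j

def Circ.Inv (C : Circ I) (lvl : Fin C.m → ℕ) {X : Type} (ξ : (X → Bool) → I → Prop)
    (G : (X → Bool) → Fin C.m → Prop) (a w : ℕ) : Prop :=
  (∀ y, C.Sem (ξ y) (G y)) ∧ (∀ i, Cert w (fun y => ξ y i)) ∧
    ∀ j, lvl j ≤ a → Cert w (fun y => G y j)

section Free

variable {C : Circ I} {lvl : Fin C.m → ℕ} {X : Type} {ξ : (X → Bool) → I → Prop}
  {G : (X → Bool) → Fin C.m → Prop}

theorem inv_zero (hl : C.FreeLvl lvl) {w : ℕ} (hs : ∀ y, C.Sem (ξ y) (G y))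
    (hi : ∀ i, Cert w (fun y => ξ y i)) : C.Inv lvl ξ G 0 w := by
  refine ⟨hs, hi, fun j => ?_⟩
  induction j using (wellFounded_lt (α := Fin C.m)).induction with
  | _ j ih =>
  intro hj
  have h2 : C.kind j = 2 := by
    by_contra h; have := hl.1 j h; omega
  obtain ⟨u, hu, hu'⟩ := C.neg_child h2
  rcases u with i | k
  · exact (hi i).not.congr fun y => hu' _ _ (hs y)
  · have := hl.2 j k hu
    exact (ih k (C.acyc j k hu) (by omega)).not.congr fun y => hu' _ _ (hs y)

theorem child_cert (hl : C.FreeLvl lvl) {a w : ℕ} (h : C.Inv lvl ξ G a w) {j : Fin C.m}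
    (hj : lvl j ≤ a + 1) (h2 : C.kind j ≠ 2) {u : I ⊕ Fin C.m} (hu : C.Child j u) :
    Cert w (fun y => Sum.elim (ξ y) (G y) u) := by
  rcases u with i | k
  · exact h.2.1 i
  · have := hl.2 j k hu
    rw [if_neg h2] at this
    exact h.2.2 k (by omega)

theorem next_level (hl : C.FreeLvl lvl) {a w : ℕ} (h : C.Inv lvl ξ G a w) (j : Fin C.m) :
    lvl j ≤ a + 1 → Cert1 w (fun y => G y j) ∨ Cert1 w (fun y => ¬ G y j) := by
  induction j using (wellFounded_lt (α := Fin C.m)).induction with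
  | _ j ih =>
  intro hj
  rcases fin3_cases (C.kind j) with hc | hc | hc
  · left
    apply cert1_of_cover
    intro y hy
    obtain ⟨u, hu, hu'⟩ := ((h.1 y).ex hc).1 hy
    exact ⟨_, (child_cert hl h hj (by simp [hc]) hu).cert1, hu',
      fun y' h' => ((h.1 y').ex hc).2 ⟨u, hu, h'⟩⟩
  · right
    apply cert1_of_cover
    intro y hy
    rw [(h.1 y).all hc] at hy
    push Not at hy
    obtain ⟨u, hu, hu'⟩ := hy
    exact ⟨_, (child_cert hl h hj (by simp [hc]) hu).not.cert1, hu',
      fun y' h' h'' => h' (((h.1 y').all hc).1 h'' u hu)⟩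
  · obtain ⟨u, hu, hu'⟩ := C.neg_child hc
    rcases u with i | k
    · left
      exact ((h.2.1 i).not.congr fun y => hu' _ _ (h.1 y)).cert1
    · have := hl.2 j k hu
      rcases ih k (C.acyc j k hu) (by omega) with h1 | h1
      · right
        exact h1.congr fun y => by rw [hu' _ _ (h.1 y)]; simp
      · left
        exact h1.congr fun y => hu' _ _ (h.1 y)

theorem sig_next (hl : C.FreeLvl lvl) {a w : ℕ} (h : C.Inv lvl ξ G a w) (j : Fin C.m) :
    lvl j ≤ a + 1 → ∀ b, Sig (fun q => Cert1 w (fun y => ¬ sv ξ G q y)) (sv ξ G)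
      (sv ξ G (Sum.inr j, b)) := by
  induction j using (wellFounded_lt (α := Fin C.m)).induction with
  | _ j ih =>
  intro hj b
  rcases fin3_cases (C.kind j) with hc | hc | hc
  · cases b
    · refine Sig.self (q := (Sum.inr j, false)) ?_ (fun y => Iff.rfl)
      apply cert1_of_cover
      intro y hy
      simp only [sv_false, not_not, Sum.elim_inr] at hy ⊢
      obtain ⟨u, hu, hu'⟩ := ((h.1 y).ex hc).1 hy
      exact ⟨_, (child_cert hl h hj (by simp [hc]) hu).cert1, hu',
        fun y' h' => ((h.1 y').ex hc).2 ⟨u, hu, h'⟩⟩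
    · intro y hy
      simp only [sv_true, Sum.elim_inr] at hy ⊢
      obtain ⟨u, hu, hu'⟩ := ((h.1 y).ex hc).1 hy
      refine ⟨(u, true), ?_, by simpa [sv_true] using hu', fun y' h' => ?_⟩
      · simp only [sv_true]
        exact (child_cert hl h hj (by simp [hc]) hu).not.cert1
      · exact ((h.1 y').ex hc).2 ⟨u, hu, by simpa [sv_true] using h'⟩
  · cases b
    · intro y hy
      simp only [sv_false, Sum.elim_inr] at hy ⊢
      rw [(h.1 y).all hc] at hy
      push Not at hy
      obtain ⟨u, hu, hu'⟩ := hy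
      refine ⟨(u, false), ?_, by simpa [sv_false] using hu', fun y' h' h'' => ?_⟩
      · simp only [sv_false]
        exact (child_cert hl h hj (by simp [hc]) hu).not.not.cert1
      · rw [sv_false] at h'
        exact h' (((h.1 y').all hc).1 h'' u hu)
    · refine Sig.self (q := (Sum.inr j, true)) ?_ (fun y => Iff.rfl)
      apply cert1_of_cover
      intro y hy
      simp only [sv_true, Sum.elim_inr] at hy ⊢
      rw [(h.1 y).all hc] at hy
      push Not at hy
      obtain ⟨u, hu, hu'⟩ := hy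
      exact ⟨_, (child_cert hl h hj (by simp [hc]) hu).not.cert1, hu',
        fun y' h' h'' => h' (((h.1 y').all hc).1 h'' u hu)⟩
  · obtain ⟨u, hu, hu'⟩ := C.neg_child hc
    rcases u with i | k
    · refine Sig.self (q := (Sum.inr j, b)) ?_ (fun y => Iff.rfl)
      have h1 : Cert w (fun y => G y j) := (h.2.1 i).not.congr fun y => hu' _ _ (h.1 y)
      cases b
      · simp only [sv_false]; exact h1.not.not.cert1
      · simp only [sv_true]; exact h1.not.cert1
    · have := hl.2 j k hu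
      refine (ih k (C.acyc j k hu) (by omega) (!b)).congr fun y => ?_
      have := hu' _ _ (h.1 y)
      cases b
      · simp only [sv_false, Bool.not_false, sv_true, Sum.elim_inr] at this ⊢
        rw [this]; simp
      · simp only [sv_false, Bool.not_true, sv_true, Sum.elim_inr] at this ⊢
        exact this

theorem sig_top (hl : C.FreeLvl lvl) {a w : ℕ} (h : C.Inv lvl ξ G a w) (j : Fin C.m) :
    lvl j ≤ a + 2 → ∃ b, Sig (fun q => Cert1 w (fun y => ¬ sv ξ G q y)) (sv ξ G)
      (sv ξ G (Sum.inr j, b)) := by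
  have hinp : ∀ i b, Sig (fun q => Cert1 w (fun y => ¬ sv ξ G q y)) (sv ξ G)
      (sv ξ G (Sum.inl i, b)) := by
    intro i b
    refine Sig.self (q := (Sum.inl i, b)) ?_ (fun y => Iff.rfl)
    cases b
    · simp only [sv_false]; exact (h.2.1 i).not.not.cert1
    · simp only [sv_true]; exact (h.2.1 i).not.cert1
  induction j using (wellFounded_lt (α := Fin C.m)).induction with
  | _ j ih =>
  intro hj
  have hch : C.kind j ≠ 2 → ∀ u, C.Child j u → ∀ b,
      Sig (fun q => Cert1 w (fun y => ¬ sv ξ G q y)) (sv ξ G) (sv ξ G (u, b)) := by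
    intro h2 u hu b
    rcases u with i | k
    · exact hinp i b
    · have := hl.2 j k hu
      rw [if_neg h2] at this
      exact sig_next hl h k (by omega) b
  rcases fin3_cases (C.kind j) with hc | hc | hc
  · refine ⟨true, Sig.cover fun y hy => ?_⟩
    simp only [sv_true, Sum.elim_inr] at hy ⊢
    obtain ⟨u, hu, hu'⟩ := ((h.1 y).ex hc).1 hy
    refine ⟨_, hch (by simp [hc]) u hu true, by simpa [sv_true] using hu', fun y' h' => ?_⟩
    exact ((h.1 y').ex hc).2 ⟨u, hu, by simpa [sv_true] using h'⟩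
  · refine ⟨false, Sig.cover fun y hy => ?_⟩
    simp only [sv_false, Sum.elim_inr] at hy ⊢
    rw [(h.1 y).all hc] at hy
    push Not at hy
    obtain ⟨u, hu, hu'⟩ := hy
    refine ⟨_, hch (by simp [hc]) u hu false, by simpa [sv_false] using hu', fun y' h' h'' => ?_⟩
    rw [sv_false] at h'
    exact h' (((h.1 y').all hc).1 h'' u hu)
  · obtain ⟨u, hu, hu'⟩ := C.neg_child hc
    rcases u with i | k
    · refine ⟨false, (hinp i true).congr fun y => ?_⟩
      simp only [sv_false, sv_true, Sum.elim_inr]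
      rw [hu' _ _ (h.1 y)]; simp
    · have := hl.2 j k hu
      obtain ⟨b, hb⟩ := ih k (C.acyc j k hu) (by omega)
      refine ⟨!b, hb.congr fun y => ?_⟩
      have := hu' _ _ (h.1 y)
      cases b
      · simp only [sv_false, Bool.not_false, sv_true, Sum.elim_inr] at this ⊢
        exact this
      · simp only [sv_false, Bool.not_true, sv_true, Sum.elim_inr] at this ⊢
        rw [this]; simp

end Free

/-- after a suitable projection that keeps block parities, more levels have small certificates -/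
def Circ.Red (C : Circ I) (lvl : Fin C.m → ℕ) (P : Type) [Fintype P] (a w a' w' : ℕ) : Prop :=
  ∀ (L : Type) [Fintype L] (ξ : (L × P → Bool) → I → Prop)
    (G : (L × P → Bool) → Fin C.m → Prop), C.Inv lvl ξ G a w →
    ∃ ρ : (L → Bool) → (L × P → Bool), (∀ y l, ∑ p, b2z (ρ y (l, p)) = b2z (y l)) ∧
      C.Inv lvl (fun y => ξ (ρ y)) (fun y => G (ρ y)) a' w'

theorem red_one {C : Circ I} {lvl : Fin C.m → ℕ} (hl : C.FreeLvl lvl) {a w t K : ℕ}
    (hK : 16 * w ≤ K) (hK0 : 0 < K) (hw : w ≤ t) (hm : C.m < 2 ^ (t + 1)) :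
    C.Red lvl (Fin K) a w (a + 1) t := by
  intro L _ ξ G h
  obtain ⟨ρ, hρ, hpar, hc⟩ := round (J := {j : Fin C.m // lvl j ≤ a + 1}) (t := t)
    (fun j y => G y j.1) (fun j => next_level hl h j.1 j.2) hK hK0
    (lt_of_le_of_lt (by simpa using Fintype.card_subtype_le (fun j : Fin C.m => lvl j ≤ a + 1)) hm)
  exact ⟨ρ, hpar, fun y => h.1 _, fun i => ((h.2.1 i).comp hρ).mono hw, fun j hj => hc ⟨j, hj⟩⟩

theorem red_comp {C : Circ I} {lvl : Fin C.m → ℕ} {P P' : Type} [Fintype P] [Fintype P']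
    {a w a' w' a'' w'' : ℕ} (h1 : C.Red lvl P a w a' w') (h2 : C.Red lvl P' a' w' a'' w'') :
    C.Red lvl (P' × P) a w a'' w'' := by
  intro L _ ξ G h
  let τ : ((L × P') × P → Bool) → (L × (P' × P) → Bool) := fun z q => z ((q.1, q.2.1), q.2.2)
  have hτ : Proj τ := fun q => ⟨{((q.1, q.2.1), q.2.2)}, by simp, fun y y' h => h _ (by simp)⟩
  obtain ⟨ρ1, hp1, hi1⟩ := h1 (L × P') (fun z => ξ (τ z)) (fun z => G (τ z))
    ⟨fun y => h.1 _, fun i => (h.2.1 i).comp hτ, fun j hj => (h.2.2 j hj).comp hτ⟩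
  obtain ⟨ρ2, hp2, hi2⟩ := h2 L _ _ hi1
  refine ⟨fun y => τ (ρ1 (ρ2 y)), fun y l => ?_, hi2⟩
  rw [Fintype.sum_prod_type, ← hp2 y l]
  exact Finset.sum_congr rfl fun p' _ => hp1 (ρ2 y) (l, p')

theorem red_many {C : Circ I} {lvl : Fin C.m → ℕ} (hl : C.FreeLvl lvl) {t : ℕ} (ht : 1 ≤ t)
    (hm : C.m < 2 ^ (t + 1)) (r : ℕ) :
    ∃ (P : Type) (_ : Fintype P), Fintype.card P = 16 * (16 * t) ^ r ∧
      C.Red lvl P 0 1 (r + 1) t := by
  induction r with
  | zero => exact ⟨Fin 16, inferInstance, by simp, red_one hl (by norm_num) (by norm_num) ht hm⟩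
  | succ r ih =>
    obtain ⟨P, _, hP, h⟩ := ih
    refine ⟨Fin (16 * t) × P, inferInstance, by simp [hP]; ring, ?_⟩
    exact red_comp h (red_one hl le_rfl (by omega) le_rfl hm)

/-- core of the bound for depth `r + 3` -/
theorem free_core [Fintype I] {C : Circ I} {lvl : Fin C.m → ℕ} (hl : C.FreeLvl lvl) {t r : ℕ}
    {P : Type} [Fintype P] (hP : C.Red lvl P 0 1 (r + 1) t) (T : Type) [Fintype T] [Nonempty T]
    (ξ : ((T × T × T) × P → Bool) → I → Prop) (G : ((T × T × T) × P → Bool) → Fin C.m → Prop)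
    (hs : ∀ y, C.Sem (ξ y) (G y)) (hi : ∀ i, Cert 1 (fun y => ξ y i)) (o : Fin C.m)
    (ho : lvl o ≤ r + 3)
    (hG : ∀ z, G z o ↔ ∃ i, ∀ j, ∃ k, ∑ p, b2z (z ((i, j, k), p)) = 1) :
    Fintype.card T ^ Fintype.card T ≤ (Fintype.card I + C.m) * 2 * t ^ Fintype.card T := by
  obtain ⟨ρ, hpar, hinv⟩ := hP _ ξ G (inv_zero hl hs hi)
  obtain ⟨b, hb⟩ := sig_top hl hinv o (by omega)
  obtain ⟨t0⟩ := ‹Nonempty T›
  have hval : ∀ y, G (ρ y) o ↔ ∃ i, ∀ j, ∃ k, y (i, j, k) = true := by
    intro y; rw [hG]; simp only [hpar, b2z_eq_one]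
  have fin : ∀ σ : (T × T → Bool) → (T × T × T → Bool), Proj σ →
      (∀ y, sv (fun y => ξ (ρ y)) (fun y => G (ρ y)) (Sum.inr o, b) (σ y) ↔
        ∀ i, ∃ j, y (i, j) = true) →
      Fintype.card T ^ Fintype.card T ≤ (Fintype.card I + C.m) * 2 * t ^ Fintype.card T := by
    intro σ hσ hv
    have := limit (R := T) (T := T) (w := t)
      (pool := fun q y => sv (fun y => ξ (ρ y)) (fun y => G (ρ y)) q (σ y)) (by
        intro y hy
        obtain ⟨q, h1, h2, h3⟩ := hb (σ y) ((hv y).2 hy)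
        exact ⟨q, ucert_of_cert1 (h1.comp hσ), h2, fun y' h' => (hv y').1 (h3 _ h')⟩)
    simpa [Fintype.card_prod, Fintype.card_sum] using this
  cases b
  · apply fin (fun y q => if q.2.2 = t0 then !y (q.1, q.2.1) else false)
    · intro q
      refine ⟨{(q.1, q.2.1)}, by simp, fun y y' h => ?_⟩
      have := h (q.1, q.2.1) (by simp)
      simp [this]
    · intro y
      simp only [sv_false, Sum.elim_inr, hval]
      push Not
      refine forall_congr' fun i => exists_congr fun j => ⟨fun h => ?_, fun h k => ?_⟩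
      · simpa using h t0
      · by_cases hk : k = t0 <;> simp [hk, h]
  · apply fin (fun y q => if q.1 = t0 then y (q.2.1, q.2.2) else false)
    · intro q
      refine ⟨{(q.2.1, q.2.2)}, by simp, fun y y' h => ?_⟩
      have := h (q.2.1, q.2.2) (by simp)
      simp [this]
    · intro y
      simp only [sv_true, Sum.elim_inr, hval]
      constructor
      · rintro ⟨i, h⟩ j
        obtain ⟨k, hk⟩ := h j
        by_cases hi : i = t0
        · exact ⟨k, by simpa [hi] using hk⟩
        · simp [hi] at hk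
      · intro h
        exact ⟨t0, fun j => by simpa using h j⟩

end Pool.Agent.P.MP_b53add_lc
end
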