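import Mathlib

-- part Pool.Agent.P.MP_b53add_lc.MonoHall
section

set_option autoImplicit false

namespace Pool.Agent.P.MP_b53add_lc.Mono

open Finset Classical

/-- a clause is a triple of literals -/
abbrev Cl (α : Type) := Fin 3 → α × Bool

variable {α : Type} [DecidableEq α]

def Ag (y : α → Bool) (W : Finset (α × Bool)) : Prop := ∀ l ∈ W, y l.1 = l.2

def Sat (y : α → Bool) (c : Cl α) : Prop := ∃ j, y (c j).1 = (c j).2

def cvars (c : Cl α) : Finset α := univ.image fun j => (c j).1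

def vars (K : Finset (Cl α)) : Finset α := K.biUnion cvars

/-- expansion -/
def Exp (r : ℕ) (p : Finset (Cl α)) : Prop :=
  ∀ K ⊆ p, K.card ≤ 2 * r → 3 * K.card ≤ 2 * (vars K).card

/-- local consistency of a set of literals -/
def Al (r : ℕ) (p : Finset (Cl α)) (W : Finset (α × Bool)) : Prop :=
  ∀ K ⊆ p, K.card ≤ r → ∃ y, Ag y W ∧ ∀ c ∈ K, Sat y c

theorem Exp.mono {r : ℕ} {p q : Finset (Cl α)} (h : Exp r p) (hq : q ⊆ p) : Exp r q :=
  fun K hK => h K (hK.trans hq)

theorem mem_cvars (c : Cl α) (j : Fin 3) : (c j).1 ∈ cvars c :=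
  mem_image.2 ⟨j, mem_univ _, rfl⟩

theorem Sat.congr {y y' : α → Bool} {c : Cl α} (h : Sat y c) (e : ∀ v ∈ cvars c, y' v = y v) :
    Sat y' c := by
  obtain ⟨j, hj⟩ := h
  exact ⟨j, (e _ (mem_cvars c j)).trans hj⟩

theorem closure {r : ℕ} {p : Finset (Cl α)} (hp : Exp r p) (W : Finset (α × Bool))
    (hW : 2 * W.card < r) :
    ∃ (S : Finset (Cl α)) (U : Finset α), S ⊆ p ∧ S.card < r ∧ U.card ≤ 3 * W.card ∧
      (∀ l ∈ W, l.1 ∈ U) ∧ (∀ c ∈ S, cvars c ⊆ U) ∧
      ∀ (y0 : α → Bool) (z : α), (∀ c ∈ S, Sat y0 c) → ∀ K ⊆ p, K.card ≤ r →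
        ∃ y : α → Bool, (∀ v ∈ insert z U, y v = y0 v) ∧ ∀ c ∈ K, Sat y c := by
  set D : Finset α := W.image Prod.fst with hD
  have hDc : D.card ≤ W.card := card_image_le
  have small : ∀ K ⊆ p, K.card ≤ 2 * r → (vars K \ D).card ≤ K.card → K.card ≤ 2 * W.card := by
    intro K hK h1 h2
    have h3 := hp K hK h1
    have h4 : (vars K).card ≤ (vars K \ D).card + D.card := card_le_card_sdiff_add_card
    omega
  obtain ⟨S, hS, hmax⟩ := exists_max_image
    (p.powerset.filter fun K => K.card ≤ r ∧ (vars K \ D).card ≤ K.card) card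
    ⟨∅, mem_filter.2 ⟨empty_mem_powerset _, by simp, by simp [vars]⟩⟩
  simp only [mem_filter, mem_powerset] at hS hmax
  obtain ⟨hSp, hSr, hSv⟩ := hS
  have hS2 := small S hSp (by omega) hSv
  refine ⟨S, D ∪ vars S, hSp, by omega, ?_, ?_, ?_, ?_⟩
  · have : (D ∪ vars S).card ≤ D.card + (vars S \ D).card := by
      rw [← union_sdiff_self_eq_union]; exact card_union_le _ _
    omega
  · intro l hl
    exact mem_union_left _ (mem_image.2 ⟨l, hl, rfl⟩)
  · intro c hc v hv
    exact mem_union_right _ (mem_biUnion.2 ⟨c, hc, hv⟩)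
  intro y0 z hy0 K hK hKr
  have hall : ∀ s : Finset {c // c ∈ K \ S},
      s.card ≤ (s.biUnion fun c => cvars c.1 \ insert z (D ∪ vars S)).card := by
    intro s
    by_contra hcon
    push Not at hcon
    set s' : Finset (Cl α) := s.map (Function.Embedding.subtype _) with hs'
    have hc : s'.card = s.card := card_map _
    have hsub : s' ⊆ K \ S := by
      intro c hc
      obtain ⟨d, -, rfl⟩ := mem_map.1 hc
      exact d.2
    have hdis : Disjoint S s' := by
      rw [disjoint_left]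
      intro c h1 h2
      exact (mem_sdiff.1 (hsub h2)).2 h1
    have hcard : (S ∪ s').card = S.card + s.card := by rw [card_union_of_disjoint hdis, hc]
    have hsr : s.card ≤ r := by
      rw [← hc]; exact (card_le_card (hsub.trans sdiff_subset)).trans hKr
    have hvs : vars (S ∪ s') \ D ⊆ (vars S \ D) ∪
        insert z (s.biUnion fun c => cvars c.1 \ insert z (D ∪ vars S)) := by
      intro v hv
      obtain ⟨hv1, hv2⟩ := mem_sdiff.1 hv
      by_cases h1 : v ∈ vars S
      · exact mem_union_left _ (mem_sdiff.2 ⟨h1, hv2⟩)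
      refine mem_union_right _ ?_
      by_cases h2 : v = z
      · exact mem_insert.2 (Or.inl h2)
      refine mem_insert.2 (Or.inr ?_)
      obtain ⟨c, hc1, hc2⟩ := mem_biUnion.1 hv1
      rcases mem_union.1 hc1 with h3 | h3
      · exact absurd (mem_biUnion.2 ⟨c, h3, hc2⟩) h1
      obtain ⟨d, hd, rfl⟩ := mem_map.1 h3
      refine mem_biUnion.2 ⟨d, hd, mem_sdiff.2 ⟨hc2, ?_⟩⟩
      simp only [mem_insert, mem_union, not_or]
      exact ⟨h2, hv2, h1⟩
    have h5 := (card_le_card hvs).trans (card_union_le _ _)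
    have h6 := card_insert_le z (s.biUnion fun c => cvars c.1 \ insert z (D ∪ vars S))
    have hsp : S ∪ s' ⊆ p := union_subset hSp (hsub.trans (sdiff_subset.trans hK))
    have h7 := small (S ∪ s') hsp (by omega) (by omega)
    have h8 := hmax (S ∪ s') ⟨hsp, by omega, by omega⟩
    omega
  obtain ⟨f, hf, hf'⟩ := (all_card_le_biUnion_card_iff_exists_injective _).1 hall
  have hj : ∀ c : {c // c ∈ K \ S}, ∃ j, (c.1 j).1 = f c := by
    intro c
    obtain ⟨j, -, hj⟩ := mem_image.1 (mem_sdiff.1 (hf' c)).1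
    exact ⟨j, hj⟩
  choose j hj using hj
  let y : α → Bool := fun v => if h : ∃ c, f c = v then (h.choose.1 (j h.choose)).2 else y0 v
  have hy : ∀ v ∈ insert z (D ∪ vars S), y v = y0 v := by
    intro v hv
    have : ¬ ∃ c, f c = v := by
      rintro ⟨c, rfl⟩
      exact (mem_sdiff.1 (hf' c)).2 hv
    simp only [y, dif_neg this]
  refine ⟨y, hy, fun c hc => ?_⟩
  by_cases h1 : c ∈ S
  · exact (hy0 c h1).congr fun v hv => hy v
      (mem_insert_of_mem (mem_union_right _ (mem_biUnion.2 ⟨c, h1, hv⟩)))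
  · let d : {c // c ∈ K \ S} := ⟨c, mem_sdiff.2 ⟨hc, h1⟩⟩
    refine ⟨j d, ?_⟩
    have h2 : ∃ e, f e = (c (j d)).1 := ⟨d, (hj d).symm⟩
    have h3 : h2.choose = d := hf (h2.choose_spec.trans (hj d))
    simp only [y, dif_pos h2, h3]
    rfl

/-- an alive set of literals can be extended by a literal of any clause -/
theorem Al.step {r : ℕ} {p : Finset (Cl α)} (hp : Exp r p) {W : Finset (α × Bool)}
    (hW : 2 * W.card < r) (h : Al r p W) {c : Cl α} (hc : c ∈ p) :
    ∃ j, Al r p (insert (c j) W) := by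
  obtain ⟨S, U, hSp, hSr, -, hWU, -, hext⟩ := closure hp W hW
  obtain ⟨y0, hy0, hs⟩ := h (insert c S) (insert_subset hc hSp)
    ((card_insert_le _ _).trans (by omega))
  obtain ⟨j, hj⟩ := hs c (mem_insert_self _ _)
  refine ⟨j, fun K hK hKr => ?_⟩
  obtain ⟨y, hy, hK'⟩ := hext y0 (c j).1 (fun d hd => hs d (mem_insert_of_mem hd)) K hK hKr
  refine ⟨y, fun l hl => ?_, hK'⟩
  rcases mem_insert.1 hl with rfl | hl
  · exact (hy _ (mem_insert_self _ _)).trans hj
  · exact (hy _ (mem_insert_of_mem (hWU l hl))).trans (hy0 l hl)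

/-- a clause that kills an alive set has all its variables in a small set -/
theorem kill {r : ℕ} {p : Finset (Cl α)} (hp : Exp r p) (W : Finset (α × Bool))
    (hW : 2 * W.card < r) (h : Al r p W) :
    ∃ U : Finset α, U.card ≤ 3 * W.card ∧
      ∀ c : Cl α, ¬ Al r (insert c p) W → ∀ j, (c j).1 ∈ U := by
  obtain ⟨S, U, hSp, hSr, hU, hWU, hSU, hext⟩ := closure hp W hW
  refine ⟨U, hU, fun c hc j => ?_⟩
  by_contra hz
  apply hc
  obtain ⟨y0, hy0, hs⟩ := h S hSp hSr.le
  intro K hK hKr
  have hne : ∀ v ∈ U, Function.update y0 (c j).1 (c j).2 v = y0 v := fun v hv =>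
    Function.update_of_ne (fun e : v = (c j).1 => hz (e ▸ hv)) _ _
  obtain ⟨y, hy, hK'⟩ := hext (Function.update y0 (c j).1 (c j).2) (c j).1
    (fun d hd => (hs d hd).congr fun v hv => hne v (hSU d hd hv)) (K.erase c)
    (fun d hd => by
      obtain ⟨h1, h2⟩ := mem_erase.1 hd
      exact (mem_insert.1 (hK h2)).resolve_left h1)
    ((card_le_card (erase_subset _ _)).trans hKr)
  refine ⟨y, fun l hl => ?_, fun d hd => ?_⟩
  · exact (hy _ (mem_insert_of_mem (hWU l hl))).trans ((hne _ (hWU l hl)).trans (hy0 l hl))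
  · by_cases h1 : d = c
    · subst h1
      exact ⟨j, (hy _ (mem_insert_self _ _)).trans (Function.update_self _ _ _)⟩
    · exact hK' d (mem_erase.2 ⟨h1, hd⟩)

theorem al_empty [Nonempty α] {r : ℕ} {p : Finset (Cl α)} (hp : Exp r p) (hr : 0 < r) :
    Al r p ∅ := by
  obtain ⟨S, U, -, -, hU, -, hSU, hext⟩ := closure hp ∅ (by simpa using hr)
  have hU0 : U = ∅ := by simpa using hU
  intro K hK hKr
  obtain ⟨y, -, hy⟩ := hext (fun _ => true) (Classical.arbitrary α) (fun c hc => by
    have := hSU c hc (mem_cvars c 0)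
    simp [hU0] at this) K hK hKr
  exact ⟨y, fun l hl => by simp at hl, hy⟩

/-- the game: the set can be emptied by at most `k` rounds of choosing a clause, the adversary
choosing a literal of it -/
def Q (φ : Finset (Cl α)) : ℕ → Set (α → Bool) → Prop
  | 0, B => B = ∅
  | k + 1, B => B = ∅ ∨ ∃ c ∈ φ, ∀ j, Q φ k (B ∩ {y | y (c j).1 = (c j).2})

theorem Q_realize : True := by have := @Q.eq_def; trivial

omit [DecidableEq α] in
theorem Q_empty (φ : Finset (Cl α)) (k : ℕ) : Q φ k ∅ := by
  cases k with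
  | zero => rfl
  | succ k => exact Or.inl rfl

omit [DecidableEq α] in
theorem Q.mono {φ : Finset (Cl α)} : ∀ {k : ℕ} {B B' : Set (α → Bool)}, Q φ k B → B' ⊆ B →
    Q φ k B'
  | 0, _, _, h, hs => Set.subset_eq_empty hs h
  | _ + 1, _, _, h, hs => by
    rcases h with h | ⟨c, hc, h⟩
    · exact Or.inl (Set.subset_eq_empty hs h)
    · exact Or.inr ⟨c, hc, fun j => (h j).mono (Set.inter_subset_inter_left _ hs)⟩

omit [DecidableEq α] in
theorem Q.succ {φ : Finset (Cl α)} : ∀ {k : ℕ} {B : Set (α → Bool)}, Q φ k B → Q φ (k + 1) B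
  | 0, _, h => Or.inl h
  | _ + 1, _, h => by
    rcases h with h | ⟨c, hc, h⟩
    · exact Or.inl h
    · exact Or.inr ⟨c, hc, fun j => (h j).succ⟩

omit [DecidableEq α] in
theorem Q.le {φ : Finset (Cl α)} {k k' : ℕ} {B : Set (α → Bool)} (h : Q φ k B) (hk : k ≤ k') :
    Q φ k' B := by
  induction hk with
  | refl => exact h
  | step _ ih => exact ih.succ

omit [DecidableEq α] in
theorem Q.union {φ : Finset (Cl α)} {b : ℕ} : ∀ {a : ℕ} {X Y : Set (α → Bool)}, Q φ a X →
    Q φ b Y → Q φ (a + b) (X ∪ Y)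
  | 0, X, Y, h, h' => by
    have : X = ∅ := h
    simpa [this] using h'
  | a + 1, X, Y, h, h' => by
    rcases h with h | ⟨c, hc, h⟩
    · rw [h, Set.empty_union]; exact h'.le (by omega)
    · rw [show a + 1 + b = (a + b) + 1 by omega]
      refine Or.inr ⟨c, hc, fun j => ?_⟩
      rw [Set.union_inter_distrib_right]
      exact (h j).union (h'.mono Set.inter_subset_left)

omit [DecidableEq α] in
theorem Q_fals {φ : Finset (Cl α)} {c : Cl α} (hc : c ∈ φ) : Q φ 1 {y | ¬ Sat y c} := by
  refine Or.inr ⟨c, hc, fun j => ?_⟩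
  change _ = ∅
  ext y
  simp only [Set.mem_inter_iff, Set.mem_ofPred_eq, Set.mem_empty_iff_false, iff_false, not_and]
  exact fun h h' => h ⟨j, h'⟩

theorem not_Q_of_al {r : ℕ} {φ : Finset (Cl α)} (hφ : Exp r φ) : ∀ (k : ℕ)
    (W : Finset (α × Bool)) (B : Set (α → Bool)), 2 * (W.card + k) < r → Al r φ W →
    (∀ y, Ag y W → y ∈ B) → ¬ Q φ k B := by
  intro k
  have hne : ∀ (W : Finset (α × Bool)) (B : Set (α → Bool)), Al r φ W →
      (∀ y, Ag y W → y ∈ B) → B ≠ ∅ := by
    intro W B h hB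
    obtain ⟨y, hy, -⟩ := h ∅ (empty_subset _) (by simp)
    exact Set.Nonempty.ne_empty ⟨y, hB y hy⟩
  induction k with
  | zero => exact fun W B _ h hB => hne W B h hB
  | succ k ih =>
    rintro W B hW h hB (h0 | ⟨c, hc, hq⟩)
    · exact hne W B h hB h0
    obtain ⟨j, hj⟩ := h.step hφ (by omega) hc
    refine ih (insert (c j) W) (B ∩ {y | y (c j).1 = (c j).2}) ?_ hj
      (fun y hy => ⟨hB y fun l hl => hy l (mem_insert_of_mem hl),
        hy _ (mem_insert_self _ _)⟩) (hq j)
    have := card_insert_le (c j) W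
    omega

end Pool.Agent.P.MP_b53add_lc.Mono
end

-- part Pool.Agent.P.MP_b53add_lc.MonoCount
section

set_option autoImplicit false
set_option linter.unusedSectionVars false

namespace Pool.Agent.P.MP_b53add_lc.Mono

open Finset Classical

section General

/-- the number of points with a property -/
noncomputable def cnt {β : Type} [Fintype β] (P : β → Prop) : ℝ := ((univ.filter P).card : ℝ)

theorem cnt_nonneg {β : Type} [Fintype β] (P : β → Prop) : 0 ≤ cnt P := Nat.cast_nonneg _

theorem cnt_eq_sum {β : Type} [Fintype β] (P : β → Prop) :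
    cnt P = ∑ f, if P f then (1 : ℝ) else 0 := by
  rw [← sum_filter, sum_const, nsmul_eq_mul, mul_one, cnt]

theorem cnt_mono {β : Type} [Fintype β] {P R : β → Prop} (h : ∀ f, P f → R f) :
    cnt P ≤ cnt R := by
  unfold cnt
  exact_mod_cast card_le_card fun f hf =>
    mem_filter.2 ⟨mem_univ _, h f (mem_filter.1 hf).2⟩

theorem cnt_le_card {β : Type} [Fintype β] {P : β → Prop} {A : Finset β} (h : ∀ f, P f → f ∈ A) :
    cnt P ≤ A.card := by
  unfold cnt
  exact_mod_cast card_le_card fun f hf => h f (mem_filter.1 hf).2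

theorem card_le_cnt {β : Type} [Fintype β] {P : β → Prop} {A : Finset β} (h : ∀ f ∈ A, P f) :
    (A.card : ℝ) ≤ cnt P := by
  unfold cnt
  exact_mod_cast card_le_card fun f hf => mem_filter.2 ⟨mem_univ _, h f hf⟩

theorem cnt_or {β : Type} [Fintype β] (P R : β → Prop) :
    cnt (fun f => P f ∨ R f) ≤ cnt P + cnt R := by
  rw [cnt_eq_sum, cnt_eq_sum, cnt_eq_sum, ← sum_add_distrib]
  refine sum_le_sum fun f _ => ?_
  by_cases h1 : P f <;> by_cases h2 : R f <;> simp [h1, h2]

theorem cnt_add_not {β : Type} [Fintype β] (P : β → Prop) :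
    cnt P + cnt (fun f => ¬ P f) = Fintype.card β := by
  rw [cnt_eq_sum, cnt_eq_sum, ← sum_add_distrib, ← card_univ, card_eq_sum_ones]
  push_cast
  refine sum_congr rfl fun f _ => ?_
  by_cases h1 : P f <;> simp [h1]

theorem cnt_exists_sum {β γ : Type} [Fintype β] (A : Finset γ) (P : γ → β → Prop)
    (Bad : β → Prop) (h : ∀ f, Bad f → ∃ g ∈ A, P g f) : cnt Bad ≤ ∑ g ∈ A, cnt (P g) := by
  have h1 : univ.filter Bad ⊆ A.biUnion fun g => univ.filter (P g) := by
    intro f hf
    obtain ⟨g, h2, h3⟩ := h f (mem_filter.1 hf).2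
    exact mem_biUnion.2 ⟨g, h2, mem_filter.2 ⟨mem_univ _, h3⟩⟩
  unfold cnt
  exact_mod_cast (card_le_card h1).trans card_biUnion_le

theorem cnt_exists_le {β γ : Type} [Fintype β] [Fintype γ] (R : γ → Prop) (P : γ → β → Prop)
    (Bad : β → Prop) (h : ∀ f, Bad f → ∃ g, R g ∧ P g f) {w : ℝ}
    (hw : ∀ g, R g → cnt (P g) ≤ w) : cnt Bad ≤ cnt R * w := by
  refine (cnt_exists_sum (univ.filter R) P Bad fun f hf => ?_).trans
    ((sum_le_sum fun g hg => hw g (mem_filter.1 hg).2).trans ?_)
  · obtain ⟨g, h2, h3⟩ := h f hf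
    exact ⟨g, mem_filter.2 ⟨mem_univ _, h2⟩, h3⟩
  · rw [sum_const, nsmul_eq_mul, cnt]

theorem exists_not_of_cnt_lt {β : Type} [Fintype β] {P : β → Prop}
    (h : cnt P < Fintype.card β) : ∃ f, ¬ P f := by
  by_contra hc
  push Not at hc
  have := card_le_cnt (A := univ) fun f _ => hc f
  rw [card_univ] at this
  linarith

theorem count_le {β : Type} [Fintype β] (P : Finset β → Prop) {x w : ℝ} (hx : 0 ≤ x)
    (h : ∀ S, P S → w ≤ x ^ S.card) :
    cnt P * w ≤ Real.exp (x * Fintype.card β) := by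
  unfold cnt
  have h1 : ∑ S : Finset β, x ^ S.card = (1 + x) ^ Fintype.card β := by
    have := prod_one_add (f := fun _ : β => x) univ
    simp only [prod_const, card_univ, powerset_univ] at this
    exact this.symm
  calc ((univ.filter P).card : ℝ) * w = ∑ _S ∈ univ.filter P, w := by
        rw [sum_const, nsmul_eq_mul]
    _ ≤ ∑ S ∈ univ.filter P, x ^ S.card := sum_le_sum fun S hS => h S (mem_filter.1 hS).2
    _ ≤ ∑ S : Finset β, x ^ S.card :=
        sum_le_sum_of_subset_of_nonneg (filter_subset _ _) fun _ _ _ => by positivity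
    _ = (1 + x) ^ Fintype.card β := h1
    _ ≤ (Real.exp x) ^ Fintype.card β :=
        pow_le_pow_left₀ (by positivity) (by linarith [Real.add_one_le_exp x]) _
    _ = _ := by rw [← Real.exp_nat_mul, mul_comm]

theorem exp_nat_le (k : ℕ) : Real.exp k ≤ 3 ^ k := by
  rw [← mul_one (k : ℝ), Real.exp_nat_mul]
  exact pow_le_pow_left₀ (by positivity) (by linarith [Real.exp_one_lt_d9]) _

theorem count_small {β : Type} [Fintype β] {T : ℕ} {c : ℝ} (hc : 1 ≤ c)
    (hβ : (Fintype.card β : ℝ) ≤ c * T) (P : Finset β → Prop) (hP : ∀ S, P S → S.card ≤ T) :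
    cnt P ≤ (3 * c) ^ T := by
  have hc0 : 0 < c := by linarith
  have h1 := count_le P (x := c⁻¹) (w := c⁻¹ ^ T) (by positivity) fun S hS =>
    pow_le_pow_of_le_one (by positivity) (inv_le_one_of_one_le₀ hc) (hP S hS)
  have h2 : Real.exp (c⁻¹ * Fintype.card β) ≤ 3 ^ T := by
    refine le_trans (Real.exp_le_exp.2 ?_) (exp_nat_le T)
    rw [inv_mul_le_iff₀ hc0]; exact hβ
  rw [inv_pow, ← div_eq_mul_inv, div_le_iff₀ (by positivity)] at h1
  rw [mul_pow]
  exact h1.trans (mul_le_mul_of_nonneg_right h2 (by positivity))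

theorem sum_cons {β : Type} [Fintype β] {m : ℕ} (g : (Fin (m + 1) → β) → ℝ) :
    ∑ f, g f = ∑ c, ∑ f : Fin m → β, g (Fin.cons c f) := by
  rw [← (Fin.consEquiv fun _ => β).sum_comp, Fintype.sum_prod_type]
  rfl

theorem card_pi_le {β : Type} [Fintype β] [Nonempty β] {m : ℕ} (I : Finset (Fin m)) (A : Finset β)
    (P : (Fin m → β) → Prop) (hP : ∀ f, P f → ∀ i ∈ I, f i ∈ A) :
    cnt P ≤ (Fintype.card β : ℝ) ^ m * ((A.card : ℝ) / Fintype.card β) ^ I.card := by
  unfold cnt
  have hM : (0 : ℝ) < Fintype.card β := by exact_mod_cast Fintype.card_pos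
  have h1 : univ.filter P ⊆ Fintype.piFinset fun i => if i ∈ I then A else univ := by
    intro f hf
    rw [Fintype.mem_piFinset]
    intro i
    split_ifs with h
    · exact hP f (mem_filter.1 hf).2 i h
    · exact mem_univ _
  have h2 := card_le_card h1
  rw [Fintype.card_piFinset] at h2
  have h3 : ((univ.filter P).card : ℝ) ≤
      ∏ i : Fin m, (((if i ∈ I then A else univ).card : ℕ) : ℝ) := by exact_mod_cast h2
  refine h3.trans (le_of_eq ?_)
  have h4 : ∀ i : Fin m, (((if i ∈ I then A else univ).card : ℕ) : ℝ) =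
      (Fintype.card β : ℝ) * (if i ∈ I then (A.card : ℝ) / Fintype.card β else 1) := by
    intro i
    split_ifs
    · field_simp
    · simp
  simp only [h4, prod_mul_distrib, prod_const, card_univ, Fintype.card_fin, prod_ite_mem,
    univ_inter]

end General

variable {α : Type} [DecidableEq α]

/-- no core is alive together with `τ` -/
def Inv (r : ℕ) (core : Finset (α × Bool) → Prop) (p : Finset (Cl α))
    (τ : Finset (α × Bool)) : Prop :=
  ∀ Z, core Z → ¬ Al r p (Z ∪ τ)

theorem Inv.step {r : ℕ} {core : Finset (α × Bool) → Prop} {p : Finset (Cl α)}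
    {τ : Finset (α × Bool)} {c : Cl α} (h : Inv r core (insert c p) τ) (j : Fin 3) :
    Inv r core p (insert (c j) τ) := by
  intro Z hZ hal
  refine h Z hZ fun K hK hKr => ?_
  obtain ⟨y, hy, hs⟩ := hal (K.erase c) (fun d hd => by
      obtain ⟨h1, h2⟩ := mem_erase.1 hd
      exact (mem_insert.1 (hK h2)).resolve_left h1)
    ((card_le_card (erase_subset _ _)).trans hKr)
  refine ⟨y, fun l hl => hy l ?_, fun d hd => ?_⟩
  · rcases mem_union.1 hl with h1 | h1
    · exact mem_union_left _ h1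
    · exact mem_union_right _ (mem_insert_of_mem h1)
  · by_cases h1 : d = c
    · subst h1
      exact ⟨j, hy _ (mem_union_right _ (mem_insert_self _ _))⟩
    · exact hs d (mem_erase.2 ⟨h1, hd⟩)

/-- a pivotal clause -/
def Piv (r : ℕ) (core : Finset (α × Bool) → Prop) (p : Finset (Cl α)) (τ : Finset (α × Bool))
    (c : Cl α) (l : α × Bool) : Prop :=
  Exp r p ∧ (∃ j, c j = l) ∧ ¬ Inv r core p τ ∧ Inv r core (insert c p) τ

theorem piv_card [Fintype α] {r h T : ℕ} {core : Finset (α × Bool) → Prop}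
    (hcore : ∀ Z, core Z → Z.card ≤ h) (hr : 2 * (h + T) < r) (p : Finset (Cl α))
    {τ : Finset (α × Bool)} (hτ : τ.card ≤ T) (l : α × Bool) :
    (univ.filter fun c => Piv r core p τ c l).card ≤ 3 * (6 * (h + T)) ^ 2 := by
  by_cases hp : Exp r p ∧ ¬ Inv r core p τ
  swap
  · rw [filter_eq_empty_iff.2 fun c _ hc => hp ⟨hc.1, hc.2.2.1⟩]; simp
  obtain ⟨hp, hi⟩ := hp
  unfold Inv at hi
  push Not at hi
  obtain ⟨Z, hZ, hal⟩ := hi
  have hc : (Z ∪ τ).card ≤ h + T := (card_union_le _ _).trans (by have := hcore Z hZ; omega)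
  obtain ⟨U, hU, hkill⟩ := kill hp (Z ∪ τ) (by omega) hal
  set A : Finset (α × Bool) := U ×ˢ univ with hA
  have hAc : A.card ≤ 6 * (h + T) := by
    rw [hA, card_product, card_univ, Fintype.card_bool]; omega
  have hsub : (univ.filter fun c => Piv r core p τ c l) ⊆
      univ.biUnion fun j : Fin 3 => Fintype.piFinset fun i => if i = j then {l} else A := by
    intro c hc
    obtain ⟨-, ⟨j, hj⟩, -, h4⟩ := (mem_filter.1 hc).2
    refine mem_biUnion.2 ⟨j, mem_univ _, Fintype.mem_piFinset.2 fun i => ?_⟩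
    split_ifs with h1
    · rw [h1, hj]; exact mem_singleton_self _
    · exact mem_product.2 ⟨hkill c (h4 Z hZ) i, mem_univ _⟩
  refine (card_le_card hsub).trans (card_biUnion_le.trans ?_)
  have h2 : A.card ^ 2 ≤ (6 * (h + T)) ^ 2 := Nat.pow_le_pow_left hAc 2
  simp only [Fintype.card_piFinset, Fin.sum_univ_three, Fin.prod_univ_three]
  simp
  nlinarith

/-- forward exposure of the clauses, the literals of `ρ` being used up by pivots -/
def Fwd (r : ℕ) (core : Finset (α × Bool) → Prop) :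
    List (Cl α) → Finset (Cl α) → Finset (α × Bool) → Prop
  | [], _, ρ => ρ = ∅
  | c :: s, p, ρ => Fwd r core s (insert c p) ρ ∨
      ∃ l ∈ ρ, Piv r core p (ρ.erase l) c l ∧ Fwd r core s (insert c p) (ρ.erase l)

theorem Fwd_realize : True := by have := @Fwd.eq_def; trivial

theorem back {r T : ℕ} {core : Finset (α × Bool) → Prop} {φ : Finset (Cl α)} (hφ : Exp r φ)
    {B : Set (α → Bool)}
    (hE : ∀ τ : Finset (α × Bool), τ.card ≤ T → (∃ y ∈ B, Ag y τ) →
      ∃ Z, core Z ∧ ∃ y, Ag y (Z ∪ τ)) (p : List (Cl α)) :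
    ∀ (s : List (Cl α)) (τ : Finset (α × Bool)) (k : ℕ), p.toFinset ⊆ φ →
      Fwd r core s p.toFinset τ → τ.card + k = T →
      (k = 0 ∨ (Inv r core p.toFinset τ ∧ ¬ Q φ k (B ∩ {y | Ag y τ}))) →
      ∃ ρ : Finset (α × Bool), ρ.card = T ∧ Fwd r core (p ++ s) ∅ ρ := by
  induction p using List.reverseRecOn with
  | nil =>
    intro s τ k _ hf hk h
    rcases h with rfl | ⟨hi, hq⟩
    · exact ⟨τ, hk, hf⟩
    exfalso
    have hne : (B ∩ {y | Ag y τ}).Nonempty := by
      rw [Set.nonempty_iff_ne_empty]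
      intro h0
      exact hq (h0 ▸ Q_empty φ k)
    obtain ⟨y, hy1, hy2⟩ := hne
    obtain ⟨Z, hZ, y', hy'⟩ := hE τ (by omega) ⟨y, hy1, hy2⟩
    refine hi Z hZ fun K hK _ => ⟨y', hy', fun c hc => ?_⟩
    have := hK hc
    simp at this
  | append_singleton p c ih =>
    intro s τ k hp hf hk h
    have e : (p ++ [c]).toFinset = insert c p.toFinset := by
      ext d; simp
    rw [e] at hp hf h
    have hp' : p.toFinset ⊆ φ := (subset_insert _ _).trans hp
    rw [List.append_assoc, List.singleton_append]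
    rcases h with rfl | ⟨hi, hq⟩
    · exact ih (c :: s) τ 0 hp' (Or.inl hf) hk (Or.inl rfl)
    by_cases hi' : Inv r core p.toFinset τ
    · exact ih (c :: s) τ k hp' (Or.inl hf) hk (Or.inr ⟨hi', hq⟩)
    cases k with
    | zero => exact ih (c :: s) τ 0 hp' (Or.inl hf) hk (Or.inl rfl)
    | succ k =>
      have hq' : ∃ j, ¬ Q φ k ((B ∩ {y | Ag y τ}) ∩ {y | y (c j).1 = (c j).2}) := by
        by_contra hcon
        push Not at hcon
        exact hq (Or.inr ⟨c, hp (mem_insert_self _ _), hcon⟩)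
      obtain ⟨j, hj⟩ := hq'
      have hst := hi.step j
      have hn : c j ∉ τ := by
        intro hm
        rw [insert_eq_of_mem hm] at hst
        exact hi' hst
      refine ih (c :: s) (insert (c j) τ) k hp' (Or.inr ⟨c j, mem_insert_self _ _, ?_, ?_⟩) ?_
        (Or.inr ⟨hst, fun h => hj (h.mono ?_)⟩)
      · rw [erase_insert hn]
        exact ⟨hφ.mono hp', ⟨j, rfl⟩, hi', hi⟩
      · rw [erase_insert hn]; exact hf
      · rw [card_insert_of_notMem hn]; omega
      · rintro y ⟨⟨h1, h2⟩, h3⟩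
        refine ⟨h1, fun l hl => ?_⟩
        rcases mem_insert.1 hl with rfl | hl
        · exact h3
        · exact h2 l hl

theorem fwd_count [Fintype α] [Nonempty α] {r h T : ℕ} {core : Finset (α × Bool) → Prop}
    (hcore : ∀ Z, core Z → Z.card ≤ h) (hr : 2 * (h + T) < r) (m : ℕ) :
    ∀ (p : Finset (Cl α)) (ρ : Finset (α × Bool)), ρ.card ≤ T →
      cnt (fun f : Fin m → Cl α => Fwd r core (List.ofFn f) p ρ) ≤
        (Fintype.card (Cl α) : ℝ) ^ m *
          (m * ((3 * (6 * (h + T)) ^ 2 : ℝ) / Fintype.card (Cl α))) ^ ρ.card := by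
  simp only [cnt_eq_sum]
  have hM : (0 : ℝ) < Fintype.card (Cl α) := by exact_mod_cast Fintype.card_pos
  set M : ℝ := (Fintype.card (Cl α) : ℝ) with hMd
  set a : ℝ := 3 * (6 * (h + T)) ^ 2 with ha
  have ha0 : 0 ≤ a := by positivity
  induction m with
  | zero =>
    intro p ρ _
    by_cases h0 : ρ = ∅
    · subst h0; simp [Fwd]
    · simp [Fwd, h0]
  | succ m ih =>
    intro p ρ hρ
    rw [sum_cons]
    have h1 : ∀ c : Cl α, ∑ f : Fin m → Cl α,
        (if Fwd r core (List.ofFn (Fin.cons c f : Fin (m + 1) → Cl α)) p ρ then (1 : ℝ) else 0) ≤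
        M ^ m * (m * (a / M)) ^ ρ.card + ∑ l ∈ ρ, (if Piv r core p (ρ.erase l) c l then
          M ^ m * (m * (a / M)) ^ (ρ.card - 1) else 0) := by
      intro c
      calc _ ≤ ∑ f : Fin m → Cl α,
            ((if Fwd r core (List.ofFn f) (insert c p) ρ then (1 : ℝ) else 0) +
            ∑ l ∈ ρ, (if Piv r core p (ρ.erase l) c l then
              (if Fwd r core (List.ofFn f) (insert c p) (ρ.erase l) then (1 : ℝ) else 0)
              else 0)) := by
            refine sum_le_sum fun f _ => ?_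
            have hnn : ∀ l ∈ ρ, (0 : ℝ) ≤ (if Piv r core p (ρ.erase l) c l then
                (if Fwd r core (List.ofFn f) (insert c p) (ρ.erase l) then (1 : ℝ) else 0)
                else 0) := fun l _ => by split_ifs <;> norm_num
            have hs := sum_nonneg hnn
            rw [List.ofFn_cons]
            split_ifs with h2 h3 h3
            · linarith
            · obtain ⟨l, hl, h4, h5⟩ := Or.resolve_left h2 h3
              have := single_le_sum hnn hl
              simp only [if_pos h4, if_pos h5] at this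
              linarith
            · linarith
            · linarith
        _ ≤ _ := by
            rw [sum_add_distrib, sum_comm]
            refine add_le_add (ih _ _ hρ) (sum_le_sum fun l hl => ?_)
            split_ifs with h2
            · have := ih (insert c p) (ρ.erase l) ((card_erase_le).trans hρ)
              rwa [card_erase_of_mem hl] at this
            · simp
    refine (sum_le_sum fun c _ => h1 c).trans ?_
    rw [sum_add_distrib, sum_comm, sum_const, card_univ, nsmul_eq_mul, ← hMd]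
    have h2 : ∀ l ∈ ρ, ∑ c : Cl α, (if Piv r core p (ρ.erase l) c l then
        M ^ m * (m * (a / M)) ^ (ρ.card - 1) else 0) ≤
        a * (M ^ m * (m * (a / M)) ^ (ρ.card - 1)) := by
      intro l _
      rw [← sum_filter, sum_const, nsmul_eq_mul]
      refine mul_le_mul_of_nonneg_right ?_ (by positivity)
      rw [ha]
      exact_mod_cast piv_card hcore hr p ((card_erase_le).trans hρ) l
    have h3 := sum_le_sum h2
    rw [sum_const, nsmul_eq_mul] at h3
    have h4 := pow_add_mul_le_add_pow (a := m * (a / M)) (b := a / M) (by positivity)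
      (by positivity) ρ.card
    have h5 : (m * (a / M) + a / M) = ((m + 1 : ℕ) : ℝ) * (a / M) := by push_cast; ring
    rw [h5] at h4
    have h6 := mul_le_mul_of_nonneg_left h4 (show 0 ≤ M ^ (m + 1) by positivity)
    refine le_trans ?_ h6
    have h7 : M ^ (m + 1) * ((m * (a / M)) ^ ρ.card +
        ρ.card * (m * (a / M)) ^ (ρ.card - 1) * (a / M)) =
        M * (M ^ m * (m * (a / M)) ^ ρ.card) +
          ρ.card * (a * (M ^ m * (m * (a / M)) ^ (ρ.card - 1))) := by
      generalize (m * (a / M)) ^ (ρ.card - 1) = u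
      generalize (m * (a / M)) ^ ρ.card = v
      field_simp
      ring
    rw [h7]
    linarith

end Pool.Agent.P.MP_b53add_lc.Mono
end
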