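import Pool.Agent.K.MP_b53add_lc.C8
import Pool.Agent.K.MP_b53add_lc.C9

set_option autoImplicit false
set_option linter.unusedSectionVars false

namespace Pool.Agent.P.MP_b53add_lc.Sp

open Finset Classical Mono

variable {A Θ : Type} [Fintype A] [DecidableEq A] [Fintype Θ]

/-- pseudo-randomness of a sparse family of triples -/
structure Good (tr : Θ → Fin 3 → A) (lam : ℝ) : Prop where
  g2 : ∀ (S : Finset (Fin 3 × A)) (x : ℝ), (S.card : ℝ) ≤ x * Fintype.card A → ∀ i j, i ≠ j →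
    cnt (fun θ => (i, tr θ i) ∈ S ∧ (j, tr θ j) ∈ S) ≤ Fintype.card Θ * (2 * x * (x + lam))
  g3 : ∀ (S : Finset (Fin 3 × A)) (x : ℝ), (S.card : ℝ) ≤ x * Fintype.card A →
    cnt (fun θ => ∀ i, (i, tr θ i) ∈ S) ≤ Fintype.card Θ * (2 * x * (x ^ 2 + lam ^ 2))

variable {tr : Θ → Fin 3 → A}

theorem cnt_par (P : Θ → Prop) (Q : Θ × (Fin 3 → Bool) → Prop) (h : ∀ θ, Q θ → P θ.1) {w : ℝ}
    (hw : cnt P ≤ Fintype.card Θ * w) : cnt Q ≤ Fintype.card (Θ × (Fin 3 → Bool)) * w := by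
  refine (cnt_mono h).trans ((RealC.cnt_fst (γ := Fin 3 → Bool) P).le.trans ?_)
  rw [RealC.card_par]
  simp only [Fintype.card_fun, Fintype.card_bool, Fintype.card_fin]
  push_cast
  linarith

theorem Good.in3 {lam : ℝ} (H : Good tr lam) (S : Finset (Fin 3 × A)) (x : ℝ)
    (hS : (S.card : ℝ) ≤ x * Fintype.card A) :
    cnt (fun θ => ∀ i, (RealC.cl tr θ i).1 ∈ S) ≤
      Fintype.card (Θ × (Fin 3 → Bool)) * (2 * x * (x ^ 2 + lam ^ 2)) :=
  cnt_par _ _ (fun _ h => h) (H.g3 S x hS)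

theorem Good.pl (H : Good tr (1 / 10 ^ 25)) {T : ℕ} (hT : 1 ≤ T)
    (hA : 10 ^ 18 * T ≤ Fintype.card A) :
    Pl (RealC.cl tr) T (Fintype.card (Θ × (Fin 3 → Bool)) * (4 / 10 ^ 24 / Fintype.card A))
      (Fintype.card (Θ × (Fin 3 → Bool)) * (1 / 10 ^ 48)) := by
  have hT0 : (0 : ℝ) < T := by exact_mod_cast hT
  have hn : (10 : ℝ) ^ 18 * T ≤ Fintype.card A := by exact_mod_cast hA
  have hn0 : (0 : ℝ) < Fintype.card A := lt_of_lt_of_le (by positivity) hn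
  have hM : (0 : ℝ) ≤ Fintype.card (Θ × (Fin 3 → Bool)) := Nat.cast_nonneg _
  refine ⟨fun U S hU => ?_, fun X hX => ?_⟩
  · obtain ⟨x, hx⟩ : ∃ x : ℝ, x = S.card / Fintype.card A := ⟨_, rfl⟩
    have hx0 : 0 ≤ x := by rw [hx]; positivity
    have hx1 : x * Fintype.card A = S.card := by rw [hx]; field_simp
    have e1 : (Fintype.card (Θ × (Fin 3 → Bool)) : ℝ) * (4 / 10 ^ 24 / Fintype.card A) * S.card =
        Fintype.card (Θ × (Fin 3 → Bool)) * (4 / 10 ^ 24 * x) := by rw [hx]; ring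
    rw [e1]
    by_cases h : x ≤ 2 / 10 ^ 25
    · have h1 : ((S.image Prod.fst).card : ℝ) ≤ x * Fintype.card A := by
        rw [hx1]; exact_mod_cast card_image_le
      have h2 := cnt_exists_le (fun q : Fin 3 × Fin 3 => q.1 ≠ q.2)
        (fun q θ => RealC.cl tr θ q.1 ∈ S ∧ RealC.cl tr θ q.2 ∈ S)
        (fun θ => (∀ i, (RealC.cl tr θ i).1 ∈ U) ∧
          ∃ i i', i ≠ i' ∧ RealC.cl tr θ i ∈ S ∧ RealC.cl tr θ i' ∈ S)
        (fun θ ⟨_, i, i', a1, a2⟩ => ⟨(i, i'), a1, a2⟩) fun q hq =>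
          cnt_par _ _ (fun θ a => ⟨mem_image_of_mem Prod.fst a.1, mem_image_of_mem Prod.fst a.2⟩)
            (H.g2 _ x h1 q.1 q.2 hq)
      have h3 : cnt (fun q : Fin 3 × Fin 3 => q.1 ≠ q.2) ≤ 6 := by
        refine (cnt_le_card (A := univ.filter fun q : Fin 3 × Fin 3 => q.1 ≠ q.2) fun q hq =>
          mem_filter.2 ⟨mem_univ _, hq⟩).trans (le_of_eq ?_)
        norm_cast
      refine h2.trans ((mul_le_mul_of_nonneg_right h3 (by positivity)).trans ?_)
      rw [mul_left_comm]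
      refine mul_le_mul_of_nonneg_left ?_ hM
      nlinarith
    · have h1 : (U.card : ℝ) ≤ 30 * T := by exact_mod_cast hU
      refine (cnt_mono fun θ a => a.1).trans ((H.in3 U (30 / 10 ^ 18) (by linarith)).trans ?_)
      refine mul_le_mul_of_nonneg_left ?_ hM
      push Not at h
      norm_num at h ⊢
      linarith
  · have h1 : ((X.image Prod.fst).card : ℝ) ≤ 67 * T := by exact_mod_cast card_image_le.trans hX
    refine (cnt_mono fun θ a i => mem_image_of_mem Prod.fst (a i)).trans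
      ((H.in3 _ (67 / 10 ^ 18) (by linarith)).trans ?_)
    exact mul_le_mul_of_nonneg_left (by norm_num) hM

theorem exp_k [Nonempty Θ] (H : Good tr (1 / 10 ^ 25)) {m k : ℕ} (hm : m = 18 * Fintype.card A)
    (hk : 1 ≤ k) (h1 : 10 ^ 16 * k ≤ Fintype.card A) (h2 : Fintype.card A ≤ 10 ^ 22 * k) :
    cnt (fun f : Fin m → Θ × (Fin 3 → Bool) => ∃ I : Finset (Fin m), I.card = k ∧
      ∃ S : Finset (Fin 3 × A), 2 * S.card ≤ 3 * k ∧ ∀ i ∈ I, ∀ j, (RealC.cl tr (f i) j).1 ∈ S) ≤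
      (Fintype.card (Θ × (Fin 3 → Bool)) : ℝ) ^ m * (1 / 100) ^ k := by
  have hk0 : (0 : ℝ) < k := by exact_mod_cast hk
  have hn : (10 : ℝ) ^ 16 * k ≤ Fintype.card A := by exact_mod_cast h1
  have hn' : (Fintype.card A : ℝ) ≤ 10 ^ 22 * k := by exact_mod_cast h2
  have hn0 : (0 : ℝ) < Fintype.card A := lt_of_lt_of_le (by positivity) hn
  have hM : (0 : ℝ) < Fintype.card (Θ × (Fin 3 → Bool)) := by exact_mod_cast Fintype.card_pos
  obtain ⟨y, hy0, hy2, hy1⟩ : ∃ y : ℝ, 0 < y ∧ y ^ 2 * Fintype.card A = k ∧ y ≤ 1 / 10 ^ 8 := by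
    refine ⟨Real.sqrt (k / Fintype.card A), Real.sqrt_pos.2 (by positivity), ?_, ?_⟩
    · rw [Real.sq_sqrt (by positivity)]; field_simp
    · refine Real.sqrt_le_iff.2 ⟨by norm_num, ?_⟩
      rw [div_le_iff₀ hn0]
      linarith
  have hy3 : (1 : ℝ) / 10 ^ 25 ≤ 3 / 2 * y ^ 2 := by
    refine le_of_mul_le_mul_right ?_ hn0
    rw [mul_assoc, hy2]
    linarith
  have hS : cnt (fun S : Finset (Fin 3 × A) => 2 * S.card ≤ 3 * k) ≤ (27 / y ^ 3) ^ k := by
    have h1 := count_le (fun S : Finset (Fin 3 × A) => 2 * S.card ≤ 3 * k) (x := y ^ 2)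
      (w := y ^ (3 * k)) (by positivity) fun S hS => by
        rw [← pow_mul]
        exact pow_le_pow_of_le_one hy0.le (by linarith) hS
    have e1 : y ^ 2 * (Fintype.card (Fin 3 × A) : ℝ) = (3 * k : ℕ) := by
      rw [Fintype.card_prod, Fintype.card_fin]; push_cast; linarith
    rw [e1] at h1
    rw [div_pow, le_div_iff₀ (by positivity), ← pow_mul]
    refine h1.trans ((exp_nat_le _).trans (le_of_eq ?_))
    rw [pow_mul]; norm_num
  have hI : cnt (fun I : Finset (Fin m) => I.card = k) ≤ (3 * (18 / y ^ 2)) ^ k := by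
    refine count_small ?_ ?_ _ fun S hS => le_of_eq hS
    · rw [le_div_iff₀ (by positivity)]; nlinarith
    · rw [Fintype.card_fin, hm, ← hy2]; push_cast; field_simp; rfl
  have h3 := cnt_exists_le (fun I : Finset (Fin m) => I.card = k)
    (fun I (f : Fin m → Θ × (Fin 3 → Bool)) => ∃ S : Finset (Fin 3 × A), 2 * S.card ≤ 3 * k ∧
      ∀ i ∈ I, ∀ j, (RealC.cl tr (f i) j).1 ∈ S)
    (fun f => ∃ I : Finset (Fin m), I.card = k ∧ ∃ S : Finset (Fin 3 × A), 2 * S.card ≤ 3 * k ∧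
      ∀ i ∈ I, ∀ j, (RealC.cl tr (f i) j).1 ∈ S)
    (w := (27 / y ^ 3) ^ k * ((Fintype.card (Θ × (Fin 3 → Bool)) : ℝ) ^ m *
      (4 * (3 / 2 * y ^ 2) ^ 3) ^ k))
    (fun f hf => hf) (by
      intro I hIk
      have h2 := cnt_exists_le (fun S : Finset (Fin 3 × A) => 2 * S.card ≤ 3 * k)
        (fun S (f : Fin m → Θ × (Fin 3 → Bool)) => ∀ i ∈ I, ∀ j, (RealC.cl tr (f i) j).1 ∈ S)
        (fun f => ∃ S : Finset (Fin 3 × A), 2 * S.card ≤ 3 * k ∧
          ∀ i ∈ I, ∀ j, (RealC.cl tr (f i) j).1 ∈ S)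
        (w := (Fintype.card (Θ × (Fin 3 → Bool)) : ℝ) ^ m * (4 * (3 / 2 * y ^ 2) ^ 3) ^ k)
        (fun f hf => hf) (by
          intro S hS
          have h3 := card_pi_le I (univ.filter fun θ => ∀ j, (RealC.cl tr θ j).1 ∈ S)
            (fun f : Fin m → Θ × (Fin 3 → Bool) => ∀ i ∈ I, ∀ j, (RealC.cl tr (f i) j).1 ∈ S)
            fun f hf i hi => mem_filter.2 ⟨mem_univ _, hf i hi⟩
          rw [hIk] at h3
          refine h3.trans (mul_le_mul_of_nonneg_left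
            (pow_le_pow_left₀ (by positivity) ?_ _) (by positivity))
          have h4 : 2 * (S.card : ℝ) ≤ 3 * k := by exact_mod_cast hS
          have h5 := H.in3 S (3 / 2 * y ^ 2) (by rw [mul_assoc, hy2]; linarith)
          rw [div_le_iff₀' hM]
          refine le_trans (le_of_eq (by unfold cnt; congr)) (h5.trans
            (mul_le_mul_of_nonneg_left ?_ hM.le))
          have h6 := pow_le_pow_left₀ (by norm_num) hy3 2
          have h7 : 0 ≤ 3 / 2 * y ^ 2 := by positivity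
          generalize 3 / 2 * y ^ 2 = w at h6 h7
          nlinarith)
      exact h2.trans (mul_le_mul_of_nonneg_right hS (by positivity)))
  refine h3.trans ((mul_le_mul_of_nonneg_right hI (by positivity)).trans ?_)
  rw [← mul_assoc, mul_left_comm, ← mul_pow, ← mul_pow]
  refine mul_le_mul_of_nonneg_left (pow_le_pow_left₀ (by positivity) ?_ _) (by positivity)
  have : 3 * (18 / y ^ 2) * (27 / y ^ 3) * (4 * (3 / 2 * y ^ 2) ^ 3) = 19683 * y := by
    field_simp; ring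
  rw [this]
  linarith

theorem prune {α : Type} [DecidableEq α] [Fintype α] (cl : Θ → Cl α) {m r k : ℕ} (f : Fin m → Θ)
    (h : ∀ I : Finset (Fin m), k ≤ I.card → I.card ≤ 2 * r + k → ∀ S : Finset α,
      (∀ i ∈ I, ∀ j, (cl (f i) j).1 ∈ S) → 3 * I.card < 2 * S.card) :
    ∃ I : Finset (Fin m), I.card ≤ k ∧ Exp r (build cl ∅ (fun i => i ∉ I) f) := by
  obtain ⟨I, hI, hmax⟩ := exists_max_image (univ.filter fun I : Finset (Fin m) =>
    I.card ≤ 2 * r + k ∧ ∃ S : Finset α, (∀ i ∈ I, ∀ j, (cl (f i) j).1 ∈ S) ∧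
      2 * S.card ≤ 3 * I.card) card ⟨∅, mem_filter.2 ⟨mem_univ _, by simp, ∅, by simp, by simp⟩⟩
  obtain ⟨h1, S, h2, h3⟩ := (mem_filter.1 hI).2
  have h4 : I.card ≤ k := by
    by_contra h4
    have := h I (by omega) h1 S h2
    omega
  refine ⟨I, h4, fun K hK hKr => ?_⟩
  have h5 : ∀ c : K, ∃ i, i ∉ I ∧ cl (f i) = c := fun c => by
    simpa [mem_build] using hK c.2
  choose g hg hg' using h5
  have hinj : Function.Injective g := fun c d e =>
    Subtype.ext ((hg' c).symm.trans ((congrArg (fun i => cl (f i)) e).trans (hg' d)))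
  have h6 : (univ.image g ∪ I).card = K.card + I.card := by
    rw [card_union_of_disjoint, card_image_of_injective _ hinj, card_univ, Fintype.card_coe]
    refine disjoint_left.2 fun i hi => ?_
    obtain ⟨c, -, rfl⟩ := mem_image.1 hi
    exact hg c
  by_contra h7
  have h8 := card_union_le (vars K) S
  have h9 := hmax (univ.image g ∪ I) (mem_filter.2 ⟨mem_univ _, by omega, vars K ∪ S,
    fun i hi j => ?_, by omega⟩)
  · omega
  · rcases mem_union.1 hi with hi | hi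
    · obtain ⟨c, -, rfl⟩ := mem_image.1 hi
      rw [hg' c]
      exact mem_union_left _ (mem_biUnion.2 ⟨c, c.2, mem_cvars _ j⟩)
    · exact mem_union_right _ (h2 i hi j)

theorem sat_mask [Nonempty Θ] (tr : Θ → Fin 3 → A) {m : ℕ} (I : Finset (Fin m))
    (hI : 17 * Fintype.card A ≤ Iᶜ.card) :
    cnt (fun f : Fin m → Θ × (Fin 3 → Bool) => ∃ y, ∀ i ∉ I, Sat y (RealC.cl tr (f i))) ≤
      (Fintype.card (Θ × (Fin 3 → Bool)) : ℝ) ^ m * (5 / 6) ^ Fintype.card A := by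
  have hn0 : (0 : ℝ) < Fintype.card Θ := by exact_mod_cast Fintype.card_pos
  have h1 := cnt_exists_sum univ (fun (y : Fin 3 × A → Bool) (f : Fin m → Θ × (Fin 3 → Bool)) =>
      ∀ i ∉ I, Sat y (RealC.cl tr (f i)))
    (fun f => ∃ y, ∀ i ∉ I, Sat y (RealC.cl tr (f i))) (fun f ⟨y, hy⟩ => ⟨y, mem_univ _, hy⟩)
  have h2 : ∀ y : Fin 3 × A → Bool,
      cnt (fun f : Fin m → Θ × (Fin 3 → Bool) => ∀ i ∉ I, Sat y (RealC.cl tr (f i))) ≤
      (Fintype.card (Θ × (Fin 3 → Bool)) : ℝ) ^ m * (7 / 8) ^ (17 * Fintype.card A) := by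
    intro y
    have h3 := card_pi_le Iᶜ (univ.filter fun θ => Sat y (RealC.cl tr θ))
      (fun f : Fin m → Θ × (Fin 3 → Bool) => ∀ i ∉ I, Sat y (RealC.cl tr (f i)))
      fun f hf i hi => mem_filter.2 ⟨mem_univ _, hf i (mem_compl.1 hi)⟩
    refine h3.trans (mul_le_mul_of_nonneg_left ((pow_le_pow_left₀ (by positivity) ?_ _).trans
      (pow_le_pow_of_le_one (by norm_num) (by norm_num) hI)) (by positivity))
    have h4 := cnt_add_not fun θ => Sat y (RealC.cl tr θ)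
    have h5 := card_le_cnt (P := fun θ => ¬ Sat y (RealC.cl tr θ))
      (A := univ.image fun θ : Θ => (θ, fun j => !y (j, tr θ j))) (by
        rintro c hc ⟨j, hj⟩
        obtain ⟨v, -, rfl⟩ := mem_image.1 hc
        simp [RealC.cl] at hj)
    rw [card_image_of_injective _ (fun a b e => congrArg Prod.fst e), card_univ] at h5
    change cnt (fun θ => Sat y (RealC.cl tr θ)) / _ ≤ _
    rw [RealC.card_par] at h4 ⊢
    rw [div_le_iff₀ (by positivity)]
    linarith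
  refine h1.trans ((sum_le_sum fun y _ => h2 y).trans ?_)
  rw [sum_const, card_univ, nsmul_eq_mul, mul_left_comm]
  refine mul_le_mul_of_nonneg_left ?_ (by positivity)
  rw [Fintype.card_fun, Fintype.card_bool, Fintype.card_prod, Fintype.card_fin]
  push_cast
  rw [pow_mul, pow_mul, ← mul_pow]
  exact pow_le_pow_left₀ (by norm_num) (by norm_num) _

theorem gap_num [Nonempty Θ] (H : Good tr (1 / 10 ^ 25)) {k T m : ℕ} (hk : 1 ≤ k)
    (hT : T = 1000 * k) (hA : 10 ^ 18 * T ≤ Fintype.card A)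
    (hA' : Fintype.card A ≤ 2 * 10 ^ 18 * T) (hm : m = 18 * Fintype.card A)
    {core : ℝ → Finset ((Fin 3 × A) × Bool) → Prop} {B : ℝ → Set (Fin 3 × A → Bool)}
    (hF : Fam T core B) (I : Fin m → Prop) :
    cnt (fun f : Fin m → Θ × (Fin 3 → Bool) => E T core B T (build (RealC.cl tr) ∅ I f) ∅) * 2 ^ T ≤
      (Fintype.card (Θ × (Fin 3 → Bool)) : ℝ) ^ m * (1 / 10 ^ 30) ^ k := by
  have hT0 : (0 : ℝ) < T := by exact_mod_cast (by omega : 0 < T)
  have hn : (10 : ℝ) ^ 18 * T ≤ Fintype.card A := by exact_mod_cast hA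
  have hn' : (Fintype.card A : ℝ) ≤ 2 * 10 ^ 18 * T := by exact_mod_cast hA'
  have hn0 : (0 : ℝ) < Fintype.card A := lt_of_lt_of_le (by positivity) hn
  have hM : (0 : ℝ) ≤ Fintype.card (Θ × (Fin 3 → Bool)) := Nat.cast_nonneg _
  have h1 := gap hF (by omega) (H.pl (by omega) hA) (by positivity) (by positivity)
    (η := 64 / 10 ^ 24 / Fintype.card A) (χ := 2 / 10 ^ 26) (z0 := 1152 / 10 ^ 24)
    (by positivity) (by norm_num) (by norm_num) (le_of_eq (by ring)) (by nlinarith) m I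
  have h2 : (m : ℝ) * (2 / 10 ^ 26) + (1152 / 10 ^ 24 + m * (64 / 10 ^ 24 / Fintype.card A)) *
      Fintype.card ((Fin 3 × A) × Bool) ≤ (30 * k : ℕ) := by
    have e1 : (m : ℝ) * (64 / 10 ^ 24 / Fintype.card A) = 1152 / 10 ^ 24 := by
      rw [hm]; push_cast; field_simp; norm_num
    have e2 : (T : ℝ) = 1000 * k := by exact_mod_cast hT
    rw [e1, hm]
    simp only [Fintype.card_prod, Fintype.card_fin, Fintype.card_bool]
    push_cast
    linarith
  have h3 := (Real.exp_le_exp.2 h2).trans (exp_nat_le _)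
  have h4 : (5 : ℝ) ≤ 5 ^ k := le_self_pow₀ (by norm_num) (by omega)
  have h5 : (2 : ℝ) ^ (200 * k) ≤ 2 ^ T := pow_le_pow_right₀ (by norm_num) (by omega)
  have h6 : (5 : ℝ) * 3 ^ (30 * k) ≤ (1 / 10 ^ 30) ^ k * 2 ^ T := by
    refine (mul_le_mul_of_nonneg_right h4 (by positivity)).trans
      (le_trans ?_ (mul_le_mul_of_nonneg_left h5 (by positivity)))
    rw [pow_mul, pow_mul, ← mul_pow, ← mul_pow]
    exact pow_le_pow_left₀ (by norm_num) (by norm_num) _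
  refine le_of_mul_le_mul_right ?_ (show (0 : ℝ) < 2 ^ T by positivity)
  rw [mul_assoc, ← mul_pow, show (2 : ℝ) * 2 = 4 by norm_num, mul_assoc]
  exact h1.trans (mul_le_mul_of_nonneg_left
    ((mul_le_mul_of_nonneg_left h3 (by norm_num)).trans h6) (by positivity))

/-- the small world -/
theorem small_world [Nonempty Θ] (H : Good tr (1 / 10 ^ 25)) {k T : ℕ} (hk : 1 ≤ k)
    (hT : T = 1000 * k) (hA : 10 ^ 18 * T ≤ Fintype.card A)
    (hA' : Fintype.card A ≤ 2 * 10 ^ 18 * T) {ι : Type} [Fintype ι]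
    (hι : Fintype.card ι ≤ 2 ^ T) (P B : ι → ℝ → Set (Fin 3 × A → Bool))
    (hP : ∀ i s s', s ≤ s' → P i s ⊆ P i s')
    (hE : ∀ i s, ∀ τ : Finset ((Fin 3 × A) × Bool), τ.card ≤ T → (∃ y ∈ B i s, Ag y τ) →
      ∃ Z : Finset ((Fin 3 × A) × Bool), (Z.card ≤ 9 * T ∧ ∀ y, Ag y Z → y ∈ P i s) ∧
        ∃ y, Ag y (Z ∪ τ)) :
    ∃ φ : Finset (Cl (Fin 3 × A)), (∀ c ∈ φ, ∃ θ, RealC.cl tr θ = c) ∧
      (∀ y, ∃ c ∈ φ, ¬ Sat y c) ∧
      (∀ i s, G (66 * T) φ (2 * T) (P i s) → G (66 * T) φ T (B i s)) ∧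
      ¬ G (66 * T) φ (2 * T) Set.univ := by
  have : Nonempty A := Fintype.card_pos_iff.1 (by omega)
  obtain ⟨m, hm⟩ : ∃ m, m = 18 * Fintype.card A := ⟨_, rfl⟩
  have hM : (0 : ℝ) < (Fintype.card (Θ × (Fin 3 → Bool)) : ℝ) ^ m :=
    pow_pos (by exact_mod_cast Fintype.card_pos) _
  let core : ι → ℝ → Finset ((Fin 3 × A) × Bool) → Prop :=
    fun i s Z => Z.card ≤ 9 * T ∧ ∀ y, Ag y Z → y ∈ P i s
  let B' : ι → ℝ → Set (Fin 3 × A → Bool) := fun i s => {y | ∃ s' ≤ s, y ∈ B i s'}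
  have hF : ∀ i, Fam T (core i) (B' i) := fun i =>
    ⟨fun _ _ h => h.1, fun s s' Z hs h => ⟨h.1, fun y hy => hP i s s' hs (h.2 y hy)⟩,
      fun s s' hs y ⟨u, h1, h2⟩ => ⟨u, h1.trans hs, h2⟩,
      fun s τ hτ ⟨y, ⟨u, h1, h2⟩, h3⟩ => by
        obtain ⟨Z, h4, h5⟩ := hE i u τ hτ ⟨y, h2, h3⟩
        exact ⟨Z, ⟨h4.1, fun y hy => hP i u s h1 (h4.2 y hy)⟩, h5⟩⟩
  have h1 := (cnt_exists_sum (Ico k (46 * T + k + 1))
    (fun j (f : Fin m → Θ × (Fin 3 → Bool)) => ∃ I : Finset (Fin m), I.card = j ∧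
      ∃ S : Finset (Fin 3 × A), 2 * S.card ≤ 3 * j ∧ ∀ i ∈ I, ∀ j, (RealC.cl tr (f i) j).1 ∈ S)
    (fun f => ∃ I : Finset (Fin m), k ≤ I.card ∧ I.card ≤ 2 * (23 * T) + k ∧
      ∃ S : Finset (Fin 3 × A), (∀ i ∈ I, ∀ j, (RealC.cl tr (f i) j).1 ∈ S) ∧
        2 * S.card ≤ 3 * I.card)
    (fun f ⟨I, a1, a2, S, a3, a4⟩ => ⟨I.card, mem_Ico.2 ⟨a1, by omega⟩, I, rfl, S, a4, a3⟩)).trans
    (sum_le_sum fun j hj => exp_k H hm (hk.trans (mem_Ico.1 hj).1)
      (by have := (mem_Ico.1 hj).2; omega) (by have := (mem_Ico.1 hj).1; omega))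
  rw [← mul_sum] at h1
  have h1' : ∑ j ∈ Ico k (46 * T + k + 1), (1 / 100 : ℝ) ^ j ≤ 1 / 10 := by
    refine (geom_sum_Ico_le_of_lt_one (by norm_num) (by norm_num)).trans ?_
    have : (1 / 100 : ℝ) ^ k ≤ 1 / 100 := pow_le_of_le_one (by norm_num) (by norm_num) (by omega)
    rw [div_le_iff₀ (by norm_num)]
    linarith
  have h2 := cnt_exists_le (fun I : Finset (Fin m) => I.card ≤ k)
    (fun I (f : Fin m → Θ × (Fin 3 → Bool)) => (∃ y, ∀ i ∉ I, Sat y (RealC.cl tr (f i))) ∨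
      ∃ i, E T (core i) (B' i) T (build (RealC.cl tr) ∅ (fun j => j ∉ I) f) ∅)
    (fun f => ∃ I : Finset (Fin m), I.card ≤ k ∧ ((∃ y, ∀ i ∉ I, Sat y (RealC.cl tr (f i))) ∨
      ∃ i, E T (core i) (B' i) T (build (RealC.cl tr) ∅ (fun j => j ∉ I) f) ∅))
    (w := (Fintype.card (Θ × (Fin 3 → Bool)) : ℝ) ^ m * (2 * (1 / 10 ^ 30) ^ k))
    (fun f hf => hf) (by
      intro I hI
      have a1 := sat_mask tr I (by rw [card_compl, Fintype.card_fin]; omega)
      have a2 : (5 / 6 : ℝ) ^ Fintype.card A ≤ (1 / 10 ^ 30) ^ k := by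
        refine (pow_le_pow_of_le_one (by norm_num) (by norm_num)
          (show 4 * (200 * k) ≤ Fintype.card A by omega)).trans ?_
        rw [pow_mul]
        refine (pow_le_pow_left₀ (b := 1 / 2) (by norm_num) (by norm_num) _).trans ?_
        rw [pow_mul]
        exact pow_le_pow_left₀ (by norm_num) (by norm_num) _
      have a3 := (cnt_exists_sum univ (fun i (f : Fin m → Θ × (Fin 3 → Bool)) =>
          E T (core i) (B' i) T (build (RealC.cl tr) ∅ (fun j => j ∉ I) f) ∅)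
        (fun f => ∃ i, E T (core i) (B' i) T (build (RealC.cl tr) ∅ (fun j => j ∉ I) f) ∅)
        (fun f ⟨i, hi⟩ => ⟨i, mem_univ _, hi⟩)).trans (sum_le_sum fun i _ =>
          (le_div_iff₀ (by positivity)).2 (gap_num H hk hT hA hA' hm (hF i) _))
      rw [sum_const, card_univ, nsmul_eq_mul] at a3
      have a4 : (Fintype.card ι : ℝ) ≤ 2 ^ T := by exact_mod_cast hι
      have a5 := a3.trans (mul_le_mul_of_nonneg_right a4 (by positivity))
      rw [mul_div_cancel₀ _ (by positivity)] at a5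
      have a6 := mul_le_mul_of_nonneg_left a2 hM.le
      refine (cnt_or _ _).trans ?_
      linarith)
  have h3 := count_small (β := Fin m) (T := k) (c := 36 * 10 ^ 21) (by norm_num) (by
    rw [Fintype.card_fin]
    exact_mod_cast (by omega : m ≤ 36 * 10 ^ 21 * k)) (fun I => I.card ≤ k) fun _ h => h
  have h4 : (3 * (36 * 10 ^ 21) : ℝ) ^ k * (1 / 10 ^ 30) ^ k ≤ 1 / 10 := by
    rw [← mul_pow]
    exact (pow_le_of_le_one (by norm_num) (by norm_num) (by omega)).trans (by norm_num)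
  have h5 := h2.trans (mul_le_mul_of_nonneg_right h3 (by positivity))
  have h6 := mul_le_mul_of_nonneg_left h4 hM.le
  have h7 := mul_le_mul_of_nonneg_left h1' hM.le
  obtain ⟨f, hf⟩ := exists_not_of_cnt_lt (P := fun f : Fin m → Θ × (Fin 3 → Bool) =>
    (∃ I : Finset (Fin m), k ≤ I.card ∧ I.card ≤ 2 * (23 * T) + k ∧
      ∃ S : Finset (Fin 3 × A), (∀ i ∈ I, ∀ j, (RealC.cl tr (f i) j).1 ∈ S) ∧
        2 * S.card ≤ 3 * I.card) ∨
    ∃ I : Finset (Fin m), I.card ≤ k ∧ ((∃ y, ∀ i ∉ I, Sat y (RealC.cl tr (f i))) ∨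
      ∃ i, E T (core i) (B' i) T (build (RealC.cl tr) ∅ (fun j => j ∉ I) f) ∅)) (by
    refine (cnt_or _ _).trans_lt ?_
    rw [Fintype.card_fun, Fintype.card_fin]
    push_cast
    nlinarith)
  obtain ⟨I, hI, hX⟩ := prune (RealC.cl tr) (r := 23 * T) (k := k) f fun I a1 a2 S a3 =>
    not_le.1 fun a4 => hf (Or.inl ⟨I, a1, a2, S, a3, a4⟩)
  refine ⟨_, fun c hc => ?_, fun y => ?_, fun i s hG => ?_, not_G_of_al hX (2 * T) ∅ _
    (by simp; omega) (by simp; omega) (al_empty hX (by omega)) fun _ _ => trivial⟩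
  · obtain ⟨i, -, hi⟩ := (mem_build.1 hc).resolve_left (notMem_empty _)
    exact ⟨_, hi⟩
  · by_contra hc
    push Not at hc
    exact hf (Or.inr ⟨I, hI, Or.inl ⟨y, fun i hi => hc _ (mem_build.2 (Or.inr ⟨i, hi, rfl⟩))⟩⟩)
  · by_contra hc
    refine hf (Or.inr ⟨I, hI, Or.inr ⟨i, hX, by simp, s, fun Z hZ hal => ?_, fun h => hc
      (h.mono fun y hy => ⟨⟨s, le_rfl, hy⟩, fun l hl => absurd hl (notMem_empty _)⟩)⟩⟩)
    rw [union_empty] at hal
    exact not_G_of_al hX (2 * T) Z (P i s) (by have := hZ.1; omega) (by have := hZ.1; omega)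
      hal hZ.2 hG

end Pool.Agent.P.MP_b53add_lc.Sp
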