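import Pool.Agent.K.MP_b53add_lc.C1

set_option autoImplicit false
set_option linter.unusedSectionVars false

namespace Pool.Agent.P.MP_b53add_lc.RealC

open Finset Classical Mono

theorem chain_sup {β σ : Type} [Fintype β] [LinearOrder σ] (Y : σ → β → Prop)
    (hY : ∀ s s' x, s ≤ s' → Y s x → Y s' x) (G : σ → Prop) (h : ∃ s, G s) :
    ∃ s0, G s0 ∧ ∀ s x, G s → Y s x → Y s0 x := by
  obtain ⟨s1, hs1⟩ := h
  have h1 : ∀ x, ∃ s, G s ∧ ∀ s', G s' → Y s' x → Y s x := by
    intro x
    by_cases h2 : ∃ s, G s ∧ Y s x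
    · obtain ⟨s, h3, h4⟩ := h2
      exact ⟨s, h3, fun _ _ _ => h4⟩
    · exact ⟨s1, hs1, fun s' h3 h4 => absurd ⟨s', h3, h4⟩ h2⟩
  choose f hf hf' using h1
  by_cases hβ : (univ : Finset β).Nonempty
  · obtain ⟨x0, -, hx0⟩ := exists_max_image univ f hβ
    exact ⟨f x0, hf x0, fun s x h1 h2 => hY _ _ x (hx0 x (mem_univ _)) (hf' x s h1 h2)⟩
  · exact ⟨s1, hs1, fun s x _ _ => absurd ⟨x, mem_univ _⟩ hβ⟩

theorem chain_inf {β σ : Type} [Fintype β] [LinearOrder σ] (Y : σ → β → Prop)
    (hY : ∀ s s' x, s ≤ s' → Y s x → Y s' x) (G : σ → Prop) (h : ∃ s, G s) :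
    ∃ s0, G s0 ∧ ∀ s x, G s → Y s0 x → Y s x := by
  obtain ⟨s0, h1, h2⟩ := chain_sup (σ := σᵒᵈ) (fun s x => ¬ Y s x)
    (fun s s' x hs h1 h2 => h1 (hY _ _ x hs h2)) G h
  exact ⟨s0, h1, fun s x h3 h4 => by_contra fun h5 => h2 s x h3 h5 h4⟩

theorem cnt_fst {β γ : Type} [Fintype β] [Fintype γ] (P : β → Prop) :
    cnt (fun q : β × γ => P q.1) = cnt P * Fintype.card γ := by
  rw [cnt_eq_sum, cnt_eq_sum, Fintype.sum_prod_type, sum_mul]
  refine sum_congr rfl fun b _ => ?_
  by_cases h : P b <;> simp [h]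

theorem cnt_inj {β γ : Type} [Fintype β] [Fintype γ] (P : β → Prop) (R : γ → Prop) (π : β → γ)
    (h1 : ∀ b, P b → R (π b)) (h2 : ∀ b b', P b → P b' → π b = π b' → b = b') :
    cnt P ≤ cnt R := by
  unfold cnt
  exact_mod_cast card_le_card_of_injOn π
    (fun b hb => by simpa using h1 b (by simpa using hb))
    (fun b hb b' hb' e => h2 b b' (by simpa using hb) (by simpa using hb') e)

variable {α : Type} [DecidableEq α]

/-- a clause that is pivotal somewhere along the chain -/
def PivC (r : ℕ) (core : ℝ → Finset (α × Bool) → Prop) (p : Finset (Cl α))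
    (τ : Finset (α × Bool)) (c : Cl α) (l : α × Bool) : Prop := ∃ s, Piv r (core s) p τ c l

theorem pivC_small [Fintype α] {r h T : ℕ} {core : ℝ → Finset (α × Bool) → Prop}
    (hcore : ∀ s Z, core s Z → Z.card ≤ h) (hmono : ∀ s s' Z, s ≤ s' → core s Z → core s' Z)
    (hr : 2 * (h + T) < r) (p : Finset (Cl α)) {τ : Finset (α × Bool)} (hτ : τ.card ≤ T) :
    ∃ U : Finset α, U.card ≤ 3 * (h + T) ∧
      ∀ c l, PivC r core p τ c l → (∃ j, c j = l) ∧ ∀ i, (c i).1 ∈ U := by
  by_cases hp : Exp r p ∧ ∃ s, ¬ Mono.Inv r (core s) p τ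
  swap
  · exact ⟨∅, by simp, fun c l ⟨s, hs⟩ => absurd ⟨hs.1, s, hs.2.2.1⟩ hp⟩
  obtain ⟨s0, h1, h2⟩ := chain_inf core hmono (fun s => ¬ Mono.Inv r (core s) p τ) hp.2
  unfold Mono.Inv at h1
  push Not at h1
  obtain ⟨Z, hZ, hal⟩ := h1
  have hc : (Z ∪ τ).card ≤ h + T := (card_union_le _ _).trans (by have := hcore _ Z hZ; omega)
  obtain ⟨U, hU, hkill⟩ := kill hp.1 (Z ∪ τ) (by omega) hal
  exact ⟨U, by omega, fun c l ⟨s, hs⟩ =>
    ⟨hs.2.1, hkill c (hs.2.2.2 Z (h2 s Z hs.2.2.1 hZ))⟩⟩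

/-- forward exposure with an abstract pivot relation -/
def FwdC (Pv : Finset (Cl α) → Finset (α × Bool) → Cl α → α × Bool → Prop) :
    List (Cl α) → Finset (Cl α) → Finset (α × Bool) → Prop
  | [], _, ρ => ρ = ∅
  | c :: s, p, ρ => FwdC Pv s (insert c p) ρ ∨
      ∃ l ∈ ρ, Pv p (ρ.erase l) c l ∧ FwdC Pv s (insert c p) (ρ.erase l)

theorem FwdC_realize : True := by have := @FwdC.eq_def; trivial

theorem fwdC_of_fwd {r : ℕ} {core : ℝ → Finset (α × Bool) → Prop} (s : ℝ) :
    ∀ (L : List (Cl α)) (p : Finset (Cl α)) (ρ : Finset (α × Bool)),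
      Fwd r (core s) L p ρ → FwdC (PivC r core) L p ρ
  | [], _, _, h => h
  | _ :: L, _, _, h => by
    rcases h with h | ⟨l, hl, h1, h2⟩
    · exact Or.inl (fwdC_of_fwd s L _ _ h)
    · exact Or.inr ⟨l, hl, ⟨s, h1⟩, fwdC_of_fwd s L _ _ h2⟩

theorem fwdC_count {Θ : Type} [Fintype Θ] [Nonempty Θ] (cl : Θ → Cl α) {T : ℕ} {b : ℝ}
    (hb : 0 ≤ b) {Pv : Finset (Cl α) → Finset (α × Bool) → Cl α → α × Bool → Prop}
    (hPv : ∀ p τ l, τ.card ≤ T → cnt (fun θ => Pv p τ (cl θ) l) ≤ Fintype.card Θ * b) (m : ℕ) :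
    ∀ (p : Finset (Cl α)) (ρ : Finset (α × Bool)), ρ.card ≤ T →
      cnt (fun f : Fin m → Θ => FwdC Pv (List.ofFn fun i => cl (f i)) p ρ) ≤
        (Fintype.card Θ : ℝ) ^ m * (m * b) ^ ρ.card := by
  simp only [cnt_eq_sum]
  have hM : (0 : ℝ) < Fintype.card Θ := by exact_mod_cast Fintype.card_pos
  set M : ℝ := (Fintype.card Θ : ℝ) with hMd
  induction m with
  | zero =>
    intro p ρ _
    by_cases h0 : ρ = ∅
    · subst h0; simp [FwdC]
    · simp [FwdC, h0]
  | succ m ih =>
    intro p ρ hρ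
    rw [Mono.sum_cons]
    have h1 : ∀ c : Θ, ∑ f : Fin m → Θ,
        (if FwdC Pv (List.ofFn fun i => cl ((Fin.cons c f : Fin (m + 1) → Θ) i)) p ρ
          then (1 : ℝ) else 0) ≤
        M ^ m * (m * b) ^ ρ.card + ∑ l ∈ ρ, (if Pv p (ρ.erase l) (cl c) l then
          M ^ m * (m * b) ^ (ρ.card - 1) else 0) := by
      intro c
      calc _ ≤ ∑ f : Fin m → Θ,
            ((if FwdC Pv (List.ofFn fun i => cl (f i)) (insert (cl c) p) ρ then (1 : ℝ) else 0) +
            ∑ l ∈ ρ, (if Pv p (ρ.erase l) (cl c) l then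
              (if FwdC Pv (List.ofFn fun i => cl (f i)) (insert (cl c) p) (ρ.erase l)
                then (1 : ℝ) else 0) else 0)) := by
            refine sum_le_sum fun f _ => ?_
            have hnn : ∀ l ∈ ρ, (0 : ℝ) ≤ (if Pv p (ρ.erase l) (cl c) l then
                (if FwdC Pv (List.ofFn fun i => cl (f i)) (insert (cl c) p) (ρ.erase l)
                  then (1 : ℝ) else 0) else 0) := fun l _ => by split_ifs <;> norm_num
            have hs := sum_nonneg hnn
            rw [List.ofFn_succ]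
            simp only [Fin.cons_zero, Fin.cons_succ]
            split_ifs with h2 h3 h3
            · linarith
            · obtain ⟨l, hl, h4, h5⟩ := Or.resolve_left h2 h3
              have := single_le_sum hnn hl
              simp only [if_pos h4, if_pos h5] at this
              linarith
            · linarith
            · linarith
        _ ≤ _ := by
            rw [sum_add_distrib, sum_comm]
            refine add_le_add (ih _ _ hρ) (sum_le_sum fun l hl => ?_)
            split_ifs with h2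
            · have := ih (insert (cl c) p) (ρ.erase l) ((card_erase_le).trans hρ)
              rwa [card_erase_of_mem hl] at this
            · simp
    refine (sum_le_sum fun c _ => h1 c).trans ?_
    rw [sum_add_distrib, sum_comm, sum_const, card_univ, nsmul_eq_mul, ← hMd]
    have h2 : ∀ l ∈ ρ, ∑ c : Θ, (if Pv p (ρ.erase l) (cl c) l then
        M ^ m * (m * b) ^ (ρ.card - 1) else 0) ≤
        M * b * (M ^ m * (m * b) ^ (ρ.card - 1)) := by
      intro l _
      rw [← sum_filter, sum_const, nsmul_eq_mul]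
      exact mul_le_mul_of_nonneg_right (hPv p _ l ((card_erase_le).trans hρ)) (by positivity)
    have h3 := sum_le_sum h2
    rw [sum_const, nsmul_eq_mul] at h3
    have h4 := pow_add_mul_le_add_pow (a := m * b) (b := b) (by positivity)
      (by positivity) ρ.card
    have h5 : (m * b + b) = ((m + 1 : ℕ) : ℝ) * b := by push_cast; ring
    rw [h5] at h4
    have h6 := mul_le_mul_of_nonneg_left h4 (show 0 ≤ M ^ (m + 1) by positivity)
    refine le_trans ?_ h6
    have h7 : M ^ (m + 1) * ((m * b) ^ ρ.card + ρ.card * (m * b) ^ (ρ.card - 1) * b) =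
        M * (M ^ m * (m * b) ^ ρ.card) +
          ρ.card * (M * b * (M ^ m * (m * b) ^ (ρ.card - 1))) := by ring
    rw [h7]
    linarith

theorem cnt_fix {β : Type} [Fintype β] [Nonempty β] {m : ℕ} (I : Finset (Fin m))
    (G : Fin m → β) : cnt (fun f : Fin m → β => ∀ i ∈ I, f i = G i) ≤
      (Fintype.card β : ℝ) ^ m * (1 / Fintype.card β) ^ I.card := by
  have hM : (0 : ℝ) < Fintype.card β := by exact_mod_cast Fintype.card_pos
  refine (cnt_le_card (A := Fintype.piFinset fun i => if i ∈ I then {G i} else univ)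
    fun f hf => ?_).trans (le_of_eq ?_)
  · rw [Fintype.mem_piFinset]
    intro i
    split_ifs with h
    · exact mem_singleton.2 (hf i h)
    · exact mem_univ _
  rw [Fintype.card_piFinset]
  push_cast
  have h4 : ∀ i : Fin m, (((if i ∈ I then {G i} else univ : Finset β).card : ℕ) : ℝ) =
      (Fintype.card β : ℝ) * (if i ∈ I then 1 / (Fintype.card β : ℝ) else 1) := by
    intro i
    split_ifs
    · simp
    · simp
  simp only [h4, prod_mul_distrib, prod_const, card_univ, Fintype.card_fin, prod_ite_mem,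
    univ_inter]

theorem cnt_comp {β : Type} [Fintype β] [Nonempty β] {m k : ℕ} (e : Fin k → Fin m)
    (he : Function.Injective e) (P : (Fin k → β) → Prop) :
    cnt (fun f : Fin m → β => P fun i => f (e i)) ≤
      cnt P * ((Fintype.card β : ℝ) ^ m * (1 / Fintype.card β) ^ k) := by
  refine cnt_exists_le P (fun g f => ∀ i, f (e i) = g i) _ (fun f hf => ⟨_, hf, fun _ => rfl⟩)
    fun g _ => ?_
  have h1 := cnt_fix (univ.image e) (Function.extend e g fun _ => Classical.arbitrary β)
  rw [card_image_of_injective _ he, card_univ, Fintype.card_fin] at h1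
  refine le_trans (cnt_mono fun f hf i hi => ?_) h1
  obtain ⟨j, -, rfl⟩ := mem_image.1 hi
  rw [he.extend_apply]
  exact hf j

theorem mgf {Θ : Type} [Fintype Θ] (cl : Θ → Cl α) {μ b u : ℝ} (hμ : 0 ≤ μ) (hb : 0 ≤ b)
    (h : ∀ S : Finset α, (S.card : ℝ) ≤ u → ∑ θ, μ ^ (cvars (cl θ) \ S).card ≤ b) (k : ℕ) :
    ∀ S : Finset α, (S.card : ℝ) + 3 * k ≤ u →
      ∑ f : Fin k → Θ, μ ^ ((univ.biUnion fun i => cvars (cl (f i))) \ S).card ≤ b ^ k := by
  induction k with
  | zero => intro S _; simp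
  | succ k ih =>
    intro S hS
    push_cast at hS
    have hk : (0 : ℝ) ≤ k := Nat.cast_nonneg _
    rw [Mono.sum_cons]
    have h1 : ∀ c : Θ, ∑ f : Fin k → Θ, μ ^ ((univ.biUnion fun i =>
        cvars (cl ((Fin.cons c f : Fin (k + 1) → Θ) i))) \ S).card ≤
        μ ^ (cvars (cl c) \ S).card * b ^ k := by
      intro c
      have h2 : ((S ∪ cvars (cl c)).card : ℝ) + 3 * k ≤ u := by
        have h3 : (S ∪ cvars (cl c)).card ≤ S.card + 3 := (card_union_le _ _).trans
          (Nat.add_le_add_left (card_image_le.trans (by simp)) _)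
        have h4 : ((S ∪ cvars (cl c)).card : ℝ) ≤ S.card + 3 := by exact_mod_cast h3
        linarith
      refine le_trans (le_of_eq ?_) (mul_le_mul_of_nonneg_left (ih _ h2) (by positivity))
      rw [mul_sum]
      refine sum_congr rfl fun f _ => ?_
      rw [← pow_add, ← card_union_of_disjoint]
      · congr 2
        ext v
        simp only [mem_sdiff, mem_biUnion, mem_univ, true_and, mem_union, Fin.exists_fin_succ,
          Fin.cons_zero, Fin.cons_succ]
        tauto
      · rw [disjoint_left]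
        intro v h1 h2
        exact (mem_sdiff.1 h2).2 (mem_union_right _ (mem_sdiff.1 h1).1)
    refine (sum_le_sum fun c _ => h1 c).trans ?_
    rw [← sum_mul, pow_succ, mul_comm]
    exact mul_le_mul_of_nonneg_left (h S (by linarith)) (by positivity)

end Pool.Agent.P.MP_b53add_lc.RealC
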