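import Pool.Agent.K.MP_b53add_lc.C3
import Pool.Agent.K.MP_b53add_lc.C6

set_option autoImplicit false
set_option linter.unusedSectionVars false

namespace Pool.Agent.P.MP_b53add_lc.RealC

open Finset Classical Mono

theorem wsum_mono {u : ℝ} (h0 : 0 ≤ u) (h1 : u ≤ 1) {n : ℕ} {P R : (Fin n → Bool) → Prop}
    (h : ∀ V, P V → R V) : wsum u P ≤ wsum u R := by
  unfold wsum
  refine sum_le_sum fun V _ => ?_
  have := wt_nonneg h0 h1 V
  by_cases h1 : P V
  · simp [h1, h V h1]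
  · by_cases h2 : R V <;> simp [h1, h2, this]

theorem wsum_avoid (u : ℝ) {n : ℕ} (I : Finset (Fin n)) :
    ∑ V : Fin n → Bool, wt u V * (if ∀ i ∈ I, V i = false then 1 else 0) = (1 - u) ^ I.card := by
  have h1 := prod_univ_sum (fun _ : Fin n => (univ : Finset Bool))
    (fun i b => if b = true then (if i ∈ I then 0 else u) else 1 - u)
  rw [Fintype.piFinset_univ] at h1
  have h2 : ∀ i : Fin n, ∑ b : Bool, (if b = true then (if i ∈ I then 0 else u) else 1 - u) =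
      if i ∈ I then 1 - u else 1 := by
    intro i
    rw [Fintype.sum_bool]
    by_cases h : i ∈ I <;> simp [h]
  simp only [h2, prod_ite_mem, univ_inter, prod_const] at h1
  rw [h1]
  refine sum_congr rfl fun V _ => ?_
  split_ifs with h
  · rw [mul_one, wt]
    refine prod_congr rfl fun i _ => ?_
    by_cases h3 : i ∈ I
    · simp [h i h3]
    · simp [h3]
  · push Not at h
    obtain ⟨i, h3, h4⟩ := h
    rw [mul_zero]
    exact (prod_eq_zero (mem_univ i) (by simp [h3, h4])).symm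

theorem wsum_hit (u : ℝ) {n c : ℕ} {α : Type} [Fintype α] (e : α × Fin c → Fin n)
    (he : Function.Injective e) :
    wsum u (fun V => ∀ q, ∃ i, V (e (q, i)) = true) = (1 - (1 - u) ^ c) ^ Fintype.card α := by
  have h1 : ∀ V : Fin n → Bool, (if ∀ q, ∃ i, V (e (q, i)) = true then wt u V else 0) =
      ∑ J ∈ (univ : Finset α).powerset, (-1) ^ J.card *
        (wt u V * if ∀ i ∈ (J ×ˢ univ).image e, V i = false then 1 else 0) := by
    intro V
    have h2 := prod_one_add (f := fun q : α => -(if ∀ i, V (e (q, i)) = false then (1 : ℝ) else 0))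
      univ
    have h3 : ∀ J : Finset α, ∏ q ∈ J, -(if ∀ i, V (e (q, i)) = false then (1 : ℝ) else 0) =
        (-1) ^ J.card * if ∀ i ∈ (J ×ˢ univ).image e, V i = false then 1 else 0 := by
      intro J
      rw [prod_neg, prod_boole]
      congr 2
      simp only [mem_image, mem_product, mem_univ, and_true, Prod.exists, eq_iff_iff]
      exact ⟨fun h i ⟨q, j, hq, e⟩ => e ▸ h q hq j, fun h q hq j => h _ ⟨q, j, hq, rfl⟩⟩
    simp only [h3] at h2
    simp only [mul_left_comm _ (wt u V), ← mul_sum]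
    rw [← h2]
    split_ifs with h
    · rw [prod_eq_one, mul_one]
      intro q _
      obtain ⟨i, hi⟩ := h q
      rw [if_neg fun h4 => by simp [h4 i] at hi]
      simp
    · push Not at h
      obtain ⟨q, hq⟩ := h
      rw [prod_eq_zero (mem_univ q), mul_zero]
      rw [if_pos fun i => by simpa using hq i]
      simp
  unfold wsum
  refine (sum_congr rfl fun V _ => Eq.trans (by congr) (h1 V)).trans ?_
  rw [sum_comm]
  simp only [← mul_sum, wsum_avoid, card_image_of_injective _ he, card_product, card_univ,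
    Fintype.card_fin]
  have h4 := prod_one_add (f := fun _ : α => -(1 - u) ^ c) univ
  simp only [prod_const, card_univ] at h4
  rw [sub_eq_add_neg 1 ((1 - u) ^ c), h4]
  refine sum_congr rfl fun J _ => ?_
  rw [neg_pow ((1 - u) ^ c), ← pow_mul, mul_comm c]

theorem wsum_not_full {u : ℝ} (hu0 : 0 < u) (hu : u ≤ 1 / 33) {n : ℕ} (X : (Fin n → Bool) → Prop)
    {ε : ℝ} (h0 : 0 ≤ ε) (hε : ε ≤ 1 / 2) (hX : 2 ^ n * (1 - ε) ≤ cnt X) :
    wsum u (fun V => ¬ Sub X V 0) ≤ ε / 5 := by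
  have h2 : (0 : ℝ) < 2 ^ n := by positivity
  have hc : 0 < cnt X := lt_of_lt_of_le (mul_pos h2 (by linarith)) hX
  obtain ⟨f, hf, hs⟩ := lemmaS hu0 (by linarith) n X hc
  have h3 : (11 : ℝ) ≤ 1 / (3 * u) := by rw [le_div_iff₀ (by positivity)]; linarith
  have h4 := wsum_markov hu0.le (by linarith) (fun V => ¬ Sub X V 0)
    (fun V => (1 / (3 * u)) ^ f V - 1) (w := 10)
    (fun V => sub_nonneg.2 (one_le_pow₀ (by linarith))) fun V hV => by
      have h5 : f V ≠ 0 := fun h => hV (h ▸ hf V)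
      have := le_self_pow₀ (show (1 : ℝ) ≤ 1 / (3 * u) by linarith) h5
      linarith
  have h6 := sum_wt_mul u n 1
  simp only [one_pow, mul_one, sub_add_cancel] at h6
  simp only [mul_sub, mul_one, sum_sub_distrib, h6] at h4
  have h5 : 2 ^ n / cnt X ≤ 1 + 2 * ε := by
    rw [div_le_iff₀ hc]
    have h7 := mul_le_mul_of_nonneg_left hX (show 0 ≤ 1 + 2 * ε by linarith)
    have h8 : 0 ≤ 2 ^ n * (ε * (1 - 2 * ε)) := mul_nonneg h2.le (mul_nonneg h0 (by linarith))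
    nlinarith
  linarith

theorem choose_V {n T c : ℕ} (hT : 1 ≤ T) (hc : c = 10 ^ 9) {α : Type} [Fintype α]
    (hα : Fintype.card α ≤ 6 * 10 ^ 18 * T) (e : α × Fin c → Fin n) (he : Function.Injective e)
    {κ : Type} (A : Finset κ)
    (hA : (A.card : ℝ) ≤ (3 * 10 ^ 29) ^ T) (X : κ → (Fin n → Bool) → Prop)
    (hX : ∀ k ∈ A, 2 ^ n ≤ cnt (X k) * (6 * 10 ^ 29) ^ T)
    (X0 : (Fin n → Bool) → Prop) (hX0 : 2 ^ n * (1 - (1 / 2) ^ T) ≤ cnt X0) :
    ∃ V : Fin n → Bool, (∀ q, ∃ i, V (e (q, i)) = true) ∧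
      (∀ k ∈ A, Sub (X k) V (9 * T)) ∧ Sub X0 V 0 := by
  obtain ⟨u, hu⟩ : ∃ u : ℝ, u = 5 / 10 ^ 8 := ⟨_, rfl⟩
  have hu0 : 0 < u := by rw [hu]; norm_num
  have hu4 : u ≤ 1 / 33 := by rw [hu]; norm_num
  have hu1 : u ≤ 1 := by linarith
  have h1 : (9 / 10 : ℝ) ^ T ≤ wsum u (fun V => ∀ q, ∃ i, V (e (q, i)) = true) := by
    rw [wsum_hit u e he]
    have h2 : (1 - u) ^ c ≤ 1 / 10 ^ 20 := by
      have h3 : (1 - u) ^ c ≤ Real.exp (c * (-u)) := by
        rw [Real.exp_nat_mul]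
        exact pow_le_pow_left₀ (by linarith) (by linarith [Real.add_one_le_exp (-u)]) _
      have h4 : (c : ℝ) * (-u) = -((50 : ℕ) * 1) := by rw [hc, hu]; norm_num
      rw [h4, Real.exp_neg, Real.exp_nat_mul, inv_eq_one_div] at h3
      refine h3.trans (one_div_le_one_div_of_le (by norm_num) ?_)
      exact le_trans (by norm_num) (pow_le_pow_left₀ (by norm_num)
        (show (27 / 10 : ℝ) ≤ Real.exp 1 by linarith [Real.exp_one_gt_d9]) 50)
    have h3 : 0 ≤ (1 - u) ^ c := pow_nonneg (by linarith) _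
    generalize (1 - u) ^ c = ε at h2 h3
    obtain ⟨k, hk⟩ : ∃ k : ℕ, k = 6 * 10 ^ 18 := ⟨_, rfl⟩
    rw [← hk] at hα
    have h4 := one_add_mul_le_pow (a := -ε) (by linarith) k
    have h5 : (k : ℝ) = 6 * 10 ^ 18 := by rw [hk]; norm_num
    refine le_trans ?_ (pow_le_pow_of_le_one (by linarith) (by linarith) hα)
    rw [pow_mul]
    refine pow_le_pow_left₀ (by norm_num) (le_trans ?_ h4) _
    rw [h5]; linarith
  have h2 : wsum u (fun V => ∃ k ∈ A, ¬ Sub (X k) V (9 * T)) ≤ (1 / 2) ^ T / 5 := by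
    refine (wsum_exists hu0.le hu1 A _).trans ((sum_le_sum fun k hk =>
      wsum_not_sub hu0 (by linarith) (X k) (hX k hk) (9 * T)).trans ?_)
    rw [sum_const, nsmul_eq_mul]
    refine (mul_le_mul_of_nonneg_right hA (by positivity)).trans ?_
    have h3 : (3 * u) ^ (9 * T + 1) ≤ ((3 * u) ^ 9) ^ T := by
      rw [← pow_mul]
      exact pow_le_pow_of_le_one (by positivity) (by linarith) (by omega)
    refine (mul_le_mul_of_nonneg_left (mul_le_mul_of_nonneg_left h3 (by positivity))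
      (by positivity)).trans ?_
    rw [← mul_pow, ← mul_pow, hu]
    have h4 : ((1 : ℝ) / 5) ^ T ≤ 1 / 5 := pow_le_of_le_one (by norm_num) (by norm_num) (by omega)
    have h5 := mul_le_mul_of_nonneg_left h4 (show (0 : ℝ) ≤ (1 / 2) ^ T by positivity)
    rw [← mul_pow] at h5
    refine (pow_le_pow_left₀ (by norm_num) (by norm_num) _).trans (h5.trans (le_of_eq ?_))
    ring
  have h3 := wsum_not_full hu0 hu4 X0 (ε := (1 / 2) ^ T) (by positivity)
    (pow_le_of_le_one (by norm_num) (by norm_num) (by omega)) hX0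
  have h4 := (wsum_or hu0.le hu1 _ _).trans (add_le_add h2 h3)
  by_contra hcon
  have h5 := wsum_mono hu0.le hu1 (P := fun V => ∀ q, ∃ i, V (e (q, i)) = true)
    (R := fun V => (∃ k ∈ A, ¬ Sub (X k) V (9 * T)) ∨ ¬ Sub X0 V 0) fun V hV => by
      by_contra h6
      push Not at h6
      exact hcon ⟨V, hV, h6.1, h6.2⟩
  have h6 : ((1 : ℝ) / 2) ^ T ≤ (9 / 10) ^ T := pow_le_pow_left₀ (by norm_num) (by norm_num) _
  have h7 : (0 : ℝ) < (1 / 2) ^ T := by positivity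
  linarith

/-- points lying in a thin slice -/
def Thin {n : ℕ} (T : ℕ) (Y : (Fin n → Bool) → Prop) (x : Fin n → Bool) : Prop :=
  Y x ∧ ∃ τ : Finset (Fin n × Bool), τ.card ≤ T ∧ Ag x τ ∧
    cnt (fun x' => Y x' ∧ Ag x' τ) * (6 * 10 ^ 29) ^ T < 2 ^ n

theorem lit_count {n T : ℕ} (hn : n ≤ 24 * 10 ^ 27 * T) :
    cnt (fun τ : Finset (Fin n × Bool) => τ.card ≤ T) ≤ (15 * 10 ^ 28) ^ T := by
  have h := count_small (β := Fin n × Bool) (T := T) (c := 5 * 10 ^ 28) (by norm_num) (by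
    have : (n : ℝ) ≤ 24 * 10 ^ 27 * T := by exact_mod_cast hn
    have h0 : (0 : ℝ) ≤ T := Nat.cast_nonneg _
    simp only [Fintype.card_prod, Fintype.card_fin, Fintype.card_bool]
    push_cast
    linarith) (fun τ => τ.card ≤ T) fun S hS => hS
  exact h.trans (le_of_eq (by norm_num))

theorem thin_count {n T : ℕ} (hn : n ≤ 24 * 10 ^ 27 * T) (Y : ℝ → (Fin n → Bool) → Prop)
    (hY : ∀ s s' x, s ≤ s' → Y s x → Y s' x) :
    cnt (fun x => ∃ s, Thin T (Y s) x) * 4 ^ T ≤ 2 ^ n := by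
  have h1 := cnt_exists_le (fun τ : Finset (Fin n × Bool) => τ.card ≤ T)
    (fun τ x => ∃ s, (Y s x ∧ Ag x τ) ∧
      cnt (fun x' => Y s x' ∧ Ag x' τ) * (6 * 10 ^ 29) ^ T < 2 ^ n)
    (fun x => ∃ s, Thin T (Y s) x) (w := 2 ^ n / (6 * 10 ^ 29) ^ T)
    (fun x ⟨s, h1, τ, h2, h3, h4⟩ => ⟨τ, h2, s, ⟨h1, h3⟩, h4⟩) (by
      intro τ _
      by_cases h : ∃ s, cnt (fun x' => Y s x' ∧ Ag x' τ) * (6 * 10 ^ 29) ^ T < 2 ^ n
      · obtain ⟨s0, h2, h3⟩ := chain_sup Y hY _ h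
        refine (cnt_mono (R := fun x' => Y s0 x' ∧ Ag x' τ)
          fun x ⟨s, hx, hs⟩ => ⟨h3 s x hs hx.1, hx.2⟩).trans ?_
        rw [le_div_iff₀ (by positivity)]
        exact h2.le
      · refine (cnt_le_card (A := ∅) fun x ⟨s, hx⟩ => absurd ⟨s, hx.2⟩ h).trans ?_
        rw [card_empty, Nat.cast_zero]
        positivity)
  have h2 := h1.trans (mul_le_mul_of_nonneg_right (lit_count hn) (by positivity))
  refine (mul_le_mul_of_nonneg_right h2 (by positivity)).trans (le_of_eq ?_)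
  have : ((6 : ℝ) * 10 ^ 29) ^ T = (15 * 10 ^ 28) ^ T * 4 ^ T := by
    rw [← mul_pow]; norm_num
  rw [this]
  field_simp

theorem removal {β ι : Type} (rk : ι → ℕ) (B : ι → ℝ → β → Prop) (L : (β → Prop) → β → Prop) :
    ∃ E : ℕ → β → Prop, (∀ t t' x, t ≤ t' → E t x → E t' x) ∧
      (∀ i s x, L (fun x => B i s x ∧ ¬ E (rk i) x) x → E (rk i + 1) x) ∧
      ∀ t x, E t x → ∃ i s, L (fun x => B i s x ∧ ¬ E (rk i) x) x := by
  let E : ℕ → β → Prop := fun t => Nat.rec (fun _ => False)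
    (fun t Et x => Et x ∨ ∃ i s, rk i = t ∧ L (fun x => B i s x ∧ ¬ Et x) x) t
  have hE : ∀ t x, E (t + 1) x ↔ E t x ∨ ∃ i s, rk i = t ∧ L (fun x => B i s x ∧ ¬ E t x) x :=
    fun t x => Iff.rfl
  refine ⟨E, fun t t' x h => ?_, fun i s x h => (hE _ _).2 (Or.inr ⟨i, s, rfl, h⟩), fun t x h => ?_⟩
  · induction h with
    | refl => exact id
    | step _ ih => exact fun h => (hE _ _).2 (Or.inl (ih h))
  · induction t with
    | zero => exact h.elim
    | succ t ih =>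
      rcases (hE _ _).1 h with h4 | ⟨i, s, rfl, h4⟩
      · exact ih h4
      · exact ⟨i, s, h4⟩

theorem choose_g {n T c : ℕ} (hT : 1 ≤ T) (hn : n ≤ 24 * 10 ^ 27 * T) (hc : c = 10 ^ 9)
    {α : Type} [Fintype α] [DecidableEq α] (hα : Fintype.card α ≤ 6 * 10 ^ 18 * T)
    (e : α × Fin c → Fin n) (he : Function.Injective e)
    {ι : Type} [Fintype ι] (hι : (Fintype.card ι : ℝ) ≤ 2 ^ T)
    (B : ι → ℝ → (Fin n → Bool) → Prop) (hB : ∀ k s s' x, s ≤ s' → B k s x → B k s' x) :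
    ∃ g : α → Fin c, (∀ k s (τ : Finset (Fin n × Bool)) x, τ.card ≤ T → B k s x → Ag x τ →
      ¬ Thin T (B k s) x → ∃ Z : Finset (α × Bool), Z.card ≤ 9 * T ∧ (∃ y, Ag y Z) ∧
        ∀ y, Ag y Z → ∃ x, (B k s x ∧ Ag x τ) ∧ ∀ i, x (e (i, g i)) = y i) ∧
      ∀ y : α → Bool, ∃ x, (¬ ∃ i s, Thin T (B i s) x) ∧ ∀ i, x (e (i, g i)) = y i := by
  have h2T : (0 : ℝ) < 4 ^ T := by positivity
  have hcard : (Fintype.card (Fin n → Bool) : ℝ) = 2 ^ n := by simp
  have hX0 : (2 : ℝ) ^ n * (1 - (1 / 2) ^ T) ≤ cnt (fun x => ¬ ∃ i s, Thin T (B i s) x) := by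
    have h1 := cnt_add_not (fun x => ∃ i s, Thin T (B i s) x)
    have h2 := (cnt_exists_sum univ (fun i x => ∃ s, Thin T (B i s) x)
      (fun x => ∃ i s, Thin T (B i s) x)
      fun x ⟨i, hi⟩ => ⟨i, mem_univ _, hi⟩).trans (sum_le_sum (g := fun _ => 2 ^ n / 4 ^ T)
        fun i _ => by rw [le_div_iff₀ h2T]; exact thin_count hn _ (hB i))
    rw [sum_const, card_univ, nsmul_eq_mul] at h2
    rw [hcard] at h1
    have h3 := mul_le_mul_of_nonneg_right hι (show (0 : ℝ) ≤ 2 ^ n / 4 ^ T by positivity)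
    have h4 : (2 : ℝ) ^ T * (2 ^ n / 4 ^ T) = 2 ^ n * (1 / 2) ^ T := by
      rw [show (4 : ℝ) = 2 * 2 by norm_num, mul_pow, one_div, inv_pow]
      field_simp
    linarith
  have hA1 : (((univ : Finset ι) ×ˢ univ.filter fun τ : Finset (Fin n × Bool) =>
      τ.card ≤ T).card : ℝ) ≤ (3 * 10 ^ 29) ^ T := by
    have h1 := card_le_cnt (P := fun τ : Finset (Fin n × Bool) => τ.card ≤ T)
      (A := univ.filter fun τ : Finset (Fin n × Bool) => τ.card ≤ T)
      fun τ hτ => (mem_filter.1 hτ).2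
    rw [card_product, card_univ]
    push_cast
    refine (mul_le_mul hι (h1.trans (lit_count hn)) (by positivity) (by positivity)).trans ?_
    rw [← mul_pow]; norm_num
  obtain ⟨V, hV, hS, hS0⟩ := choose_V hT hc hα e he _ hA1
    (fun q x => ∀ s, (2 : ℝ) ^ n ≤ cnt (fun x => B q.1 s x ∧ Ag x q.2) * (6 * 10 ^ 29) ^ T →
      B q.1 s x ∧ Ag x q.2) (by
      intro q _
      by_cases h : ∃ s, (2 : ℝ) ^ n ≤ cnt (fun x => B q.1 s x ∧ Ag x q.2) * (6 * 10 ^ 29) ^ T
      · obtain ⟨s0, h2, h3⟩ := chain_inf (B q.1) (hB q.1) _ h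
        exact h2.trans (mul_le_mul_of_nonneg_right (cnt_mono fun x hx s hs =>
          ⟨h3 s x hs hx.1, hx.2⟩) (by positivity))
      · have h1 := card_le_cnt (A := univ) (P := fun x => ∀ s, (2 : ℝ) ^ n ≤
          cnt (fun x => B q.1 s x ∧ Ag x q.2) * (6 * 10 ^ 29) ^ T → B q.1 s x ∧ Ag x q.2)
          fun x _ s hs => absurd ⟨s, hs⟩ h
        rw [card_univ, hcard] at h1
        exact h1.trans (le_mul_of_one_le_right (cnt_nonneg _) (one_le_pow₀ (by norm_num)))) _ hX0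
  choose g hg using hV
  have hginj : Function.Injective fun i => e (i, g i) := fun i j h => congrArg Prod.fst (he h)
  refine ⟨g, fun k s τ x h1 h2 h3 h4 => ?_, fun y => ?_⟩
  · obtain ⟨Z, h5, h6, h7⟩ := (hS (k, τ) (mem_product.2 ⟨mem_univ _, mem_filter.2
      ⟨mem_univ _, h1⟩⟩)).restrict hginj hg
    refine ⟨Z, h5, h6, fun y hy => ?_⟩
    obtain ⟨x', h8, h9⟩ := h7 y hy
    exact ⟨x', h8 s (not_lt.1 fun hl => h4 ⟨h2, τ, h1, h3, hl⟩), h9⟩
  · obtain ⟨Z, hZ, -, hZ'⟩ := hS0.restrict hginj hg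
    refine hZ' y ?_
    rw [card_eq_zero.1 (Nat.le_zero.1 hZ)]
    intro l hl
    simp at hl

end Pool.Agent.P.MP_b53add_lc.RealC
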