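import Pool.Agent.P.MP_b53add_lc.RealDefs
import Pool.Agent.K.MP_b53add_lc.C1
import Pool.Agent.K.MP_b53add_lc.C10
import Pool.Agent.K.MP_b53add_lc.C7
import Pool.Agent.P.MP_b53add_lc.SpDefs

-- part Pool.Agent.P.MP_b53add_lc.RealMgg
section

set_option autoImplicit false
set_option linter.unusedSectionVars false

namespace Pool.Agent.P.MP_b53add_lc.RealC

open Finset Complex
open scoped ComplexConjugate

variable {m : ℕ} [NeZero m]

noncomputable def ch (x : ZMod m) : ℂ := ZMod.stdAddChar x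

theorem ch_add (x y : ZMod m) : ch (x + y) = ch x * ch y := AddChar.map_add_eq_mul _ _ _

theorem ch_neg (x : ZMod m) : ch (-x) = conj (ch x) := AddChar.map_neg_eq_conj _ _

theorem ch_zero : ch (0 : ZMod m) = 1 := AddChar.map_zero_eq_one _

theorem norm_ch (x : ZMod m) : ‖ch x‖ = 1 := AddChar.norm_apply _ _

theorem sum_ch (b : ZMod m) : ∑ x : ZMod m, ch (x * b) = if b = 0 then (m : ℂ) else 0 := by
  have := AddChar.sum_mulShift b (ZMod.isPrimitive_stdAddChar m)
  rw [ZMod.card] at this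
  unfold ch
  rw [this]
  split_ifs <;> simp

/-- Fourier transform on the torus -/
noncomputable def FT (f : ZMod m × ZMod m → ℝ) (z : ZMod m × ZMod m) : ℂ :=
  ∑ p, (f p : ℂ) * ch (z.1 * p.1 + z.2 * p.2)

theorem planch (f g : ZMod m × ZMod m → ℝ) :
    ∑ z, FT f z * conj (FT g z) = (m : ℂ) ^ 2 * ((∑ p, f p * g p : ℝ) : ℂ) := by
  have h1 : ∀ p q : ZMod m × ZMod m,
      ∑ z : ZMod m × ZMod m, ch (z.1 * p.1 + z.2 * p.2) * conj (ch (z.1 * q.1 + z.2 * q.2)) =
        if p = q then (m : ℂ) ^ 2 else 0 := by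
    intro p q
    have h2 : ∀ z : ZMod m × ZMod m,
        ch (z.1 * p.1 + z.2 * p.2) * conj (ch (z.1 * q.1 + z.2 * q.2)) =
          ch (z.1 * (p.1 - q.1)) * ch (z.2 * (p.2 - q.2)) := by
      intro z
      rw [← ch_neg, ← ch_add, ← ch_add]
      congr 1
      ring
    simp only [h2]
    rw [Fintype.sum_prod_type]
    simp only
    rw [← sum_mul_sum, sum_ch, sum_ch]
    by_cases e : p = q
    · subst e; simp [sq]
    · rw [if_neg e]
      by_cases e1 : p.1 - q.1 = 0
      · have e2 : ¬ p.2 - q.2 = 0 := fun e2 =>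
          e (Prod.ext (sub_eq_zero.1 e1) (sub_eq_zero.1 e2))
        rw [if_neg e2, mul_zero]
      · rw [if_neg e1, zero_mul]
  simp only [FT, map_sum, map_mul, conj_ofReal, sum_mul_sum]
  rw [sum_comm]
  push_cast
  rw [mul_sum]
  refine sum_congr rfl fun p _ => ?_
  rw [sum_comm]
  have h3 : ∀ q : ZMod m × ZMod m, ∑ z : ZMod m × ZMod m,
      (f p : ℂ) * ch (z.1 * p.1 + z.2 * p.2) * ((g q : ℂ) * conj (ch (z.1 * q.1 + z.2 * q.2))) =
      if p = q then (f p : ℂ) * g q * (m : ℂ) ^ 2 else 0 := by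
    intro q
    have := h1 p q
    calc _ = (f p : ℂ) * g q * ∑ z : ZMod m × ZMod m,
          ch (z.1 * p.1 + z.2 * p.2) * conj (ch (z.1 * q.1 + z.2 * q.2)) := by
          rw [mul_sum]; exact sum_congr rfl fun z _ => by ring
      _ = _ := by rw [this]; split_ifs <;> simp
  simp only [h3, sum_ite_eq, mem_univ, if_true]
  ring

theorem planch_norm (f : ZMod m × ZMod m → ℝ) :
    ∑ z, ‖FT f z‖ ^ 2 = (m : ℝ) ^ 2 * ∑ p, f p ^ 2 := by
  have h := planch f f
  simp only [mul_conj, normSq_eq_norm_sq] at h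
  have h2 : ((∑ z, ‖FT f z‖ ^ 2 : ℝ) : ℂ) = (((m : ℝ) ^ 2 * ∑ p, f p ^ 2 : ℝ) : ℂ) := by
    push_cast at h ⊢
    rw [h]
    simp [sq]
  exact_mod_cast h2

theorem FT_shear (g : ZMod m × ZMod m → ℝ) (s e : ZMod m) (z : ZMod m × ZMod m) :
    FT (fun p => g (p.1 + s * (2 * p.2 + e), p.2)) z =
      ch (-(s * e * z.1)) * FT g (z.1, z.2 - 2 * s * z.1) := by
  unfold FT
  rw [mul_sum]
  refine Fintype.sum_equiv ⟨fun p => (p.1 + s * (2 * p.2 + e), p.2),
    fun q => (q.1 - s * (2 * q.2 + e), q.2), fun p => by simp, fun q => by simp⟩ _ _ fun p => ?_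
  simp only [Equiv.coe_fn_mk]
  rw [mul_left_comm, ← ch_add]
  congr 2
  ring

/-- distance to the nearest multiple -/
def da (x : ZMod m) : ℤ := |x.valMinAbs|

noncomputable def gam (p q : ℤ) : ℝ := if q < p then 11 / 10 else if p < q then 10 / 11 else 1

theorem gam_mul (p q : ℤ) : gam p q * gam q p = 1 := by
  unfold gam
  rcases lt_trichotomy p q with h | h | h
  · rw [if_neg (by omega), if_pos h, if_pos h]; norm_num
  · simp [h]
  · rw [if_pos h, if_neg (by omega), if_pos h]; norm_num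

theorem gam_pos (p q : ℤ) : 0 < gam p q := by
  unfold gam; split_ifs <;> norm_num

theorem gam_le (p q : ℤ) : gam p q ≤ 11 / 10 := by
  unfold gam; split_ifs <;> norm_num

theorem gam_up {p q : ℤ} (h : p < q) : gam p q = 10 / 11 := by
  unfold gam; rw [if_neg (by omega), if_pos h]

theorem gam_nd {p q : ℤ} (h : p ≤ q) : gam p q ≤ 1 := by
  unfold gam; rw [if_neg (by omega)]; split_ifs <;> norm_num

theorem amgm (p q : ℤ) (a b : ℝ) : 2 * (a * b) ≤ gam p q * a ^ 2 + gam q p * b ^ 2 := by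
  have h1 := gam_mul p q
  have h2 := gam_pos p q
  have h3 := gam_pos q p
  generalize gam p q = x at *
  generalize gam q p = y at *
  have h4 : 0 ≤ y * (x * a - b) ^ 2 := by positivity
  have h5 : y * (x * a - b) ^ 2 = (x * y) * x * a ^ 2 - 2 * (x * y) * (a * b) + y * b ^ 2 := by
    ring
  rw [h5, h1] at h4
  linarith

theorem le_da {k w : ℤ} (h1 : k ≤ |w|) (h2 : |w| ≤ m - k) : k ≤ da (w : ZMod m) := by
  unfold da
  by_contra hc
  push Not at hc
  have h3 : ((w : ZMod m).valMinAbs : ZMod m) = (w : ZMod m) := ZMod.coe_valMinAbs _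
  obtain ⟨j, hj⟩ := (ZMod.intCast_eq_intCast_iff_dvd_sub _ _ _).1 h3
  generalize (w : ZMod m).valMinAbs = v at *
  have hm : (0 : ℤ) < m := by exact_mod_cast Nat.pos_of_ne_zero (NeZero.ne m)
  rcases lt_trichotomy j 0 with h | h | h
  · have : (m : ℤ) * j ≤ m * (-1) := mul_le_mul_of_nonneg_left (by omega) hm.le
    rcases abs_cases w with h4 | h4 <;> rcases abs_cases v with h5 | h5 <;> omega
  · subst h
    have : w = v := by omega
    subst this
    omega
  · have : (m : ℤ) * 1 ≤ m * j := mul_le_mul_of_nonneg_left (by omega) hm.le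
    rcases abs_cases w with h4 | h4 <;> rcases abs_cases v with h5 | h5 <;> omega

/-- the weight of the two shears changing the second coordinate -/
noncomputable def ps (x y : ZMod m) : ℝ :=
  gam (da y) (da (y - 2 * 1 * x)) + gam (da y) (da (y - 2 * (-1) * x))

theorem ps_le (x y : ZMod m) : ps x y ≤ 11 / 5 := by
  unfold ps
  linarith [gam_le (da y) (da (y - 2 * 1 * x)), gam_le (da y) (da (y - 2 * (-1) * x))]

theorem ps_pos (x y : ZMod m) : 0 ≤ ps x y := add_nonneg (gam_pos _ _).le (gam_pos _ _).le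

theorem ps_cases (x y : ZMod m) (h : 2 * (da x + da y) < m) :
    (da y < da x → ps x y ≤ 20 / 11) ∧ (0 < da x → ps x y ≤ 10 / 11 + 11 / 10) ∧
    (0 < da x → da x = da y → ps x y ≤ 10 / 11 + 1) ∧ (da x = 0 → ps x y ≤ 2) := by
  have e1 : y - 2 * 1 * x = ((y.valMinAbs - 2 * x.valMinAbs : ℤ) : ZMod m) := by
    push_cast; simp
  have e2 : y - 2 * (-1) * x = ((y.valMinAbs + 2 * x.valMinAbs : ℤ) : ZMod m) := by
    push_cast; simp
  unfold ps
  rw [e1, e2]
  have hx : da x = |x.valMinAbs| := rfl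
  have hy : da y = |y.valMinAbs| := rfl
  generalize x.valMinAbs = a at *
  generalize y.valMinAbs = b at *
  rw [hx, hy] at h
  rw [hx, hy]
  have up : ∀ w : ℤ, |b| < |w| → |w| < m - |b| → gam |b| (da (w : ZMod m)) = 10 / 11 :=
    fun w h1 h2 => gam_up (le_da (k := |b| + 1) (by omega) (by omega))
  have nd : ∀ w : ℤ, |b| ≤ |w| → |w| ≤ m - |b| → gam |b| (da (w : ZMod m)) ≤ 1 :=
    fun w h1 h2 => gam_nd (le_da h1 h2)
  have l1 := gam_le |b| (da ((b - 2 * a : ℤ) : ZMod m))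
  have l2 := gam_le |b| (da ((b + 2 * a : ℤ) : ZMod m))
  have u1 := up (b - 2 * a)
  have u2 := up (b + 2 * a)
  have n1 := nd (b - 2 * a)
  have n2 := nd (b + 2 * a)
  refine ⟨fun h1 => ?_, fun h1 => ?_, fun h1 h2 => ?_, fun h1 => ?_⟩
  · rw [u1, u2]
    · norm_num
    all_goals
      rcases abs_cases a with h4 | h4 <;> rcases abs_cases b with h5 | h5 <;>
        rcases abs_cases (b - 2 * a) with h6 | h6 <;> rcases abs_cases (b + 2 * a) with h7 | h7 <;>
        omega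
  · by_cases h2 : |b| < |b - 2 * a|
    · rw [u1 h2]
      · linarith
      · rcases abs_cases a with h4 | h4 <;> rcases abs_cases b with h5 | h5 <;>
          rcases abs_cases (b - 2 * a) with h6 | h6 <;> omega
    · rw [u2]
      · linarith
      all_goals
        rcases abs_cases a with h4 | h4 <;> rcases abs_cases b with h5 | h5 <;>
          rcases abs_cases (b - 2 * a) with h6 | h6 <;>
          rcases abs_cases (b + 2 * a) with h7 | h7 <;> omega
  · by_cases h3 : |b| < |b - 2 * a|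
    · rw [u1 h3]
      · refine add_le_add le_rfl (n2 ?_ ?_)
        all_goals
          rcases abs_cases a with h4 | h4 <;> rcases abs_cases b with h5 | h5 <;>
            rcases abs_cases (b + 2 * a) with h7 | h7 <;> omega
      · rcases abs_cases a with h4 | h4 <;> rcases abs_cases b with h5 | h5 <;>
          rcases abs_cases (b - 2 * a) with h6 | h6 <;> omega
    · rw [u2, add_comm]
      · refine add_le_add le_rfl (n1 ?_ ?_)
        all_goals
          rcases abs_cases a with h4 | h4 <;> rcases abs_cases b with h5 | h5 <;>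
            rcases abs_cases (b - 2 * a) with h7 | h7 <;> omega
      all_goals
        rcases abs_cases a with h4 | h4 <;> rcases abs_cases b with h5 | h5 <;>
          rcases abs_cases (b - 2 * a) with h6 | h6 <;>
          rcases abs_cases (b + 2 * a) with h7 | h7 <;> omega
  · have h2 : a = 0 := abs_eq_zero.1 h1
    subst h2
    have h3 := abs_nonneg b
    have := n1 (by simp) (by simp at h ⊢; omega)
    have := n2 (by simp) (by simp at h ⊢; omega)
    linarith

/-- the cosine factor -/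
noncomputable def cs (x : ZMod m) : ℝ := ‖1 + ch x‖ / 2

theorem cs_nonneg (x : ZMod m) : 0 ≤ cs x := by unfold cs; positivity

theorem cs_le (x : ZMod m) : cs x ≤ 1 := by
  unfold cs
  have := norm_add_le 1 (ch x)
  rw [norm_ch, norm_one] at this
  linarith

theorem cs_neg (x : ZMod m) : cs (-x) = cs x := by
  unfold cs
  rw [ch_neg, ← norm_conj (1 + ch x), map_add, map_one]

theorem cs_far (x : ZMod m) (h : (m : ℤ) ≤ 4 * da x) : cs x ≤ 3 / 4 := by
  have hm : (0 : ℝ) < m := by exact_mod_cast Nat.pos_of_ne_zero (NeZero.ne m)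
  have h1 : (ch x).re ≤ 0 := by
    have e : ch x = exp ((2 * Real.pi * x.valMinAbs / m : ℝ) * I) := by
      unfold ch
      conv_lhs => rw [← ZMod.coe_valMinAbs x]
      rw [ZMod.stdAddChar_coe]
      congr 1
      push_cast
      ring
    rw [e, exp_ofReal_mul_I_re, ← Real.cos_abs]
    have h2 := ZMod.valMinAbs_mem_Ioc x
    have h3 : 2 * da x ≤ m := by
      unfold da
      rcases abs_cases x.valMinAbs with h4 | h4 <;> (have := h2.1; have := h2.2; omega)
    have h4 : |2 * Real.pi * x.valMinAbs / m| = 2 * Real.pi * (da x : ℝ) / m := by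
      unfold da
      rw [abs_div, abs_mul, abs_of_pos hm, abs_of_pos (by positivity : 0 < 2 * Real.pi)]
      push_cast
      rfl
    rw [h4]
    have h5 : (m : ℝ) ≤ 4 * (da x : ℝ) := by exact_mod_cast h
    have h6 : 2 * (da x : ℝ) ≤ m := by exact_mod_cast h3
    have hp := Real.pi_pos
    refine Real.cos_nonpos_of_pi_div_two_le_of_le ?_ ?_
    · rw [div_le_div_iff₀ (by norm_num) hm]; nlinarith
    · rw [div_le_iff₀ hm]; nlinarith
  have h2 : ‖1 + ch x‖ ^ 2 ≤ (3 / 2) ^ 2 := by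
    have h3 := norm_ch x
    have h4 : ‖ch x‖ ^ 2 = 1 := by rw [h3]; norm_num
    rw [← normSq_eq_norm_sq, normSq_apply] at h4 ⊢
    simp only [add_re, add_im, one_re, one_im]
    nlinarith
  unfold cs
  have := abs_le_of_sq_le_sq' h2 (by norm_num)
  linarith [this.2]

theorem kappa_le (z : ZMod m × ZMod m) (hz : z ≠ 0) :
    cs z.1 * ps z.1 z.2 + cs z.2 * ps z.2 z.1 ≤ 77 / 20 := by
  have c1 := cs_le z.1
  have c2 := cs_le z.2
  have c3 := cs_nonneg z.1
  have c4 := cs_nonneg z.2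
  have p1 := ps_le z.1 z.2
  have p2 := ps_le z.2 z.1
  have p3 := ps_pos z.1 z.2
  have p4 := ps_pos z.2 z.1
  have d1 : 0 ≤ da z.1 := abs_nonneg _
  have d2 : 0 ≤ da z.2 := abs_nonneg _
  by_cases h : 2 * (da z.1 + da z.2) < m
  · have h1 := ps_cases z.1 z.2 h
    have h2 := ps_cases z.2 z.1 (by omega)
    have h3 : ps z.1 z.2 + ps z.2 z.1 ≤ 77 / 20 := by
      rcases lt_trichotomy (da z.1) (da z.2) with h4 | h4 | h4
      · have := h2.1 h4
        rcases d1.eq_or_lt with h5 | h5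
        · linarith [h1.2.2.2 h5.symm]
        · linarith [h1.2.1 h5]
      · have h5 : 0 < da z.1 := by
          rcases d1.eq_or_lt with h5 | h5
          · exfalso
            apply hz
            have h6 : da z.2 = 0 := by omega
            exact Prod.ext ((ZMod.valMinAbs_eq_zero _).1 (abs_eq_zero.1 h5.symm))
              ((ZMod.valMinAbs_eq_zero _).1 (abs_eq_zero.1 h6))
          · exact h5
        linarith [h1.2.2.1 h5 h4, h2.2.2.1 (by omega) h4.symm]
      · have := h1.1 h4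
        rcases d2.eq_or_lt with h5 | h5
        · linarith [h2.2.2.2 h5.symm]
        · linarith [h2.2.1 h5]
    nlinarith
  · by_cases h1 : (m : ℤ) ≤ 4 * da z.1
    · have := cs_far z.1 h1
      nlinarith
    · have := cs_far z.2 (by omega)
      nlinarith

theorem shear_one (f g : ZMod m × ZMod m → ℝ) (s : ZMod m) (hs : s = 1 ∨ s = -1) :
    (m : ℝ) ^ 2 * ∑ p, f p * (g (p.1 + s * (2 * p.2 + 1), p.2) + g (p.1 + s * (2 * p.2 + 0), p.2)) ≤
      ∑ z, cs z.1 * (gam (da z.2) (da (z.2 - 2 * s * z.1)) * ‖FT f z‖ ^ 2 +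
        gam (da z.2) (da (z.2 - 2 * (-s) * z.1)) * ‖FT g z‖ ^ 2) := by
  have h1 := planch f fun p => g (p.1 + s * (2 * p.2 + 1), p.2) + g (p.1 + s * (2 * p.2 + 0), p.2)
  have h2 : ∀ z, FT (fun p => g (p.1 + s * (2 * p.2 + 1), p.2) +
      g (p.1 + s * (2 * p.2 + 0), p.2)) z = (1 + ch (-(s * z.1))) * FT g (z.1, z.2 - 2 * s * z.1) := by
    intro z
    have e1 := FT_shear g s 1 z
    have e0 := FT_shear g s 0 z
    rw [mul_zero, zero_mul, neg_zero, ch_zero] at e0
    rw [mul_one] at e1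
    rw [add_mul, ← e0, ← e1]
    unfold FT
    rw [← sum_add_distrib]
    refine sum_congr rfl fun p _ => ?_
    push_cast
    ring
  have h3 : ∀ z : ZMod m × ZMod m, ‖1 + ch (-(s * z.1))‖ = 2 * cs z.1 := by
    intro z
    have : cs (-(s * z.1)) = cs z.1 := by
      rcases hs with rfl | rfl
      · rw [one_mul, cs_neg]
      · simp
    rw [← this]; unfold cs; ring
  have h4 := congrArg re h1
  rw [← ofReal_natCast, ← ofReal_pow, ← ofReal_mul, ofReal_re] at h4
  rw [← h4]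
  refine (re_le_norm _).trans ((norm_sum_le _ _).trans ?_)
  have h5 : ∑ z : ZMod m × ZMod m, cs z.1 * (gam (da z.2) (da (z.2 - 2 * (-s) * z.1)) *
      ‖FT g z‖ ^ 2) = ∑ z : ZMod m × ZMod m, cs z.1 * (gam (da (z.2 - 2 * s * z.1)) (da z.2) *
      ‖FT g (z.1, z.2 - 2 * s * z.1)‖ ^ 2) := by
    symm
    refine Fintype.sum_equiv ⟨fun z => (z.1, z.2 - 2 * s * z.1),
      fun z => (z.1, z.2 + 2 * s * z.1), fun p => by simp, fun q => by simp⟩ _ _ fun z => ?_
    simp only [Equiv.coe_fn_mk]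
    congr 4
    ring
  simp only [mul_add, sum_add_distrib]
  rw [h5, ← sum_add_distrib]
  refine sum_le_sum fun z _ => ?_
  have h6 := h2 z
  simp only [mul_add] at h6
  rw [norm_mul, norm_conj, h6, norm_mul, h3, ← mul_add]
  have h7 := mul_le_mul_of_nonneg_left (amgm (da z.2) (da (z.2 - 2 * s * z.1)) ‖FT f z‖
    ‖FT g (z.1, z.2 - 2 * s * z.1)‖) (cs_nonneg z.1)
  linarith

theorem shear (f g : ZMod m × ZMod m → ℝ) :
    (m : ℝ) ^ 2 * ∑ p, f p * ∑ i : Bool × Bool, g (step (true, i) p) ≤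
      ∑ z, cs z.1 * ps z.1 z.2 * (‖FT f z‖ ^ 2 + ‖FT g z‖ ^ 2) := by
  have h1 := shear_one f g 1 (Or.inl rfl)
  have h2 := shear_one f g (-1) (Or.inr rfl)
  have h3 := add_le_add h1 h2
  rw [← mul_add, ← sum_add_distrib, ← sum_add_distrib] at h3
  refine le_trans (le_of_eq ?_) (h3.trans (le_of_eq ?_))
  · congr 1
    refine sum_congr rfl fun p _ => ?_
    simp only [Fintype.sum_prod_type, Fintype.sum_bool, step, if_true, Bool.false_eq_true,
      if_false]
    ring
  · refine sum_congr rfl fun p _ => ?_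
    unfold ps
    rw [neg_neg]
    ring

theorem FT_swap (f : ZMod m × ZMod m → ℝ) (z : ZMod m × ZMod m) :
    FT (fun p => f p.swap) z = FT f z.swap := by
  unfold FT
  refine Fintype.sum_equiv (Equiv.prodComm _ _) _ _ fun p => ?_
  simp [add_comm]

/-- the adjacency operator -/
def op (g : ZMod m × ZMod m → ℝ) (p : ZMod m × ZMod m) : ℝ := ∑ i, g (step i p)

theorem bilin (f g : ZMod m × ZMod m → ℝ) (hf : ∑ p, f p = 0) (hg : ∑ p, g p = 0) :
    ∑ p, f p * op g p ≤ 77 / 20 * (∑ p, f p ^ 2 + ∑ p, g p ^ 2) := by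
  have hm : (0 : ℝ) < (m : ℝ) ^ 2 := by
    have : (0 : ℝ) < m := by exact_mod_cast Nat.pos_of_ne_zero (NeZero.ne m)
    positivity
  have h1 := shear f g
  have h2 := shear (fun p => f p.swap) (fun p => g p.swap)
  simp only [FT_swap] at h2
  rw [← (Equiv.prodComm _ _).sum_comp, ← (Equiv.prodComm (ZMod m) (ZMod m)).sum_comp
    (fun z => cs z.1 * ps z.1 z.2 * _)] at h2
  simp only [Equiv.prodComm_apply, Prod.swap_swap, Prod.fst_swap, Prod.snd_swap] at h2
  have h3 := add_le_add h1 h2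
  rw [← mul_add, ← sum_add_distrib, ← sum_add_distrib] at h3
  have h4 : ∀ p, f p * ∑ i : Bool × Bool, g (step (true, i) p) +
      f p * ∑ i : Bool × Bool, g (step (true, i) p.swap).swap = f p * op g p := by
    intro p
    rw [op, Fintype.sum_prod_type (γ := ℝ) (α₁ := Bool) (α₂ := Bool × Bool), Fintype.sum_bool,
      mul_add]
    rfl
  simp only [h4] at h3
  have h0 : ∀ f : ZMod m × ZMod m → ℝ, ∑ p, f p = 0 → FT f 0 = 0 := by
    intro f hf
    simp only [FT, Prod.fst_zero, Prod.snd_zero, zero_mul, add_zero, ch_zero, mul_one]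
    exact_mod_cast hf
  refine le_of_mul_le_mul_left (h3.trans ?_) hm
  rw [mul_left_comm, mul_add, ← planch_norm, ← planch_norm, ← sum_add_distrib, mul_sum]
  refine sum_le_sum fun z _ => ?_
  rw [← add_mul]
  by_cases hz : z = 0
  · rw [hz, h0 f hf, h0 g hg]; simp
  · exact mul_le_mul_of_nonneg_right (kappa_le z hz) (by positivity)

theorem step_inj (i : Bool × Bool × Bool) : Function.Injective (step (m := m) i) := by
  rintro ⟨a, b⟩ ⟨c, d⟩ h
  unfold step at h
  by_cases h1 : i.1 = true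
  · rw [if_pos h1, if_pos h1, Prod.mk.injEq] at h
    obtain ⟨h2, rfl⟩ := h
    exact Prod.ext (add_right_cancel h2) rfl
  · rw [if_neg h1, if_neg h1, Prod.mk.injEq] at h
    obtain ⟨rfl, h2⟩ := h
    exact Prod.ext rfl (add_right_cancel h2)

theorem op_sum (g : ZMod m × ZMod m → ℝ) (hg : ∑ p, g p = 0) : ∑ p, op g p = 0 := by
  unfold op
  rw [sum_comm]
  refine sum_eq_zero fun i _ => ?_
  rw [← hg]
  exact (Finite.injective_iff_bijective.1 (step_inj i)).sum_comp g

theorem op_sq (g : ZMod m × ZMod m → ℝ) (hg : ∑ p, g p = 0) :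
    ∑ p, op g p ^ 2 ≤ 60 * ∑ p, g p ^ 2 := by
  have h1 := bilin (fun p => op g p / 8) g (by rw [← sum_div, op_sum g hg, zero_div]) hg
  have h2 : ∑ p, op g p / 8 * op g p = (∑ p, op g p ^ 2) / 8 := by
    rw [sum_div]; exact sum_congr rfl fun p _ => by ring
  have h3 : ∑ p, (op g p / 8) ^ 2 = (∑ p, op g p ^ 2) / 64 := by
    rw [sum_div]; exact sum_congr rfl fun p _ => by ring
  rw [h2, h3] at h1
  have h4 : 0 ≤ ∑ p, g p ^ 2 := sum_nonneg fun _ _ => sq_nonneg _
  linarith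

omit [NeZero m] in
theorem walk_cons {t : ℕ} (i : Bool × Bool × Bool) (g : Fin t → Bool × Bool × Bool)
    (p : ZMod m × ZMod m) : walk (Fin.cons i g : Fin (t + 1) → _) p = step i (walk g p) := by
  unfold walk
  rw [List.ofFn_cons]
  rfl

theorem walk_inj {t : ℕ} (g : Fin t → Bool × Bool × Bool) :
    Function.Injective (walk (m := m) g) := by
  induction t with
  | zero => intro p q h; simpa [walk] using h
  | succ t ih =>
    intro p q h
    rw [← Fin.cons_self_tail g, walk_cons, walk_cons] at h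
    exact ih _ (step_inj _ h)

theorem walk_sq (t : ℕ) : ∀ f : ZMod m × ZMod m → ℝ, ∑ p, f p = 0 →
    ∑ p, (∑ g : Fin t → Bool × Bool × Bool, f (walk g p)) ^ 2 ≤ 60 ^ t * ∑ p, f p ^ 2 := by
  induction t with
  | zero => intro f _; simp [walk]
  | succ t ih =>
    intro f hf
    have h1 : ∀ p, ∑ g : Fin (t + 1) → Bool × Bool × Bool, f (walk g p) =
        ∑ g : Fin t → Bool × Bool × Bool, op f (walk g p) := by
      intro p
      rw [Mono.sum_cons, sum_comm]
      simp only [walk_cons, op]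
    simp only [h1]
    refine (ih _ (op_sum f hf)).trans ?_
    rw [pow_succ, mul_assoc]
    exact mul_le_mul_of_nonneg_left (op_sq f hf) (by positivity)

/-- expander mixing -/
theorem mixing {t : ℕ} {lam u : ℝ} (hl : 0 ≤ lam) (ht : (60 / 64 : ℝ) ^ t ≤ lam ^ 2)
    (U U' : Finset (ZMod m × ZMod m)) (hU : (U.card : ℝ) ≤ u) (hU' : (U'.card : ℝ) ≤ u) :
    Mono.cnt (fun q : (Fin t → Bool × Bool × Bool) × (ZMod m × ZMod m) =>
      q.2 ∈ U ∧ walk q.1 q.2 ∈ U') ≤ 8 ^ t * (u * (u / (m : ℝ) ^ 2 + lam)) := by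
  classical
  have hm : (0 : ℝ) < (m : ℝ) ^ 2 := by
    have : (0 : ℝ) < m := by exact_mod_cast Nat.pos_of_ne_zero (NeZero.ne m)
    positivity
  have hu : 0 ≤ u := le_trans (Nat.cast_nonneg _) hU
  obtain ⟨μ, hμ⟩ : ∃ μ : ℝ, μ = U'.card / (m : ℝ) ^ 2 := ⟨_, rfl⟩
  have hμ0 : 0 ≤ μ := by rw [hμ]; positivity
  have hμ1 : μ * (m : ℝ) ^ 2 = U'.card := by rw [hμ]; exact div_mul_cancel₀ _ hm.ne'
  let f : ZMod m × ZMod m → ℝ := fun p => (if p ∈ U' then 1 else 0) - μ
  have hc : (Fintype.card (ZMod m × ZMod m) : ℝ) = (m : ℝ) ^ 2 := by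
    simp [ZMod.card, sq]
  have hf : ∑ p, f p = 0 := by
    simp only [f, sum_sub_distrib, sum_boole, sum_const, card_univ, nsmul_eq_mul, hc]
    simp
    linarith
  have hf2 : ∑ p, f p ^ 2 ≤ u := by
    have h1 : ∀ p, f p ^ 2 = (1 - 2 * μ) * (if p ∈ U' then 1 else 0) + μ ^ 2 := by
      intro p; simp only [f]; split_ifs <;> ring
    simp only [h1, sum_add_distrib, ← mul_sum, sum_boole, sum_const, card_univ, nsmul_eq_mul, hc]
    simp only [filter_mem_eq_inter, univ_inter]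
    have : (0 : ℝ) ≤ μ * U'.card := by positivity
    nlinarith
  have hd : (Fintype.card (Fin t → Bool × Bool × Bool) : ℝ) = 8 ^ t := by simp
  have h1 : Mono.cnt (fun q : (Fin t → Bool × Bool × Bool) × (ZMod m × ZMod m) =>
      q.2 ∈ U ∧ walk q.1 q.2 ∈ U') =
      ∑ p ∈ U, (∑ g : Fin t → Bool × Bool × Bool, f (walk g p)) + U.card * (8 ^ t * μ) := by
    rw [Mono.cnt_eq_sum, Fintype.sum_prod_type_right]
    simp only [f, sum_sub_distrib, sum_const, card_univ, nsmul_eq_mul, hd, sub_add_cancel]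
    rw [← sum_subset (subset_univ U) fun p _ hp => by simp [hp]]
    refine sum_congr rfl fun p hp => sum_congr rfl fun g _ => ?_
    simp [hp]
  have h2 := sq_sum_le_card_mul_sum_sq (s := U)
    (f := fun p => ∑ g : Fin t → Bool × Bool × Bool, f (walk g p))
  have h3 : ∑ p ∈ U, (∑ g : Fin t → Bool × Bool × Bool, f (walk g p)) ^ 2 ≤
      60 ^ t * u := (sum_le_sum_of_subset_of_nonneg (subset_univ U) fun _ _ _ =>
        sq_nonneg _).trans ((walk_sq t f hf).trans
          (mul_le_mul_of_nonneg_left hf2 (by positivity)))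
  have h4 : (60 : ℝ) ^ t ≤ (8 ^ t * lam) ^ 2 := by
    rw [div_pow, div_le_iff₀ (by positivity)] at ht
    rw [mul_pow, ← pow_mul, mul_comm t 2, pow_mul, mul_comm]
    norm_num
    exact ht
  have h5 : (∑ p ∈ U, ∑ g : Fin t → Bool × Bool × Bool, f (walk g p)) ^ 2 ≤
      (8 ^ t * lam * u) ^ 2 := by
    refine h2.trans ((mul_le_mul hU (h3.trans (mul_le_mul_of_nonneg_right h4 hu))
      (sum_nonneg fun _ _ => sq_nonneg _) hu).trans (le_of_eq (by ring)))
  have h6 := (abs_le_of_sq_le_sq' h5 (by positivity)).2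
  have h7 : μ ≤ u / (m : ℝ) ^ 2 := by rw [hμ]; gcongr
  have h8 : (U.card : ℝ) * (8 ^ t * μ) ≤ u * (8 ^ t * (u / (m : ℝ) ^ 2)) := by gcongr
  rw [h1]
  linarith

end Pool.Agent.P.MP_b53add_lc.RealC
end

-- part Pool.Agent.P.MP_b53add_lc.SpPool
section

set_option autoImplicit false
set_option linter.unusedSectionVars false

namespace Pool.Agent.P.MP_b53add_lc.Sp

open Finset Classical Mono RealC

section Abstract

variable {A W : Type} [Fintype A] [DecidableEq A] [Fintype W]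

/-- a vertex and two of its neighbours -/
def cherry (g : W → A → A) (θ : A × (W × W)) : Fin 3 → A := ![θ.1, g θ.2.1 θ.1, g θ.2.2 θ.1]

theorem cherry_cnt (g : W → A → A) (U0 U1 U2 : Finset A) :
    cnt (fun θ : A × (W × W) => θ.1 ∈ U0 ∧ g θ.2.1 θ.1 ∈ U1 ∧ g θ.2.2 θ.1 ∈ U2) =
      ∑ u ∈ U0, cnt (fun w => g w u ∈ U1) * cnt (fun w => g w u ∈ U2) := by
  simp only [cnt_ind]
  rw [Fintype.sum_prod_type]
  refine (sum_subset (subset_univ U0) fun u _ hu =>
    sum_eq_zero fun q _ => if_neg fun h => hu h.1).symm.trans (sum_congr rfl fun u hu => ?_)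
  rw [Fintype.sum_prod_type, sum_mul_sum]
  refine sum_congr rfl fun w _ => sum_congr rfl fun w' _ => ?_
  unfold ind
  by_cases h1 : g w u ∈ U1 <;> by_cases h2 : g w' u ∈ U2 <;> simp [hu, h1, h2]

theorem slice_le (S : Finset (Fin 3 × A)) (j : Fin 3) :
    ((univ.filter fun a => (j, a) ∈ S).card : ℝ) ≤ S.card := by
  exact_mod_cast card_le_card_of_injOn (fun a => (j, a))
    (fun a ha => by simpa using ha) (fun a _ b _ e => congrArg Prod.snd e)

theorem good_cherry [Nonempty A] {g : W → A → A} {lam : ℝ} (h0 : 0 ≤ lam) (h1 : lam ≤ 1)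
    (hL : ∀ (U0 U : Finset A) (x : ℝ), (U.card : ℝ) ≤ x * Fintype.card A →
      ∑ u ∈ U0, cnt (fun w => g w u ∈ U) ^ 2 ≤
        2 * (Fintype.card W : ℝ) ^ 2 * (lam ^ 2 * x * Fintype.card A + U0.card * x ^ 2)) :
    Good (cherry g) lam := by
  have hn0 : (0 : ℝ) < Fintype.card A := by exact_mod_cast Fintype.card_pos
  have hd : (0 : ℝ) ≤ Fintype.card W := Nat.cast_nonneg _
  have hc : (Fintype.card (A × (W × W)) : ℝ) = Fintype.card A * (Fintype.card W : ℝ) ^ 2 := by
    simp [sq]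
  have k2 : ∀ (U0 U1 U2 : Finset A) (x : ℝ), (U1.card : ℝ) ≤ x * Fintype.card A →
      (U2.card : ℝ) ≤ x * Fintype.card A →
      ∑ u ∈ U0, cnt (fun w => g w u ∈ U1) * cnt (fun w => g w u ∈ U2) ≤
        2 * (Fintype.card W : ℝ) ^ 2 * (lam ^ 2 * x * Fintype.card A + U0.card * x ^ 2) := by
    intro U0 U1 U2 x a1 a2
    have a3 : ∑ u ∈ U0, 2 * (cnt (fun w => g w u ∈ U1) * cnt (fun w => g w u ∈ U2)) ≤
        ∑ u ∈ U0, (cnt (fun w => g w u ∈ U1) ^ 2 + cnt (fun w => g w u ∈ U2) ^ 2) :=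
      sum_le_sum fun u _ => by nlinarith [sq_nonneg (cnt (fun w => g w u ∈ U1) -
        cnt (fun w => g w u ∈ U2))]
    rw [← mul_sum, sum_add_distrib] at a3
    linarith [hL U0 U1 x a1, hL U0 U2 x a2]
  have k1 : ∀ (U0 U : Finset A) (x : ℝ), (U0.card : ℝ) ≤ x * Fintype.card A →
      (U.card : ℝ) ≤ x * Fintype.card A → (∑ u ∈ U0, cnt (fun w => g w u ∈ U)) * Fintype.card W ≤
        Fintype.card (A × (W × W)) * (2 * x * (x + lam)) := by
    intro U0 U x a1 a2
    have hx : 0 ≤ x := nonneg_of_mul_nonneg_left (le_trans (Nat.cast_nonneg _) a1) hn0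
    have a3 := sq_sum_le_card_mul_sum_sq (s := U0) (f := fun u => cnt fun w => g w u ∈ U)
    have a4 : lam ^ 2 * x * Fintype.card A + U0.card * x ^ 2 ≤
        2 * (x * Fintype.card A * (x + lam) ^ 2) := by
      have b1 := mul_le_mul_of_nonneg_right a1 (sq_nonneg x)
      have b2 : 0 ≤ x * Fintype.card A * (x ^ 2 + 4 * x * lam + lam ^ 2) := by positivity
      nlinarith
    have a5 := a3.trans (mul_le_mul a1 ((hL U0 U x a2).trans (mul_le_mul_of_nonneg_left a4
      (by positivity))) (sum_nonneg fun _ _ => sq_nonneg _) (by positivity))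
    have a6 := (abs_le_of_sq_le_sq' (b := 2 * Fintype.card W * (x * Fintype.card A) * (x + lam))
      (a5.trans (le_of_eq (by ring))) (by positivity)).2
    refine (mul_le_mul_of_nonneg_right a6 hd).trans (le_of_eq ?_)
    rw [hc]; ring
  have hu : ∀ u, cnt (fun w => g w u ∈ (univ : Finset A)) = Fintype.card W := fun u => by
    simp [cnt]
  refine ⟨fun S x hS => ?_, fun S x hS => ?_⟩
  · have hx : 0 ≤ x := nonneg_of_mul_nonneg_left (le_trans (Nat.cast_nonneg _) hS) hn0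
    have hsl := fun j => (slice_le S j).trans hS
    have p01 : cnt (fun θ => ((0 : Fin 3), cherry g θ 0) ∈ S ∧ ((1 : Fin 3), cherry g θ 1) ∈ S) ≤
        Fintype.card (A × (W × W)) * (2 * x * (x + lam)) := by
      refine le_trans ((cnt_mono fun θ h => ?_).trans (cherry_cnt g (univ.filter fun a => ((0 : Fin 3), a) ∈ S)
        (univ.filter fun a => ((1 : Fin 3), a) ∈ S) univ).le)
        (le_trans (le_of_eq ?_) (k1 _ _ x (hsl 0) (hsl 1)))
      · exact ⟨mem_filter.2 ⟨mem_univ _, h.1⟩, mem_filter.2 ⟨mem_univ _, h.2⟩, mem_univ _⟩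
      · simp only [hu, sum_mul]
    have p02 : cnt (fun θ => ((0 : Fin 3), cherry g θ 0) ∈ S ∧ ((2 : Fin 3), cherry g θ 2) ∈ S) ≤
        Fintype.card (A × (W × W)) * (2 * x * (x + lam)) := by
      refine le_trans ((cnt_mono fun θ h => ?_).trans (cherry_cnt g (univ.filter fun a => ((0 : Fin 3), a) ∈ S)
        univ (univ.filter fun a => ((2 : Fin 3), a) ∈ S)).le)
        (le_trans (le_of_eq ?_) (k1 _ _ x (hsl 0) (hsl 2)))
      · exact ⟨mem_filter.2 ⟨mem_univ _, h.1⟩, mem_univ _, mem_filter.2 ⟨mem_univ _, h.2⟩⟩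
      · simp only [hu, sum_mul, mul_comm (Fintype.card W : ℝ)]
    have p12 : cnt (fun θ => ((1 : Fin 3), cherry g θ 1) ∈ S ∧ ((2 : Fin 3), cherry g θ 2) ∈ S) ≤
        Fintype.card (A × (W × W)) * (2 * x * (x + lam)) := by
      refine le_trans ((cnt_mono fun θ h => ?_).trans (cherry_cnt g univ _ _).le)
        ((k2 _ _ _ x (hsl 1) (hsl 2)).trans ?_)
      · exact ⟨mem_univ _, mem_filter.2 ⟨mem_univ _, h.1⟩, mem_filter.2 ⟨mem_univ _, h.2⟩⟩
      · rw [hc, card_univ]
        have b1 : 0 ≤ Fintype.card A * (Fintype.card W : ℝ) ^ 2 * x * (lam * (1 - lam)) := by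
          have : 0 ≤ 1 - lam := by linarith
          positivity
        nlinarith
    intro i j hij
    fin_cases i <;> fin_cases j
    · exact absurd rfl hij
    · exact p01
    · exact p02
    · exact (cnt_mono fun _ h => h.symm).trans p01
    · exact absurd rfl hij
    · exact p12
    · exact (cnt_mono fun _ h => h.symm).trans p02
    · exact (cnt_mono fun _ h => h.symm).trans p12
    · exact absurd rfl hij
  · have hsl := fun j => (slice_le S j).trans hS
    refine le_trans ((cnt_mono fun θ h => ?_).trans (cherry_cnt g _ _ _).le)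
      ((k2 (univ.filter fun a => ((0 : Fin 3), a) ∈ S) _ _ x (hsl 1) (hsl 2)).trans ?_)
    · exact ⟨mem_filter.2 ⟨mem_univ _, h 0⟩, mem_filter.2 ⟨mem_univ _, h 1⟩,
        mem_filter.2 ⟨mem_univ _, h 2⟩⟩
    · rw [hc]
      have b1 := mul_le_mul_of_nonneg_left (mul_le_mul_of_nonneg_right (hsl 0) (sq_nonneg x))
        (show 0 ≤ 2 * (Fintype.card W : ℝ) ^ 2 by positivity)
      nlinarith

end Abstract

theorem walk_deg {m : ℕ} [NeZero m] {t : ℕ} {lam x : ℝ} (ht : (60 / 64 : ℝ) ^ t ≤ lam ^ 2)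
    (U0 U : Finset (ZMod m × ZMod m)) (hU : (U.card : ℝ) ≤ x * Fintype.card (ZMod m × ZMod m)) :
    ∑ u ∈ U0, cnt (fun w : Fin t → Bool × Bool × Bool => walk w u ∈ U) ^ 2 ≤
      2 * (Fintype.card (Fin t → Bool × Bool × Bool) : ℝ) ^ 2 *
        (lam ^ 2 * x * Fintype.card (ZMod m × ZMod m) + U0.card * x ^ 2) := by
  have hm : (0 : ℝ) < Fintype.card (ZMod m × ZMod m) := by exact_mod_cast Fintype.card_pos
  obtain ⟨μ, hμ⟩ : ∃ μ : ℝ, μ = U.card / Fintype.card (ZMod m × ZMod m) := ⟨_, rfl⟩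
  have hμ0 : 0 ≤ μ := by rw [hμ]; positivity
  have hμ1 : μ * Fintype.card (ZMod m × ZMod m) = U.card := by
    rw [hμ]; exact div_mul_cancel₀ _ hm.ne'
  have hμ2 : μ ≤ x := le_of_mul_le_mul_right (hμ1.le.trans hU) hm
  let f : ZMod m × ZMod m → ℝ := fun p => ind (p ∈ U) - μ
  have hs : ∑ p, ind (p ∈ U) = U.card := by
    rw [← cnt_ind]; simp [cnt]
  have hf : ∑ p, f p = 0 := by
    simp only [f, sum_sub_distrib, hs, sum_const, card_univ, nsmul_eq_mul]
    linarith
  have hf2 : ∑ p, f p ^ 2 ≤ x * Fintype.card (ZMod m × ZMod m) := by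
    have h1 : ∀ p, f p ^ 2 = (1 - 2 * μ) * ind (p ∈ U) + μ ^ 2 := by
      intro p; simp only [f, ind]; split_ifs <;> ring
    simp only [h1, sum_add_distrib, ← mul_sum, hs, sum_const, card_univ, nsmul_eq_mul]
    have : (0 : ℝ) ≤ μ * U.card := by positivity
    nlinarith
  have hd : (Fintype.card (Fin t → Bool × Bool × Bool) : ℝ) = 8 ^ t := by simp
  have h1 : ∀ u, cnt (fun w : Fin t → Bool × Bool × Bool => walk w u ∈ U) ^ 2 ≤
      2 * (∑ w : Fin t → Bool × Bool × Bool, f (walk w u)) ^ 2 + 2 * (8 ^ t * x) ^ 2 := by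
    intro u
    have e1 : cnt (fun w : Fin t → Bool × Bool × Bool => walk w u ∈ U) =
        ∑ w : Fin t → Bool × Bool × Bool, f (walk w u) + 8 ^ t * μ := by
      simp only [cnt_ind, f, sum_sub_distrib, sum_const, card_univ, nsmul_eq_mul, hd,
        sub_add_cancel]
    have a1 : (8 ^ t * μ) ^ 2 ≤ (8 ^ t * x) ^ 2 := by gcongr
    rw [e1]
    nlinarith [sq_nonneg (∑ w : Fin t → Bool × Bool × Bool, f (walk w u) - 8 ^ t * μ)]
  have h4 : (60 : ℝ) ^ t ≤ (8 ^ t * lam) ^ 2 := by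
    rw [div_pow, div_le_iff₀ (by positivity)] at ht
    rw [mul_pow, ← pow_mul, mul_comm t 2, pow_mul, mul_comm]
    norm_num
    exact ht
  have h3 : ∑ p ∈ U0, (∑ w : Fin t → Bool × Bool × Bool, f (walk w p)) ^ 2 ≤
      (8 ^ t * lam) ^ 2 * (x * Fintype.card (ZMod m × ZMod m)) :=
    (sum_le_sum_of_subset_of_nonneg (subset_univ U0) fun _ _ _ => sq_nonneg _).trans
      ((walk_sq t f hf).trans (mul_le_mul h4 hf2 (sum_nonneg fun _ _ => sq_nonneg _)
        (sq_nonneg _)))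
  refine (sum_le_sum fun u _ => h1 u).trans ?_
  rw [sum_add_distrib, ← mul_sum, sum_const, nsmul_eq_mul, hd]
  linarith

theorem good_mgg : ∃ t : ℕ, ∀ (m : ℕ) [NeZero m],
    Good (cherry (walk (m := m) (t := t))) (1 / 10 ^ 25) := by
  obtain ⟨t, ht⟩ := exists_pow_lt_of_lt_one (x := (1 / 10 ^ 25 : ℝ) ^ 2) (y := 60 / 64)
    (by norm_num) (by norm_num)
  exact ⟨t, fun m _ => good_cherry (by norm_num) (by norm_num) fun U0 U x h =>
    walk_deg ht.le U0 U h⟩

end Pool.Agent.P.MP_b53add_lc.Sp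
end

-- part Pool.Agent.P.MP_b53add_lc.SpLines
section

set_option autoImplicit false
set_option linter.unusedSectionVars false

namespace Pool.Agent.P.MP_b53add_lc.Sp

open Finset Classical Mono
open RealC hiding InPool Good small_world

theorem lines {A Θ : Type} [Fintype A] [DecidableEq A] [Fintype Θ] [Nonempty Θ]
    {tr : Θ → Fin 3 → A} (H : Good tr (1 / 10 ^ 25)) {n k T c : ℕ} (hk : 1 ≤ k)
    (hTk : T = 1000 * k)
    (hA : 10 ^ 18 * T ≤ Fintype.card A) (hA' : Fintype.card A ≤ 2 * 10 ^ 18 * T)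
    (hn : n ≤ 24 * 10 ^ 27 * T) (hc : c = 10 ^ 9) (e : (Fin 3 × A) × Fin c → Fin n)
    (he : Function.Injective e) (Ok : Cl (Fin n) → Prop)
    (hOk : ∀ θ (g : Fin 3 × A → Fin c),
      Ok fun j => (e ((cl tr θ j).1, g (cl tr θ j).1), (cl tr θ j).2))
    {ι : Type} [Fintype ι] (rk : ι → ℕ) (B : ι → ℝ → (Fin n → Bool) → Prop)
    (hB : ∀ k s s' x, s ≤ s' → B k s x → B k s' x)
    (h : ∀ Φ : Finset (Cl (Fin n)), (∀ c ∈ Φ, Ok c) → (∀ y, ∃ c ∈ Φ, ¬ Sat y c) → ∃ a : ι → ℝ,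
      (∀ k, ∃ X : Bool → (Fin n → Bool) → Prop, (∀ x, B k (a k) x → ∃ b, X b x) ∧ ∀ b,
        (∃ i, rk i < rk k ∧ ∀ x, X b x → B i (a i) x) ∨ (∃ c ∈ Φ, ∀ x, X b x → ¬ Sat x c) ∨
          ∀ x, ¬ X b x) ∧ ∃ k, ∀ x, B k (a k) x) :
    2 ^ T < Fintype.card ι := by
  by_contra hcon
  push Not at hcon
  have hT : 1 ≤ T := by omega
  have hι : (Fintype.card ι : ℝ) ≤ 2 ^ T := by exact_mod_cast hcon
  obtain ⟨E, hE1, hE2, hE3⟩ := RealC.removal rk B (Thin T)
  let B' : ι → ℝ → (Fin n → Bool) → Prop := fun k s x => B k s x ∧ ¬ E (rk k) x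
  have hB' : ∀ k s s' x, s ≤ s' → B' k s x → B' k s' x :=
    fun k s s' x h1 h2 => ⟨hB k s s' x h1 h2.1, h2.2⟩
  obtain ⟨g, hS, hS0⟩ := choose_g hT hn hc (α := Fin 3 × A)
    (by rw [Fintype.card_prod, Fintype.card_fin]; omega) e he hι B' hB'
  obtain ⟨φ, hφ0, hφ, hgap, hfin⟩ := small_world H hk hTk hA hA' hcon
    (fun k s => {y | ∃ x, B' k s x ∧ ∀ i, x (e (i, g i)) = y i})
    (fun k s => {y | ∃ x, (B' k s x ∧ ¬ Thin T (B' k s) x) ∧ ∀ i, x (e (i, g i)) = y i})
    (fun k s s' hs y ⟨x, h1, h2⟩ => ⟨x, hB' k s s' x hs h1, h2⟩) (by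
      rintro k s τ hτ ⟨y, ⟨x, ⟨hx1, hx2⟩, hx3⟩, hy⟩
      have hc : (τ.image fun l => (e (l.1, g l.1), l.2)).card ≤ T := card_image_le.trans hτ
      have hag : Ag x (τ.image fun l => (e (l.1, g l.1), l.2)) := by
        intro l hl
        obtain ⟨l', hl', rfl⟩ := mem_image.1 hl
        exact (hx3 _).trans (hy l' hl')
      obtain ⟨Z, hZ, ⟨y0, hy0⟩, hZ'⟩ := hS k s _ x hc hx1 hag hx2
      refine ⟨Z, ⟨hZ, fun y' hy' => ?_⟩, y0, fun l hl => ?_⟩
      · obtain ⟨x', h1, h2⟩ := hZ' y' hy'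
        exact ⟨x', h1.1, h2⟩
      · rcases mem_union.1 hl with h1 | h1
        · exact hy0 l h1
        · obtain ⟨x', h2, h3⟩ := hZ' y0 hy0
          exact (h3 _).symm.trans (h2.2 (e (l.1, g l.1), l.2) (mem_image.2 ⟨l, h1, rfl⟩)))
  obtain ⟨a, hA, k0, hk0⟩ := h (φ.image fun c j => (e ((c j).1, g (c j).1), (c j).2)) (by
    intro d hd
    obtain ⟨d', hd', rfl⟩ := mem_image.1 hd
    obtain ⟨θ, rfl⟩ := hφ0 d' hd'
    exact hOk θ g) (by
    intro x
    obtain ⟨c, hc, hs⟩ := hφ fun i => x (e (i, g i))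
    exact ⟨_, mem_image.2 ⟨c, hc, rfl⟩, hs⟩)
  have main : ∀ t k, rk k < t →
      G (66 * T) φ (2 * T) {y | ∃ x, B' k (a k) x ∧ ∀ i, x (e (i, g i)) = y i} := by
    intro t
    induction t with
    | zero => intro k hk; omega
    | succ t ih =>
      intro k hk
      obtain ⟨X, hX, hp⟩ := hA k
      have h1 : ∀ b, G (66 * T) φ T {y | ∃ x, (B' k (a k) x ∧ X b x) ∧ ∀ i, x (e (i, g i)) = y i} := by
        intro b
        rcases hp b with ⟨i, h2, h3⟩ | ⟨c, hc, h3⟩ | h3
        · refine (hgap i (a i) (ih i (by omega))).mono ?_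
          rintro y ⟨x, ⟨h4, h5⟩, h6⟩
          exact ⟨x, ⟨⟨h3 x h5, fun h7 => h4.2 (hE1 _ _ x h2.le h7)⟩,
            fun h7 => h4.2 (hE1 _ _ x h2 (hE2 i (a i) x h7))⟩, h6⟩
        · obtain ⟨d, hd, rfl⟩ := mem_image.1 hc
          refine ((G_fals hd).le hT).mono ?_
          rintro y ⟨x, ⟨-, h5⟩, h6⟩ ⟨j, hj⟩
          exact h3 x h5 ⟨j, (h6 _).trans hj⟩
        · refine (G_empty T).mono ?_
          rintro y ⟨x, ⟨-, h5⟩, -⟩
          exact h3 x h5
      rw [two_mul]
      refine ((h1 false).union (h1 true)).mono ?_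
      rintro y ⟨x, h2, h3⟩
      obtain ⟨b, hb⟩ := hX x h2.1
      cases b
      · exact Or.inl ⟨x, ⟨h2, hb⟩, h3⟩
      · exact Or.inr ⟨x, ⟨h2, hb⟩, h3⟩
  refine hfin ((main _ k0 (Nat.lt_succ_self _)).mono fun y _ => ?_)
  obtain ⟨x, h1, h2⟩ := hS0 y
  exact ⟨x, ⟨hk0 x, fun h3 => h1 (hE3 _ x h3)⟩, h2⟩

theorem blk_ext {m v w : ℕ} (h : blk m v = blk m w) (h' : v / (m * m) = w / (m * m)) :
    v = w := by
  have h1 : v % m = w % m := (ZMod.natCast_eq_natCast_iff' _ _ _).1 (congrArg Prod.fst h)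
  have h2 : v / m % m = w / m % m := (ZMod.natCast_eq_natCast_iff' _ _ _).1 (congrArg Prod.snd h)
  rw [← Nat.div_div_eq_div_mul, ← Nat.div_div_eq_div_mul] at h'
  have h3 : v / m = w / m := by
    rw [← Nat.div_add_mod (v / m) m, ← Nat.div_add_mod (w / m) m, h', h2]
  rw [← Nat.div_add_mod v m, ← Nat.div_add_mod w m, h3, h1]

theorem blk_emb {m : ℕ} [NeZero m] (p : ZMod m × ZMod m) (i : ℕ) :
    blk m (p.1.val + m * (p.2.val + m * i)) = p := by
  have hm : 0 < m := Nat.pos_of_ne_zero (NeZero.ne m)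
  unfold blk
  rw [Nat.add_mul_div_left _ _ hm, Nat.div_eq_of_lt (ZMod.val_lt _), zero_add]
  simp

theorem sqrt_bounds {c n : ℕ} (hc : 0 < c) (hn : c ≤ n) :
    0 < Nat.sqrt (n / c) ∧ c * (Nat.sqrt (n / c) * Nat.sqrt (n / c)) ≤ n ∧
      n < 4 * c * (Nat.sqrt (n / c) * Nat.sqrt (n / c)) := by
  have h1 : 0 < Nat.sqrt (n / c) := Nat.sqrt_pos.2 (Nat.div_pos hn hc)
  have h2 := Nat.sqrt_le (n / c)
  have h3 := Nat.lt_succ_sqrt (n / c)
  have h4 := Nat.mul_div_le n c
  have h5 := Nat.lt_mul_div_succ n hc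
  generalize Nat.sqrt (n / c) = m at *
  generalize n / c = q at *
  refine ⟨h1, (Nat.mul_le_mul_left c h2).trans h4, h5.trans_le ?_⟩
  have h6 : q + 1 ≤ 4 * (m * m) := by
    simp only [Nat.succ_eq_add_one] at h3
    nlinarith
  calc c * (q + 1) ≤ c * (4 * (m * m)) := Nat.mul_le_mul_left c h6
    _ = _ := by ring

theorem pool_card {c t n : ℕ} (hc : 0 < c) (hn : c ≤ n) :
    Nat.card {C : Finset (Fin n × Bool) // InPool c t n C} ≤ 128 * c ^ 2 * 64 ^ t * n := by
  obtain ⟨h1, -, h3⟩ := sqrt_bounds hc hn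
  obtain ⟨m, hm⟩ : ∃ m, m = Nat.sqrt (n / c) := ⟨_, rfl⟩
  have h4 : ∀ C : {C : Finset (Fin n × Bool) // InPool c t n C},
      ∃ (u v w : Fin n × Bool) (g g' : Fin t → Bool × Bool × Bool), C.1 = {u, v, w} ∧
        blk m v.1 = walk g (blk m u.1) ∧ blk m w.1 = walk g' (blk m u.1) := fun C => hm ▸ C.2
  rw [← hm] at h1 h3
  choose u v w g g' h5 h6 h6' using h4
  have h7 : ∀ x : Fin n × Bool, x.1.val / (m * m) < 4 * c := fun x =>
    (Nat.div_lt_iff_lt_mul (Nat.mul_pos h1 h1)).2 (x.1.2.trans h3)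
  refine (Nat.card_le_card_of_injective (fun C => (u C, (g C, g' C),
    ((⟨_, h7 (v C)⟩ : Fin (4 * c)), (v C).2), ((⟨_, h7 (w C)⟩ : Fin (4 * c)), (w C).2)))
    fun C D e => ?_).trans (le_of_eq ?_)
  · simp only [Prod.mk.injEq, Fin.mk.injEq] at e
    obtain ⟨e1, ⟨e3, e4⟩, ⟨e5, e6⟩, e7, e8⟩ := e
    have a1 : v C = v D := Prod.ext (Fin.ext (blk_ext (by rw [h6, h6, e1, e3]) e5)) e6
    have a2 : w C = w D := Prod.ext (Fin.ext (blk_ext (by rw [h6', h6', e1, e4]) e7)) e8
    exact Subtype.ext (by rw [h5 C, h5 D, e1, a1, a2])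
  · simp only [Nat.card_eq_fintype_card, Fintype.card_prod, Fintype.card_fin, Fintype.card_bool,
      Fintype.card_fun]
    rw [show 64 = 2 * (2 * 2) * (2 * (2 * 2)) by norm_num, mul_pow (2 * (2 * 2))]
    generalize (2 * (2 * 2)) ^ t = d
    ring

theorem main : ∃ (c t K n₁ : ℕ) (δ : ℝ), 0 < δ ∧ ∀ n, n₁ ≤ n →
    Nat.card {C : Finset (Fin n × Bool) // InPool c t n C} ≤ K * n ∧
    ∀ (s : ℕ) (a b : Fin s → {C : Finset (Fin n × Bool) // InPool c t n C} ⊕ Fin s)
      (F : Fin s → ℝ → ℝ → ℝ) (o : Fin s)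
      (v : ({C : Finset (Fin n × Bool) // InPool c t n C} → Bool) →
        {C : Finset (Fin n × Bool) // InPool c t n C} ⊕ Fin s → ℝ),
      (∀ j k, a j = Sum.inr k ∨ b j = Sum.inr k → k < j) →
      (∀ j p p' q q', p ≤ p' → q ≤ q' → F j p q ≤ F j p' q') →
      (∀ x C, v x (Sum.inl C) = if x C = true then 1 else 0) →
      (∀ x j, v x (Sum.inr j) = F j (v x (a j)) (v x (b j))) →
      (∀ x, 0 < v x (Sum.inr o) ↔
        ¬ ∃ y : Fin n → Bool, ∀ C, x C = true → ∃ l ∈ C.1, y l.1 = l.2) →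
      (2 : ℝ) ^ (δ * n) ≤ s := by
  obtain ⟨t, ht⟩ := good_mgg
  obtain ⟨c, hc⟩ : ∃ c : ℕ, c = 10 ^ 9 := ⟨_, rfl⟩
  refine ⟨3 * c, t, 128 * (3 * c) ^ 2 * 64 ^ t, 12 * 10 ^ 30, 1 / (24 * 10 ^ 27), by norm_num,
    fun n hn => ⟨pool_card (by omega) (by omega), ?_⟩⟩
  intro s a b F o v h1 h2 h3 h4 h5
  obtain ⟨m1, m2, m3⟩ := sqrt_bounds (c := 3 * c) (n := n) (by omega) (by omega)
  obtain ⟨m, hm⟩ : ∃ m, m = Nat.sqrt (n / (3 * c)) := ⟨_, rfl⟩
  rw [← hm] at m1 m2 m3
  have : NeZero m := ⟨m1.ne'⟩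
  obtain ⟨k, hk⟩ : ∃ k, k = m * m / 10 ^ 21 := ⟨_, rfl⟩
  obtain ⟨T, hT⟩ : ∃ T, T = 1000 * k := ⟨_, rfl⟩
  have hcard : Fintype.card (ZMod m × ZMod m) = m * m := by simp [ZMod.card]
  have hlt : ∀ q : (Fin 3 × (ZMod m × ZMod m)) × Fin c,
      q.1.2.1.val + m * (q.1.2.2.val + m * (q.1.1.val + 3 * q.2.val)) < n := by
    intro q
    have a1 := ZMod.val_lt q.1.2.1
    have a2 := ZMod.val_lt q.1.2.2
    have a3 : q.1.1.val + 3 * q.2.val + 1 ≤ 3 * c := by have := q.1.1.2; have := q.2.2; omega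
    have a4 := Nat.mul_le_mul_left m a3
    have a5 : q.1.2.2.val + m * (q.1.1.val + 3 * q.2.val) + 1 ≤ m * (3 * c) := by nlinarith
    have a6 := Nat.mul_le_mul_left m a5
    nlinarith
  let tru : (Fin n → Bool) → {C : Finset (Fin n × Bool) // InPool (3 * c) t n C} → Bool :=
    fun y C => decide (∃ l ∈ C.1, y l.1 = l.2)
  have hmm : 12 * 10 ^ 30 < 4 * (3 * 10 ^ 9) * (m * m) := by rw [← hc]; omega
  have hn' : n < 4 * (3 * 10 ^ 9) * (m * m) := by rw [← hc]; exact m3
  have hl := lines (ht m) (n := n) (k := k) (T := T) (c := c) (by omega) hT (by rw [hcard]; omega)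
    (by rw [hcard]; omega) (by omega) hc (fun q => ⟨_, hlt q⟩) (by
      rintro ⟨⟨j, p⟩, i⟩ ⟨⟨j', p'⟩, i'⟩ e
      have e1 := congrArg Fin.val e
      simp only at e1
      have e2 : p = p' := by rw [← blk_emb p (j.val + 3 * i.val), e1, blk_emb]
      subst e2
      have e3 := Nat.eq_of_mul_eq_mul_left m1
        (Nat.add_left_cancel (Nat.eq_of_mul_eq_mul_left m1 (Nat.add_left_cancel e1)))
      have := j.2
      have := j'.2
      exact Prod.ext (Prod.ext (Fin.ext (by simp only; omega)) rfl) (Fin.ext (by simp only; omega)))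
    (fun d => InPool (3 * c) t n (univ.image d)) (by
      intro θ g
      refine ⟨_, _, _, θ.1.2.1, θ.1.2.2, by
        rw [show (univ : Finset (Fin 3)) = {0, 1, 2} from rfl, image_insert, image_insert,
          image_singleton], ?_⟩
      rw [← hm]
      simp only [blk_emb]
      exact ⟨rfl, rfl⟩)
    (fun j : Fin s => j.val) (fun j r y => v (tru y) (Sum.inr j) < r)
    (fun k r r' x h h' => h'.trans_le h) (by
      intro Φ hΦ0 hΦ
      let x : {C : Finset (Fin n × Bool) // InPool (3 * c) t n C} → Bool :=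
        fun C => decide (∃ d ∈ Φ, C.1 = univ.image d)
      refine ⟨fun j => v x (Sum.inr j), fun k => ⟨fun β y =>
        v (tru y) (if β = true then a k else b k) < v x (if β = true then a k else b k),
        fun y hy => ?_, fun β => ?_⟩, o, fun y => ?_⟩
      · by_contra hc
        push Not at hc
        have c1 := hc true
        have c2 := hc false
        simp only [if_true, Bool.false_eq_true, if_false] at c1 c2
        have := h2 k _ _ _ _ c1 c2
        rw [← h4, ← h4] at this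
        exact absurd hy (not_lt.2 this)
      · have c1 : ∀ i, (if β = true then a k else b k) = Sum.inr i → i < k := by
          intro i hi
          cases β
          · exact h1 k i (Or.inr hi)
          · exact h1 k i (Or.inl hi)
        beta_reduce
        generalize (if β = true then a k else b k) = u at c1 ⊢
        rcases u with C | i
        · by_cases hx : x C = true
          · obtain ⟨d, hd, hC⟩ := of_decide_eq_true hx
            refine Or.inr (Or.inl ⟨d, hd, fun y hy ⟨j, hj⟩ => ?_⟩)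
            rw [h3, h3, if_pos hx, if_pos (decide_eq_true
              ⟨d j, hC ▸ mem_image_of_mem _ (mem_univ _), hj⟩)] at hy
            exact lt_irrefl _ hy
          · refine Or.inr (Or.inr fun y hy => ?_)
            rw [h3, h3, if_neg hx] at hy
            split_ifs at hy <;> linarith
        · exact Or.inl ⟨i, c1 i rfl, fun y hy => hy⟩
      · refine lt_of_le_of_lt (not_lt.1 fun h => (h5 _).1 h
          ⟨y, fun C hC => of_decide_eq_true hC⟩) ((h5 x).2 ?_)
        rintro ⟨z, hz⟩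
        obtain ⟨d, hd, hs⟩ := hΦ z
        obtain ⟨l, hl, hl'⟩ := hz ⟨univ.image d, hΦ0 d hd⟩ (decide_eq_true ⟨d, hd, rfl⟩)
        obtain ⟨j, -, rfl⟩ := mem_image.1 hl
        exact hs ⟨j, hl'⟩)
  rw [Fintype.card_fin] at hl
  have h6 : (2 : ℝ) ^ (T : ℝ) ≤ s := by
    rw [Real.rpow_natCast]
    exact_mod_cast hl.le
  refine le_trans (Real.rpow_le_rpow_of_exponent_le (by norm_num) ?_) h6
  have h7 : (n : ℝ) ≤ 24 * 10 ^ 27 * T := by
    exact_mod_cast (by omega : n ≤ 24 * 10 ^ 27 * T)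
  linarith

end Pool.Agent.P.MP_b53add_lc.Sp
end
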