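import Mathlib

-- part Pool.Agent.P.MP_b53add_lc.S3Chain
section

/-! A decreasing chain of minimal solutions along a random removal order. -/

namespace Pool.Agent.P.MP_b53add_lc.S3

open Finset

variable {m : ℕ}

/-- A minimal subset of `Z` with property `R`. -/
noncomputable def mn (R : Finset (Fin m) → Prop) (Z : Finset (Fin m)) : Finset (Fin m) :=
  Classical.epsilon fun Z' => Z' ⊆ Z ∧ R Z' ∧ ∀ Z'' ⊂ Z', ¬R Z''

theorem mn_spec {R : Finset (Fin m) → Prop} {Z : Finset (Fin m)} (h : R Z) :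
    mn R Z ⊆ Z ∧ R (mn R Z) ∧ ∀ Z'' ⊂ mn R Z, ¬R Z'' := by
  classical
  refine Classical.epsilon_spec (p := fun Z' => Z' ⊆ Z ∧ R Z' ∧ ∀ Z'' ⊂ Z', ¬R Z'') ?_
  obtain ⟨Z', h1, h2⟩ := exists_min_image (Z.powerset.filter R) card
    ⟨Z, mem_filter.2 ⟨mem_powerset.2 Subset.rfl, h⟩⟩
  obtain ⟨h3, h4⟩ := mem_filter.1 h1
  refine ⟨Z', mem_powerset.1 h3, h4, fun Z'' h5 h6 => ?_⟩
  have := h2 Z'' (mem_filter.2 ⟨mem_powerset.2 (h5.1.trans (mem_powerset.1 h3)), h6⟩)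
  have := card_lt_card h5
  omega

/-- The tags that are left after `j` removals; `ρ i` is the time at which `i` is removed. -/
def vis (ρ : Equiv.Perm (Fin m)) (j : ℕ) : Finset (Fin m) := univ.filter fun i => j ≤ (ρ i : ℕ)

@[simp] theorem mem_vis {ρ : Equiv.Perm (Fin m)} {j : ℕ} {i : Fin m} :
    i ∈ vis ρ j ↔ j ≤ (ρ i : ℕ) := by simp [vis]

theorem card_vis (ρ : Equiv.Perm (Fin m)) (j : ℕ) : (vis ρ j).card = m - j := by
  have h : (vis ρ j).card = (univ.filter fun i : Fin m => j ≤ (i : ℕ)).card :=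
    card_bij (fun i _ => ρ i) (fun i hi => by simpa using hi)
      (fun a _ b _ h => ρ.injective h) fun b hb => ⟨ρ.symm b, by simpa using hb, by simp⟩
  rw [h, ← Nat.card_Ico]
  refine card_bij (fun i _ => (i : ℕ)) (fun i hi => by simpa using hi)
    (fun a _ b _ h => Fin.ext h) fun b hb => ?_
  obtain ⟨h1, h2⟩ := mem_Ico.1 hb
  exact ⟨⟨b, h2⟩, by simpa using h1, rfl⟩

/-- The chain. -/
noncomputable def ch (Sl : Finset (Fin m) → Finset (Fin m) → Prop) (τ : Finset (Fin m))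
    (ρ : Equiv.Perm (Fin m)) : ℕ → Finset (Fin m)
  | 0 => mn (Sl (vis ρ 0 ∩ τ)) τ
  | j + 1 => mn (Sl (vis ρ (j + 1) ∩ τ)) (ch Sl τ ρ j)

/-- The properties of solutions that the chain needs. -/
structure Ok (Sl : Finset (Fin m) → Finset (Fin m) → Prop) (τ : Finset (Fin m)) : Prop where
  top : Sl τ τ
  mono : ∀ X X' Z, Sl X Z → X' ⊆ X → Sl X' Z
  drop : ∀ X Z i, Sl X Z → i ∈ Z → Sl (X.erase i) (Z.erase i) → Sl X (Z.erase i)

variable {Sl : Finset (Fin m) → Finset (Fin m) → Prop} {τ : Finset (Fin m)}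
  {ρ : Equiv.Perm (Fin m)}

theorem vis_anti (ρ : Equiv.Perm (Fin m)) {j j' : ℕ} (h : j ≤ j') : vis ρ j' ⊆ vis ρ j :=
  fun _ hi => mem_vis.2 (h.trans (mem_vis.1 hi))

theorem ch_sol (h : Ok Sl τ) (ρ : Equiv.Perm (Fin m)) (j : ℕ) :
    Sl (vis ρ j ∩ τ) (ch Sl τ ρ j) := by
  induction j with
  | zero => exact (mn_spec (h.mono _ _ _ h.top inter_subset_right)).2.1
  | succ j ih =>
    exact (mn_spec (h.mono _ _ _ ih
      (inter_subset_inter (vis_anti ρ (Nat.le_succ j)) Subset.rfl))).2.1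

theorem ch_succ (h : Ok Sl τ) (ρ : Equiv.Perm (Fin m)) (j : ℕ) :
    ch Sl τ ρ (j + 1) ⊆ ch Sl τ ρ j :=
  (mn_spec (h.mono _ _ _ (ch_sol h ρ j)
    (inter_subset_inter (vis_anti ρ (Nat.le_succ j)) Subset.rfl))).1

theorem ch_anti (h : Ok Sl τ) (ρ : Equiv.Perm (Fin m)) : Antitone (ch Sl τ ρ) :=
  antitone_nat_of_succ_le (ch_succ h ρ)

theorem ch_min (h : Ok Sl τ) (ρ : Equiv.Perm (Fin m)) (j : ℕ) :
    ∀ B ⊂ ch Sl τ ρ j, ¬Sl (vis ρ j ∩ τ) B := by
  cases j with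
  | zero => exact (mn_spec (h.mono _ _ _ h.top inter_subset_right)).2.2
  | succ j =>
    exact (mn_spec (h.mono _ _ _ (ch_sol h ρ j)
      (inter_subset_inter (vis_anti ρ (Nat.le_succ j)) Subset.rfl))).2.2

/-- An element never leaves alone at its own removal. -/
theorem ch_second (h : Ok Sl τ) {j : ℕ} {i : Fin m} (hi : i ∈ ch Sl τ ρ j) (hr : (ρ i : ℕ) = j)
    (hn : i ∉ ch Sl τ ρ (j + 1)) : ∃ i' ≠ i, i' ∈ ch Sl τ ρ j ∧ i' ∉ ch Sl τ ρ (j + 1) := by
  by_contra hc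
  push Not at hc
  have h1 : ch Sl τ ρ (j + 1) = (ch Sl τ ρ j).erase i := by
    ext x
    rw [mem_erase]
    exact ⟨fun hx => ⟨fun e => hn (e ▸ hx), ch_succ h ρ j hx⟩, fun hx => hc x hx.1 hx.2⟩
  have h2 : (vis ρ j ∩ τ).erase i ⊆ vis ρ (j + 1) ∩ τ := by
    intro x hx
    simp only [mem_erase, mem_inter, mem_vis] at hx ⊢
    refine ⟨?_, hx.2.2⟩
    have : (ρ x : ℕ) ≠ ρ i := fun e => hx.1 (ρ.injective (Fin.ext e))
    omega
  have h3 := h.mono _ _ _ (ch_sol h ρ (j + 1)) h2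
  rw [h1] at h3
  exact ch_min h ρ j _ (erase_ssubset hi) (h.drop _ _ _ (ch_sol h ρ j) hi h3)

theorem ch_congr {ρ ρ' : Equiv.Perm (Fin m)} {j : ℕ} (h : ∀ j' ≤ j, vis ρ j' = vis ρ' j') :
    ch Sl τ ρ j = ch Sl τ ρ' j := by
  induction j with
  | zero => simp only [ch, h 0 le_rfl]
  | succ j ih => simp only [ch, h (j + 1) le_rfl, ih fun j' hj => h j' (hj.trans (Nat.le_succ j))]

variable (Sl τ ρ)

/-- Is the tag removed at time `j` in the solution? -/
noncomputable def NN (j : ℕ) : ℕ := #{i ∈ ch Sl τ ρ j | (ρ i : ℕ) = j}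
/-- The visible part of the solution. -/
noncomputable def FF (j : ℕ) : ℕ := #{i ∈ ch Sl τ ρ j | j ≤ (ρ i : ℕ)}
/-- Visible tags that leave the solution. -/
noncomputable def II (j : ℕ) : ℕ :=
  #{i ∈ ch Sl τ ρ j | i ∉ ch Sl τ ρ (j + 1) ∧ j + 1 ≤ (ρ i : ℕ)}
/-- Tags that are in the solution after their removal, at some time in `[j₁, j₂]`. -/
noncomputable def DD (j₁ j₂ : ℕ) : Finset (Fin m) :=
  univ.filter fun i => ∃ j ∈ Icc j₁ j₂, (ρ i : ℕ) < j ∧ i ∈ ch Sl τ ρ j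

variable {Sl τ ρ}

theorem NN_le_one (j : ℕ) : NN Sl τ ρ j ≤ 1 :=
  card_le_one.2 fun _ ha _ hb =>
    ρ.injective (Fin.ext ((mem_filter.1 ha).2.trans (mem_filter.1 hb).2.symm))

theorem FF_rec (h : Ok Sl τ) (ρ : Equiv.Perm (Fin m)) (j : ℕ) :
    FF Sl τ ρ j = FF Sl τ ρ (j + 1) + NN Sl τ ρ j + II Sl τ ρ j := by
  have hs := ch_succ h ρ j
  unfold FF NN II
  rw [← card_union_of_disjoint, ← card_union_of_disjoint]
  · congr 1
    ext x
    simp only [mem_filter, mem_union]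
    constructor
    · rintro ⟨h1, h2⟩
      by_cases h3 : (ρ x : ℕ) = j
      · exact Or.inl (Or.inr ⟨h1, h3⟩)
      · by_cases h4 : x ∈ ch Sl τ ρ (j + 1)
        · exact Or.inl (Or.inl ⟨h4, by omega⟩)
        · exact Or.inr ⟨h1, h4, by omega⟩
    · rintro ((⟨h1, h2⟩ | ⟨h1, h2⟩) | ⟨h1, -, h2⟩)
      · exact ⟨hs h1, by omega⟩
      · exact ⟨h1, by omega⟩
      · exact ⟨h1, by omega⟩
  · rw [disjoint_left]
    intro x h1 h2
    simp only [mem_filter, mem_union] at h1 h2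
    rcases h1 with h1 | h1
    · exact h2.2.1 h1.1
    · omega
  · rw [disjoint_left]
    intro x h1 h2
    simp only [mem_filter] at h1 h2
    omega

theorem sum_FF (Sl : Finset (Fin m) → Finset (Fin m) → Prop) (τ : Finset (Fin m)) (j : ℕ) :
    ∑ ρ, FF Sl τ ρ j = (m - j) * ∑ ρ, NN Sl τ ρ j := by
  have h1 : ∀ ρ, FF Sl τ ρ j = ∑ u ∈ Ico j m, #{i ∈ ch Sl τ ρ j | (ρ i : ℕ) = u} := by
    intro ρ
    unfold FF
    rw [card_eq_sum_card_fiberwise (f := fun i => (ρ i : ℕ)) (t := Ico j m)]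
    · refine sum_congr rfl fun u hu => ?_
      rw [filter_filter]
      congr 1
      refine filter_congr fun x _ => ⟨fun h => h.2, fun h => ⟨?_, h⟩⟩
      rw [h]
      exact (mem_Ico.1 hu).1
    · intro x hx
      exact mem_coe.2 (mem_Ico.2 ⟨(mem_filter.1 (mem_coe.1 hx)).2, (ρ x).2⟩)
  simp_rw [h1]
  rw [sum_comm, ← Nat.card_Ico, ← smul_eq_mul, ← sum_const]
  refine sum_congr rfl fun u hu => ?_
  obtain ⟨h2, h3⟩ := mem_Ico.1 hu
  have hj : j < m := by omega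
  let s : Equiv.Perm (Fin m) := Equiv.swap ⟨u, h3⟩ ⟨j, hj⟩
  rw [← Equiv.sum_comp (Equiv.mulLeft s) fun ρ => NN Sl τ ρ j]
  refine sum_congr rfl fun ρ _ => ?_
  have h4 : ch Sl τ (s * ρ) j = ch Sl τ ρ j := by
    refine ch_congr fun j' hj' => ?_
    ext x
    simp only [mem_vis, Equiv.Perm.coe_mul, Function.comp, s, Equiv.swap_apply_def]
    split_ifs with h5 h6
    · rw [h5]; simp only; omega
    · rw [h6]; simp only; omega
    · rfl
  simp only [Equiv.coe_mulLeft, NN, h4]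
  congr 1
  refine filter_congr fun x _ => ?_
  simp only [Equiv.Perm.coe_mul, Function.comp, s, Equiv.swap_apply_def, Fin.ext_iff]
  split_ifs with h5 h6
  · simp [h5]
  · simp only; omega
  · omega

/-- Accounting over an epoch. -/
theorem sum_NN_le (h : Ok Sl τ) (ρ : Equiv.Perm (Fin m)) (j₁ j₂ : ℕ) :
    ∑ j ∈ Ico j₁ j₂, NN Sl τ ρ j ≤ 2 * (DD Sl τ ρ j₁ j₂).card + ∑ j ∈ Ico j₁ j₂, II Sl τ ρ j := by
  let D := DD Sl τ ρ j₁ j₂
  have h1 : ∀ j ∈ Ico j₁ j₂, NN Sl τ ρ j ≤ #{i ∈ D | (ρ i : ℕ) = j} +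
      #{i ∈ D | i ∈ ch Sl τ ρ j ∧ i ∉ ch Sl τ ρ (j + 1)} + II Sl τ ρ j := by
    intro j hj
    obtain ⟨hj1, hj2⟩ := mem_Ico.1 hj
    rcases Nat.eq_zero_or_pos (NN Sl τ ρ j) with h0 | h0
    · omega
    obtain ⟨i, hi⟩ := card_pos.1 h0
    obtain ⟨hi1, hi2⟩ := mem_filter.1 hi
    have hN := NN_le_one (Sl := Sl) (τ := τ) (ρ := ρ) j
    by_cases hs : i ∈ ch Sl τ ρ (j + 1)
    · have : 0 < #{i ∈ D | (ρ i : ℕ) = j} := card_pos.2 ⟨i, mem_filter.2 ⟨mem_filter.2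
        ⟨mem_univ _, j + 1, mem_Icc.2 ⟨by omega, by omega⟩, by omega, hs⟩, hi2⟩⟩
      omega
    · obtain ⟨i', h2, h3, h4⟩ := ch_second h hi1 hi2 hs
      have h5 : (ρ i' : ℕ) ≠ ρ i := fun e => h2 (ρ.injective (Fin.ext e))
      by_cases h6 : (ρ i' : ℕ) < j
      · have : 0 < #{i ∈ D | i ∈ ch Sl τ ρ j ∧ i ∉ ch Sl τ ρ (j + 1)} :=
          card_pos.2 ⟨i', mem_filter.2 ⟨mem_filter.2
            ⟨mem_univ _, j, mem_Icc.2 ⟨by omega, by omega⟩, h6, h3⟩, h3, h4⟩⟩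
        omega
      · have : 0 < II Sl τ ρ j := card_pos.2 ⟨i', mem_filter.2 ⟨h3, h4, by omega⟩⟩
        omega
  refine (sum_le_sum h1).trans ?_
  rw [sum_add_distrib, sum_add_distrib, two_mul]
  refine Nat.add_le_add_right (Nat.add_le_add ?_ ?_) _
  · rw [← card_biUnion]
    · exact card_le_card (biUnion_subset.2 fun j _ => filter_subset _ _)
    · intro a _ b _ hab
      rw [Function.onFun, disjoint_left]
      intro x h2 h3
      exact hab ((mem_filter.1 h2).2.symm.trans (mem_filter.1 h3).2)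
  · rw [← card_biUnion]
    · exact card_le_card (biUnion_subset.2 fun j _ => filter_subset _ _)
    · intro a _ b _ hab
      rw [Function.onFun, disjoint_left]
      intro x h2 h3
      obtain ⟨-, h4, h5⟩ := mem_filter.1 h2
      obtain ⟨-, h6, h7⟩ := mem_filter.1 h3
      rcases lt_or_gt_of_ne hab with h8 | h8
      · exact h5 (ch_anti h ρ (show a + 1 ≤ b by omega) h6)
      · exact h7 (ch_anti h ρ (show b + 1 ≤ a by omega) h4)

/-- The dyadic epochs. -/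
theorem dyadic {m L t : ℕ} (hm : m = t * 2 ^ L) (ht : 1 ≤ t) (n f i : ℕ → ℝ) {W s κ : ℝ}
    (hf : ∀ j ≤ m, f j = (m - j) * n j) (hrec : ∀ j, f j = f (j + 1) + n j + i j)
    (hi : ∀ j, 0 ≤ i j) (hn : ∀ j, 0 ≤ n j) (hW : n 0 ≤ W) (hκ : 0 ≤ κ)
    (hep : ∀ j₁ j₂, j₁ ≤ j₂ → j₂ ≤ m - t →
      ∑ j ∈ Ico j₁ j₂, n j ≤ (m - j₁ : ℕ) * s + κ * ∑ j ∈ Ico j₁ j₂, i j) :
    L * f (m - t) ≤ t * (2 * L * s + 2 * κ * W) := by
  have h1 : ∀ j, j + 1 ≤ m → i j = (m - j - 1) * (n j - n (j + 1)) := by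
    intro j hj
    have h2 := hrec j
    rw [hf j (by omega), hf (j + 1) hj] at h2
    push_cast at h2
    linarith
  have h2 : ∀ j, j + 2 ≤ m → n (j + 1) ≤ n j := by
    intro j hj
    have h3 := hi j
    rw [h1 j (by omega)] at h3
    have h4 : (j : ℝ) + 2 ≤ m := by exact_mod_cast hj
    have := nonneg_of_mul_nonneg_right h3 (by linarith)
    linarith
  have h3 : ∀ a b, a ≤ b → b + 1 ≤ m → n b ≤ n a := by
    intro a b hab hb
    induction b, hab using Nat.le_induction with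
    | base => exact le_rfl
    | succ b hab ih => exact (h2 b (by omega)).trans (ih (by omega))
  have ht' : (1 : ℝ) ≤ t := by exact_mod_cast ht
  have h4 : ∀ u, t ≤ u → 2 * u ≤ m →
      n (m - t) ≤ 2 * s + 2 * κ * (n (m - 2 * u) - n (m - u)) := by
    intro u hu hu2
    have h5 := hep (m - 2 * u) (m - u) (by omega) (by omega)
    have h6 : (u : ℝ) * n (m - t) ≤ ∑ j ∈ Ico (m - 2 * u) (m - u), n j := by
      have := card_nsmul_le_sum (Ico (m - 2 * u) (m - u)) n (n (m - t)) fun j hj =>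
        h3 j (m - t) (by have := (mem_Ico.1 hj).2; omega) (by omega)
      rwa [Nat.card_Ico, show m - u - (m - 2 * u) = u by omega, nsmul_eq_mul] at this
    have h7 : ∑ j ∈ Ico (m - 2 * u) (m - u), i j ≤ 2 * u * (n (m - 2 * u) - n (m - u)) := by
      have h8 : ∑ j ∈ Ico (m - 2 * u) (m - u), (n j - n (j + 1)) =
          n (m - 2 * u) - n (m - u) := by
        rw [sum_Ico_eq_sum_range]
        have := sum_range_sub' (fun l => n (m - 2 * u + l)) (m - u - (m - 2 * u))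
        simp only [add_zero] at this
        rw [show m - 2 * u + (m - u - (m - 2 * u)) = m - u by omega] at this
        exact this
      rw [← h8, mul_sum]
      refine sum_le_sum fun j hj => ?_
      obtain ⟨h9, h10⟩ := mem_Ico.1 hj
      rw [h1 j (by omega)]
      refine mul_le_mul_of_nonneg_right ?_ (sub_nonneg.2 (h2 j (by omega)))
      have : (m : ℝ) ≤ j + 2 * u := by exact_mod_cast (show m ≤ j + 2 * u by omega)
      linarith
    rw [show m - (m - 2 * u) = 2 * u by omega] at h5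
    push_cast at h5
    have hu' : (0 : ℝ) < u := by exact_mod_cast (show 0 < u by omega)
    refine le_of_mul_le_mul_left ?_ hu'
    have := mul_le_mul_of_nonneg_left h7 hκ
    nlinarith
  have h5 : ∀ l ≤ L, l * n (m - t) ≤ l * (2 * s) + 2 * κ * (n (m - t * 2 ^ l) - n (m - t)) := by
    intro l hl
    induction l with
    | zero => simp
    | succ l ih =>
      have h6 := h4 (t * 2 ^ l) (Nat.le_mul_of_pos_right _ (by positivity)) (by
        rw [hm, show 2 * (t * 2 ^ l) = t * 2 ^ (l + 1) by ring]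
        exact Nat.mul_le_mul_left _ (Nat.pow_le_pow_right (by norm_num) hl))
      rw [show 2 * (t * 2 ^ l) = t * 2 ^ (l + 1) by ring] at h6
      have h7 := ih (by omega)
      push_cast
      linarith
  have h6 := h5 L le_rfl
  have h7 : t ≤ m := hm ▸ Nat.le_mul_of_pos_right _ (by positivity)
  rw [← hm, Nat.sub_self] at h6
  rw [hf (m - t) (by omega), Nat.cast_sub h7, show (m : ℝ) - (m - t) = t by ring]
  have h8 : 2 * κ * (n 0 - n (m - t)) ≤ 2 * κ * W :=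
    mul_le_mul_of_nonneg_left (by linarith [hn (m - t)]) (by positivity)
  have h9 : (L : ℝ) * n (m - t) ≤ 2 * L * s + 2 * κ * W := by linarith
  have := mul_le_mul_of_nonneg_left h9 (show (0 : ℝ) ≤ t by positivity)
  linarith

end Pool.Agent.P.MP_b53add_lc.S3
end

-- part Pool.Agent.P.MP_b53add_lc.S3Enc
section

/-! Hidden members of the chain are rare: an encoding argument. -/

namespace Pool.Agent.P.MP_b53add_lc.S3

open Finset

set_option linter.unusedSectionVars false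

variable {Ω Cl : Type*} [Fintype Ω] [DecidableEq Ω] [DecidableEq Cl] {m : ℕ}

/-- `Z` satisfies every clause whose negated inputs are switched on by `X ∪ Z`. -/
def Sol (ψ : Finset (Finset Cl × Finset Cl)) (g : Fin m → Cl) (X Z : Finset (Fin m)) : Prop :=
  ∀ r ∈ ψ, Disjoint r.1 r.2 → r.1 ⊆ (X ∪ Z).image g → ∃ i ∈ Z, g i ∈ r.2

theorem ok_sol {ψ : Finset (Finset Cl × Finset Cl)} {g : Fin m → Cl} {τ : Finset (Fin m)}
    (h : Sol ψ g τ τ) : Ok (Sol ψ g) τ where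
  top := h
  mono := fun _ _ _ h1 h2 r hr hd hs =>
    h1 r hr hd (hs.trans (image_subset_image (union_subset_union h2 Subset.rfl)))
  drop := fun X Z i h1 _ h2 r hr hd hs => by
    by_cases hi : g i ∈ r.1
    · obtain ⟨i', h3, h4⟩ := h1 r hr hd
        (hs.trans (image_subset_image (union_subset_union Subset.rfl (erase_subset _ _))))
      refine ⟨i', mem_erase.2 ⟨fun e => ?_, h3⟩, h4⟩
      rw [e] at h4
      exact disjoint_left.1 hd hi h4
    · refine h2 r hr hd fun C hC => ?_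
      obtain ⟨x, hx, rfl⟩ := mem_image.1 (hs hC)
      have hxi : x ≠ i := fun e => hi (e ▸ hC)
      refine mem_image_of_mem _ ?_
      simp only [mem_union, mem_erase] at hx ⊢
      tauto

/-- A violated clause, if there is one. -/
noncomputable def viol (ψ : Finset (Finset Cl × Finset Cl)) (U W : Finset Cl) :
    Finset Cl × Finset Cl :=
  Classical.epsilon fun r => r ∈ ψ ∧ Disjoint r.1 r.2 ∧ r.1 ⊆ U ∧ Disjoint W r.2

/-- The values that repair the violated clause. -/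
noncomputable def pick (ψ : Finset (Finset Cl × Finset Cl)) (κ : Ω → Cl) (U W : Finset Cl) :
    Finset Ω := univ.filter fun ω => viol ψ U W ∈ ψ ∧ κ ω ∈ (viol ψ U W).2

def tags (Λ : List (ℕ × Fin m)) : Finset (Fin m) := (Λ.map Prod.snd).toFinset

/-- The known part of the solution. -/
def bs (ρ : Equiv.Perm (Fin m)) (E : Fin m → ℕ) (j : ℕ) (Λ : List (ℕ × Fin m)) :
    Finset (Fin m) := ((vis ρ j).filter fun i => j < E i) ∪ tags Λ

/-- A valid list of picks; the head is the last pick. -/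
def Val (ψ : Finset (Finset Cl × Finset Cl)) (κ : Ω → Cl) (ρ : Equiv.Perm (Fin m))
    (τ : Finset (Fin m)) (E : Fin m → ℕ) (c : Fin m → Ω) : List (ℕ × Fin m) → Prop
  | [] => True
  | p :: Λ => Val ψ κ ρ τ E c Λ ∧ (ρ p.2 : ℕ) < p.1 ∧ p.2 ∉ tags Λ ∧ (∀ q ∈ Λ, p.1 ≤ q.1) ∧
      c p.2 ∈ pick ψ κ ((vis ρ p.1 ∩ τ ∪ bs ρ E p.1 Λ).image (κ ∘ c))
        ((bs ρ E p.1 Λ).image (κ ∘ c))

variable {ψ : Finset (Finset Cl × Finset Cl)} {κ : Ω → Cl} {ρ : Equiv.Perm (Fin m)}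
  {τ : Finset (Fin m)} {E : Fin m → ℕ}

theorem tags_cons (p : ℕ × Fin m) (Λ : List (ℕ × Fin m)) :
    tags (p :: Λ) = insert p.2 (tags Λ) := by simp [tags]

theorem mem_tags {Λ : List (ℕ × Fin m)} {i : Fin m} : i ∈ tags Λ ↔ ∃ p ∈ Λ, p.2 = i := by
  simp only [tags, List.mem_toFinset, List.mem_map]

theorem image_update {T : Finset (Fin m)} {i : Fin m} (h : i ∉ T) (c : Fin m → Ω) (ω : Ω) :
    T.image (κ ∘ Function.update c i ω) = T.image (κ ∘ c) :=
  image_congr fun x hx => by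
    have : x ≠ i := fun e => h (e ▸ mem_coe.1 hx)
    simp [Function.update_of_ne this]

theorem notMem_bs {i : Fin m} {j : ℕ} {Λ : List (ℕ × Fin m)} (h1 : (ρ i : ℕ) < j)
    (h2 : i ∉ tags Λ) : i ∉ bs ρ E j Λ ∧ i ∉ vis ρ j ∩ τ ∪ bs ρ E j Λ := by
  simp only [bs, mem_union, mem_filter, mem_inter, mem_vis, h2, or_false]
  omega

theorem val_update {i : Fin m} (c : Fin m → Ω) (ω : Ω) (Λ : List (ℕ × Fin m))
    (h1 : ∀ q ∈ Λ, (ρ i : ℕ) < q.1) (h2 : i ∉ tags Λ) :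
    Val ψ κ ρ τ E (Function.update c i ω) Λ ↔ Val ψ κ ρ τ E c Λ := by
  induction Λ with
  | nil => simp [Val]
  | cons p Λ ih =>
    rw [tags_cons, mem_insert, not_or] at h2
    have h3 := notMem_bs (τ := τ) (E := E) (h1 p List.mem_cons_self) h2.2
    simp only [Val]
    rw [ih (fun q hq => h1 q (List.mem_cons_of_mem _ hq)) h2.2, image_update h3.1,
      image_update h3.2, Function.update_of_ne (Ne.symm h2.1)]

open Classical in
theorem count_step (Q : (Fin m → Ω) → Prop) (A : (Fin m → Ω) → Finset Ω) (i : Fin m) {K : ℕ}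
    (hQ : ∀ c ω, Q c → Q (Function.update c i ω)) (hA : ∀ c ω, A (Function.update c i ω) = A c)
    (hK : ∀ c, (A c).card ≤ K) :
    #{c | Q c ∧ c i ∈ A c} * Fintype.card Ω ≤ K * #{c | Q c} := by
  rw [← card_univ, ← card_product]
  refine le_trans (card_le_card_of_injOn
    (t := (univ.filter Q).sigma A) (fun p => ⟨Function.update p.1 i p.2, p.1 i⟩) ?_ ?_) ?_
  · intro p hp
    obtain ⟨h1, h2⟩ := (mem_filter.1 (mem_product.1 (mem_coe.1 hp)).1).2
    exact mem_coe.2 (mem_sigma.2 ⟨mem_filter.2 ⟨mem_univ _, hQ _ _ h1⟩, by rwa [hA]⟩)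
  · intro p _ p' _ h
    simp only [Sigma.mk.injEq, heq_eq_eq] at h
    have h2 : p.2 = p'.2 := by simpa using congrFun h.1 i
    refine Prod.ext (funext fun x => ?_) h2
    by_cases hx : x = i
    · rw [hx]; exact h.2
    · simpa [Function.update_of_ne hx] using congrFun h.1 x
  · rw [card_sigma, mul_comm, ← smul_eq_mul]
    exact sum_le_card_nsmul _ _ _ fun c _ => hK c

open Classical in
theorem count_val {K : ℕ} (hK : ∀ r ∈ ψ, #{ω | κ ω ∈ r.2} ≤ K) (Λ : List (ℕ × Fin m)) :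
    #{c | Val ψ κ ρ τ E c Λ} * Fintype.card Ω ^ Λ.length ≤ K ^ Λ.length * Fintype.card Ω ^ m := by
  induction Λ with
  | nil => simpa using (card_filter_le univ fun c => Val ψ κ ρ τ E c [])
  | cons p Λ ih =>
    by_cases hs : (ρ p.2 : ℕ) < p.1 ∧ p.2 ∉ tags Λ ∧ ∀ q ∈ Λ, p.1 ≤ q.1
    · obtain ⟨h1, h2, h3⟩ := hs
      have h4 := notMem_bs (τ := τ) (E := E) h1 h2
      have h5 := count_step (fun c => Val ψ κ ρ τ E c Λ)
        (fun c => pick ψ κ ((vis ρ p.1 ∩ τ ∪ bs ρ E p.1 Λ).image (κ ∘ c))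
          ((bs ρ E p.1 Λ).image (κ ∘ c))) p.2 (K := K)
        (fun c ω h => (val_update c ω Λ (fun q hq => h1.trans_le (h3 q hq)) h2).2 h)
        (fun c ω => by rw [image_update h4.1, image_update h4.2]) fun c => by
          unfold pick
          generalize viol ψ _ _ = r
          by_cases hr : r ∈ ψ
          · simpa [hr] using hK r hr
          · simp [hr]
      have h6 : #{c | Val ψ κ ρ τ E c (p :: Λ)} ≤ #{c | Val ψ κ ρ τ E c Λ ∧
          c p.2 ∈ pick ψ κ ((vis ρ p.1 ∩ τ ∪ bs ρ E p.1 Λ).image (κ ∘ c))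
            ((bs ρ E p.1 Λ).image (κ ∘ c))} := card_le_card fun c hc => by
        have := (mem_filter.1 hc).2
        exact mem_filter.2 ⟨mem_univ _, this.1, this.2.2.2.2⟩
      have h7 := (Nat.mul_le_mul_right (Fintype.card Ω) h6).trans (by simpa using h5)
      rw [List.length_cons, pow_succ', pow_succ', ← mul_assoc, mul_assoc K]
      refine (Nat.mul_le_mul_right _ h7).trans ?_
      rw [mul_assoc]
      exact Nat.mul_le_mul_left _ (by simpa using ih)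
    · rw [filter_eq_empty_iff.2 fun c _ h => hs ⟨h.2.1, h.2.2.1, h.2.2.2.1⟩]
      simp

/-- Lists of picks with sorted levels. -/
def LS (m : ℕ) : ℕ → ℕ → Finset (List (ℕ × Fin m))
  | 0, _ => {[]}
  | d + 1, j => (Icc j m ×ˢ univ).biUnion fun p => (LS m d p.1).image (List.cons p)

theorem len_LS {d j : ℕ} {Λ : List (ℕ × Fin m)} (h : Λ ∈ LS m d j) : Λ.length = d := by
  induction d generalizing j Λ with
  | zero => simpa [LS] using h
  | succ d ih =>
    simp only [LS, mem_biUnion, mem_image] at h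
    obtain ⟨p, -, Λ', h1, rfl⟩ := h
    rw [List.length_cons, ih h1]

theorem mem_LS {c : Fin m → Ω} {Λ : List (ℕ × Fin m)} (h : Val ψ κ ρ τ E c Λ) {j : ℕ}
    (h1 : ∀ p ∈ Λ, j ≤ p.1 ∧ p.1 ≤ m) : Λ ∈ LS m Λ.length j := by
  induction Λ generalizing j with
  | nil => simp [LS]
  | cons p Λ ih =>
    simp only [LS, List.length_cons, mem_biUnion, mem_image]
    exact ⟨p, mem_product.2 ⟨mem_Icc.2 (h1 p List.mem_cons_self), mem_univ _⟩, Λ,
      ih h.1 fun q hq => ⟨h.2.2.2.1 q hq, (h1 q (List.mem_cons_of_mem _ hq)).2⟩, rfl⟩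

theorem card_LS (m d j : ℕ) : (LS m d j).card ≤ (2 * m) ^ d * 2 ^ (m - j) := by
  induction d generalizing j with
  | zero => simpa [LS] using Nat.one_le_two_pow
  | succ d ih =>
    refine card_biUnion_le.trans ((sum_le_sum fun p _ => card_image_le.trans (ih p.1)).trans ?_)
    rw [sum_product]
    simp only [sum_const, card_univ, Fintype.card_fin, smul_eq_mul]
    rw [← mul_sum, ← mul_sum]
    have h1 : ∑ a ∈ Icc j m, 2 ^ (m - a) ≤ 2 * 2 ^ (m - j) := by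
      rw [← sum_image (s := Icc j m) (g := fun a => m - a) (f := fun l => 2 ^ l)
        (fun a ha b hb h => by
          have := (mem_Icc.1 (mem_coe.1 ha)).2
          have := (mem_Icc.1 (mem_coe.1 hb)).2
          simp only at h
          omega), ← pow_succ']
      refine (Nat.geomSum_lt le_rfl fun l hl => ?_).le
      obtain ⟨a, ha, rfl⟩ := mem_image.1 hl
      have := (mem_Icc.1 ha).1
      omega
    calc m * ((2 * m) ^ d * ∑ a ∈ Icc j m, 2 ^ (m - a)) ≤ m * ((2 * m) ^ d * (2 * 2 ^ (m - j))) :=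
          Nat.mul_le_mul_left _ (Nat.mul_le_mul_left _ h1)
      _ = (2 * m) ^ (d + 1) * 2 ^ (m - j) := by ring

/-- The number of expensive entries of the side information. -/
def oth (ρ : Equiv.Perm (Fin m)) (j₂ : ℕ) (E : Fin m → ℕ) : ℕ :=
  #{i | E i ≠ 0 ∧ E i ≠ j₂ + 1 ∧ E i ≠ ρ i + 1}

def ES (ρ : Equiv.Perm (Fin m)) (j₁ : ℕ) : Finset (Fin m → ℕ) :=
  Fintype.piFinset fun i => if j₁ ≤ (ρ i : ℕ) then range (m + 2) else {0}

theorem sum_ES (ρ : Equiv.Perm (Fin m)) (j₁ j₂ : ℕ) {x : ℝ} (hx : 0 ≤ x) (h : (m + 2) * x ≤ 1) :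
    ∑ E ∈ ES ρ j₁, x ^ oth ρ j₂ E ≤ 4 ^ (m - j₁) := by
  have h1 : ∀ E, x ^ oth ρ j₂ E =
      ∏ i, if E i ≠ 0 ∧ E i ≠ j₂ + 1 ∧ E i ≠ ρ i + 1 then x else 1 := by
    intro E
    rw [prod_ite, prod_const, prod_const_one, mul_one, oth]
  simp_rw [h1]
  rw [ES, ← prod_univ_sum (fun i => if j₁ ≤ (ρ i : ℕ) then range (m + 2) else {0})
    fun i v => if v ≠ 0 ∧ v ≠ j₂ + 1 ∧ v ≠ ρ i + 1 then x else 1]
  have h2 : (4 : ℝ) ^ (m - j₁) = ∏ i, if j₁ ≤ (ρ i : ℕ) then (4 : ℝ) else 1 := by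
    rw [prod_ite, prod_const, prod_const_one, mul_one, ← card_vis ρ j₁, vis]
  rw [h2]
  refine prod_le_prod (fun i _ => sum_nonneg fun v _ => by split_ifs <;> positivity) fun i _ => ?_
  split_ifs with h3
  · rw [sum_ite, sum_const, sum_const, nsmul_eq_mul, nsmul_eq_mul, mul_one]
    have h4 : (#{v ∈ range (m + 2) | v ≠ 0 ∧ v ≠ j₂ + 1 ∧ v ≠ ρ i + 1} : ℝ) ≤ m + 2 := by
      exact_mod_cast (card_filter_le _ _).trans (card_range _).le
    have h5 : (#{v ∈ range (m + 2) | ¬(v ≠ 0 ∧ v ≠ j₂ + 1 ∧ v ≠ ρ i + 1)} : ℝ) ≤ 3 := by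
      have : ({v ∈ range (m + 2) | ¬(v ≠ 0 ∧ v ≠ j₂ + 1 ∧ v ≠ ρ i + 1)} : Finset ℕ) ⊆
          {0, j₂ + 1, (ρ i : ℕ) + 1} := by
        intro v hv
        have := (mem_filter.1 hv).2
        simp only [mem_insert, mem_singleton]
        omega
      exact_mod_cast (card_le_card this).trans card_le_three
    have := mul_le_mul_of_nonneg_right h4 hx
    linarith
  · simp

/-- A long valid list of picks exists. -/
def BadC (ψ : Finset (Finset Cl × Finset Cl)) (κ : Ω → Cl) (ρ : Equiv.Perm (Fin m))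
    (M κ₀ j₁ j₂ : ℕ) (c : Fin m → Ω) : Prop :=
  ∃ τ ∈ (vis ρ j₁).powerset, ∃ E ∈ ES ρ j₁,
    ∃ Λ ∈ LS m ((m - j₁) / M + 1 + κ₀ * oth ρ j₂ E) j₁, Val ψ κ ρ τ E c Λ

open Classical in
theorem count_badC {K M κ₀ : ℕ} (hK : ∀ r ∈ ψ, #{ω | κ ω ∈ r.2} ≤ K) (hM : 1 ≤ M)
    (hΩ : 0 < Fintype.card Ω) (hq : 2 * m * K * 2 ^ (5 * M) ≤ Fintype.card Ω)
    (hκ : m + 2 ≤ 2 ^ (5 * M * κ₀)) (j₁ j₂ : ℕ) :
    (#{c | BadC ψ κ ρ M κ₀ j₁ j₂ c} : ℝ) ≤ (1 / 2) ^ (m - j₁) * Fintype.card Ω ^ m := by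
  set N : ℝ := (Fintype.card Ω : ℝ) with hN
  have hN0 : 0 < N := by rw [hN]; exact_mod_cast hΩ
  set u := m - j₁ with hu
  set p : ℝ := (1 / 2) ^ (5 * M) with hp
  have hp0 : 0 ≤ p := by positivity
  have h1 : 2 * m * K ≤ p * N := by
    have : (2 * m * K * 2 ^ (5 * M) : ℝ) ≤ N := by rw [hN]; exact_mod_cast hq
    rw [hp, one_div, inv_pow, ← div_eq_inv_mul, le_div_iff₀ (by positivity)]
    exact this
  have h2 : ∀ τ E d, ∑ Λ ∈ LS m d j₁, (#{c | Val ψ κ ρ τ E c Λ} : ℝ) ≤ 2 ^ u * p ^ d * N ^ m := by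
    intro τ E d
    have h3 : ∀ Λ ∈ LS m d j₁, (#{c | Val ψ κ ρ τ E c Λ} : ℝ) ≤ K ^ d * N ^ m / N ^ d := by
      intro Λ hΛ
      rw [le_div_iff₀ (by positivity), hN]
      have := count_val (ρ := ρ) (τ := τ) (E := E) hK Λ
      rw [len_LS hΛ] at this
      exact_mod_cast this
    refine (sum_le_card_nsmul _ _ _ h3).trans ?_
    rw [nsmul_eq_mul]
    have h4 : ((LS m d j₁).card : ℝ) ≤ (2 * m) ^ d * 2 ^ u := by exact_mod_cast card_LS m d j₁
    refine (mul_le_mul_of_nonneg_right h4 (by positivity)).trans ?_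
    rw [← mul_div_assoc, div_le_iff₀ (by positivity)]
    calc (2 * m : ℝ) ^ d * 2 ^ u * (K ^ d * N ^ m) = (2 * m * K) ^ d * (2 ^ u * N ^ m) := by
          rw [mul_pow (2 * m : ℝ)]; ring
      _ ≤ (p * N) ^ d * (2 ^ u * N ^ m) :=
          mul_le_mul_of_nonneg_right (pow_le_pow_left₀ (by positivity) h1 d) (by positivity)
      _ = 2 ^ u * p ^ d * N ^ m * N ^ d := by rw [mul_pow]; ring
  have h3 : (univ.filter fun c => BadC ψ κ ρ M κ₀ j₁ j₂ c) ⊆
      (vis ρ j₁).powerset.biUnion fun τ => (ES ρ j₁).biUnion fun E =>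
        (LS m (u / M + 1 + κ₀ * oth ρ j₂ E) j₁).biUnion fun Λ =>
          univ.filter fun c => Val ψ κ ρ τ E c Λ := by
    intro c hc
    obtain ⟨τ, h4, E, h5, Λ, h6, h7⟩ := (mem_filter.1 hc).2
    exact mem_biUnion.2 ⟨τ, h4, mem_biUnion.2 ⟨E, h5, mem_biUnion.2
      ⟨Λ, h6, mem_filter.2 ⟨mem_univ _, h7⟩⟩⟩⟩
  have h4 : (#{c | BadC ψ κ ρ M κ₀ j₁ j₂ c} : ℝ) ≤ ∑ τ ∈ (vis ρ j₁).powerset, ∑ E ∈ ES ρ j₁,
      ∑ Λ ∈ LS m (u / M + 1 + κ₀ * oth ρ j₂ E) j₁, (#{c | Val ψ κ ρ τ E c Λ} : ℝ) := by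
    exact_mod_cast (card_le_card h3).trans (card_biUnion_le.trans (sum_le_sum fun τ _ =>
      card_biUnion_le.trans (sum_le_sum fun E _ => card_biUnion_le)))
  have h5 : p ^ (u / M + 1) ≤ (1 / 2) ^ (5 * u) := by
    rw [hp, ← pow_mul]
    refine pow_le_pow_of_le_one (by norm_num) (by norm_num) ?_
    have := Nat.lt_mul_div_succ u (show 0 < M by omega)
    rw [mul_assoc]
    omega
  have h6 : ((m : ℝ) + 2) * p ^ κ₀ ≤ 1 := by
    have : ((m : ℝ) + 2) ≤ 2 ^ (5 * M * κ₀) := by exact_mod_cast hκ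
    rw [hp, ← pow_mul, one_div, inv_pow, ← div_eq_mul_inv, div_le_one (by positivity)]
    exact this
  have h7 := sum_ES ρ j₁ j₂ (pow_nonneg hp0 κ₀) h6
  have h8 : ∀ τ ∈ (vis ρ j₁).powerset, ∑ E ∈ ES ρ j₁,
      ∑ Λ ∈ LS m (u / M + 1 + κ₀ * oth ρ j₂ E) j₁, (#{c | Val ψ κ ρ τ E c Λ} : ℝ) ≤
      2 ^ u * (1 / 2) ^ (5 * u) * N ^ m * 4 ^ u := by
    intro τ _
    refine (sum_le_sum fun E _ => h2 τ E _).trans ?_
    calc ∑ E ∈ ES ρ j₁, 2 ^ u * p ^ (u / M + 1 + κ₀ * oth ρ j₂ E) * N ^ m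
        = 2 ^ u * p ^ (u / M + 1) * N ^ m * ∑ E ∈ ES ρ j₁, (p ^ κ₀) ^ oth ρ j₂ E := by
          rw [mul_sum]
          exact sum_congr rfl fun E _ => by rw [pow_add p (u / M + 1), pow_mul]; ring
      _ ≤ 2 ^ u * (1 / 2) ^ (5 * u) * N ^ m * 4 ^ u := by gcongr
  refine h4.trans ((sum_le_card_nsmul _ _ _ h8).trans (le_of_eq ?_))
  rw [card_powerset, card_vis, nsmul_eq_mul, ← hu]
  push_cast
  have h9 : (2 : ℝ) ^ u * (2 ^ u * (1 / 2) ^ (5 * u) * 4 ^ u) = (1 / 2) ^ u := by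
    rw [pow_mul, ← mul_pow, ← mul_pow, ← mul_pow]
    norm_num
  rw [← h9]
  ring

end Pool.Agent.P.MP_b53add_lc.S3
end

-- part Pool.Agent.P.MP_b53add_lc.S3Core
section

/-! Small solutions exist for most worlds. -/

namespace Pool.Agent.P.MP_b53add_lc.S3

open Finset

set_option linter.unusedSectionVars false

variable {Ω Cl : Type*} [Fintype Ω] [DecidableEq Ω] [DecidableEq Cl] {m : ℕ}
  {ψ : Finset (Finset Cl × Finset Cl)} {κ : Ω → Cl} {ρ : Equiv.Perm (Fin m)}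
  {τ : Finset (Fin m)} {c : Fin m → Ω}

theorem exists_list (h : Sol ψ (κ ∘ c) τ τ) {j₁ j₂ : ℕ} {E : Fin m → ℕ}
    (hE : ∀ j, j₁ ≤ j → j ≤ j₂ → ∀ i, j ≤ (ρ i : ℕ) →
      (i ∈ ch (Sol ψ (κ ∘ c)) τ ρ j ↔ j < E i)) (d : ℕ)
    (hd : d ≤ (DD (Sol ψ (κ ∘ c)) τ ρ j₁ j₂).card) :
    ∃ Λ : List (ℕ × Fin m), Λ.length = d ∧ (tags Λ).card = d ∧
      Val ψ κ ρ (vis ρ j₁ ∩ τ) E c Λ ∧ ∀ p ∈ Λ, j₁ ≤ p.1 ∧ p.1 ≤ j₂ ∧
        p.2 ∈ ch (Sol ψ (κ ∘ c)) τ ρ p.1 ∧ ∀ j ∈ Icc j₁ j₂,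
          (∃ i, (ρ i : ℕ) < j ∧ i ∈ ch (Sol ψ (κ ∘ c)) τ ρ j ∧ i ∉ tags Λ) → j ≤ p.1 := by
  classical
  have hok := ok_sol h
  induction d with
  | zero => exact ⟨[], rfl, by simp [tags], trivial, by simp⟩
  | succ d ih =>
    obtain ⟨Λ, h1, h2, h3, h4⟩ := ih (by omega)
    set Z := ch (Sol ψ (κ ∘ c)) τ ρ with hZ
    obtain ⟨i₀, h5, h6⟩ := exists_mem_notMem_of_card_lt_card
      (show (tags Λ).card < (DD (Sol ψ (κ ∘ c)) τ ρ j₁ j₂).card by omega)
    obtain ⟨j₀, h7, h8, h9⟩ := (mem_filter.1 h5).2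
    let T := (Icc j₁ j₂).filter fun j => ∃ i, (ρ i : ℕ) < j ∧ i ∈ Z j ∧ i ∉ tags Λ
    have hT : T.Nonempty := ⟨j₀, mem_filter.2 ⟨h7, i₀, h8, h9, h6⟩⟩
    obtain ⟨j, hj, hmax⟩ := exists_max_image T id hT
    obtain ⟨hj1, i₁, a1, a2, a3⟩ := mem_filter.1 hj
    obtain ⟨hj2, hj3⟩ := mem_Icc.1 hj1
    have hle : ∀ p ∈ Λ, j ≤ p.1 := fun p hp => (h4 p hp).2.2.2 j hj1 ⟨i₁, a1, a2, a3⟩
    have hB : bs ρ E j Λ ⊆ Z j := by
      intro x hx
      rcases mem_union.1 hx with hx | hx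
      · obtain ⟨b1, b2⟩ := mem_filter.1 hx
        exact (hE j hj2 hj3 x (mem_vis.1 b1)).2 b2
      · obtain ⟨p, hp, rfl⟩ := mem_tags.1 hx
        exact ch_anti hok ρ (hle p hp) (h4 p hp).2.2.1
    have hX : vis ρ j ∩ (vis ρ j₁ ∩ τ) = vis ρ j ∩ τ := by
      rw [← inter_assoc, inter_eq_left.2 (vis_anti ρ hj2)]
    have hn := ch_min hok ρ j _ (ssubset_iff_of_subset hB |>.2
      ⟨i₁, a2, (notMem_bs (τ := τ) a1 a3).1⟩)
    have hv : ∃ r : Finset Cl × Finset Cl, r ∈ ψ ∧ Disjoint r.1 r.2 ∧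
        r.1 ⊆ (vis ρ j ∩ τ ∪ bs ρ E j Λ).image (κ ∘ c) ∧
        Disjoint ((bs ρ E j Λ).image (κ ∘ c)) r.2 := by
      unfold Sol at hn
      push Not at hn
      obtain ⟨r, b1, b2, b3, b4⟩ := hn
      refine ⟨r, b1, b2, b3, disjoint_left.2 fun C hC => ?_⟩
      obtain ⟨x, hx, rfl⟩ := mem_image.1 hC
      exact b4 x hx
    obtain ⟨b1, b2, b3, b4⟩ := Classical.epsilon_spec hv
    obtain ⟨i, b5, b6⟩ := ch_sol hok ρ j _ b1 b2
      (b3.trans (image_subset_image (union_subset_union Subset.rfl hB)))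
    have b7 : i ∉ bs ρ E j Λ := fun hi => disjoint_left.1 b4 (mem_image_of_mem _ hi) b6
    have b8 : i ∉ tags Λ := fun hi => b7 (mem_union_right _ hi)
    have b9 : (ρ i : ℕ) < j := by
      by_contra hc
      push Not at hc
      exact b7 (mem_union_left _ (mem_filter.2 ⟨mem_vis.2 hc, (hE j hj2 hj3 i hc).1 b5⟩))
    refine ⟨(j, i) :: Λ, by rw [List.length_cons, h1], by
      rw [tags_cons, card_insert_of_notMem b8, h2], ⟨h3, b9, b8, hle, ?_⟩, fun p hp => ?_⟩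
    · simp only [hX]
      exact mem_filter.2 ⟨mem_univ _, b1, b6⟩
    · have hw : ∀ j' ∈ Icc j₁ j₂, (∃ x, (ρ x : ℕ) < j' ∧ x ∈ Z j' ∧ x ∉ tags ((j, i) :: Λ)) →
          j' ≤ j := fun j' hj' ⟨x, c1, c2, c3⟩ => hmax j' (mem_filter.2
            ⟨hj', x, c1, c2, fun hx => c3 (by rw [tags_cons]; exact mem_insert_of_mem hx)⟩)
      rcases List.mem_cons.1 hp with rfl | hp
      · exact ⟨hj2, hj3, b5, hw⟩
      · exact ⟨(h4 p hp).1, (h4 p hp).2.1, (h4 p hp).2.2.1,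
          fun j' hj' hx => (hw j' hj' hx).trans (hle p hp)⟩

theorem DD_le (h : Sol ψ (κ ∘ c) τ τ) {M κ₀ j₁ j₂ : ℕ} (h12 : j₁ ≤ j₂) (h2 : j₂ ≤ m)
    (hb : ¬BadC ψ κ ρ M κ₀ j₁ j₂ c) : (DD (Sol ψ (κ ∘ c)) τ ρ j₁ j₂).card ≤
      (m - j₁) / M + κ₀ * ∑ j ∈ Ico j₁ j₂, II (Sol ψ (κ ∘ c)) τ ρ j := by
  classical
  have hok := ok_sol h
  set Z := ch (Sol ψ (κ ∘ c)) τ ρ with hZ
  let G : Fin m → ℕ := fun i => Nat.findGreatest (fun j => i ∈ Z j ∧ j ≤ (ρ i : ℕ)) j₂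
  let E : Fin m → ℕ := fun i => if i ∈ Z j₁ ∧ j₁ ≤ (ρ i : ℕ) then G i + 1 else 0
  have hG : ∀ i, i ∈ Z j₁ ∧ j₁ ≤ (ρ i : ℕ) →
      j₁ ≤ G i ∧ G i ≤ j₂ ∧ i ∈ Z (G i) ∧ G i ≤ (ρ i : ℕ) := fun i hi =>
    ⟨Nat.le_findGreatest h12 hi, Nat.findGreatest_le _,
      Nat.findGreatest_spec (P := fun j => i ∈ Z j ∧ j ≤ (ρ i : ℕ)) h12 hi⟩
  have hE : ∀ j, j₁ ≤ j → j ≤ j₂ → ∀ i, j ≤ (ρ i : ℕ) → (i ∈ Z j ↔ j < E i) := by
    intro j a1 a2 i a3
    constructor
    · intro a4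
      have a5 : j ≤ G i := Nat.le_findGreatest a2 ⟨a4, a3⟩
      simp only [E]
      rw [if_pos ⟨ch_anti hok ρ a1 a4, a1.trans a3⟩]
      omega
    · intro a4
      simp only [E] at a4
      split_ifs at a4 with a5
      · exact ch_anti hok ρ (show j ≤ G i by omega) (hG i a5).2.2.1
      · omega
  have hES : E ∈ ES ρ j₁ := by
    refine Fintype.mem_piFinset.2 fun i => ?_
    simp only [E]
    split_ifs with a1 a2 a2
    · have := (hG i a2).2.1
      exact mem_range.2 (by omega)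
    · simp
    · exact absurd a2.2 a1
    · simp
  have hoth : oth ρ j₂ E ≤ ∑ j ∈ Ico j₁ j₂, II (Sol ψ (κ ∘ c)) τ ρ j := by
    refine le_trans (card_le_card fun i hi => ?_) card_biUnion_le
    obtain ⟨a1, a2, a3⟩ := (mem_filter.1 hi).2
    simp only [E] at a1 a2 a3
    split_ifs at a1 a2 a3 with a4
    · obtain ⟨b1, b2, b3, b4⟩ := hG i a4
      refine mem_biUnion.2 ⟨G i, mem_Ico.2 ⟨b1, by omega⟩, mem_filter.2 ⟨b3, fun b5 => ?_, by omega⟩⟩
      have : G i + 1 ≤ G i := Nat.le_findGreatest (by omega) ⟨b5, by omega⟩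
      omega
    · exact absurd rfl a1
  by_contra hc
  have h3 := Nat.mul_le_mul_left κ₀ hoth
  obtain ⟨Λ, a1, -, a2, a3⟩ := exists_list h hE ((m - j₁) / M + 1 + κ₀ * oth ρ j₂ E) (by omega)
  exact hb ⟨_, mem_powerset.2 inter_subset_left, E, hES, Λ,
    a1 ▸ mem_LS a2 fun p hp => ⟨(a3 p hp).1, (a3 p hp).2.1.trans h2⟩, a2⟩

open Classical in
/-- The candidates for the final solution. -/
noncomputable def ZS (S : Finset (Fin m)) (a b : ℝ) : Finset (Finset (Fin m)) :=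
  univ.filter fun Z => ((Z ∩ S).card : ℝ) ≤ a ∧ ((Z \ S).card : ℝ) ≤ b

open Classical in
theorem core {Y : Type*} [Fintype Y] (tau : (Fin m → Ω) → Y → Finset (Fin m))
    (A : Finset ((Fin m → Ω) × Y))
    (hA : ∀ a ∈ A, Sol ψ (κ ∘ a.1) (tau a.1 a.2) (tau a.1 a.2))
    {L t M κ₀ : ℕ} (hm : m = t * 2 ^ L) (ht : 1 ≤ t) (hL : 1 ≤ L) (hM : 1 ≤ M)
    (Bad : Equiv.Perm (Fin m) → (Fin m → Ω) → Prop)
    (hC : ∀ ρ c j₁ j₂, j₁ ≤ j₂ → j₂ ≤ m - t → BadC ψ κ ρ M κ₀ j₁ j₂ c → Bad ρ c)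
    {β s Γ B : ℝ} (hβ : 0 < β) (hβ1 : β ≤ 1) (hB0 : 0 ≤ B)
    (hbad : ∀ ρ, (#{c | Bad ρ c} : ℝ) * Fintype.card Y ≤ s * A.card)
    (hnum : 2 * s + 4 / M + 2 * (2 * κ₀ + 1) / L ≤ β / 4)
    (hΓ : ∀ S : Finset (Fin m), S.card = t → ((ZS S (β * t) (t / M)).card : ℝ) ≤ Γ)
    (hB : ∀ ρ c Z, ¬Bad ρ c →
      (#{y | Sol ψ (κ ∘ c) (vis ρ (m - t) ∩ tau c y) Z} : ℝ) ≤ B) :
    (A.card : ℝ) ≤ 2 * Γ * B * Fintype.card Ω ^ m := by
  set P : ℝ := (Fintype.card (Equiv.Perm (Fin m)) : ℝ) with hP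
  have hP0 : 0 < P := by rw [hP]; exact_mod_cast Fintype.card_pos
  have htm : t ≤ m := hm ▸ Nat.le_mul_of_pos_right _ (by positivity)
  have ht0 : (0 : ℝ) < t := by exact_mod_cast ht
  have hL0 : (0 : ℝ) < L := by exact_mod_cast hL
  have hM0 : (0 : ℝ) < M := by exact_mod_cast hM
  set W : ℝ := A.card * P with hW
  have hW0 : 0 ≤ W := by positivity
  let n : ℕ → ℝ := fun j => ∑ a ∈ A, ∑ ρ, (NN (Sol ψ (κ ∘ a.1)) (tau a.1 a.2) ρ j : ℝ)
  let f : ℕ → ℝ := fun j => ∑ a ∈ A, ∑ ρ, (FF (Sol ψ (κ ∘ a.1)) (tau a.1 a.2) ρ j : ℝ)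
  let i : ℕ → ℝ := fun j => ∑ a ∈ A, ∑ ρ, (II (Sol ψ (κ ∘ a.1)) (tau a.1 a.2) ρ j : ℝ)
  have hconst : ∀ x : ℝ, ∑ _a ∈ A, ∑ _ρ : Equiv.Perm (Fin m), x = W * x := fun x => by
    simp only [sum_const, card_univ, nsmul_eq_mul, hW, hP]
    ring
  have hWb : ∑ a ∈ A, ∑ ρ, (if Bad ρ a.1 then (1 : ℝ) else 0) ≤ s * W := by
    rw [sum_comm]
    have h1 : ∀ ρ, ∑ a ∈ A, (if Bad ρ a.1 then (1 : ℝ) else 0) ≤ s * A.card := fun ρ => by
      refine le_trans ?_ (hbad ρ)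
      rw [sum_boole]
      have : (A.filter fun a => Bad ρ a.1) ⊆ (univ.filter fun c => Bad ρ c) ×ˢ univ :=
        fun a ha => mem_product.2 ⟨mem_filter.2 ⟨mem_univ _, (mem_filter.1 ha).2⟩, mem_univ _⟩
      have h2 := card_le_card this
      rw [card_product, card_univ] at h2
      exact_mod_cast h2
    refine (sum_le_card_nsmul _ _ _ fun ρ _ => h1 ρ).trans (le_of_eq ?_)
    rw [nsmul_eq_mul, card_univ, hW, hP]
    ring
  have hdy := dyadic hm ht n f i (W := W) (s := s * W + W * (2 / M)) (κ := 2 * κ₀ + 1)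
    (fun j hj => by
      simp only [f, n]
      rw [mul_sum]
      refine sum_congr rfl fun a _ => ?_
      rw [← Nat.cast_sub hj]
      exact_mod_cast sum_FF _ _ j)
    (fun j => by
      simp only [f, n, i]
      rw [← sum_add_distrib, ← sum_add_distrib]
      refine sum_congr rfl fun a ha => ?_
      rw [← sum_add_distrib, ← sum_add_distrib]
      exact sum_congr rfl fun ρ _ => by exact_mod_cast FF_rec (ok_sol (hA a ha)) ρ j)
    (fun j => by positivity) (fun j => by positivity)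
    (by
      refine le_trans (sum_le_sum fun a _ => sum_le_sum fun ρ _ => ?_) (hconst 1).le |>.trans
        (mul_one W).le
      exact_mod_cast NN_le_one 0)
    (by positivity)
    (fun j₁ j₂ h1 h2 => by
      have key : ∀ a ∈ A, ∀ ρ, ∑ j ∈ Ico j₁ j₂, (NN (Sol ψ (κ ∘ a.1)) (tau a.1 a.2) ρ j : ℝ) ≤
          (m - j₁ : ℕ) * ((if Bad ρ a.1 then (1 : ℝ) else 0) + 2 / M) + (2 * κ₀ + 1) *
            ∑ j ∈ Ico j₁ j₂, (II (Sol ψ (κ ∘ a.1)) (tau a.1 a.2) ρ j : ℝ) := by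
        intro a ha ρ
        have h3 : 0 ≤ ∑ j ∈ Ico j₁ j₂, (II (Sol ψ (κ ∘ a.1)) (tau a.1 a.2) ρ j : ℝ) := by
          positivity
        split_ifs with hb
        · have h4 : ∑ j ∈ Ico j₁ j₂, NN (Sol ψ (κ ∘ a.1)) (tau a.1 a.2) ρ j ≤ m - j₁ := by
            refine (sum_le_card_nsmul _ _ _ fun j _ => NN_le_one j).trans ?_
            rw [Nat.card_Ico, smul_eq_mul]
            omega
          have h5 : ∑ j ∈ Ico j₁ j₂, (NN (Sol ψ (κ ∘ a.1)) (tau a.1 a.2) ρ j : ℝ) ≤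
              (m - j₁ : ℕ) := by exact_mod_cast h4
          have h6 : (0 : ℝ) ≤ (m - j₁ : ℕ) * (2 / M) := by positivity
          have h7 := mul_nonneg (show (0 : ℝ) ≤ 2 * κ₀ + 1 by positivity) h3
          linarith
        · have h4 := sum_NN_le (ok_sol (hA a ha)) ρ j₁ j₂
          have h5 := DD_le (hA a ha) h1 (by omega) fun h => hb (hC ρ a.1 j₁ j₂ h1 h2 h)
          have h6 : ∑ j ∈ Ico j₁ j₂, (NN (Sol ψ (κ ∘ a.1)) (tau a.1 a.2) ρ j : ℝ) ≤
              2 * (((m - j₁) / M : ℕ) + κ₀ *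
                ∑ j ∈ Ico j₁ j₂, (II (Sol ψ (κ ∘ a.1)) (tau a.1 a.2) ρ j : ℝ)) +
              ∑ j ∈ Ico j₁ j₂, (II (Sol ψ (κ ∘ a.1)) (tau a.1 a.2) ρ j : ℝ) := by
            exact_mod_cast h4.trans (Nat.add_le_add_right (Nat.mul_le_mul_left 2 h5) _)
          have h7 : (((m - j₁) / M : ℕ) : ℝ) ≤ (m - j₁ : ℕ) / M := Nat.cast_div_le
          have h8 : ((m - j₁ : ℕ) : ℝ) * (0 + 2 / M) = 2 * ((m - j₁ : ℕ) / M) := by ring
          linarith
      simp only [n, i]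
      rw [sum_comm, sum_comm (s := Ico j₁ j₂)]
      simp only [sum_comm (s := Ico j₁ j₂)]
      refine (sum_le_sum fun a ha => sum_le_sum fun ρ _ => key a ha ρ).trans ?_
      simp only [sum_add_distrib, ← mul_sum, hconst]
      have := mul_le_mul_of_nonneg_left hWb (show (0 : ℝ) ≤ (m - j₁ : ℕ) by positivity)
      linarith)
  have hf : f (m - t) / (β * t) ≤ W / 4 := by
    rw [div_le_iff₀ (by positivity)]
    refine le_of_mul_le_mul_left (hdy.trans ?_) hL0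
    have h1 : t * (2 * L * (s * W + W * (2 / M)) + 2 * (2 * κ₀ + 1) * W) =
        L * (W * t * (2 * s + 4 / M + 2 * (2 * κ₀ + 1) / L)) := by
      field_simp
      ring
    rw [h1]
    refine mul_le_mul_of_nonneg_left ?_ hL0.le
    have := mul_le_mul_of_nonneg_left hnum (mul_nonneg hW0 ht0.le)
    linarith
  have hs : s ≤ 1 / 4 := by
    have h1 : (0 : ℝ) ≤ 4 / M := by positivity
    have h2 : (0 : ℝ) ≤ 2 * (2 * κ₀ + 1) / L := by positivity
    linarith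
  have key : ∀ a ∈ A, ∀ ρ, (1 : ℝ) ≤ (if Bad ρ a.1 then (1 : ℝ) else 0) +
      (FF (Sol ψ (κ ∘ a.1)) (tau a.1 a.2) ρ (m - t) : ℝ) / (β * t) +
      ∑ Z ∈ ZS (vis ρ (m - t)) (β * t) (t / M), if ¬Bad ρ a.1 ∧
        Sol ψ (κ ∘ a.1) (vis ρ (m - t) ∩ tau a.1 a.2) Z then (1 : ℝ) else 0 := by
    intro a ha ρ
    have h1 : 0 ≤ (FF (Sol ψ (κ ∘ a.1)) (tau a.1 a.2) ρ (m - t) : ℝ) / (β * t) := by positivity
    have h2 : 0 ≤ ∑ Z ∈ ZS (vis ρ (m - t)) (β * t) (t / M), if ¬Bad ρ a.1 ∧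
        Sol ψ (κ ∘ a.1) (vis ρ (m - t) ∩ tau a.1 a.2) Z then (1 : ℝ) else 0 :=
      sum_nonneg fun Z _ => by split_ifs <;> norm_num
    by_cases hb : Bad ρ a.1
    · rw [if_pos hb]; linarith
    rw [if_neg hb]
    by_cases hF : β * t ≤ (FF (Sol ψ (κ ∘ a.1)) (tau a.1 a.2) ρ (m - t) : ℝ)
    · have := (one_le_div (by positivity)).2 hF
      linarith
    have h3 : ch (Sol ψ (κ ∘ a.1)) (tau a.1 a.2) ρ (m - t) ∈
        ZS (vis ρ (m - t)) (β * t) (t / M) := by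
      refine mem_filter.2 ⟨mem_univ _, le_trans (le_of_eq ?_) (not_le.1 hF).le, ?_⟩
      · unfold FF
        congr 2
        ext x
        simp
      · have h4 := DD_le (hA a ha) (le_refl (m - t)) (by omega)
          fun h => hb (hC ρ a.1 _ _ le_rfl le_rfl h)
        rw [Ico_self, sum_empty, mul_zero, add_zero, Nat.sub_sub_self htm] at h4
        refine le_trans ?_ (Nat.cast_div_le (α := ℝ) (m := t) (n := M))
        refine Nat.cast_le.2 ((card_le_card fun x hx => ?_).trans h4)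
        obtain ⟨h5, h6⟩ := mem_sdiff.1 hx
        exact mem_filter.2 ⟨mem_univ _, m - t, mem_Icc.2 ⟨le_rfl, le_rfl⟩, not_le.1 fun h => h6 (mem_vis.2 h), h5⟩
    have h4 := single_le_sum (f := fun Z => if ¬Bad ρ a.1 ∧
        Sol ψ (κ ∘ a.1) (vis ρ (m - t) ∩ tau a.1 a.2) Z then (1 : ℝ) else 0)
      (fun Z _ => by split_ifs <;> norm_num) h3
    rw [if_pos ⟨hb, ch_sol (ok_sol (hA a ha)) ρ _⟩] at h4
    linarith
  have h1 := sum_le_sum fun a ha => sum_le_sum fun ρ (_ : ρ ∈ univ) => key a ha ρ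
  simp only [sum_add_distrib, ← sum_div, hconst] at h1
  have h2 : ∑ a ∈ A, ∑ ρ, ∑ Z ∈ ZS (vis ρ (m - t)) (β * t) (t / M), (if ¬Bad ρ a.1 ∧
      Sol ψ (κ ∘ a.1) (vis ρ (m - t) ∩ tau a.1 a.2) Z then (1 : ℝ) else 0) ≤
      Fintype.card Ω ^ m * (P * (Γ * B)) := by
    refine (sum_le_sum_of_subset_of_nonneg (subset_univ A) fun a _ _ =>
      sum_nonneg fun ρ _ => sum_nonneg fun Z _ => by split_ifs <;> norm_num).trans ?_
    rw [Fintype.sum_prod_type]
    refine (sum_le_card_nsmul _ _ (P * (Γ * B)) fun c _ => ?_).trans (by simp)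
    rw [sum_comm]
    refine (sum_le_card_nsmul _ _ (Γ * B) fun ρ _ => ?_).trans (by simp [hP])
    rw [sum_comm]
    refine (sum_le_card_nsmul _ _ B fun Z _ => ?_).trans ?_
    · by_cases hb : Bad ρ c
      · simpa [hb] using hB0
      · simpa [hb] using hB ρ c Z hb
    · rw [nsmul_eq_mul]
      exact mul_le_mul_of_nonneg_right (hΓ _ (by rw [card_vis, Nat.sub_sub_self htm])) hB0
  have h3 := mul_le_mul_of_nonneg_right hs hW0
  refine le_of_mul_le_mul_right ?_ hP0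
  have h4 : f (m - t) = ∑ a ∈ A, ∑ ρ,
      (FF (Sol ψ (κ ∘ a.1)) (tau a.1 a.2) ρ (m - t) : ℝ) := rfl
  rw [← h4] at h1
  rw [← hW]
  nlinarith

end Pool.Agent.P.MP_b53add_lc.S3
end

-- part Pool.Agent.P.MP_b53add_lc.S3Good
section

/-! Tail bounds and the structure of random formulas. -/

namespace Pool.Agent.P.MP_b53add_lc.S3

open Finset

theorem moment {Ω : Type*} [Fintype Ω] [DecidableEq Ω] {m : ℕ} (hΩ : 0 < Fintype.card Ω)
    (S : Finset (Fin m)) (A : Finset Ω) {x : ℝ} (hx : 0 ≤ x) :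
    ∑ c : Fin m → Ω, x ^ #{i ∈ S | c i ∈ A} ≤
      Real.exp (S.card * ((x - 1) * A.card / Fintype.card Ω)) * Fintype.card Ω ^ m := by
  have hN : (0 : ℝ) < Fintype.card Ω := by exact_mod_cast hΩ
  have h1 : ∀ c : Fin m → Ω, x ^ #{i ∈ S | c i ∈ A} =
      ∏ i, if i ∈ S ∧ c i ∈ A then x else 1 := by
    intro c
    rw [prod_ite, prod_const, prod_const_one, mul_one]
    congr 2
    ext i
    simp
  simp_rw [h1]
  rw [← Fintype.piFinset_univ, ← prod_univ_sum (fun _ => (univ : Finset Ω))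
    fun i ω => if i ∈ S ∧ ω ∈ A then x else 1]
  set y : ℝ := (x - 1) * A.card / Fintype.card Ω with hy
  have h2 : Real.exp (S.card * y) * Fintype.card Ω ^ m =
      ∏ i : Fin m, (if i ∈ S then Real.exp y else 1) * Fintype.card Ω := by
    rw [prod_mul_distrib, prod_ite_mem, univ_inter, prod_const, prod_const, card_univ,
      Fintype.card_fin, Real.exp_nat_mul]
  rw [h2]
  refine prod_le_prod (fun i _ => sum_nonneg fun ω _ => by split_ifs <;> positivity)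
    fun i _ => ?_
  by_cases hi : i ∈ S
  · have h3 : ∑ ω, (if i ∈ S ∧ ω ∈ A then x else 1) = (y + 1) * Fintype.card Ω := by
      have : ∀ ω, (if i ∈ S ∧ ω ∈ A then x else 1) = (if ω ∈ A then x - 1 else 0) + 1 := by
        intro ω
        by_cases h : ω ∈ A <;> simp [h, hi]
      simp_rw [this]
      rw [sum_add_distrib, sum_ite_mem, univ_inter, sum_const, sum_const, card_univ, hy]
      simp only [nsmul_eq_mul]
      field_simp
    rw [h3, if_pos hi]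
    exact mul_le_mul_of_nonneg_right (Real.add_one_le_exp y) hN.le
  · simp [hi]

open Classical in
/-- The number of points with a property. -/
noncomputable def cnt {α : Type*} [Fintype α] (Q : α → Prop) : ℝ := #{c | Q c}

theorem cnt_or {α : Type*} [Fintype α] (Q R : α → Prop) :
    cnt (fun c => Q c ∨ R c) ≤ cnt Q + cnt R := by
  unfold cnt
  classical
  exact_mod_cast (card_le_card fun c hc => by simpa using hc).trans (card_union_le _ _)

theorem cnt_zero {α : Type*} [Fintype α] {Q : α → Prop} (h : ∀ c, ¬Q c) : cnt Q = 0 := by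
  simp [cnt, h]

theorem tail {Ω : Type*} [Fintype Ω] [DecidableEq Ω] {m : ℕ} (hΩ : 0 < Fintype.card Ω)
    (S : Finset (Fin m)) (A : Finset Ω) {x v e : ℝ} (hx : 0 ≤ x) (hv : 0 < v)
    (Q : (Fin m → Ω) → Prop) (hQ : ∀ c, Q c → v ≤ x ^ #{i ∈ S | c i ∈ A})
    (he : S.card * ((x - 1) * A.card / Fintype.card Ω) ≤ e) :
    cnt Q ≤ Real.exp e / v * Fintype.card Ω ^ m := by
  classical
  have h1 : cnt Q * v ≤ ∑ c : Fin m → Ω, x ^ #{i ∈ S | c i ∈ A} := by
    rw [cnt, ← nsmul_eq_mul]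
    exact (card_nsmul_le_sum _ _ _ fun c hc => hQ c (mem_filter.1 hc).2).trans
      (sum_le_sum_of_subset_of_nonneg (subset_univ _) fun _ _ _ => by positivity)
  rw [div_mul_eq_mul_div, le_div_iff₀ hv]
  exact h1.trans ((moment hΩ S A hx).trans
    (mul_le_mul_of_nonneg_right (Real.exp_le_exp.2 he) (by positivity)))

theorem union_le {α κ : Type*} [Fintype α] (I : Finset κ) (Q : κ → α → Prop) {b : ℝ}
    (h : ∀ i ∈ I, cnt (Q i) ≤ b) : cnt (fun c => ∃ i ∈ I, Q i c) ≤ I.card * b := by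
  refine le_trans ?_ ((sum_le_card_nsmul _ _ _ h).trans (nsmul_eq_mul _ _).le)
  unfold cnt
  classical
  exact_mod_cast (card_le_card fun c hc => by simpa using hc).trans card_biUnion_le

theorem wcount {α : Type*} [Fintype α] (w : α → ℝ) (hw : ∀ a, 0 ≤ w a) (𝒜 : Finset (Finset α))
    {v : ℝ} (hv : ∀ Z ∈ 𝒜, v ≤ ∏ a ∈ Z, w a) : 𝒜.card * v ≤ Real.exp (∑ a, w a) := by
  rw [← nsmul_eq_mul]
  refine (card_nsmul_le_sum _ _ _ hv).trans ((sum_le_sum_of_subset_of_nonneg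
    (show 𝒜 ⊆ univ.powerset by simp) fun Z _ _ => prod_nonneg fun a _ => hw a).trans ?_)
  rw [← prod_one_add, Real.exp_sum]
  exact prod_le_prod (fun a _ => by linarith [hw a]) fun a _ => by
    linarith [Real.add_one_le_exp (w a)]

theorem small_sets (n a : ℕ) {z : ℝ} (h0 : 0 < z) (h1 : z ≤ 1) :
    (#{V : Finset (Fin n) | V.card ≤ a} : ℝ) ≤ Real.exp (n * z) / z ^ a := by
  rw [le_div_iff₀ (by positivity)]
  refine (wcount (fun _ => z) (fun _ => h0.le) _ fun Z hZ => ?_).trans (by simp)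
  rw [prod_const]
  exact pow_le_pow_of_le_one h0.le h1 (mem_filter.1 hZ).2

theorem card_ZS {m : ℕ} (S : Finset (Fin m)) (a b : ℝ) {l l' : ℝ} (hl : 0 ≤ l) (hl' : 0 ≤ l') :
    ((ZS S a b).card : ℝ) ≤
      Real.exp (l * a + l' * b + S.card * Real.exp (-l) + m * Real.exp (-l')) := by
  have h := wcount (fun i => if i ∈ S then Real.exp (-l) else Real.exp (-l'))
    (fun i => by split_ifs <;> positivity) (ZS S a b) (v := Real.exp (-(l * a + l' * b)))
    fun Z hZ => by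
      obtain ⟨h1, h2⟩ := (mem_filter.1 hZ).2
      rw [prod_ite, prod_const, prod_const, filter_mem_eq_inter, ← sdiff_eq_filter,
        ← Real.exp_nat_mul, ← Real.exp_nat_mul, ← Real.exp_add, Real.exp_le_exp]
      have := mul_le_mul_of_nonneg_left h1 hl
      have := mul_le_mul_of_nonneg_left h2 hl'
      linarith
  rw [Real.exp_neg, ← div_eq_mul_inv, div_le_iff₀ (Real.exp_pos _), ← Real.exp_add] at h
  refine h.trans (Real.exp_le_exp.2 ?_)
  rw [sum_ite, sum_const, sum_const, filter_mem_eq_inter, univ_inter, nsmul_eq_mul, nsmul_eq_mul]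
  have h1 : (#{i | i ∉ S} : ℝ) ≤ m := by
    exact_mod_cast (card_filter_le _ _).trans (by simp)
  have := mul_le_mul_of_nonneg_right h1 (Real.exp_pos (-l')).le
  linarith

/-- Triples of literals. -/
abbrev Om (n : ℕ) := Fin 3 → Fin n × Bool
/-- Clauses with at most three literals. -/
abbrev Cls (n : ℕ) := {c : Finset (Fin n × Bool) // c.card ≤ 3}

variable {n m : ℕ}

def kap (ω : Om n) : Cls n := ⟨univ.image ω, card_image_le.trans (by simp)⟩

def sat (y : Finset (Fin n)) (ω : Om n) : Prop := ∃ r, decide ((ω r).1 ∈ y) = (ω r).2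

instance (y : Finset (Fin n)) : DecidablePred (sat y) := fun _ => by unfold sat; infer_instance

def vars (ω : Om n) : Finset (Fin n) := univ.image fun r => (ω r).1

/-- Triples inside `V` that are false under `y`. -/
def AU (V y : Finset (Fin n)) : Finset (Om n) :=
  Fintype.piFinset fun _ => V.image fun v => (v, !decide (v ∈ y))

/-- Triples inside `V`. -/
def AX (V : Finset (Fin n)) : Finset (Om n) := Fintype.piFinset fun _ => V ×ˢ univ

def tau (c : Fin m → Om n) (y : Finset (Fin n)) : Finset (Fin m) :=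
  univ.filter fun i => sat y (c i)

theorem card_Om (n : ℕ) : Fintype.card (Om n) = 8 * n ^ 3 := by
  simp [Om]
  ring

theorem card_AU (V y : Finset (Fin n)) : (AU V y).card = V.card ^ 3 := by
  rw [AU, Fintype.card_piFinset, prod_const, card_image_of_injective _
    fun a b h => (Prod.ext_iff.1 h).1]
  simp

theorem card_AX (V : Finset (Fin n)) : (AX V).card = 8 * V.card ^ 3 := by
  rw [AX, Fintype.card_piFinset, prod_const, card_product]
  simp
  ring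

theorem mem_AX {V : Finset (Fin n)} {ω : Om n} : ω ∈ AX V ↔ vars ω ⊆ V := by
  simp [AX, vars, image_subset_iff]

theorem mem_AU {V y : Finset (Fin n)} {ω : Om n} (h : ω ∈ AU V y) : vars ω ⊆ V ∧ ¬sat y ω := by
  have h1 : ∀ r, (ω r).1 ∈ V ∧ (ω r).2 = !decide ((ω r).1 ∈ y) := fun r => by
    obtain ⟨v, h1, h2⟩ := mem_image.1 (Fintype.mem_piFinset.1 h r)
    rw [← h2]
    exact ⟨h1, rfl⟩
  refine ⟨image_subset_iff.2 fun r _ => (h1 r).1, fun ⟨r, hr⟩ => ?_⟩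
  rw [(h1 r).2] at hr
  simp at hr

theorem card_fib (P : Finset (Cls n)) : #{ω : Om n | kap ω ∈ P} ≤ 27 * P.card := by
  have h : (univ.filter fun ω : Om n => kap ω ∈ P) ⊆
      P.biUnion fun C => Fintype.piFinset fun _ => C.1 := fun ω hω =>
    mem_biUnion.2 ⟨_, (mem_filter.1 hω).2, Fintype.mem_piFinset.2 fun r =>
      mem_image_of_mem _ (mem_univ r)⟩
  refine (card_le_card h).trans (card_biUnion_le.trans ?_)
  rw [mul_comm, ← smul_eq_mul]
  refine sum_le_card_nsmul _ _ _ fun C _ => ?_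
  rw [Fintype.card_piFinset, prod_const, card_univ, Fintype.card_fin]
  exact Nat.pow_le_pow_left C.2 3

theorem hall_sat (c : Fin m → Om n) (J : Finset (Fin m))
    (h : ∀ J' ⊆ J, J'.card ≤ (J'.biUnion fun i => vars (c i)).card) :
    ∃ y, ∀ i ∈ J, sat y (c i) := by
  obtain ⟨f, hf, h1⟩ := (all_card_le_biUnion_card_iff_existsInjective'
    fun i : J => vars (c i)).1 fun s => by
      have := h (s.image Subtype.val) (image_subset_iff.2 fun i _ => i.2)
      rwa [card_image_of_injective _ Subtype.val_injective, image_biUnion] at this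
  choose r hr using fun i : J => mem_image.1 (h1 i)
  refine ⟨(univ.filter fun i : J => (c i (r i)).2 = true).image f, fun i hi => ⟨r ⟨i, hi⟩, ?_⟩⟩
  have h2 := (hr ⟨i, hi⟩).2
  simp only at h2
  rw [h2]
  simp only [hf.mem_finset_image, mem_filter, mem_univ, true_and]
  simp

/-- Small sets of clauses outside a small exceptional set are satisfiable. -/
theorem exists_exc (c : Fin m → Om n) (S : Finset (Fin m)) {w : ℕ}
    (hX : ∀ V : Finset (Fin n), V.card ≤ 3 * w → #{i ∈ S | c i ∈ AX V} < 2 * w) :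
    ∃ E : Finset (Fin m), E.card ≤ 2 * w ∧
      ∀ J ⊆ S \ E, J.card ≤ w → ∃ y, ∀ i ∈ J, sat y (c i) := by
  obtain ⟨E, h1, h2⟩ := exists_max_image (S.powerset.filter fun E =>
    (E.biUnion fun i => vars (c i)).card ≤ E.card ∧ E.card ≤ 2 * w) card ⟨∅, by simp⟩
  obtain ⟨h3, h4, h5⟩ := mem_filter.1 h1
  rw [mem_powerset] at h3
  refine ⟨E, h5, fun J hJ hw => hall_sat c J fun J' hJ' => ?_⟩
  by_contra hc
  push Not at hc
  have h6 : Disjoint E J' := disjoint_left.2 fun i h6 h7 => (mem_sdiff.1 (hJ (hJ' h7))).2 h6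
  have h7 := card_union_of_disjoint h6
  have h8 : ((E ∪ J').biUnion fun i => vars (c i)).card ≤ E.card + J'.card := by
    rw [union_biUnion]
    exact (card_union_le _ _).trans (by omega)
  have h9 : E ∪ J' ⊆ S := union_subset h3 (hJ'.trans (hJ.trans sdiff_subset))
  have h10 := card_le_card hJ'
  by_cases h11 : (E ∪ J').card ≤ 2 * w
  · have := h2 _ (mem_filter.2 ⟨mem_powerset.2 h9, by omega, h11⟩)
    omega
  · have h12 := hX ((E ∪ J').biUnion fun i => vars (c i)) (by omega)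
    have h13 : E ∪ J' ⊆ {i ∈ S | c i ∈ AX ((E ∪ J').biUnion fun i => vars (c i))} :=
      fun i hi => mem_filter.2 ⟨h9 hi, mem_AX.2 (subset_biUnion_of_mem (fun i => vars (c i)) hi)⟩
    have := card_le_card h13
    omega

/-- A solution that serves many assignments gives an accepted unsatisfiable formula. -/
theorem few_sol {ψ : Finset (Finset (Cls n) × Finset (Cls n))} (c : Fin m → Om n)
    (S Z : Finset (Fin m)) {w : ℕ}
    (hU : ∀ V y : Finset (Fin n), n ≤ 4 * V.card → 2 * w < #{i ∈ S | c i ∈ AU V y})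
    (hX : ∀ V : Finset (Fin n), V.card ≤ 3 * w → #{i ∈ S | c i ∈ AX V} < 2 * w)
    (hW : ∀ r ∈ ψ, r.1 ⊆ univ.image (kap ∘ c) → r.1.card ≤ w)
    (hs : ∀ T, Sol ψ (kap ∘ c) T T → ∃ y, ∀ i ∈ T, sat y (c i))
    (𝒴 : Finset (Finset (Fin n))) (h𝒴 : ∀ y ∈ 𝒴, Sol ψ (kap ∘ c) (S ∩ tau c y) Z) :
    𝒴.card ≤ #{V : Finset (Fin n) | V.card ≤ n / 4} := by
  refine (card_le_card_shatterer 𝒴).trans (card_le_card fun V hV => ?_)
  rw [mem_shatterer] at hV
  refine mem_filter.2 ⟨mem_univ _, ?_⟩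
  by_contra hc
  obtain ⟨E, hE, hJ⟩ := exists_exc c S hX
  let K := (S \ E).filter fun i => vars (c i) ⊆ V
  obtain ⟨y, hy⟩ := hs (K ∪ Z) fun r hr hd hN => by
    rw [union_self] at hN
    have h1 : r.1 \ Z.image (kap ∘ c) ⊆ K.image (kap ∘ c) := by
      intro C hC
      obtain ⟨h2, h3⟩ := mem_sdiff.1 hC
      have := hN h2
      rw [image_union, mem_union] at this
      exact this.resolve_right h3
    obtain ⟨J, h2, h3, h4⟩ := exists_subset_injOn_image_eq_of_surjOn (f := kap ∘ c)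
      (K : Set (Fin m)) (r.1 \ Z.image (kap ∘ c)) fun C hC => by simpa using h1 hC
    have h5 : J.card ≤ w := by
      rw [← card_image_of_injOn h3, h4]
      exact (card_le_card sdiff_subset).trans
        (hW r hr (hN.trans (image_subset_image (subset_univ _))))
    have h6 : ∀ i ∈ J, i ∈ S \ E ∧ vars (c i) ⊆ V := fun i hi => mem_filter.1 (h2 hi)
    obtain ⟨y₀, h7⟩ := hJ J (fun i hi => (h6 i hi).1) h5
    obtain ⟨y, h8, h9⟩ := hV (show V ∩ y₀ ⊆ V from inter_subset_left)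
    have h10 : J ⊆ S ∩ tau c y := by
      intro i hi
      obtain ⟨a, ha⟩ := h7 i hi
      refine mem_inter.2 ⟨(mem_sdiff.1 (h6 i hi).1).1, mem_filter.2 ⟨mem_univ _, a, ?_⟩⟩
      have h11 : (c i a).1 ∈ V := (h6 i hi).2 (mem_image_of_mem _ (mem_univ a))
      have h12 := Finset.ext_iff.1 h9 (c i a).1
      simp only [mem_inter, h11, true_and] at h12
      rw [← ha]
      exact decide_eq_decide.2 h12
    obtain ⟨i, h11, h12⟩ := h𝒴 y h8 r hr hd fun C hC => by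
      rw [image_union, mem_union]
      by_cases h11 : C ∈ Z.image (kap ∘ c)
      · exact Or.inr h11
      · exact Or.inl (image_subset_image h10 (h4 ▸ mem_sdiff.2 ⟨hC, h11⟩))
    exact ⟨i, mem_union_right _ h11, h12⟩
  obtain ⟨i, h1, h2⟩ := exists_mem_notMem_of_card_lt_card (hE.trans_lt (hU V y (by omega)))
  obtain ⟨h3, h4⟩ := mem_filter.1 h1
  exact (mem_AU h4).2 (hy i (mem_union_left _
    (mem_filter.2 ⟨mem_sdiff.2 ⟨h3, h2⟩, (mem_AU h4).1⟩)))

end Pool.Agent.P.MP_b53add_lc.S3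
end

-- part Pool.Agent.P.MP_b53add_lc.S3Main
section

/-! The lower bound for explicit parameters. -/

namespace Pool.Agent.P.MP_b53add_lc.S3

open Finset

variable {n m w : ℕ}

theorem two_le_exp : (2 : ℝ) ≤ Real.exp 1 := by linarith [Real.add_one_le_exp (1 : ℝ)]

theorem two_pow_le_exp (a : ℕ) : (2 : ℝ) ^ a ≤ Real.exp a := by
  rw [← mul_one (a : ℝ), Real.exp_nat_mul]
  exact pow_le_pow_left₀ (by norm_num) two_le_exp a

theorem Om_pos (hn : 0 < n) : 0 < Fintype.card (Om n) := by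
  rw [card_Om]; positivity

theorem count_U (hn : 0 < n) (hw : 10 ^ 13 * w ≤ n) (S : Finset (Fin m)) (hS : S.card = 5000 * n) :
    cnt (fun c : Fin m → Om n => ∃ p ∈ (univ : Finset (Finset (Fin n) × Finset (Fin n))),
      n ≤ 4 * p.1.card ∧ #{i ∈ S | c i ∈ AU p.1 p.2} ≤ 2 * w) ≤
      (1 / 4) ^ w * Fintype.card (Om n) ^ m := by
  have hn' : (0 : ℝ) < n := by exact_mod_cast hn
  refine (union_le _ _ (b := Real.exp (-(4 * n)) / (1 / 2) ^ (2 * w) * Fintype.card (Om n) ^ m)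
    fun p _ => ?_).trans ?_
  · by_cases hp : n ≤ 4 * p.1.card
    · refine tail (Om_pos hn) S (AU p.1 p.2) (x := 1 / 2) (by norm_num) (by positivity) _
        (fun c h => pow_le_pow_of_le_one (by norm_num) (by norm_num) h.2) ?_
      rw [hS, card_AU, card_Om]
      push_cast
      have h1 : (n : ℝ) ^ 3 ≤ (4 * p.1.card) ^ 3 :=
        pow_le_pow_left₀ hn'.le (by exact_mod_cast hp) 3
      have h2 : (1 / 2 - 1) * (p.1.card : ℝ) ^ 3 / (8 * n ^ 3) ≤ -(1 / 1024) := by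
        rw [div_le_iff₀ (by positivity)]
        nlinarith
      nlinarith
    · rw [cnt_zero fun c h => hp h.1]
      positivity
  · rw [← mul_assoc]
    refine mul_le_mul_of_nonneg_right ?_ (by positivity)
    rw [card_univ, Fintype.card_prod, Fintype.card_finset, Fintype.card_fin, ← pow_add]
    have h1 := two_pow_le_exp (4 * n)
    have h2 : (2 : ℝ) ^ (n + n + 2 * w + 2 * w) ≤ 2 ^ (4 * n) :=
      pow_le_pow_right₀ (by norm_num) (by omega)
    have h3 : (1 / 4 : ℝ) ^ w = (2 ^ (2 * w))⁻¹ := by rw [pow_mul, ← inv_pow]; norm_num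
    have h4 : (1 / 2 : ℝ) ^ (2 * w) = (2 ^ (2 * w))⁻¹ := by rw [one_div, inv_pow]
    rw [h3, h4, Real.exp_neg]
    push_cast at h1 ⊢
    rw [pow_add, pow_add] at h2
    field_simp
    nlinarith

theorem count_X (hw0 : 0 < w) (hw : 10 ^ 13 * w ≤ n) (S : Finset (Fin m))
    (hS : S.card = 5000 * n) :
    cnt (fun c : Fin m → Om n => ∃ V ∈ (univ.filter fun V : Finset (Fin n) => V.card ≤ 3 * w),
      2 * w ≤ #{i ∈ S | c i ∈ AX V}) ≤ (1 / 4) ^ w * Fintype.card (Om n) ^ m := by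
  have hn : 0 < n := by omega
  have hn' : (0 : ℝ) < n := by exact_mod_cast hn
  have hw' : (0 : ℝ) < w := by exact_mod_cast hw0
  set z : ℝ := w / n with hz
  have hz0 : 0 < z := by positivity
  have hz1 : z ≤ 1 / 10 ^ 13 := by
    rw [hz, div_le_div_iff₀ hn' (by positivity), one_mul, mul_comm]
    exact_mod_cast hw
  have hwz : (w : ℝ) = n * z := by rw [hz]; field_simp
  set x : ℝ := 1 / (135000 * z ^ 2) with hx
  have hx1 : 1 ≤ x := by
    rw [hx, one_le_div (by positivity)]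
    nlinarith
  refine (union_le _ _ (b := Real.exp w / x ^ (2 * w) * Fintype.card (Om n) ^ m)
    fun V hV => ?_).trans ?_
  · refine tail (Om_pos hn) S (AX V) (x := x) (by positivity) (by positivity) _
      (fun c h => pow_le_pow_right₀ hx1 h) ?_
    rw [hS, card_AX, card_Om]
    push_cast
    have h1 : (V.card : ℝ) ^ 3 ≤ (3 * w) ^ 3 :=
      pow_le_pow_left₀ (Nat.cast_nonneg _) (by exact_mod_cast (mem_filter.1 hV).2) 3
    have h2 : (0 : ℝ) ≤ (V.card : ℝ) ^ 3 := pow_nonneg (Nat.cast_nonneg _) 3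
    calc 5000 * (n : ℝ) * ((x - 1) * (8 * V.card ^ 3) / (8 * n ^ 3))
        ≤ 5000 * n * (x * (8 * (3 * w) ^ 3) / (8 * n ^ 3)) :=
          mul_le_mul_of_nonneg_left (div_le_div_of_nonneg_right (mul_le_mul (by linarith)
            (by linarith) (by linarith) (by linarith)) (by positivity)) (by positivity)
      _ = (w : ℝ) := by rw [hx, hz]; field_simp; norm_num
  · rw [← mul_assoc]
    refine mul_le_mul_of_nonneg_right ?_ (by positivity)
    refine (mul_le_mul_of_nonneg_right (small_sets n (3 * w) hz0 (by linarith))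
      (by positivity)).trans ?_
    rw [← hwz, ← mul_one (w : ℝ), Real.exp_nat_mul, pow_mul, pow_mul, ← div_pow, ← div_pow,
      ← mul_pow]
    refine pow_le_pow_left₀ (by positivity) ?_ w
    have h1 : Real.exp 1 ≤ 3 := by linarith [Real.exp_one_lt_d9]
    have h2 : Real.exp 1 / z ^ 3 * (Real.exp 1 / x ^ 2) =
        Real.exp 1 * Real.exp 1 * (135000 ^ 2 * z) := by rw [hx]; field_simp
    rw [h2]
    have h3 : Real.exp 1 * Real.exp 1 ≤ 3 * 3 :=
      mul_le_mul h1 h1 (Real.exp_pos 1).le (by norm_num)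
    calc Real.exp 1 * Real.exp 1 * (135000 ^ 2 * z) ≤ 3 * 3 * (135000 ^ 2 * (1 / 10 ^ 13)) := by
          gcongr
      _ ≤ 1 / 4 := by norm_num

theorem count_T {ι : Type*} (hn : 0 < n) (I : Finset ι) (hI : I.card ≤ 2 ^ w)
    (T : ι → Finset (Cls n)) (hT : ∀ r ∈ I, 1000 * m * (T r).card ≤ 8 * n ^ 3 * w) :
    cnt (fun c : Fin m → Om n => ∃ r ∈ I, w ≤ (T r ∩ univ.image (kap ∘ c)).card) ≤
      (1 / 4) ^ w * Fintype.card (Om n) ^ m := by
  have hn' : (0 : ℝ) < n := by exact_mod_cast hn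
  refine (union_le _ _ (b := Real.exp (w * (1 / 2)) / 16 ^ w * Fintype.card (Om n) ^ m)
    fun r hr => ?_).trans ?_
  · refine tail (Om_pos hn) univ (univ.filter fun ω => kap ω ∈ T r) (x := 16) (by norm_num)
      (by positivity) _ (fun c h => pow_le_pow_right₀ (by norm_num) (h.trans ?_)) ?_
    · refine le_trans (card_le_card fun C hC => ?_) (card_image_le (f := kap ∘ c))
      obtain ⟨i, -, rfl⟩ := mem_image.1 (mem_inter.1 hC).2
      exact mem_image_of_mem _ (mem_filter.2 ⟨mem_univ _,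
        mem_filter.2 ⟨mem_univ _, (mem_inter.1 hC).1⟩⟩)
    · have h3 : (#{ω : Om n | kap ω ∈ T r} : ℝ) ≤ 27 * (T r).card := by
        exact_mod_cast card_fib (T r)
      have h4 : (1000 * m * (T r).card : ℝ) ≤ 8 * n ^ 3 * w := by exact_mod_cast hT r hr
      rw [card_univ, Fintype.card_fin, card_Om, ← mul_div_assoc, div_le_iff₀ (by positivity)]
      push_cast
      have h5 := mul_le_mul_of_nonneg_left h3 (show (0 : ℝ) ≤ m by positivity)
      have h7 : (0 : ℝ) ≤ m * (T r).card := by positivity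
      nlinarith
  · rw [← mul_assoc]
    refine mul_le_mul_of_nonneg_right ?_ (by positivity)
    have h1 : (I.card : ℝ) ≤ 2 ^ w := by exact_mod_cast hI
    refine (mul_le_mul_of_nonneg_right h1 (by positivity)).trans ?_
    rw [Real.exp_nat_mul, ← div_pow, ← mul_pow]
    refine pow_le_pow_left₀ (by positivity) ?_ w
    have h2 : Real.exp (1 / 2) ≤ 2 := by
      have h3 : Real.exp (1 / 2) * Real.exp (1 / 2) = Real.exp 1 := by
        rw [← Real.exp_add]; norm_num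
      nlinarith [Real.exp_one_lt_d9, Real.exp_pos (1 / 2 : ℝ)]
    linarith

theorem count_C {K M κ₀ : ℕ} (hn : 0 < n) (hw : 10 ^ 13 * w ≤ n) (hm : m ≤ n ^ 3)
    (htm : 5000 * n ≤ m) {ψ : Finset (Finset (Cls n) × Finset (Cls n))}
    (hK : ∀ r ∈ ψ, #{ω : Om n | kap ω ∈ r.2} ≤ K) (hM : 1 ≤ M)
    (hq : 2 * m * K * 2 ^ (5 * M) ≤ Fintype.card (Om n)) (hκ : m + 2 ≤ 2 ^ (5 * M * κ₀))
    (ρ : Equiv.Perm (Fin m)) :
    cnt (fun c : Fin m → Om n => ∃ p ∈ range (m - 5000 * n + 1) ×ˢ range (m + 1),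
      BadC ψ kap ρ M κ₀ p.1 p.2 c) ≤ (1 / 4) ^ w * Fintype.card (Om n) ^ m := by
  refine (union_le _ _ (b := (1 / 2) ^ (5000 * n) * Fintype.card (Om n) ^ m)
    fun p hp => ?_).trans ?_
  · refine (count_badC hK hM (Om_pos hn) hq hκ p.1 p.2).trans
      (mul_le_mul_of_nonneg_right (pow_le_pow_of_le_one (by norm_num) (by norm_num) ?_)
        (by positivity))
    have := mem_range.1 (mem_product.1 hp).1
    omega
  · rw [← mul_assoc]
    refine mul_le_mul_of_nonneg_right ?_ (by positivity)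
    have h1 : m + 1 ≤ 2 ^ (3 * n) := by
      rw [mul_comm, pow_mul]
      exact (Nat.lt_succ_of_le hm).trans_le (Nat.pow_lt_pow_left Nat.lt_two_pow_self (by norm_num))
    have h2 : (range (m - 5000 * n + 1) ×ˢ range (m + 1)).card * 2 ^ (2 * w) ≤ 2 ^ (5000 * n) := by
      rw [card_product, card_range, card_range]
      calc (m - 5000 * n + 1) * (m + 1) * 2 ^ (2 * w) ≤ 2 ^ (3 * n) * 2 ^ (3 * n) * 2 ^ (2 * w) := by
            gcongr
            omega
        _ ≤ 2 ^ (5000 * n) := by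
            rw [← pow_add, ← pow_add]
            exact Nat.pow_le_pow_right (by norm_num) (by omega)
    have h3 : (1 / 4 : ℝ) ^ w = (2 ^ (2 * w))⁻¹ := by rw [pow_mul, ← inv_pow]; norm_num
    rw [h3, one_div, inv_pow, ← div_eq_mul_inv, ← one_div, div_le_div_iff₀ (by positivity)
      (by positivity), one_mul]
    exact_mod_cast h2

theorem exp_neg_le (a : ℕ) : Real.exp (-(a : ℝ)) ≤ 1 / 2 ^ a := by
  rw [Real.exp_neg, one_div]
  exact inv_anti₀ (by positivity) (two_pow_le_exp a)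

theorem finite {n w L M κ₀ k : ℕ} (hw0 : 31 ≤ w) (hw : 10 ^ 13 * (2 * w) ≤ n) (hκ0 : 1 ≤ κ₀)
    (hL : 10 ^ 9 * κ₀ ≤ L) (hM : 10 ^ 6 * (L + 20) ≤ M) (hk : 1 ≤ k)
    (hq : k * 2 ^ (L + 5 * M + 16) ≤ n ^ 2) (hκ : 5000 * n * 2 ^ L + 2 ≤ 2 ^ (5 * M * κ₀))
    (𝓕 : Finset (Finset (Finset (Cls n) × Finset (Cls n)))) (h1 : 𝓕.card ≤ 2 ^ w)
    (h2 : ∀ ψ ∈ 𝓕, ∃ 𝓖 : Finset (Finset (Cls n) × Finset (Cls n)), 𝓖.card ≤ 2 ^ w ∧
      (∀ g ∈ 𝓖, g.2.card ≤ k) ∧ ∀ r ∈ ψ, ∃ g ∈ 𝓖, g.1 ⊆ r.1 ∧ r.1 ⊆ g.1 ∪ g.2)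
    (h3 : ∀ ψ ∈ 𝓕, ∀ r ∈ ψ, r.2.card ≤ k)
    (H : ∀ x : Cls n → Bool,
      (∃ ψ ∈ 𝓕, ∀ r ∈ ψ, (∃ C ∈ r.1, x C = false) ∨ ∃ C ∈ r.2, x C = true) ↔
        ∃ a : Fin n → Bool, ∀ C, x C = true → ∃ l ∈ C.1, a l.1 = l.2) : False := by
  classical
  have hn : 0 < n := by omega
  have hn' : (0 : ℝ) < n := by exact_mod_cast hn
  obtain ⟨m, hm⟩ : ∃ m, m = 5000 * n * 2 ^ L := ⟨_, rfl⟩
  have htm : 5000 * n ≤ m := hm ▸ Nat.le_mul_of_pos_right _ (by positivity)
  have hq' : 2 * m * (27 * k) * 2 ^ (5 * M) ≤ 8 * n ^ 3 := by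
    calc 2 * m * (27 * k) * 2 ^ (5 * M) = 270000 * n * (k * (2 ^ L * 2 ^ (5 * M))) := by
          rw [hm]; ring
      _ ≤ 8 * 2 ^ 16 * n * (k * (2 ^ L * 2 ^ (5 * M))) := by gcongr; norm_num
      _ = 8 * n * (k * 2 ^ (L + 5 * M + 16)) := by rw [pow_add, pow_add]; ring
      _ ≤ 8 * n * n ^ 2 := Nat.mul_le_mul_left _ hq
      _ = 8 * n ^ 3 := by ring
  have hmk : 1000 * m * k ≤ 8 * n ^ 3 := by
    refine le_trans ?_ hq'
    have : 2 ^ 5 ≤ 2 ^ (5 * M) := Nat.pow_le_pow_right (by norm_num) (by omega)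
    calc 1000 * m * k ≤ 1728 * m * k := by gcongr; norm_num
      _ = 2 * m * (27 * k) * 2 ^ 5 := by ring
      _ ≤ 2 * m * (27 * k) * 2 ^ (5 * M) := by gcongr
  have hm3 : 1000 * m ≤ 8 * n ^ 3 := (Nat.le_mul_of_pos_right _ hk).trans hmk
  set N : ℝ := (Fintype.card (Om n) : ℝ) ^ m with hN
  have hN0 : 0 < N := by have := Om_pos hn; positivity
  have key : ∀ (c : Fin m → Om n) (T : Finset (Fin m)),
      (∃ ψ ∈ 𝓕, Sol ψ (kap ∘ c) T T) ↔ ∃ y, ∀ i ∈ T, sat y (c i) := by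
    intro c T
    have h4 := H fun C => decide (C ∈ T.image (kap ∘ c))
    simp only [decide_eq_false_iff_not, decide_eq_true_eq] at h4
    refine Iff.trans ?_ (h4.trans ?_)
    · refine exists_congr fun ψ => and_congr_right fun _ => forall₂_congr fun r _ => ?_
      rw [union_self]
      constructor
      · intro h5
        by_cases h6 : r.1 ⊆ T.image (kap ∘ c)
        · by_cases h7 : Disjoint r.1 r.2
          · obtain ⟨i, h8, h9⟩ := h5 h7 h6
            exact Or.inr ⟨_, h9, mem_image_of_mem _ h8⟩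
          · obtain ⟨C, h8, h9⟩ := not_disjoint_iff.1 h7
            exact Or.inr ⟨C, h9, h6 h8⟩
        · exact Or.inl (not_subset.1 h6)
      · rintro (⟨C, h5, h6⟩ | ⟨C, h5, h6⟩) _ h7
        · exact absurd (h7 h5) h6
        · obtain ⟨i, h8, rfl⟩ := mem_image.1 h6
          exact ⟨i, h8, h5⟩
    · constructor
      · rintro ⟨a, ha⟩
        refine ⟨univ.filter fun v => a v = true, fun i hi => ?_⟩
        obtain ⟨l, h5, h6⟩ := ha _ (mem_image_of_mem _ hi)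
        obtain ⟨r, -, rfl⟩ := mem_image.1 h5
        exact ⟨r, by simp [h6]⟩
      · rintro ⟨y, hy⟩
        refine ⟨fun v => decide (v ∈ y), fun C hC => ?_⟩
        obtain ⟨i, hi, rfl⟩ := mem_image.1 hC
        obtain ⟨r, hr⟩ := hy i hi
        exact ⟨c i r, mem_image_of_mem _ (mem_univ r), hr⟩
  let A : Finset (Finset (Cls n) × Finset (Cls n)) → Finset ((Fin m → Om n) × Finset (Fin n)) :=
    fun ψ => univ.filter fun a => Sol ψ (kap ∘ a.1) (tau a.1 a.2) (tau a.1 a.2)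
  obtain ⟨ψ, hψ, hA⟩ : ∃ ψ ∈ 𝓕, N * 2 ^ n ≤ 2 ^ w * (A ψ).card := by
    have h4 : (univ : Finset ((Fin m → Om n) × Finset (Fin n))) ⊆ 𝓕.biUnion A := by
      intro a _
      obtain ⟨ψ, h5, h6⟩ := (key a.1 (tau a.1 a.2)).2 ⟨a.2, fun i hi => (mem_filter.1 hi).2⟩
      exact mem_biUnion.2 ⟨ψ, h5, mem_filter.2 ⟨mem_univ _, h6⟩⟩
    obtain ⟨ψ₀, h5, -⟩ := (key (fun _ _ => (⟨0, hn⟩, true)) ∅).2 ⟨∅, by simp⟩
    obtain ⟨ψ, h6, h7⟩ := exists_max_image 𝓕 (fun ψ => (A ψ).card) ⟨ψ₀, h5⟩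
    refine ⟨ψ, h6, ?_⟩
    have h8 := (card_le_card h4).trans (card_biUnion_le.trans
      ((sum_le_card_nsmul _ _ _ h7).trans (Nat.mul_le_mul_right _ h1)))
    rw [card_univ, Fintype.card_prod, Fintype.card_fun, Fintype.card_finset, Fintype.card_fin,
      Fintype.card_fin] at h8
    rw [hN]
    exact_mod_cast h8
  obtain ⟨𝓖, g1, g2, g3⟩ := h2 ψ hψ
  have hsub : ∀ g : Finset (Cls n) × Finset (Cls n), ∃ T ⊆ g.1, T.card = min w g.1.card :=
    fun g => exists_subset_card_eq (min_le_right _ _)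
  choose T hT1 hT2 using hsub
  let Bad : Equiv.Perm (Fin m) → (Fin m → Om n) → Prop := fun ρ c =>
    (∃ p ∈ (univ : Finset (Finset (Fin n) × Finset (Fin n))),
      n ≤ 4 * p.1.card ∧ #{i ∈ vis ρ (m - 5000 * n) | c i ∈ AU p.1 p.2} ≤ 2 * (2 * w)) ∨
    (∃ V ∈ (univ.filter fun V : Finset (Fin n) => V.card ≤ 3 * (2 * w)),
      2 * (2 * w) ≤ #{i ∈ vis ρ (m - 5000 * n) | c i ∈ AX V}) ∨
    (∃ g ∈ 𝓖, w ≤ (T g ∩ univ.image (kap ∘ c)).card) ∨
    (∃ g ∈ 𝓖, w ≤ (g.2 ∩ univ.image (kap ∘ c)).card) ∨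
    ∃ p ∈ range (m - 5000 * n + 1) ×ˢ range (m + 1), BadC ψ kap ρ M κ₀ p.1 p.2 c
  have hBad : ∀ ρ, cnt (Bad ρ) ≤ 5 * (1 / 4) ^ w * N := by
    intro ρ
    have hS : (vis ρ (m - 5000 * n)).card = 5000 * n := by rw [card_vis, Nat.sub_sub_self htm]
    have a0 : (1 / 4 : ℝ) ^ (2 * w) * N ≤ (1 / 4) ^ w * N := mul_le_mul_of_nonneg_right
      (pow_le_pow_of_le_one (by norm_num) (by norm_num) (by omega)) hN0.le
    have a1 := (count_U hn hw _ hS).trans a0
    have a2 := (count_X (by omega) hw _ hS).trans a0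
    have a3 := count_T (m := m) hn 𝓖 g1 T fun g _ =>
      Nat.mul_le_mul hm3 ((hT2 g).le.trans (min_le_left _ _))
    have a5 := count_T (m := m) hn 𝓖 g1 Prod.snd fun g hg =>
      ((Nat.mul_le_mul_left _ (g2 g hg)).trans hmk).trans (Nat.le_mul_of_pos_right _ (by omega))
    have a4 := count_C (w := w) hn (by omega) (by omega) htm
      (fun r hr => (card_fib r.2).trans (Nat.mul_le_mul_left 27 (h3 ψ hψ r hr))) (by omega)
      (by rw [card_Om]; exact hq') (hm ▸ hκ) ρ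
    refine ((cnt_or _ _).trans (add_le_add a1 ((cnt_or _ _).trans (add_le_add a2
      ((cnt_or _ _).trans (add_le_add a3 ((cnt_or _ _).trans (add_le_add a5 a4)))))))).trans
      (le_of_eq ?_)
    rw [hN]
    ring
  have hM0 : (0 : ℝ) < M := by exact_mod_cast (show 0 < M by omega)
  have hmain := core (ψ := ψ) (κ := kap) tau (A ψ) (fun a ha => (mem_filter.1 ha).2)
    (L := L) (t := 5000 * n) (M := M) (κ₀ := κ₀) hm (by omega) (by omega) (by omega) Bad
    (fun ρ c j₁ j₂ a1 a2 a3 => Or.inr (Or.inr (Or.inr (Or.inr ⟨(j₁, j₂), mem_product.2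
      ⟨mem_range.2 (by omega), mem_range.2 (by omega)⟩, a3⟩))))
    (β := 1 / 10 ^ 7) (s := 5 * (1 / 2) ^ w) (Γ := Real.exp (n / 40))
    (B := Real.exp (n * (1 / 4)) / (1 / 4) ^ (n / 4)) (by norm_num) (by norm_num) (by positivity)
    (fun ρ => by
      rw [Fintype.card_finset, Fintype.card_fin]
      push_cast
      refine (mul_le_mul_of_nonneg_right (hBad ρ) (show (0 : ℝ) ≤ 2 ^ n by positivity)).trans ?_
      have h4 : (1 / 2 : ℝ) ^ w = (1 / 4) ^ w * 2 ^ w := by rw [← mul_pow]; norm_num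
      have h5 := mul_le_mul_of_nonneg_left hA (show (0 : ℝ) ≤ 5 * (1 / 4) ^ w by positivity)
      rw [h4]
      linarith)
    (by
      have a1 : (1 / 2 : ℝ) ^ w ≤ (1 / 2) ^ 31 :=
        pow_le_pow_of_le_one (by norm_num) (by norm_num) hw0
      have a2 : (4 : ℝ) / M ≤ 4 / 10 ^ 9 := by
        gcongr
        exact_mod_cast (show 10 ^ 9 ≤ M by omega)
      have a3 : 2 * (2 * (κ₀ : ℝ) + 1) / L ≤ 6 / 10 ^ 9 := by
        have b1 : (10 : ℝ) ^ 9 * κ₀ ≤ L := by exact_mod_cast hL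
        have b2 : (1 : ℝ) ≤ κ₀ := by exact_mod_cast hκ0
        rw [div_le_div_iff₀ (by linarith) (by positivity)]
        linarith
      have a4 : (1 / 2 : ℝ) ^ 31 ≤ 1 / 10 ^ 9 := by norm_num
      linarith)
    (fun S hS => by
      refine (card_ZS S _ _ (l := (20 : ℕ)) (l' := (L + 20 : ℕ)) (by positivity)
        (by positivity)).trans (Real.exp_le_exp.2 ?_)
      have a1 := mul_le_mul_of_nonneg_left (exp_neg_le 20) (show (0 : ℝ) ≤ S.card by positivity)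
      have a2 := mul_le_mul_of_nonneg_left (exp_neg_le (L + 20)) (show (0 : ℝ) ≤ m by positivity)
      have a3 : (m : ℝ) * (1 / 2 ^ (L + 20)) = 5000 * n / 2 ^ 20 := by
        rw [hm, pow_add]
        push_cast
        field_simp
      have a4 : ((L + 20 : ℕ) : ℝ) * ((5000 * n : ℕ) / M) ≤ n / 200 := by
        rw [← mul_div_assoc, div_le_div_iff₀ hM0 (by norm_num)]
        have : 10 ^ 6 * ((L + 20 : ℕ) : ℝ) ≤ M := by exact_mod_cast hM
        have := mul_le_mul_of_nonneg_left this hn'.le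
        push_cast at this ⊢
        linarith
      rw [a3] at a2
      rw [hS] at a1 ⊢
      push_cast at a1 a2 a4 ⊢
      linarith)
    (fun ρ c Z hb => by
      simp only [Bad, not_or] at hb
      obtain ⟨b1, b2, b3, b4, -⟩ := hb
      push Not at b1 b2 b3 b4
      have b5 : ∀ r ∈ ψ, r.1 ⊆ univ.image (kap ∘ c) → r.1.card ≤ 2 * w := by
        intro r hr hs
        obtain ⟨g, c1, c2, c3⟩ := g3 r hr
        have c4 := b3 g c1
        rw [inter_eq_left.2 ((hT1 g).trans (c2.trans hs)), hT2] at c4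
        have c5 := b4 g c1
        have c6 : r.1 ⊆ g.1 ∪ g.2 ∩ univ.image (kap ∘ c) := fun C hC =>
          (mem_union.1 (c3 hC)).elim (mem_union_left _)
            fun h => mem_union_right _ (mem_inter.2 ⟨h, hs hC⟩)
        have c7 := (card_le_card c6).trans (card_union_le _ _)
        omega
      refine le_trans (Nat.cast_le.2 (few_sol c _ Z (fun V y => b1 (V, y) (mem_univ _))
        (fun V hV => b2 V (mem_filter.2 ⟨mem_univ _, hV⟩)) b5
        (fun T hT => (key c T).1 ⟨ψ, hψ, hT⟩) _ fun y hy => (mem_filter.1 hy).2))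
        (small_sets n (n / 4) (by norm_num) (by norm_num)))
  have h5 := hA.trans (mul_le_mul_of_nonneg_left hmain (by positivity))
  have h6 : (2 : ℝ) ^ n ≤ 2 ^ (w + 1 + 2 * (n / 4)) * Real.exp (n / 40 + n * (1 / 4)) := by
    refine le_of_mul_le_mul_left (h5.trans (le_of_eq ?_)) hN0
    rw [Real.exp_add, pow_add, pow_add, pow_mul, ← hN, one_div (4 : ℝ), inv_pow]
    norm_num
    ring
  rw [← Real.exp_log (show (0 : ℝ) < 2 by norm_num), ← Real.exp_nat_mul, ← Real.exp_nat_mul,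
    ← Real.exp_add, Real.exp_le_exp] at h6
  have h7 : 100 * ((w + 1 + 2 * (n / 4) : ℕ) : ℝ) ≤ 51 * n := by
    exact_mod_cast (show 100 * (w + 1 + 2 * (n / 4)) ≤ 51 * n by omega)
  nlinarith [Real.log_two_gt_d9]

/-- Gates that are an OR of negated inputs and of a function of few inputs. -/
theorem finite_junta {n w L M κ₀ k : ℕ} (hw0 : 31 ≤ w) (hw : 10 ^ 13 * (2 * w) ≤ n)
    (hκ0 : 1 ≤ κ₀) (hL : 10 ^ 9 * κ₀ ≤ L) (hM : 10 ^ 6 * (L + 20) ≤ M) (hk : 1 ≤ k)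
    (hq : k * 2 ^ (L + 5 * M + 16) ≤ n ^ 2) (hκ : 5000 * n * 2 ^ L + 2 ≤ 2 ^ (5 * M * κ₀))
    {s t : ℕ} (hs : s ≤ 2 ^ w) (ht : t ≤ 2 ^ w) (N P : Fin s → Fin t → Finset (Cls n))
    (h : Fin s → Fin t → (Cls n → Bool) → Bool) (hP : ∀ i j, (P i j).card ≤ k)
    (hh : ∀ i j x x', (∀ c ∈ P i j, x c = x' c) → h i j x = h i j x')
    (H : ∀ x : Cls n → Bool, (∃ i, ∀ j, (∃ c ∈ N i j, x c = false) ∨ h i j x = true) ↔
      ∃ a : Fin n → Bool, ∀ C, x C = true → ∃ l ∈ C.1, a l.1 = l.2) : False := by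
  classical
  let ψ : Fin s → Finset (Finset (Cls n) × Finset (Cls n)) := fun i => univ.biUnion fun j =>
    ((P i j).powerset.filter fun A => h i j (fun c => decide (c ∈ A)) = false).image
      fun A => (N i j ∪ A, P i j \ A)
  have hψ : ∀ i r, r ∈ ψ i ↔ ∃ j A, A ⊆ P i j ∧ h i j (fun c => decide (c ∈ A)) = false ∧
      (N i j ∪ A, P i j \ A) = r := by
    intro i r
    simp only [ψ, mem_biUnion, mem_univ, true_and, mem_image, mem_filter, mem_powerset, and_assoc]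
  refine finite hw0 hw hκ0 hL hM hk hq hκ (univ.image ψ)
    (card_image_le.trans (by simpa using hs)) (fun φ hφ => ?_) (fun φ hφ r hr => ?_)
    fun x => Iff.trans ?_ (H x)
  · obtain ⟨i, -, rfl⟩ := mem_image.1 hφ
    refine ⟨univ.image fun j => (N i j, P i j), card_image_le.trans (by simpa using ht),
      fun g hg => ?_, fun r hr => ?_⟩
    · obtain ⟨j, -, rfl⟩ := mem_image.1 hg
      exact hP i j
    · obtain ⟨j, A, a1, -, rfl⟩ := (hψ i r).1 hr
      exact ⟨_, mem_image_of_mem _ (mem_univ j), subset_union_left,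
        union_subset_union Subset.rfl a1⟩
  · obtain ⟨i, -, rfl⟩ := mem_image.1 hφ
    obtain ⟨j, A, -, -, rfl⟩ := (hψ i r).1 hr
    exact (card_le_card sdiff_subset).trans (hP i j)
  · simp only [mem_image, mem_univ, true_and, exists_exists_eq_and]
    refine exists_congr fun i => ⟨fun a j => ?_, fun a r hr => ?_⟩
    · by_cases b : h i j x = true
      · exact Or.inr b
      have b1 : h i j (fun c => decide (c ∈ (P i j).filter fun c => x c = true)) = false := by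
        rw [hh i j _ x fun c hc => by simp [hc]]
        simpa using b
      rcases a _ ((hψ i _).2 ⟨j, _, filter_subset _ _, b1, rfl⟩) with ⟨c, b2, b3⟩ | ⟨c, b2, b3⟩
      · rcases mem_union.1 b2 with b4 | b4
        · exact Or.inl ⟨c, b4, b3⟩
        · rw [(mem_filter.1 b4).2] at b3
          exact absurd b3 (by simp)
      · exact absurd (mem_filter.2 ⟨(mem_sdiff.1 b2).1, b3⟩) (mem_sdiff.1 b2).2
    · obtain ⟨j, A, a1, a2, rfl⟩ := (hψ i r).1 hr
      rcases a j with ⟨c, b1, b2⟩ | b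
      · exact Or.inl ⟨c, mem_union_left _ b1, b2⟩
      by_contra hc
      push Not at hc
      rw [hh i j x (fun c => decide (c ∈ A)) fun c hc' => ?_, a2] at b
      · exact absurd b (by simp)
      by_cases b1 : c ∈ A
      · simpa [b1] using hc.1 c (mem_union_right _ b1)
      · simpa [b1] using hc.2 c (mem_sdiff.2 ⟨hc', b1⟩)

end Pool.Agent.P.MP_b53add_lc.S3
end
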