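import Pool.Agent.K.MP_b53add_lc.C2

set_option autoImplicit false

namespace Pool.Agent.P.MP_b53add_lc.Mono

open Finset Classical

/-- the projection of `X` to `V` contains a subcube of codimension at most `h` -/
def Sub {n : ℕ} (X : (Fin n → Bool) → Prop) (V : Fin n → Bool) (h : ℕ) : Prop :=
  ∃ (J : Finset (Fin n)) (a : Fin n → Bool), J.card ≤ h ∧
    ∀ z : Fin n → Bool, (∀ i ∈ J, z i = a i) → ∃ x, X x ∧ ∀ i, V i = true → x i = z i

theorem Sub.le {n : ℕ} {X : (Fin n → Bool) → Prop} {V : Fin n → Bool} {h h' : ℕ}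
    (H : Sub X V h) (hh : h ≤ h') : Sub X V h' := by
  obtain ⟨J, a, h1, h2⟩ := H
  exact ⟨J, a, h1.trans hh, h2⟩

theorem sub_union {n : ℕ} {X : (Fin (n + 1) → Bool) → Prop} {V : Fin n → Bool} {h : ℕ}
    (H : Sub (fun x => X (Fin.cons false x) ∨ X (Fin.cons true x)) V h) :
    Sub X (Fin.cons false V) h := by
  obtain ⟨J, a, h1, h2⟩ := H
  refine ⟨J.image Fin.succ, Fin.cons false a, card_image_le.trans h1, fun z hz => ?_⟩
  obtain ⟨x, hx, hx'⟩ := h2 (Fin.tail z) fun i hi => hz i.succ (mem_image_of_mem _ hi)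
  rcases hx with hx | hx
  · exact ⟨_, hx, fun i => Fin.cases (by simp) (fun i hi => hx' i hi) i⟩
  · exact ⟨_, hx, fun i => Fin.cases (by simp) (fun i hi => hx' i hi) i⟩

theorem sub_inter {n : ℕ} {X : (Fin (n + 1) → Bool) → Prop} {V : Fin n → Bool} {h : ℕ}
    (H : Sub (fun x => X (Fin.cons false x) ∧ X (Fin.cons true x)) V h) :
    Sub X (Fin.cons true V) h := by
  obtain ⟨J, a, h1, h2⟩ := H
  refine ⟨J.image Fin.succ, Fin.cons false a, card_image_le.trans h1, fun z hz => ?_⟩
  obtain ⟨x, hx, hx'⟩ := h2 (Fin.tail z) fun i hi => hz i.succ (mem_image_of_mem _ hi)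
  refine ⟨Fin.cons (z 0) x, ?_, fun i => Fin.cases (by simp) (fun i hi => hx' i hi) i⟩
  cases z 0
  · exact hx.1
  · exact hx.2

theorem sub_fix {n : ℕ} {X : (Fin (n + 1) → Bool) → Prop} {V : Fin n → Bool} {h : ℕ} (b : Bool)
    (H : Sub (fun x => X (Fin.cons b x)) V h) : Sub X (Fin.cons true V) (h + 1) := by
  obtain ⟨J, a, h1, h2⟩ := H
  refine ⟨insert 0 (J.image Fin.succ), Fin.cons b a, (card_insert_le _ _).trans
    (Nat.succ_le_succ (card_image_le.trans h1)), fun z hz => ?_⟩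
  obtain ⟨x, hx, hx'⟩ := h2 (Fin.tail z) fun i hi =>
    hz i.succ (mem_insert_of_mem (mem_image_of_mem _ hi))
  refine ⟨_, hx, fun i => Fin.cases (fun _ => ?_) (fun i hi => hx' i hi) i⟩
  exact (hz 0 (mem_insert_self _ _)).symm

/-- the product weight -/
noncomputable def wt (u : ℝ) {n : ℕ} (V : Fin n → Bool) : ℝ := ∏ i, if V i = true then u else 1 - u

theorem wt_nonneg {u : ℝ} (h0 : 0 ≤ u) (h1 : u ≤ 1) {n : ℕ} (V : Fin n → Bool) : 0 ≤ wt u V :=
  prod_nonneg fun i _ => by split_ifs <;> linarith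

theorem cnt_cons {n : ℕ} (X : (Fin (n + 1) → Bool) → Prop) :
    cnt X = cnt (fun x => X (Fin.cons false x)) + cnt (fun x => X (Fin.cons true x)) := by
  rw [cnt_eq_sum, sum_cons, Fintype.sum_bool, cnt_eq_sum, cnt_eq_sum, add_comm]

theorem cnt_or_and {β : Type} [Fintype β] (P R : β → Prop) :
    cnt (fun f => P f ∨ R f) + cnt (fun f => P f ∧ R f) = cnt P + cnt R := by
  simp only [cnt_eq_sum, ← sum_add_distrib]
  refine sum_congr rfl fun f _ => ?_
  by_cases h1 : P f <;> by_cases h2 : R f <;> simp [h1, h2]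

theorem exists_of_cnt_pos {β : Type} [Fintype β] {P : β → Prop} (h : 0 < cnt P) : ∃ f, P f := by
  by_contra hc
  push Not at hc
  have := cnt_le_card (P := P) (A := ∅) fun f hf => absurd hf (hc f)
  simp at this
  linarith

theorem lemmaS {u : ℝ} (hu0 : 0 < u) (hu : u ≤ 1 / 4) : ∀ (n : ℕ) (X : (Fin n → Bool) → Prop),
    0 < cnt X → ∃ f : (Fin n → Bool) → ℕ, (∀ V, Sub X V (f V)) ∧
      ∑ V, wt u V * (1 / (3 * u)) ^ f V ≤ 2 ^ n / cnt X := by
  intro n
  induction n with
  | zero =>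
    intro X hX
    obtain ⟨x, hx⟩ := exists_of_cnt_pos hX
    refine ⟨fun _ => 0, fun V => ⟨∅, x, le_rfl, fun z _ => ⟨x, hx, fun i => i.elim0⟩⟩, ?_⟩
    have h1 : cnt X ≤ 1 := by
      simpa using cnt_le_card (P := X) (A := univ) fun f _ => mem_univ _
    rw [le_div_iff₀ hX]
    simpa [wt] using h1
  | succ n ih =>
    intro X hX
    have key : ∀ (g0 g1 : (Fin n → Bool) → ℕ) (A B : ℝ),
        (∀ V, Sub X (Fin.cons false V) (g0 V)) → (∀ V, Sub X (Fin.cons true V) (g1 V)) →
        ∑ V, wt u V * (1 / (3 * u)) ^ g0 V ≤ A → ∑ V, wt u V * (1 / (3 * u)) ^ g1 V ≤ B →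
        (1 - u) * A + u * B ≤ 2 ^ (n + 1) / cnt X →
        ∃ f : (Fin (n + 1) → Bool) → ℕ, (∀ V, Sub X V (f V)) ∧
          ∑ V, wt u V * (1 / (3 * u)) ^ f V ≤ 2 ^ (n + 1) / cnt X := by
      intro g0 g1 A B h0 h1 hA hB hC
      refine ⟨fun V => if V 0 = true then g1 (Fin.tail V) else g0 (Fin.tail V), fun V => ?_, ?_⟩
      · have e := Fin.cons_self_tail V
        beta_reduce
        by_cases hV : V 0 = true
        · rw [if_pos hV]
          have := h1 (Fin.tail V)
          rwa [← hV, e] at this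
        · rw [if_neg hV]
          have := h0 (Fin.tail V)
          rwa [← (Bool.not_eq_true _).mp hV, e] at this
      · refine le_trans ?_ hC
        rw [sum_cons, Fintype.sum_bool, add_comm]
        refine add_le_add ?_ ?_
        · refine le_trans (le_of_eq ?_) (mul_le_mul_of_nonneg_left hA (by linarith))
          rw [mul_sum]
          refine sum_congr rfl fun V _ => ?_
          simp [wt, Fin.prod_univ_succ, mul_assoc]
        · refine le_trans (le_of_eq ?_) (mul_le_mul_of_nonneg_left hB hu0.le)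
          rw [mul_sum]
          refine sum_congr rfl fun V _ => ?_
          simp [wt, Fin.prod_univ_succ, mul_assoc]
    have e1 := cnt_cons X
    have e2 := cnt_or_and (fun x => X (Fin.cons false x)) (fun x => X (Fin.cons true x))
    have e3 : cnt (fun x : Fin n → Bool => X (Fin.cons false x) ∧ X (Fin.cons true x)) ≤
        cnt (fun x => X (Fin.cons false x) ∨ X (Fin.cons true x)) :=
      cnt_mono fun x hx => Or.inl hx.1
    have e4 := cnt_nonneg (fun x : Fin n → Bool => X (Fin.cons false x) ∧ X (Fin.cons true x))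
    obtain ⟨g0, hg0, hA⟩ := ih (fun x => X (Fin.cons false x) ∨ X (Fin.cons true x)) (by linarith)
    have h2 : (0 : ℝ) < 2 ^ n := by positivity
    by_cases hfree : cnt X ≤
        4 * cnt (fun x : Fin n → Bool => X (Fin.cons false x) ∧ X (Fin.cons true x))
    · obtain ⟨g1, hg1, hB⟩ := ih (fun x => X (Fin.cons false x) ∧ X (Fin.cons true x))
        (by linarith)
      refine key g0 g1 _ _ (fun V => sub_union (hg0 V)) (fun V => sub_inter (hg1 V)) hA hB ?_
      generalize cnt (fun x : Fin n → Bool => X (Fin.cons false x) ∧ X (Fin.cons true x)) = c at *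
      generalize cnt (fun x : Fin n → Bool => X (Fin.cons false x) ∨ X (Fin.cons true x)) = d at *
      have hc : 0 < c := by linarith
      have hd : 0 < d := by linarith
      have e5 : cnt X = d + c := by linarith
      rw [e5, pow_succ, ← mul_div_assoc, ← mul_div_assoc, div_add_div _ _ hd.ne' hc.ne',
        div_le_div_iff₀ (by positivity) (by positivity)]
      have e6 : u * (d + c) ≤ c := by nlinarith
      have e7 : 0 ≤ 2 ^ n * ((d - c) * (c - u * (d + c))) :=
        mul_nonneg h2.le (mul_nonneg (by linarith) (by linarith))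
      nlinarith
    · push Not at hfree
      obtain ⟨b, hb⟩ : ∃ b, cnt X ≤ 2 * cnt (fun x : Fin n → Bool => X (Fin.cons b x)) := by
        by_contra hc
        push Not at hc
        have := hc true
        have := hc false
        linarith
      obtain ⟨g1, hg1, hB⟩ := ih (fun x => X (Fin.cons b x)) (by linarith)
      refine key g0 (fun V => g1 V + 1) _
        (1 / (3 * u) * (2 ^ n / cnt (fun x : Fin n → Bool => X (Fin.cons b x))))
        (fun V => sub_union (hg0 V)) (fun V => sub_fix b (hg1 V)) hA ?_ ?_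
      · refine le_trans (le_of_eq ?_) (mul_le_mul_of_nonneg_left hB (by positivity))
        rw [mul_sum]
        refine sum_congr rfl fun V _ => ?_
        ring
      · generalize cnt (fun x : Fin n → Bool => X (Fin.cons b x)) = s at *
        generalize cnt (fun x : Fin n → Bool => X (Fin.cons false x) ∧ X (Fin.cons true x)) = c
          at *
        generalize cnt (fun x : Fin n → Bool => X (Fin.cons false x) ∨ X (Fin.cons true x)) = d
          at *
        have hs : 0 < s := by linarith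
        have hd : 0 < d := by linarith
        have e5 : 2 ^ n / d ≤ 4 / 3 * (2 ^ n / cnt X) := by
          rw [← mul_div_assoc, div_le_div_iff₀ hd hX]
          nlinarith
        have e6 : 2 ^ n / s ≤ 2 * (2 ^ n / cnt X) := by
          rw [← mul_div_assoc, div_le_div_iff₀ hs hX]
          nlinarith
        have e7 : u * (1 / (3 * u) * (2 ^ n / s)) = 1 / 3 * (2 ^ n / s) := by field_simp
        have e8 : (2 : ℝ) ^ (n + 1) / cnt X = 2 * (2 ^ n / cnt X) := by ring
        have e9 : 0 ≤ u * (2 ^ n / d) := by positivity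
        rw [e7, e8]
        linarith

/-- the weight of an event -/
noncomputable def wsum (u : ℝ) {n : ℕ} (P : (Fin n → Bool) → Prop) : ℝ :=
  ∑ V, if P V then wt u V else 0

theorem wsum_or {u : ℝ} (h0 : 0 ≤ u) (h1 : u ≤ 1) {n : ℕ} (P R : (Fin n → Bool) → Prop) :
    wsum u (fun V => P V ∨ R V) ≤ wsum u P + wsum u R := by
  unfold wsum
  rw [← sum_add_distrib]
  refine sum_le_sum fun V _ => ?_
  have := wt_nonneg h0 h1 V
  by_cases h1 : P V <;> by_cases h2 : R V <;> simp [h1, h2, this]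

theorem wsum_exists {u : ℝ} (h0 : 0 ≤ u) (h1 : u ≤ 1) {n : ℕ} {κ : Type} (A : Finset κ)
    (P : κ → (Fin n → Bool) → Prop) :
    wsum u (fun V => ∃ k ∈ A, P k V) ≤ ∑ k ∈ A, wsum u (P k) := by
  unfold wsum
  rw [sum_comm]
  refine sum_le_sum fun V _ => ?_
  have hnn : ∀ k ∈ A, 0 ≤ (if P k V then wt u V else 0) := fun k _ => by
    split_ifs
    · exact wt_nonneg h0 h1 V
    · exact le_rfl
  split_ifs with h
  · obtain ⟨k, hk, h⟩ := h
    have := single_le_sum hnn hk
    simpa only [if_pos h] using this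
  · exact sum_nonneg hnn

theorem sum_wt_mul (u : ℝ) (n : ℕ) (t : ℝ) :
    ∑ V : Fin n → Bool, wt u V * t ^ (univ.filter fun i => V i = true).card =
      (1 - u + u * t) ^ n := by
  have h1 := prod_univ_sum (fun _ : Fin n => (univ : Finset Bool))
    (fun _ b => if b = true then u * t else 1 - u)
  rw [Fintype.piFinset_univ] at h1
  simp only [Fintype.sum_bool, if_true, Bool.false_eq_true, if_false, prod_const, card_univ,
    Fintype.card_fin] at h1
  rw [add_comm, h1]
  refine sum_congr rfl fun V _ => ?_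
  rw [wt, ← prod_const, prod_filter, ← prod_mul_distrib]
  refine prod_congr rfl fun i _ => ?_
  split_ifs <;> ring

theorem wsum_markov {u : ℝ} (h0 : 0 ≤ u) (h1 : u ≤ 1) {n : ℕ} (P : (Fin n → Bool) → Prop)
    (g : (Fin n → Bool) → ℝ) {w : ℝ} (hg : ∀ V, 0 ≤ g V) (h : ∀ V, P V → w ≤ g V) :
    wsum u P * w ≤ ∑ V, wt u V * g V := by
  rw [wsum, sum_mul]
  refine sum_le_sum fun V _ => ?_
  split_ifs with hV
  · exact mul_le_mul_of_nonneg_left (h V hV) (wt_nonneg h0 h1 V)
  · rw [zero_mul]; exact mul_nonneg (wt_nonneg h0 h1 V) (hg V)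

theorem wsum_not_sub {u : ℝ} (hu0 : 0 < u) (hu : u ≤ 1 / 4) {n : ℕ} (X : (Fin n → Bool) → Prop)
    {L : ℝ} (hX : 2 ^ n ≤ cnt X * L) (h : ℕ) :
    wsum u (fun V => ¬ Sub X V h) ≤ L * (3 * u) ^ (h + 1) := by
  have h2 : (0 : ℝ) < 2 ^ n := by positivity
  have hc : 0 < cnt X := by
    rcases (cnt_nonneg X).eq_or_lt with e | e
    · rw [← e] at hX; linarith
    · exact e
  obtain ⟨f, hf, hs⟩ := lemmaS hu0 hu n X hc
  have h3 : (1 : ℝ) ≤ 1 / (3 * u) := by rw [le_div_iff₀ (by positivity)]; linarith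
  have h4 := wsum_markov hu0.le (by linarith) (fun V => ¬ Sub X V h)
    (fun V => (1 / (3 * u)) ^ f V) (w := (1 / (3 * u)) ^ (h + 1)) (fun V => by positivity)
    fun V hV => pow_le_pow_right₀ h3 (by
      by_contra hc
      exact hV ((hf V).le (by omega)))
  have h5 : 2 ^ n / cnt X ≤ L := by rw [div_le_iff₀ hc]; linarith
  have h6 := (h4.trans hs).trans h5
  rwa [one_div, inv_pow, ← div_eq_mul_inv, div_le_iff₀ (by positivity)] at h6

theorem choose_V {n T : ℕ} (hT : 1 ≤ T) (hn : 10 ^ 18 * T ≤ n) {κ : Type} (A : Finset κ)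
    (hA : (A.card : ℝ) ≤ (24 * 10 ^ 18) ^ T) (X : κ → (Fin n → Bool) → Prop)
    (hX : ∀ k ∈ A, 2 ^ n ≤ cnt (X k) * (24 * 10 ^ 18) ^ T)
    (X0 : (Fin n → Bool) → Prop) (hX0 : 2 ^ n ≤ cnt X0 * 2) :
    ∃ V : Fin n → Bool, 10 ^ 12 * T ≤ (univ.filter fun i => V i = true).card ∧
      (∀ k ∈ A, Sub (X k) V (9 * T)) ∧ Sub X0 V 0 := by
  obtain ⟨u, hu⟩ : ∃ u : ℝ, u = 4 / 10 ^ 6 := ⟨_, rfl⟩
  have hu0 : 0 < u := by rw [hu]; norm_num
  have hu4 : u ≤ 1 / 4 := by rw [hu]; norm_num
  have hu1 : u ≤ 1 := by linarith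
  have h1 : wsum u (fun V : Fin n → Bool =>
      (univ.filter fun i => V i = true).card < 10 ^ 12 * T) ≤ 1 / 10 := by
    have h2 := wsum_markov hu0.le hu1 (fun V : Fin n → Bool =>
      (univ.filter fun i => V i = true).card < 10 ^ 12 * T)
      (fun V => (1 / 2) ^ (univ.filter fun i => V i = true).card) (w := (1 / 2) ^ (10 ^ 12 * T))
      (fun V => by positivity)
      fun V hV => pow_le_pow_of_le_one (by norm_num) (by norm_num) hV.le
    rw [sum_wt_mul, one_div 2, inv_pow, ← div_eq_mul_inv, div_le_iff₀ (by positivity)] at h2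
    refine h2.trans ?_
    have h3 : (1 - u + u * 2⁻¹) ^ n ≤ Real.exp (-(u / 2) * n) := by
      rw [mul_comm (-(u / 2)), Real.exp_nat_mul]
      exact pow_le_pow_left₀ (by linarith) (by linarith [Real.add_one_le_exp (-(u / 2))]) _
    have h4 : (2 : ℝ) ^ (10 ^ 12 * T) ≤ Real.exp ((10 ^ 12 * T : ℕ) * 1) := by
      rw [Real.exp_nat_mul]
      exact pow_le_pow_left₀ (by norm_num) (by linarith [Real.add_one_le_exp 1]) _
    refine (mul_le_mul h3 h4 (by positivity) (by positivity)).trans ?_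
    rw [← Real.exp_add]
    have h5 : (10 : ℝ) ^ 18 * T ≤ n := by exact_mod_cast hn
    have h6 : (1 : ℝ) ≤ T := by exact_mod_cast hT
    have h7 : -(u / 2) * n + (10 ^ 12 * T : ℕ) * 1 ≤ -9 := by
      rw [hu]; push_cast; linarith
    refine (Real.exp_le_exp.2 h7).trans ?_
    rw [Real.exp_neg, inv_eq_one_div]
    exact one_div_le_one_div_of_le (by norm_num) (by linarith [Real.add_one_le_exp 9])
  have h2 : wsum u (fun V => ∃ k ∈ A, ¬ Sub (X k) V (9 * T)) ≤ 1 / 10 := by
    refine (wsum_exists hu0.le hu1 A _).trans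
      ((sum_le_sum fun k hk => wsum_not_sub hu0 hu4 (X k) (hX k hk) (9 * T)).trans ?_)
    rw [sum_const, nsmul_eq_mul]
    refine (mul_le_mul_of_nonneg_right hA (by positivity)).trans ?_
    have h3 : (3 * u) ^ (9 * T + 1) ≤ ((3 * u) ^ 9) ^ T := by
      rw [← pow_mul]
      exact pow_le_pow_of_le_one (by positivity) (by linarith) (by omega)
    refine (mul_le_mul_of_nonneg_left (mul_le_mul_of_nonneg_left h3 (by positivity))
      (by positivity)).trans ?_
    rw [← mul_pow, ← mul_pow, hu]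
    exact (pow_le_of_le_one (by norm_num) (by norm_num) (by omega)).trans (by norm_num)
  have h3 : wsum u (fun V => ¬ Sub X0 V 0) ≤ 1 / 10 := by
    refine (wsum_not_sub hu0 hu4 X0 hX0 0).trans ?_
    rw [hu]; norm_num
  have h4 := (wsum_or hu0.le hu1 _ _).trans (add_le_add
    ((wsum_or hu0.le hu1 _ _).trans (add_le_add h1 h2)) h3)
  by_contra hc
  have h5 : ∀ V : Fin n → Bool, ((univ.filter fun i => V i = true).card < 10 ^ 12 * T ∨
      ∃ k ∈ A, ¬ Sub (X k) V (9 * T)) ∨ ¬ Sub X0 V 0 := by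
    intro V
    by_contra hV
    push Not at hV
    exact hc ⟨V, hV.1.1, hV.1.2, hV.2⟩
  have h6 := sum_wt_mul u n 1
  simp only [one_pow, mul_one, sub_add_cancel] at h6
  unfold wsum at h4
  simp only [h5, if_true] at h4
  linarith

theorem Sub.restrict {n : ℕ} {α : Type} [Fintype α] [DecidableEq α] {X : (Fin n → Bool) → Prop}
    {V : Fin n → Bool} {h : ℕ} (H : Sub X V h) {ι : α → Fin n} (hι : Function.Injective ι)
    (hV : ∀ i, V (ι i) = true) :
    ∃ Z : Finset (α × Bool), Z.card ≤ h ∧ (∃ y, Ag y Z) ∧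
      ∀ y, Ag y Z → ∃ x, X x ∧ ∀ i, x (ι i) = y i := by
  obtain ⟨J, a, h1, h2⟩ := H
  refine ⟨(univ.filter fun i => ι i ∈ J).image fun i => (i, a (ι i)),
    card_image_le.trans (le_trans ?_ h1), ⟨fun i => a (ι i), fun l hl => ?_⟩, fun y hy => ?_⟩
  · exact card_le_card_of_injOn ι (fun i hi => (mem_filter.1 hi).2) hι.injOn
  · obtain ⟨i, -, rfl⟩ := mem_image.1 hl
    rfl
  · obtain ⟨x, hx, hx'⟩ := h2 (Function.extend ι y a) fun v hv => by
      by_cases h3 : ∃ i, ι i = v
      · obtain ⟨i, rfl⟩ := h3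
        rw [hι.extend_apply]
        exact hy (i, a (ι i)) (mem_image_of_mem _ (mem_filter.2 ⟨mem_univ _, hv⟩))
      · exact Function.extend_apply' _ _ _ h3
    exact ⟨x, hx, fun i => (hx' _ (hV i)).trans (hι.extend_apply _ _ _)⟩

end Pool.Agent.P.MP_b53add_lc.Mono
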