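import Pool.Agent.K.MP_b53add_lc.C0
import Pool.Agent.P.MP_b53add_lc.Defs

-- part Pool.Agent.P.MP_b53add_lc.Calc
section

set_option autoImplicit false

namespace Pool.Agent.P.MP_b53add_lc

open Finset Classical

/-- circuits whose gates form an arbitrary finite type -/
structure GC (I : Type) where
  Γ : Type
  fin : Fintype Γ
  kind : Γ → Fin 3
  inp : Γ → Finset I
  prd : Γ → Finset Γ
  lvl : Γ → ℕ
  fan : ∀ j, kind j = 2 → (inp j).card + (prd j).card = 1
  pos : ∀ j, 1 ≤ (inp j).card + (prd j).card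
  lvl1 : ∀ j, 1 ≤ lvl j
  lvlp : ∀ j, ∀ k ∈ prd j, lvl k + 1 ≤ lvl j

variable {I : Type}

def GC.Sem (C : GC I) (ξ : I → Prop) (g : C.Γ → Prop) : Prop := ∀ j,
  (C.kind j = 0 → (g j ↔ (∃ i ∈ C.inp j, ξ i) ∨ ∃ k ∈ C.prd j, g k)) ∧
  (C.kind j = 1 → (g j ↔ (∀ i ∈ C.inp j, ξ i) ∧ ∀ k ∈ C.prd j, g k)) ∧
  (C.kind j = 2 → (g j ↔ ¬ ((∀ i ∈ C.inp j, ξ i) ∧ ∀ k ∈ C.prd j, g k)))

def Comp (d s : ℕ) (f : (I → Prop) → Prop) : Prop :=
  ∃ (C : GC I) (o : C.Γ), C.lvl o ≤ d ∧ @Fintype.card _ C.fin ≤ s ∧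
    ∀ ξ g, C.Sem ξ g → (g o ↔ f ξ)

theorem Comp.mono {d s d' s' : ℕ} {f : (I → Prop) → Prop} (h : Comp d s f) (hd : d ≤ d')
    (hs : s ≤ s') : Comp d' s' f := by
  obtain ⟨C, o, h1, h2, h3⟩ := h
  exact ⟨C, o, h1.trans hd, h2.trans hs, h3⟩

theorem Comp.congr {d s : ℕ} {f g : (I → Prop) → Prop} (h : Comp d s f) (e : ∀ ξ, g ξ ↔ f ξ) :
    Comp d s g := by
  have : g = f := funext fun y => propext (e y)
  rwa [this]

def oneGate (k : Fin 3) (S : Finset I) (h1 : 1 ≤ S.card) (h2 : k = 2 → S.card = 1) : GC I where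
  Γ := Unit
  fin := inferInstance
  kind := fun _ => k
  inp := fun _ => S
  prd := fun _ => ∅
  lvl := fun _ => 1
  fan := fun _ h => by simpa using h2 h
  pos := fun _ => by simpa using h1
  lvl1 := fun _ => le_rfl
  lvlp := fun _ _ h => by simp at h

theorem comp_gate_ex (S : Finset I) (h : S.Nonempty) : Comp 1 1 (fun ξ : I → Prop => ∃ i ∈ S, ξ i) :=
  ⟨oneGate 0 S (card_pos.2 h) (by simp), (), le_rfl, by simp [oneGate],
    fun ξ (g : Unit → Prop) hg => by
      have : g () ↔ (∃ i ∈ S, ξ i) ∨ ∃ k ∈ (∅ : Finset Unit), g k := (hg ()).1 rfl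
      simpa using this⟩

theorem comp_gate_all (S : Finset I) (h : S.Nonempty) : Comp 1 1 (fun ξ : I → Prop => ∀ i ∈ S, ξ i) :=
  ⟨oneGate 1 S (card_pos.2 h) (by simp), (), le_rfl, by simp [oneGate],
    fun ξ (g : Unit → Prop) hg => by
      have : g () ↔ (∀ i ∈ S, ξ i) ∧ ∀ k ∈ (∅ : Finset Unit), g k := (hg ()).2.1 rfl
      simpa using this⟩

theorem comp_gate_not (i : I) : Comp 1 1 (fun ξ : I → Prop => ¬ ξ i) :=
  ⟨oneGate 2 {i} (by simp) (by simp), (), le_rfl, by simp [oneGate],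
    fun ξ (g : Unit → Prop) hg => by
      have : g () ↔ ¬ ((∀ i' ∈ ({i} : Finset I), ξ i') ∧ ∀ k ∈ (∅ : Finset Unit), g k) :=
        (hg ()).2.2 rfl
      simpa using this⟩

theorem comp_subst {J : Type} [Fintype J] {d s d' s' : ℕ} {f : (J → Prop) → Prop}
    {g : J → (I → Prop) → Prop} (hf : Comp d s f) (hg : ∀ j, Comp d' s' (g j)) :
    Comp (d + d') (s + Fintype.card J * s') (fun ξ => f (fun j => g j ξ)) := by
  obtain ⟨C, o, h1, h2, h3⟩ := hf
  choose D od e1 e2 e3 using hg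
  let := C.fin
  let : ∀ j, Fintype (D j).Γ := fun j => (D j).fin
  let Γ := (Σ j, (D j).Γ) ⊕ C.Γ
  let a : J ↪ Γ := ⟨fun j => Sum.inl ⟨j, od j⟩, fun j j' h => by
    simp only [Γ, Sum.inl.injEq, Sigma.mk.injEq] at h; exact h.1⟩
  let b : C.Γ ↪ Γ := ⟨Sum.inr, Sum.inr_injective⟩
  let c : ∀ j, (D j).Γ ↪ Γ := fun j => ⟨fun γ => Sum.inl ⟨j, γ⟩, fun γ γ' h => by
    simpa [Γ] using h⟩
  have hdis : ∀ γ : C.Γ, Disjoint ((C.inp γ).map a) ((C.prd γ).map b) := by
    intro γ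
    rw [Finset.disjoint_left]
    intro x hx hx'
    obtain ⟨j, -, rfl⟩ := mem_map.1 hx
    obtain ⟨k, -, hk⟩ := mem_map.1 hx'
    simp [a, b, Γ] at hk
  let E : GC I :=
    { Γ := Γ
      fin := inferInstance
      kind := Sum.elim (fun p => (D p.1).kind p.2) C.kind
      inp := Sum.elim (fun p => (D p.1).inp p.2) (fun _ => ∅)
      prd := Sum.elim (fun p => ((D p.1).prd p.2).map (c p.1))
        (fun γ => ((C.inp γ).map a).disjUnion ((C.prd γ).map b) (hdis γ))
      lvl := Sum.elim (fun p => (D p.1).lvl p.2) (fun γ => C.lvl γ + d')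
      fan := by
        rintro (⟨j, γ⟩ | γ) h
        · simpa using (D j).fan γ h
        · simpa [-disjUnion_eq_union] using C.fan γ h
      pos := by
        rintro (⟨j, γ⟩ | γ)
        · simpa using (D j).pos γ
        · simpa [-disjUnion_eq_union] using C.pos γ
      lvl1 := by
        rintro (⟨j, γ⟩ | γ)
        · exact (D j).lvl1 γ
        · have := C.lvl1 γ
          simp only [Sum.elim_inr]; omega
      lvlp := by
        rintro (⟨j, γ⟩ | γ) k hk
        · obtain ⟨k', hk', rfl⟩ := mem_map.1 hk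
          exact (D j).lvlp γ k' hk'
        · rcases (mem_disjUnion (h := hdis γ)).1 hk with hk | hk
          · obtain ⟨j, -, rfl⟩ := mem_map.1 hk
            have := e1 j
            have := C.lvl1 γ
            change (D j).lvl (od j) + 1 ≤ C.lvl γ + d'
            omega
          · obtain ⟨k', hk', rfl⟩ := mem_map.1 hk
            have := C.lvlp γ k' hk'
            change C.lvl k' + d' + 1 ≤ C.lvl γ + d'
            omega }
  refine ⟨E, Sum.inr o, ?_, ?_, fun ξ v hv => ?_⟩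
  · change C.lvl o + d' ≤ d + d'; omega
  · change Fintype.card ((Σ j, (D j).Γ) ⊕ C.Γ) ≤ _
    rw [Fintype.card_sum, Fintype.card_sigma]
    have := Finset.sum_le_card_nsmul univ (fun j => Fintype.card (D j).Γ) s' (fun j _ => e2 j)
    simp only [card_univ, smul_eq_mul] at this
    omega
  · have hD : ∀ j, v (a j) ↔ g j ξ := by
      intro j
      apply e3 j ξ (fun γ => v (c j γ))
      intro γ
      have := hv (Sum.inl ⟨j, γ⟩)
      simp only [E, Sum.elim_inl, mem_map, exists_exists_and_eq_and, forall_exists_index,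
        and_imp, forall_apply_eq_imp_iff₂] at this
      exact this
    have hfun : (fun j => g j ξ) = fun j => v (a j) := funext fun j => propext (hD j).symm
    beta_reduce
    rw [hfun]
    apply h3 _ (fun γ => v (b γ))
    intro γ
    have := hv (Sum.inr γ)
    simp only [E, Sum.elim_inr, notMem_empty, false_and, exists_false, false_or, false_imp_iff,
      implies_true, true_and, mem_disjUnion, or_and_right, exists_or, or_imp, forall_and,
      mem_map, exists_exists_and_eq_and, forall_exists_index,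
      and_imp, forall_apply_eq_imp_iff₂] at this
    exact this

theorem comp_inp (i : I) : Comp 1 1 (fun ξ : I → Prop => ξ i) :=
  (comp_gate_ex {i} (by simp)).congr fun ξ => by simp

theorem Comp.not {d s : ℕ} {f : (I → Prop) → Prop} (h : Comp d s f) :
    Comp (d + 1) (s + 1) (fun ξ => ¬ f ξ) :=
  (comp_subst (J := Unit) (comp_gate_not ()) (g := fun _ => f) (fun _ => h)).mono (by omega)
    (by simp; omega)

theorem comp_ex {J : Type} [Fintype J] [Nonempty J] {d s : ℕ} {g : J → (I → Prop) → Prop}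
    (hg : ∀ j, Comp d s (g j)) : Comp (d + 1) (1 + Fintype.card J * s) (fun ξ => ∃ j, g j ξ) :=
  ((comp_subst (comp_gate_ex univ univ_nonempty) hg).mono (by omega) le_rfl).congr
    fun ξ => by simp

theorem comp_all {J : Type} [Fintype J] [Nonempty J] {d s : ℕ} {g : J → (I → Prop) → Prop}
    (hg : ∀ j, Comp d s (g j)) : Comp (d + 1) (1 + Fintype.card J * s) (fun ξ => ∀ j, g j ξ) :=
  ((comp_subst (comp_gate_all univ univ_nonempty) hg).mono (by omega) le_rfl).congr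
    fun ξ => by simp

theorem comp_const [Nonempty I] (P : Prop) : Comp 3 5 (fun _ : I → Prop => P) := by
  obtain ⟨i⟩ := ‹Nonempty I›
  have h : ∀ b : Bool, Comp 2 2 (fun ξ : I → Prop => if b = true then ξ i else ¬ ξ i) := by
    intro b; cases b
    · simpa using (comp_inp i).not
    · simpa using (comp_inp i).mono (by norm_num : 1 ≤ 2) (by norm_num : 1 ≤ 2)
  by_cases hP : P
  · refine (comp_ex h).congr fun ξ => ?_
    simp only [Bool.exists_bool, hP, true_iff]
    by_cases h : ξ i <;> simp [h]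
  · refine (comp_all h).congr fun ξ => ?_
    simp only [Bool.forall_bool, hP, false_iff]
    by_cases h : ξ i <;> simp [h]

/-- small circuits: depth `d + 3`, size `B ^ (d + 3)` -/
def Sm (B d : ℕ) (f : (I → Prop) → Prop) : Prop := Comp (d + 3) (B ^ (d + 3)) f

section Small

variable {B : ℕ}

theorem Sm.mono (hB : 4 ≤ B) {d d' : ℕ} {f : (I → Prop) → Prop} (h : Sm B d f) (hd : d ≤ d') :
    Sm B d' f := Comp.mono h (by omega) (Nat.pow_le_pow_right (by omega) (by omega))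

theorem Sm.congr {d : ℕ} {f g : (I → Prop) → Prop} (h : Sm B d f) (e : ∀ ξ, g ξ ↔ f ξ) :
    Sm B d g := Comp.congr h e

theorem sm_const [Nonempty I] (hB : 4 ≤ B) (d : ℕ) (P : Prop) : Sm B d (fun _ : I → Prop => P) := by
  refine Sm.mono hB (d := 0) ((comp_const P).mono le_rfl ?_) (Nat.zero_le _)
  calc 5 ≤ 4 ^ (0 + 3) := by norm_num
    _ ≤ _ := Nat.pow_le_pow_left hB _

theorem sm_inp (hB : 4 ≤ B) (d : ℕ) (i : I) : Sm B d (fun ξ : I → Prop => ξ i) :=
  (comp_inp i).mono (by omega) (Nat.one_le_pow _ _ (by omega))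

theorem Sm.not (hB : 4 ≤ B) {d : ℕ} {f : (I → Prop) → Prop} (h : Sm B d f) :
    Sm B (d + 1) (fun ξ => ¬ f ξ) := by
  refine (Comp.not h).mono (by omega) ?_
  have : 1 ≤ B ^ (d + 3) := Nat.one_le_pow _ _ (by omega)
  rw [show d + 1 + 3 = d + 3 + 1 by omega, pow_succ B (d + 3)]
  nlinarith

theorem sm_ex [Nonempty I] (hB : 4 ≤ B) {J : Type} [Fintype J] (hJ : Fintype.card J + 2 ≤ B) {d : ℕ}
    {g : J → (I → Prop) → Prop} (hg : ∀ j, Sm B d (g j)) : Sm B (d + 1) (fun ξ => ∃ j, g j ξ) := by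
  have h := comp_ex (J := Option J) (d := d + 3) (s := B ^ (d + 3))
    (g := fun o => o.elim (fun _ => False) g) (by
      rintro (_ | j)
      · exact sm_const hB d False
      · exact hg j)
  refine (h.mono (by omega) ?_).congr fun ξ => by simp [Option.exists]
  have : 1 ≤ B ^ (d + 3) := Nat.one_le_pow _ _ (by omega)
  rw [show d + 1 + 3 = d + 3 + 1 by omega, pow_succ B (d + 3), Fintype.card_option]
  nlinarith

theorem sm_all [Nonempty I] (hB : 4 ≤ B) {J : Type} [Fintype J] (hJ : Fintype.card J + 2 ≤ B) {d : ℕ}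
    {g : J → (I → Prop) → Prop} (hg : ∀ j, Sm B d (g j)) : Sm B (d + 1) (fun ξ => ∀ j, g j ξ) := by
  have h := comp_all (J := Option J) (d := d + 3) (s := B ^ (d + 3))
    (g := fun o => o.elim (fun _ => True) g) (by
      rintro (_ | j)
      · exact sm_const hB d True
      · exact hg j)
  refine (h.mono (by omega) ?_).congr fun ξ => by simp [Option.forall]
  have : 1 ≤ B ^ (d + 3) := Nat.one_le_pow _ _ (by omega)
  rw [show d + 1 + 3 = d + 3 + 1 by omega, pow_succ B (d + 3), Fintype.card_option]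
  nlinarith

theorem Sm.and [Nonempty I] (hB : 4 ≤ B) {d : ℕ} {f g : (I → Prop) → Prop} (hf : Sm B d f)
    (hg : Sm B d g) : Sm B (d + 1) (fun ξ => f ξ ∧ g ξ) :=
  (sm_all hB (J := Bool) (by simpa using hB) (g := fun b => if b = true then f else g)
    (by intro b; cases b <;> simpa)).congr fun ξ => by simp [and_comm]

theorem Sm.or [Nonempty I] (hB : 4 ≤ B) {d : ℕ} {f g : (I → Prop) → Prop} (hf : Sm B d f)
    (hg : Sm B d g) : Sm B (d + 1) (fun ξ => f ξ ∨ g ξ) :=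
  (sm_ex hB (J := Bool) (by simpa using hB) (g := fun b => if b = true then f else g)
    (by intro b; cases b <;> simpa)).congr fun ξ => by simp [or_comm]

theorem Sm.guard [Nonempty I] (hB : 4 ≤ B) {d : ℕ} (P : Prop) {f : (I → Prop) → Prop}
    (hf : Sm B d f) : Sm B d (fun ξ => P ∧ f ξ) := by
  by_cases h : P
  · exact hf.congr fun ξ => by simp [h]
  · exact (sm_const hB d False).congr fun ξ => by simp [h]

theorem Sm.guard_imp [Nonempty I] (hB : 4 ≤ B) {d : ℕ} (P : Prop) {f : (I → Prop) → Prop}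
    (hf : Sm B d f) : Sm B d (fun ξ => P → f ξ) := by
  by_cases h : P
  · exact hf.congr fun ξ => by simp [h]
  · exact (sm_const hB d True).congr fun ξ => by simp [h]

/-- at least `θ` elements satisfy `P` -/
def AtLeast {A : Type} (θ : ℕ) (P : A → Prop) : Prop :=
  ∃ f : Fin θ → A, Function.Injective f ∧ ∀ i, P (f i)

theorem atLeast_iff {A : Type} {θ : ℕ} {P : A → Prop} :
    AtLeast θ P ↔ ∃ S : Finset A, S.card = θ ∧ ∀ a ∈ S, P a := by
  constructor
  · rintro ⟨f, hf, h⟩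
    refine ⟨univ.map ⟨f, hf⟩, by simp, fun a ha => ?_⟩
    obtain ⟨i, -, rfl⟩ := mem_map.1 ha
    exact h i
  · rintro ⟨S, rfl, h⟩
    exact ⟨fun i => (S.equivFin.symm i).1, fun i j e => S.equivFin.symm.injective (Subtype.ext e),
      fun i => h _ (S.equivFin.symm i).2⟩

theorem card_lt_of_not_atLeast {A : Type} {θ : ℕ} {P : A → Prop} (h : ¬ AtLeast θ P)
    (S : Finset A) (hS : ∀ a ∈ S, P a) : S.card < θ := by
  by_contra hc
  obtain ⟨S', h1, h2⟩ := exists_subset_card_eq (not_lt.1 hc)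
  exact h (atLeast_iff.2 ⟨S', h2, fun a ha => hS a (h1 ha)⟩)

theorem sm_atLeast [Nonempty I] (hB : 4 ≤ B) {A : Type} [Fintype A] {θ : ℕ}
    (h1 : Fintype.card A ^ θ + 2 ≤ B) (h2 : θ + 2 ≤ B) {d : ℕ}
    {g : A → (I → Prop) → Prop} (hg : ∀ a, Sm B d (g a)) :
    Sm B (d + 2) (fun ξ => AtLeast θ (fun a => g a ξ)) :=
  sm_ex hB (J := Fin θ → A) (by simpa using h1) fun f =>
    Sm.guard hB _ (sm_all hB (J := Fin θ) (by simpa using h2) fun i => hg (f i))

end Small

/-- passing to a circuit with gates `Fin m` in topological order -/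
theorem Comp.toCirc {d s : ℕ} {f : (I → Prop) → Prop} (h : Comp d s f) :
    ∃ (C : Circ I) (o : Fin C.m) (lvl : Fin C.m → ℕ),
      (∀ j, 1 ≤ (C.inp j).card + (C.prd j).card) ∧ (∀ j, 1 ≤ lvl j) ∧
      (∀ j, ∀ k ∈ C.prd j, lvl k + 1 ≤ lvl j) ∧ lvl o ≤ d ∧ C.m ≤ s ∧
      ∀ ξ g, C.Sem ξ g → (g o ↔ f ξ) := by
  obtain ⟨C, o, h1, h2, h3⟩ := h
  let := C.fin
  let key : C.Γ → ℕ ×ₗ ℕ := fun γ => toLex (C.lvl γ, (Fintype.equivFin C.Γ γ : ℕ))
  have hkey : Function.Injective key := by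
    intro a b h
    have := congrArg (fun p => (ofLex p).2) h
    exact (Fintype.equivFin C.Γ).injective (Fin.ext this)
  let : LinearOrder C.Γ := LinearOrder.lift' key hkey
  let e : Fin (Fintype.card C.Γ) ≃o C.Γ := Fintype.orderIsoFinOfCardEq C.Γ rfl
  let D : Circ I :=
    { m := Fintype.card C.Γ
      kind := fun j => C.kind (e j)
      inp := fun j => C.inp (e j)
      prd := fun j => (C.prd (e j)).map e.symm.toEquiv.toEmbedding
      acyc := by
        intro j k hk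
        obtain ⟨k', hk', rfl⟩ := mem_map.1 hk
        have h4 := C.lvlp _ _ hk'
        have h5 : k' < e j := by
          change key k' < key (e j)
          exact Prod.Lex.toLex_lt_toLex.2 (Or.inl (by simpa using h4))
        have := e.symm.strictMono h5
        simpa using this
      fan := fun j hj => by simpa using C.fan (e j) hj }
  refine ⟨D, e.symm o, fun j => C.lvl (e j), fun j => ?_, fun j => C.lvl1 _, ?_, ?_, h2,
    fun ξ g hg => ?_⟩
  · simpa [D] using C.pos (e j)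
  · intro j k hk
    obtain ⟨k', hk', rfl⟩ := mem_map.1 hk
    simpa using C.lvlp _ _ hk'
  · simpa using h1
  · apply h3 ξ (fun γ => g (e.symm γ))
    intro γ
    have := hg (e.symm γ)
    simp only [Circ.Eqn, D, OrderIso.apply_symm_apply, mem_map, exists_exists_and_eq_and,
      forall_exists_index, and_imp, forall_apply_eq_imp_iff₂] at this
    exact this

theorem Circ.comp (C : Circ I) (o : Fin C.m) (lvl : Fin C.m → ℕ)
    (hpos : ∀ j, 1 ≤ (C.inp j).card + (C.prd j).card) (h1 : ∀ j, 1 ≤ lvl j)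
    (h2 : ∀ j, ∀ k ∈ C.prd j, lvl k + 1 ≤ lvl j) :
    Comp (lvl o) C.m (fun ξ => ∃ g, C.Sem ξ g ∧ g o) := by
  refine ⟨⟨Fin C.m, inferInstance, C.kind, C.inp, C.prd, lvl, C.fan, hpos, h1, h2⟩, o, le_rfl,
    by simp, fun ξ g hg => ⟨fun h => ⟨g, hg, h⟩, ?_⟩⟩
  rintro ⟨g', hg', h⟩
  exact (Circ.sem_unique (C := C) hg' hg o).2 h

end Pool.Agent.P.MP_b53add_lc
end

-- part Pool.Agent.P.MP_b53add_lc.Sparse
section

set_option autoImplicit false

namespace Pool.Agent.P.MP_b53add_lc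

open Finset Classical

abbrev Cl (L : Type) := {c : Finset L // c.card ≤ 3}

variable {L : Type} [DecidableEq L]

def shr (G : Finset L) (φ : Finset L → Prop) (c : Finset L) : Prop :=
  ∃ c' : Cl L, φ c'.1 ∧ c = c'.1 \ G

def hp (θ : ℕ) (φ : Finset L → Prop) (h : Finset L) : Prop :=
  h.card = 2 ∧ AtLeast θ (fun t => t ∉ h ∧ (¬ φ {t} ∧ φ (insert t h)))

def add2 (θ : ℕ) (φ : Finset L → Prop) (c : Finset L) : Prop := φ c ∨ hp θ φ c

def hv (θ : ℕ) (φ : Finset L → Prop) (l : L) : Prop :=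
  ¬ φ {l} ∧ AtLeast θ (fun t => t ≠ l ∧ (¬ φ {t} ∧ φ {l, t}))

def live (θ : ℕ) (φ : Finset L → Prop) (c : Finset L) : Prop :=
  c.card = 3 ∧ (φ c ∧ ∀ l, l ∈ c → ((¬ φ {l} ∧ ¬ hv θ φ l) ∧ ¬ φ (c.erase l)))

def hv3 (θ : ℕ) (φ : Finset L → Prop) (l : L) : Prop :=
  AtLeast (2 * θ ^ 2) (fun c : Cl L => l ∈ c.1 ∧ live θ φ c.1)

def fin3 (θ : ℕ) (φ : Finset L → Prop) (c : Finset L) : Prop :=
  ((c = ∅ ∧ φ c) ∨ (∃ l, c = {l} ∧ (φ {l} ∨ (hv θ φ l ∨ hv3 θ φ l)))) ∨
    ((c.card = 2 ∧ (φ c ∧ ∀ l, l ∈ c → (¬ φ {l} ∧ ¬ hv θ φ l))) ∨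
      (live θ φ c ∧ ∀ l, l ∈ c → ¬ hv3 θ φ l))

def Hits (T : L → Prop) (φ : Finset L → Prop) : Prop := ∀ c, φ c → ∃ l ∈ c, T l

def Small3 (φ : Finset L → Prop) : Prop := ∀ c, φ c → c.card ≤ 3

theorem shr_small (G : Finset L) (φ : Finset L → Prop) : Small3 (shr G φ) := by
  rintro c ⟨c', -, rfl⟩
  exact (card_le_card sdiff_subset).trans c'.2

theorem add2_small {θ : ℕ} {φ : Finset L → Prop} (h : Small3 φ) : Small3 (add2 θ φ) := by
  rintro c (hc | hc)
  · exact h c hc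
  · have := hc.1; omega

theorem hits_of_shr {T : L → Prop} {G : Finset L} {φ : Finset L → Prop} (hs : Small3 φ)
    (h : Hits T (shr G φ)) : Hits T φ := by
  intro c hc
  obtain ⟨l, hl, hT⟩ := h (c \ G) ⟨⟨c, hs c hc⟩, hc, rfl⟩
  exact ⟨l, (mem_sdiff.1 hl).1, hT⟩

theorem hits_shr {T : L → Prop} {G : Finset L} {φ : Finset L → Prop} (hG : ∀ l ∈ G, ¬ T l)
    (h : Hits T φ) : Hits T (shr G φ) := by
  rintro c ⟨c', hc', rfl⟩
  obtain ⟨l, hl, hT⟩ := h _ hc'
  exact ⟨l, mem_sdiff.2 ⟨hl, fun h => hG l h hT⟩, hT⟩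

theorem hits_of_fin3 {T : L → Prop} {θ : ℕ} {φ : Finset L → Prop} (hs : Small3 φ)
    (h : Hits T (fin3 θ φ)) : Hits T φ := by
  have hu : ∀ l, (φ {l} ∨ (hv θ φ l ∨ hv3 θ φ l)) → T l := by
    intro l hl
    obtain ⟨l', hl', hT⟩ := h {l} (Or.inl (Or.inr ⟨l, rfl, hl⟩))
    rwa [mem_singleton.1 hl'] at hT
  have h2 : ∀ c, c.card = 2 → φ c → ∃ l ∈ c, T l := by
    intro c hc hφ
    by_cases hb : ∀ l, l ∈ c → (¬ φ {l} ∧ ¬ hv θ φ l)
    · exact h c (Or.inr (Or.inl ⟨hc, hφ, hb⟩))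
    · push Not at hb
      obtain ⟨l, hl, hb⟩ := hb
      refine ⟨l, hl, hu l ?_⟩
      by_cases h1 : φ {l}
      · exact Or.inl h1
      · exact Or.inr (Or.inl (hb h1))
  intro c hc
  have := hs c hc
  have h4 : c.card = 0 ∨ c.card = 1 ∨ c.card = 2 ∨ c.card = 3 := by omega
  rcases h4 with h0 | h1 | h2' | h3
  · exact h c (Or.inl (Or.inl ⟨card_eq_zero.1 h0, hc⟩))
  · obtain ⟨l, rfl⟩ := card_eq_one.1 h1
    exact ⟨l, mem_singleton_self l, hu l (Or.inl hc)⟩
  · exact h2 c h2' hc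
  · by_cases hl : live θ φ c
    · by_cases hb : ∀ l, l ∈ c → ¬ hv3 θ φ l
      · exact h c (Or.inr (Or.inr ⟨hl, hb⟩))
      · push Not at hb
        obtain ⟨l, hl, hb⟩ := hb
        exact ⟨l, hl, hu l (Or.inr (Or.inr hb))⟩
    · have : ∃ l, l ∈ c ∧ ¬ ((¬ φ {l} ∧ ¬ hv θ φ l) ∧ ¬ φ (c.erase l)) := by
        by_contra hcon
        push Not at hcon
        exact hl ⟨h3, hc, fun l h => by have := hcon l h; tauto⟩
      obtain ⟨l, hl, hb⟩ := this
      by_cases a1 : φ {l}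
      · exact ⟨l, hl, hu l (Or.inl a1)⟩
      by_cases a2 : hv θ φ l
      · exact ⟨l, hl, hu l (Or.inr (Or.inl a2))⟩
      have a3 : φ (c.erase l) := by tauto
      obtain ⟨l', hl', hT⟩ := h2 _ (by rw [card_erase_of_mem hl, h3]) a3
      exact ⟨l', mem_of_mem_erase hl', hT⟩

theorem exists_other {c : Finset L} {l : L} (hc : c.card = 2) (hl : l ∈ c) :
    ∃ t, t ≠ l ∧ c = {l, t} := by
  obtain ⟨x, y, hxy, rfl⟩ := card_eq_two.1 hc
  rcases mem_insert.1 hl with rfl | hl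
  · exact ⟨y, hxy.symm, rfl⟩
  · rw [mem_singleton.1 hl]; exact ⟨x, hxy, pair_comm _ _⟩

theorem deg_lt {θ : ℕ} {φ : Finset L → Prop} {l : L} (h1 : ¬ φ {l}) (h2 : ¬ hv θ φ l)
    (S : Finset (Finset L)) (hS : ∀ c ∈ S, l ∈ c ∧ c.card = 2 ∧ φ c ∧ ∀ t ∈ c, ¬ φ {t}) :
    S.card < θ := by
  have hna : ¬ AtLeast θ (fun t => t ≠ l ∧ (¬ φ {t} ∧ φ {l, t})) := fun h => h2 ⟨h1, h⟩
  choose t ht ht' using fun c : S => exists_other (hS c.1 c.2).2.1 (hS c.1 c.2).1
  have hinj : Function.Injective t := by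
    intro c c' h
    apply Subtype.ext
    rw [ht' c, ht' c', h]
  have := card_lt_of_not_atLeast hna (univ.map ⟨t, hinj⟩) (by
    intro a ha
    obtain ⟨c, -, rfl⟩ := mem_map.1 ha
    refine ⟨ht c, (hS c.1 c.2).2.2.2 _ ?_, ?_⟩
    · rw [ht' c]; simp
    · have := (hS c.1 c.2).2.2.1
      rwa [ht' c] at this)
  simpa using this

theorem occ_fin3 {θ : ℕ} (hθ : 1 ≤ θ) {φ : Finset L → Prop} (l : L) (S : Finset (Finset L))
    (hS : ∀ c ∈ S, l ∈ c ∧ fin3 θ φ c) : S.card ≤ 1 + θ + 2 * θ ^ 2 := by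
  let S1 := S.filter fun c => c = {l}
  let S2 := S.filter fun c => c.card = 2 ∧ (φ c ∧ ∀ l, l ∈ c → (¬ φ {l} ∧ ¬ hv θ φ l))
  let S3 := S.filter fun c => live θ φ c ∧ ∀ l, l ∈ c → ¬ hv3 θ φ l
  have hsub : S ⊆ S1 ∪ S2 ∪ S3 := by
    intro c hc
    obtain ⟨hl, (⟨rfl, -⟩ | ⟨l', rfl, -⟩) | h | h⟩ := hS c hc
    · simp at hl
    · rw [← mem_singleton.1 hl] at hc ⊢
      exact mem_union_left _ (mem_union_left _ (mem_filter.2 ⟨hc, rfl⟩))
    · exact mem_union_left _ (mem_union_right _ (mem_filter.2 ⟨hc, h⟩))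
    · exact mem_union_right _ (mem_filter.2 ⟨hc, h⟩)
  have h1 : S1.card ≤ 1 := card_le_one.2 fun a ha b hb =>
    (mem_filter.1 ha).2.trans (mem_filter.1 hb).2.symm
  have h2 : S2.card ≤ θ := by
    rcases S2.eq_empty_or_nonempty with h | ⟨c, hc⟩
    · rw [h]; simp
    · obtain ⟨hcS, -, -, hc'⟩ := mem_filter.1 hc
      have := hc' l (hS c hcS).1
      refine (deg_lt this.1 this.2 S2 fun c hc => ?_).le
      obtain ⟨a, b, d, e⟩ := mem_filter.1 hc
      exact ⟨(hS c a).1, b, d, fun t ht => (e t ht).1⟩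
  have h3 : S3.card ≤ 2 * θ ^ 2 := by
    rcases S3.eq_empty_or_nonempty with h | ⟨c, hc⟩
    · rw [h]; simp
    · obtain ⟨hcS, -, hc'⟩ := mem_filter.1 hc
      have hna := hc' l (hS c hcS).1
      have := card_lt_of_not_atLeast hna (S3.subtype fun c => c.card ≤ 3) (by
        intro c hc
        obtain ⟨a, b, -⟩ := mem_filter.1 (mem_subtype.1 hc)
        exact ⟨(hS _ a).1, b⟩)
      rw [card_subtype, filter_true_of_mem (fun c hc => (mem_filter.1 hc).2.1.1.le)] at this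
      exact this.le
  have := (card_le_card hsub).trans ((card_union_le _ _).trans
    (Nat.add_le_add_right (card_union_le _ _) _))
  omega

theorem shr_unit_mono {T : L → Prop} {φ : Finset L → Prop} (h : Hits T φ) {G G' : Finset L}
    (hGG : G ⊆ G') (hG : ∀ l ∈ G', ¬ T l) {l : L} (hl : shr G φ {l}) : shr G' φ {l} := by
  obtain ⟨c', hc', e⟩ := hl
  refine ⟨c', hc', ?_⟩
  obtain ⟨t, ht, hT⟩ := h _ hc'
  have htl : t = l := by
    have : t ∈ c'.1 \ G := mem_sdiff.2 ⟨ht, fun h => hG t (hGG h) hT⟩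
    rw [← e] at this; exact mem_singleton.1 this
  ext x
  simp only [mem_singleton, mem_sdiff]
  constructor
  · rintro rfl
    exact ⟨htl ▸ ht, fun h => hG _ h (htl ▸ hT)⟩
  · rintro ⟨a, b⟩
    have : x ∈ c'.1 \ G := mem_sdiff.2 ⟨a, fun h => b (hGG h)⟩
    rw [← e] at this; exact mem_singleton.1 this

theorem shr_union {φ : Finset L → Prop} {G : Finset L} (h : Finset L) {c : Finset L}
    (hc : shr G φ c) : shr (G ∪ h) φ (c \ h) := by
  obtain ⟨c', hc', rfl⟩ := hc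
  exact ⟨c', hc', by rw [sdiff_sdiff_left]; rfl⟩

variable [Fintype L]

theorem round1 {T : L → Prop} {φ : Finset L → Prop} (h : Hits T φ) {θ : ℕ} (hθ : 1 ≤ θ) :
    ∃ G : Finset L, (∀ l ∈ G, ¬ T l) ∧ θ * G.card ≤ 2 * Fintype.card L ∧
      Hits T (add2 θ (shr G φ)) := by
  let U : Finset L → Finset L := fun G => univ.filter fun l => shr G φ {l}
  obtain ⟨G, hG, hmax⟩ := (univ.filter fun G : Finset L =>
      (∀ l ∈ G, ¬ T l) ∧ θ * G.card ≤ 2 * (U G).card).exists_max_image (fun G => (U G).card)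
    ⟨∅, by simp⟩
  obtain ⟨hG1, hG2⟩ := (mem_filter.1 hG).2
  refine ⟨G, hG1, hG2.trans (Nat.mul_le_mul_left _ (card_le_univ _)), ?_⟩
  rintro c (hc | ⟨hc2, hc⟩)
  · exact hits_shr hG1 h c hc
  by_contra hno
  push Not at hno
  obtain ⟨S, hS, hS'⟩ := atLeast_iff.1 hc
  have hG' : ∀ l ∈ G ∪ c, ¬ T l := by
    intro l hl
    rcases mem_union.1 hl with hl | hl
    · exact hG1 l hl
    · exact hno l hl
  have hsub : U G ∪ S ⊆ U (G ∪ c) := by
    intro l hl
    simp only [U, mem_union, mem_filter, mem_univ, true_and] at hl ⊢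
    rcases hl with hl | hl
    · exact shr_unit_mono h subset_union_left hG' hl
    · obtain ⟨a, -, b⟩ := hS' l hl
      have := shr_union c b
      rwa [insert_sdiff_of_notMem _ a, sdiff_self, bot_eq_empty, insert_empty_eq] at this
  have hdis : Disjoint (U G) S := by
    rw [Finset.disjoint_right]
    intro l hl hl'
    exact (hS' l hl).2.1 (mem_filter.1 hl').2
  have h1 := card_le_card hsub
  rw [card_union_of_disjoint hdis, hS] at h1
  have h2 : (G ∪ c).card ≤ G.card + 2 := hc2 ▸ card_union_le G c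
  have := hmax (G ∪ c) (mem_filter.2 ⟨mem_univ _, hG', by nlinarith⟩)
  omega

def PairLight (θ : ℕ) (φ : Finset L → Prop) : Prop :=
  ∀ h : Finset L, h.card = 2 → ¬ φ h → ¬ AtLeast θ (fun t => t ∉ h ∧ (¬ φ {t} ∧ φ (insert t h)))

omit [Fintype L] in
theorem pairLight_add2 (θ : ℕ) (φ : Finset L → Prop) : PairLight θ (add2 θ φ) := by
  rintro h h2 hn ⟨f, hf, hf'⟩
  apply hn
  refine Or.inr ⟨h2, f, hf, fun i => ?_⟩
  obtain ⟨a, b, c⟩ := hf' i
  refine ⟨a, fun e => b (Or.inl e), c.resolve_right fun e => ?_⟩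
  have := e.1
  rw [card_insert_of_notMem a] at this
  omega

omit [Fintype L] in
theorem pairLight_shr {θ : ℕ} (hθ : 1 ≤ θ) {φ : Finset L → Prop} (hs : Small3 φ)
    (h : PairLight θ φ) (G : Finset L) : PairLight θ (shr G φ) := by
  rintro p h2 hn ⟨f, hf, hf'⟩
  have key : ∀ t, t ∉ p → shr G φ (insert t p) → φ (insert t p) ∧ Disjoint (insert t p) G := by
    rintro t ht ⟨c', hc', e⟩
    have h3 : (insert t p).card = 3 := by rw [card_insert_of_notMem ht, h2]
    have : c'.1 \ G = c'.1 := eq_of_subset_of_card_le sdiff_subset (by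
      rw [← e, h3]; exact c'.2)
    refine ⟨by rw [e, this]; exact hc', by rw [e]; exact sdiff_disjoint⟩
  have up : ∀ c, φ c → Disjoint c G → shr G φ c := fun c hc hd =>
    ⟨⟨c, hs c hc⟩, hc, (Finset.sdiff_eq_self_iff_disjoint.2 hd).symm⟩
  have i0 : Fin θ := ⟨0, hθ⟩
  have hd := (key _ (hf' i0).1 (hf' i0).2.2).2
  refine h p h2 (fun e => hn (up p e (disjoint_of_subset_left (subset_insert _ _) hd)))
    ⟨f, hf, fun i => ?_⟩
  obtain ⟨a, b, c⟩ := hf' i
  refine ⟨a, fun e => b (up _ e ?_), (key _ a c).1⟩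
  exact disjoint_of_subset_left (by simp) (key _ a c).2

theorem edge_drop (E : Finset (Finset L)) (W : Finset L) {M : ℕ}
    (hdeg : ∀ l, (E.filter fun e => l ∈ e).card ≤ M) :
    E.card ≤ (E.filter fun e => ∀ l ∈ e, l ∉ W).card + M * W.card := by
  have hsub : E ⊆ (E.filter fun e => ∀ l ∈ e, l ∉ W) ∪ W.biUnion fun l => E.filter fun e => l ∈ e := by
    intro e he
    by_cases h : ∀ l ∈ e, l ∉ W
    · exact mem_union_left _ (mem_filter.2 ⟨he, h⟩)
    · push Not at h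
      obtain ⟨l, h1, h2⟩ := h
      exact mem_union_right _ (mem_biUnion.2 ⟨l, h2, mem_filter.2 ⟨he, h1⟩⟩)
  refine (card_le_card hsub).trans ((card_union_le _ _).trans (Nat.add_le_add_left ?_ _))
  refine card_biUnion_le.trans ?_
  have := Finset.sum_le_card_nsmul W (fun l => (E.filter fun e => l ∈ e).card) M (fun l _ => hdeg l)
  rwa [smul_eq_mul, mul_comm] at this

theorem round2 {T : L → Prop} {φ : Finset L → Prop} (hs : Small3 φ) (h : Hits T φ) {θ : ℕ}
    (hθ : 1 ≤ θ) (hpl : PairLight θ φ) :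
    ∃ G : Finset L, θ * G.card ≤ 3 * Fintype.card L ∧ Hits T (fin3 θ (shr G φ)) := by
  let U : Finset L → Finset L := fun G => univ.filter fun l => shr G φ {l}
  have memU : ∀ G l, l ∈ U G ↔ shr G φ {l} := by intro G l; simp [U]
  let Φ : Finset L × Finset (Finset L) → ℕ := fun p => 4 * θ * (U p.1).card + p.2.card
  let Ok : Finset L × Finset (Finset L) → Prop := fun p =>
    (∀ l ∈ p.1, ¬ T l) ∧ (∀ e ∈ p.2, e.card = 2 ∧ shr p.1 φ e ∧ ∀ l ∈ e, l ∉ U p.1) ∧
      (∀ l, (p.2.filter fun e => l ∈ e).card ≤ 2 * θ) ∧ 2 * θ ^ 2 * p.1.card ≤ Φ p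
  obtain ⟨⟨G, E⟩, hG, hmax⟩ := (univ.filter Ok).exists_max_image Φ ⟨(∅, ∅), by simp [Ok]⟩
  obtain ⟨hG1, hE, hdeg, hΦ⟩ := (mem_filter.1 hG).2
  dsimp only at hG1 hE hdeg
  -- the general step
  have step : ∀ f, ¬ T f → ∀ E' : Finset (Finset L),
      (∀ e ∈ E', e.card = 2 ∧ (∀ l ∈ e, l ∉ U G) ∧
        (shr (G ∪ {f}) φ e ∨ ∃ l ∈ e, l ∈ U (G ∪ {f}))) →
      (∀ l, (E'.filter fun e => l ∈ e).card ≤ 2 * θ) →
      E.card + 2 * θ ^ 2 ≤ E'.card + 2 * θ * (U (G ∪ {f}) \ U G).card → False := by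
    intro f hf E' h1 h2 h3
    have hG' : ∀ l ∈ G ∪ {f}, ¬ T l := by
      intro l hl
      rcases mem_union.1 hl with hl | hl
      · exact hG1 l hl
      · rw [mem_singleton.1 hl]; exact hf
    have hUU : U G ⊆ U (G ∪ {f}) := fun l hl =>
      (memU _ _).2 (shr_unit_mono h subset_union_left hG' ((memU _ _).1 hl))
    set W := U (G ∪ {f}) \ U G with hW
    have hc : (U (G ∪ {f})).card = (U G).card + W.card := by
      rw [hW, card_sdiff_of_subset hUU]; have := card_le_card hUU; omega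
    have h4 := edge_drop E' W h2
    set E'' := E'.filter fun e => ∀ l ∈ e, l ∉ W with hE''
    have hout : ∀ e ∈ E'', ∀ l ∈ e, l ∉ U (G ∪ {f}) := by
      intro e he l hl hl'
      obtain ⟨a, b⟩ := mem_filter.1 he
      exact b l hl (mem_sdiff.2 ⟨hl', (h1 e a).2.1 l hl⟩)
    have hgain : Φ (G, E) + 2 * θ ^ 2 ≤ Φ (G ∪ {f}, E'') := by
      simp only [Φ]; rw [hc]; nlinarith
    have hok : Ok (G ∪ {f}, E'') := by
      refine ⟨hG', fun e he => ⟨(h1 e (mem_filter.1 he).1).1, ?_, hout e he⟩, fun l => ?_, ?_⟩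
      · rcases (h1 e (mem_filter.1 he).1).2.2 with a | ⟨l, a, b⟩
        · exact a
        · exact absurd b (hout e he l a)
      · exact (card_le_card (filter_subset_filter _ (filter_subset _ _))).trans (h2 l)
      · have : (G ∪ {f}).card ≤ G.card + 1 := by simpa using card_union_le G {f}
        dsimp only at hΦ ⊢
        nlinarith
    have := hmax _ (mem_filter.2 ⟨mem_univ _, hok⟩)
    have : 0 < θ ^ 2 := by positivity
    omega
  have oldE : ∀ f, ∀ e ∈ E, e.card = 2 ∧ (∀ l ∈ e, l ∉ U G) ∧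
      (shr (G ∪ {f}) φ e ∨ ∃ l ∈ e, l ∈ U (G ∪ {f})) := by
    intro f e he
    obtain ⟨a, b, c⟩ := hE e he
    refine ⟨a, c, ?_⟩
    have := shr_union {f} b
    by_cases hf : f ∈ e
    · obtain ⟨t, ht, rfl⟩ := exists_other a hf
      right
      refine ⟨t, by simp, (memU _ _).2 ?_⟩
      have e1 : ({f, t} : Finset L) \ {f} = {t} := by
        ext x; simp only [mem_sdiff, mem_insert, mem_singleton]
        constructor
        · rintro ⟨a | a, b⟩
          · exact absurd a b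
          · exact a
        · rintro rfl; exact ⟨Or.inr rfl, ht⟩
      rwa [e1] at this
    · left
      rwa [Finset.sdiff_eq_self_iff_disjoint.2 (by simpa using hf)] at this
  have hhits : Hits T (shr G φ) := hits_shr hG1 h
  have hvT : ∀ f, hv θ (shr G φ) f → T f := by
    intro f ⟨_, hf⟩
    by_contra hT
    apply step f hT E (oldE f) hdeg
    obtain ⟨S, hS, hS'⟩ := atLeast_iff.1 hf
    have hsub : S ⊆ U (G ∪ {f}) \ U G := by
      intro t ht
      obtain ⟨a, b, c⟩ := hS' t ht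
      refine mem_sdiff.2 ⟨(memU _ _).2 ?_, fun e => b ((memU _ _).1 e)⟩
      have := shr_union {f} c
      have e1 : ({f, t} : Finset L) \ {f} = {t} := by
        ext x; simp only [mem_sdiff, mem_insert, mem_singleton]
        constructor
        · rintro ⟨a | a, b⟩
          · exact absurd a b
          · exact a
        · rintro rfl; exact ⟨Or.inr rfl, a⟩
      rwa [e1] at this
    have := card_le_card hsub
    nlinarith
  have hv3T : ∀ f, hv3 θ (shr G φ) f → T f := by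
    intro f hf
    by_contra hT
    obtain ⟨S, hS, hS'⟩ := atLeast_iff.1 hf
    let N : Finset (Finset L) := S.image fun c => c.1.erase f
    have hN : N.card = 2 * θ ^ 2 := by
      rw [card_image_of_injOn, hS]
      intro c hc c' hc' e
      apply Subtype.ext
      have e' : c.1.erase f = c'.1.erase f := e
      rw [← insert_erase (hS' c hc).1, e', insert_erase (hS' c' hc').1]
    have hNp : ∀ e ∈ N, ∃ c, f ∈ c ∧ live θ (shr G φ) c ∧ e = c.erase f := by
      intro e he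
      obtain ⟨c, hc, rfl⟩ := mem_image.1 he
      exact ⟨c.1, (hS' c hc).1, (hS' c hc).2, rfl⟩
    have hdis : Disjoint E N := by
      rw [Finset.disjoint_right]
      intro e he he'
      obtain ⟨c, a, b, rfl⟩ := hNp e he
      exact (b.2.2 f a).2 (hE _ he').2.1
    apply step f hT (E ∪ N)
    · intro e he
      rcases mem_union.1 he with he | he
      · exact oldE f e he
      · obtain ⟨c, a, b, rfl⟩ := hNp e he
        refine ⟨by rw [card_erase_of_mem a, b.1], fun l hl hl' =>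
          (b.2.2 l (mem_of_mem_erase hl)).1.1 ((memU _ _).1 hl'), Or.inl ?_⟩
        have := shr_union {f} b.2.1
        rwa [sdiff_singleton_eq_erase] at this
    · intro l
      rw [filter_union]
      rcases (N.filter fun e => l ∈ e).eq_empty_or_nonempty with h0 | ⟨e0, he0⟩
      · rw [h0, union_empty]; exact hdeg l
      obtain ⟨he0, hl0⟩ := mem_filter.1 he0
      obtain ⟨c0, a0, b0, rfl⟩ := hNp e0 he0
      have hlc := b0.2.2 l (mem_of_mem_erase hl0)
      have hlf : l ≠ f := ne_of_mem_erase hl0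
      have d1 : (E.filter fun e => l ∈ e).card < θ := by
        apply deg_lt hlc.1.1 hlc.1.2
        intro e he
        obtain ⟨a, b⟩ := mem_filter.1 he
        exact ⟨b, (hE e a).1, (hE e a).2.1, fun t ht e' => (hE e a).2.2 t ht ((memU _ _).2 e')⟩
      have third : ∀ e ∈ N.filter (fun e => l ∈ e), ∃ t, e = {l, t} ∧ t ∉ ({f, l} : Finset L) ∧
          ¬ shr G φ {t} ∧ shr G φ (insert t {f, l}) ∧ ¬ shr G φ {f, l} := by
        intro e he
        obtain ⟨he, hl⟩ := mem_filter.1 he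
        obtain ⟨c, a, b, rfl⟩ := hNp e he
        obtain ⟨t, ht, e1⟩ := exists_other (by rw [card_erase_of_mem a, b.1]) hl
        have htm : t ∈ c.erase f := by rw [e1]; simp
        have htf : t ≠ f := ne_of_mem_erase htm
        have hc : c = insert t {f, l} := by
          rw [← insert_erase a, e1]
          ext x; simp only [mem_insert, mem_singleton]; tauto
        have hnt : t ∉ ({f, l} : Finset L) := by simp [htf, ht]
        refine ⟨t, e1, hnt, (b.2.2 t (mem_of_mem_erase htm)).1.1, hc ▸ b.2.1, ?_⟩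
        have := (b.2.2 t (mem_of_mem_erase htm)).2
        rwa [hc, erase_insert hnt] at this
      have d2 : (N.filter fun e => l ∈ e).card < θ := by
        obtain ⟨-, -, -, -, -, hn⟩ := third _ (mem_filter.2 ⟨he0, hl0⟩)
        have hna := pairLight_shr hθ hs hpl G {f, l} (card_pair hlf.symm) hn
        choose t ht using fun e : (N.filter fun e => l ∈ e) => third e.1 e.2
        have hinj : Function.Injective t := by
          intro c c' e
          apply Subtype.ext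
          rw [(ht c).1, (ht c').1, e]
        have := card_lt_of_not_atLeast hna (univ.map ⟨t, hinj⟩) (by
          intro a ha
          obtain ⟨c, -, rfl⟩ := mem_map.1 ha
          exact ⟨(ht c).2.1, (ht c).2.2.1, (ht c).2.2.2.1⟩)
        simpa using this
      have := card_union_le (E.filter fun e => l ∈ e) (N.filter fun e => l ∈ e)
      omega
    · rw [card_union_of_disjoint hdis, hN]; omega
  refine ⟨G, ?_, ?_⟩
  · have h1 := edge_drop E univ hdeg
    have h2 : (E.filter fun e => ∀ l ∈ e, l ∉ (univ : Finset L)) = ∅ := by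
      apply filter_eq_empty_iff.2
      intro e he hc
      obtain ⟨l, hl⟩ : e.Nonempty := card_pos.1 (by rw [(hE e he).1]; norm_num)
      exact hc l hl (mem_univ l)
    rw [h2, card_empty, card_univ] at h1
    have h3 : (U G).card ≤ Fintype.card L := card_le_univ _
    simp only [Φ] at hΦ
    have h4 : 2 * θ * (θ * G.card) ≤ 2 * θ * (3 * Fintype.card L) := by nlinarith
    exact Nat.le_of_mul_le_mul_left h4 (by omega)
  · rintro c ((⟨-, hc⟩ | ⟨l, rfl, hc | hc | hc⟩) | ⟨-, hc, -⟩ | ⟨⟨-, hc, -⟩, -⟩)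
    · exact hhits c hc
    · exact hhits _ hc
    · exact ⟨l, mem_singleton_self l, hvT l hc⟩
    · exact ⟨l, mem_singleton_self l, hv3T l hc⟩
    · exact hhits c hc
    · exact hhits c hc

/-- the sparsified formula for the guesses `G0`, `G` -/
def sp (θ : ℕ) (G0 G : Finset L) (φ : Finset L → Prop) : Finset L → Prop :=
  fin3 θ (shr G (add2 θ (shr G0 φ)))

omit [Fintype L] in
theorem sp_sound {T : L → Prop} {θ : ℕ} {G0 G : Finset L} {φ : Finset L → Prop} (hs : Small3 φ)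
    (h : Hits T (sp θ G0 G φ)) : Hits T φ := by
  have h1 := hits_of_shr (add2_small (shr_small _ _)) (hits_of_fin3 (shr_small _ _) h)
  exact hits_of_shr hs (fun c hc => h1 c (Or.inl hc))

theorem sp_complete {T : L → Prop} {θ : ℕ} (hθ : 1 ≤ θ) {φ : Finset L → Prop} (h : Hits T φ) :
    ∃ G0 G : Finset L, θ * G0.card ≤ 3 * Fintype.card L ∧ θ * G.card ≤ 3 * Fintype.card L ∧
      Hits T (sp θ G0 G φ) := by
  obtain ⟨G0, -, h1, h2⟩ := round1 h hθ
  obtain ⟨G, h3, h4⟩ := round2 (add2_small (shr_small _ _)) h2 hθ (pairLight_add2 _ _)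
  exact ⟨G0, G, by omega, h3, h4⟩

end Pool.Agent.P.MP_b53add_lc
end

-- part Pool.Agent.P.MP_b53add_lc.SparseMain
section

set_option autoImplicit false

namespace Pool.Agent.P.MP_b53add_lc

open Finset Classical

section AC

variable {I L : Type} [Nonempty I] [DecidableEq L] [Fintype L] {B θ : ℕ}

/-- the size parameter dominates all index sets -/
structure Big (L : Type) [Fintype L] [DecidableEq L] (B θ : ℕ) : Prop where
  h4 : 4 ≤ B
  hL : Fintype.card L + 2 ≤ B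
  hC : Fintype.card (Cl L) + 2 ≤ B
  hLθ : Fintype.card L ^ θ + 2 ≤ B
  hθ : θ + 2 ≤ B
  hCθ : Fintype.card (Cl L) ^ (2 * θ ^ 2) + 2 ≤ B
  hθ2 : 2 * θ ^ 2 + 2 ≤ B

theorem sm_shr (hB : Big L B θ) {k : ℕ} {F : (I → Prop) → Finset L → Prop}
    (hF : ∀ c, Sm B k (fun ξ => F ξ c)) (G c : Finset L) :
    Sm B (k + 1) (fun ξ => shr G (F ξ) c) :=
  (sm_ex hB.h4 (J := Cl L) hB.hC fun c' => Sm.guard hB.h4 (c = c'.1 \ G) (hF c'.1)).congr
    fun ξ => by simp only [shr, and_comm]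

theorem sm_add2 (hB : Big L B θ) {k : ℕ} {F : (I → Prop) → Finset L → Prop}
    (hF : ∀ c, Sm B k (fun ξ => F ξ c)) (c : Finset L) :
    Sm B (k + 5) (fun ξ => add2 θ (F ξ) c) :=
  Sm.or hB.h4 ((hF c).mono hB.h4 (by omega)) (Sm.guard hB.h4 _
    (sm_atLeast hB.h4 hB.hLθ hB.hθ fun t => Sm.guard hB.h4 _
      (Sm.and hB.h4 ((hF {t}).not hB.h4) ((hF (insert t c)).mono hB.h4 (by omega)))))

theorem sm_hv (hB : Big L B θ) {k : ℕ} {F : (I → Prop) → Finset L → Prop}
    (hF : ∀ c, Sm B k (fun ξ => F ξ c)) (l : L) :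
    Sm B (k + 5) (fun ξ => hv θ (F ξ) l) :=
  Sm.and hB.h4 (((hF {l}).not hB.h4).mono hB.h4 (by omega))
    (sm_atLeast hB.h4 hB.hLθ hB.hθ fun t => Sm.guard hB.h4 _
      (Sm.and hB.h4 ((hF {t}).not hB.h4) ((hF {l, t}).mono hB.h4 (by omega))))

theorem sm_free (hB : Big L B θ) {k : ℕ} {F : (I → Prop) → Finset L → Prop}
    (hF : ∀ c, Sm B k (fun ξ => F ξ c)) (l : L) :
    Sm B (k + 7) (fun ξ => ¬ F ξ {l} ∧ ¬ hv θ (F ξ) l) :=
  Sm.and hB.h4 (((hF {l}).not hB.h4).mono hB.h4 (by omega)) ((sm_hv hB hF l).not hB.h4)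

theorem sm_live (hB : Big L B θ) {k : ℕ} {F : (I → Prop) → Finset L → Prop}
    (hF : ∀ c, Sm B k (fun ξ => F ξ c)) (c : Finset L) :
    Sm B (k + 10) (fun ξ => live θ (F ξ) c) :=
  Sm.guard hB.h4 _ (Sm.and hB.h4 ((hF c).mono hB.h4 (by omega))
    (sm_all hB.h4 hB.hL fun l => Sm.guard_imp hB.h4 _
      (Sm.and hB.h4 (sm_free hB hF l) (((hF (c.erase l)).not hB.h4).mono hB.h4 (by omega)))))

theorem sm_hv3 (hB : Big L B θ) {k : ℕ} {F : (I → Prop) → Finset L → Prop}
    (hF : ∀ c, Sm B k (fun ξ => F ξ c)) (l : L) :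
    Sm B (k + 12) (fun ξ => hv3 θ (F ξ) l) :=
  sm_atLeast hB.h4 hB.hCθ hB.hθ2 fun c : Cl L => Sm.guard hB.h4 _ (sm_live hB hF c.1)

theorem sm_fin3 (hB : Big L B θ) {k : ℕ} {F : (I → Prop) → Finset L → Prop}
    (hF : ∀ c, Sm B k (fun ξ => F ξ c)) (c : Finset L) :
    Sm B (k + 17) (fun ξ => fin3 θ (F ξ) c) :=
  Sm.or hB.h4
    (Sm.or hB.h4 (Sm.guard hB.h4 _ ((hF c).mono hB.h4 (by omega)))
      (sm_ex hB.h4 hB.hL fun l => Sm.guard hB.h4 _
        (Sm.or hB.h4 ((hF {l}).mono hB.h4 (by omega))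
          (Sm.or hB.h4 ((sm_hv hB hF l).mono hB.h4 (by omega)) (sm_hv3 hB hF l)))))
    (Sm.or hB.h4
      (Sm.guard hB.h4 _ (Sm.and hB.h4 ((hF c).mono hB.h4 (by omega))
        ((sm_all hB.h4 hB.hL fun l => Sm.guard_imp hB.h4 _ (sm_free hB hF l)).mono hB.h4
          (by omega : k + 7 + 1 ≤ k + 14))))
      (Sm.and hB.h4 ((sm_live hB hF c).mono hB.h4 (by omega))
        (sm_all hB.h4 hB.hL fun l => Sm.guard_imp hB.h4 _ ((sm_hv3 hB hF l).not hB.h4))))

theorem sm_sp (hB : Big L B θ) {F : (I → Prop) → Finset L → Prop}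
    (hF : ∀ c, Sm B 0 (fun ξ => F ξ c)) (G0 G c : Finset L) :
    Sm B 24 (fun ξ => sp θ G0 G (F ξ) c) :=
  sm_fin3 hB (sm_shr hB (sm_add2 hB (sm_shr hB hF G0)) G) c

end AC

/-- the formula given by an indicator vector -/
def form {L : Type} (ξ : Cl L → Prop) (c : Finset L) : Prop := ∃ h : c.card ≤ 3, ξ ⟨c, h⟩

theorem sem_bool {I : Type} (C : Circ I) (o : Fin C.m) (x : I → Bool) :
    (∃ v : Fin C.m → Bool,
      (∀ j : Fin C.m,
        (C.kind j = 0 → (v j = true ↔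
          ((∃ i ∈ C.inp j, x i = true) ∨ ∃ k ∈ C.prd j, v k = true))) ∧
        (C.kind j = 1 → (v j = true ↔
          ((∀ i ∈ C.inp j, x i = true) ∧ ∀ k ∈ C.prd j, v k = true))) ∧
        (C.kind j = 2 → (v j = true ↔
          ¬ ((∀ i ∈ C.inp j, x i = true) ∧ ∀ k ∈ C.prd j, v k = true)))) ∧
      v o = true) ↔ ∃ g, C.Sem (fun i => x i = true) g ∧ g o := by
  constructor
  · rintro ⟨v, hv, ho⟩
    exact ⟨fun j => v j = true, hv, ho⟩
  · rintro ⟨g, hg, ho⟩
    refine ⟨fun j => decide (g j), fun j => ?_, by simpa using ho⟩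
    simp only [decide_eq_true_eq]
    exact hg j

def Occ (n c : ℕ) (x : Cl (Fin n × Bool) → Bool) : Prop :=
  ∀ v : Fin n, (univ.filter fun cl : Cl (Fin n × Bool) =>
    x cl = true ∧ ((v, true) ∈ cl.1 ∨ (v, false) ∈ cl.1)).card ≤ c

def guesses (n θ : ℕ) : Finset (Finset (Fin n × Bool)) :=
  univ.filter fun G => θ * G.card ≤ 6 * n

theorem lift_solve {n d θ B : ℕ} (hθ : 1 ≤ θ) (hB : Big (Fin n × Bool) B θ) {s : ℝ}
    (h : Solves n d s (Occ n (2 * (1 + θ + 2 * θ ^ 2)))) :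
    Solves n (d + 28) (((guesses n θ).card : ℝ) ^ 2 * s *
      ((Fintype.card (Cl (Fin n × Bool)) + 2 + Fintype.card (Cl (Fin n × Bool)) * B ^ 27 : ℕ) : ℝ))
      (fun _ => True) := by
  obtain ⟨m, kind, predIn, predG, o, h1, h2, h3, ⟨lvl, h4, h5, h6⟩, h7, h8⟩ := h
  let C : Circ (Cl (Fin n × Bool)) := ⟨m, kind, predIn, predG, h1, h2⟩
  have hne : Nonempty (Cl (Fin n × Bool)) := ⟨⟨∅, by simp⟩⟩
  have hC := (C.comp o lvl h3 h4 h5).mono h6 le_rfl
  have hform : ∀ c, Sm B 0 (fun ξ : Cl (Fin n × Bool) → Prop => form ξ c) := by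
    intro c
    by_cases hc : c.card ≤ 3
    · exact (sm_inp hB.h4 0 (⟨c, hc⟩ : Cl (Fin n × Bool))).congr fun ξ => by simp [form, hc]
    · exact (sm_const hB.h4 0 False).congr fun ξ => by simp [form, hc]
  have hg0 : ∅ ∈ guesses n θ := by simp [guesses]
  have hJ : Nonempty (guesses n θ × guesses n θ) := ⟨(⟨∅, hg0⟩, ⟨∅, hg0⟩)⟩
  have hall := comp_ex (J := guesses n θ × guesses n θ) fun p =>
    comp_subst hC fun c : Cl (Fin n × Bool) => sm_sp hB hform p.1.1 p.2.1 c.1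
  obtain ⟨D, o', lvl', k1, k2, k3, k4, k5, k6⟩ := hall.toCirc
  refine ⟨D.m, D.kind, D.inp, D.prd, o', D.acyc, D.fan, k1, ⟨lvl', k2, k3, by omega⟩, ?_,
    fun x _ => ?_⟩
  · set N := Fintype.card (Cl (Fin n × Bool))
    set g := (guesses n θ).card
    have hg : 1 ≤ g := card_pos.2 ⟨∅, hg0⟩
    have hN : 1 ≤ N := Fintype.card_pos
    have k5' : D.m ≤ 1 + g * g * (m + N * B ^ 27) := by simpa [g] using k5
    have k7 : N + D.m ≤ g ^ 2 * (N + m) * (N + 2 + N * B ^ 27) := by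
      set Q := N * B ^ 27
      have hgg : 1 ≤ g * g := Nat.mul_le_mul hg hg
      have e1 : m + (N + 1 + Q) ≤ (N + m) * (N + 2 + Q) := by nlinarith
      calc N + D.m ≤ g * g * (m + (N + 1 + Q)) := by nlinarith
        _ ≤ g * g * ((N + m) * (N + 2 + Q)) := Nat.mul_le_mul_left _ e1
        _ = _ := by ring
    calc (N : ℝ) + D.m = ((N + D.m : ℕ) : ℝ) := by push_cast; rfl
      _ ≤ ((g ^ 2 * (N + m) * (N + 2 + N * B ^ 27) : ℕ) : ℝ) := by exact_mod_cast k7
      _ = (g : ℝ) ^ 2 * ((N : ℝ) + m) * ((N + 2 + N * B ^ 27 : ℕ) : ℝ) := by push_cast; ring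
      _ ≤ _ := by gcongr
  · rw [sem_bool D o' x]
    have hsat : ∀ (y : Cl (Fin n × Bool) → Bool) (φ : Finset (Fin n × Bool) → Prop), Small3 φ →
        (∀ c, y c = true ↔ φ c.1) → ((∃ a : Fin n → Bool, ∀ c : Cl (Fin n × Bool),
          y c = true → ∃ l ∈ c.1, a l.1 = l.2) ↔ ∃ a : Fin n → Bool, Hits (fun l => a l.1 = l.2) φ) := by
      intro y φ hs hy
      refine exists_congr fun a => ⟨fun h c hc => h ⟨c, hs c hc⟩ ((hy _).2 hc),
        fun h c hc => h c.1 ((hy c).1 hc)⟩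
    have hsm : Small3 (form fun i => x i = true) := fun c hc => hc.1
    rw [hsat x (form fun i => x i = true) hsm (fun c => by simp [form, c.2])]
    have hval : ∀ G0 G : Finset (Fin n × Bool),
        (∃ g, C.Sem (fun c => sp θ G0 G (form fun i => x i = true) c.1) g ∧ g o) ↔
          ∃ a : Fin n → Bool, Hits (fun l => a l.1 = l.2) (sp θ G0 G (form fun i => x i = true)) := by
      intro G0 G
      set ψ := sp θ G0 G (form fun i => x i = true) with hψ
      let y : Cl (Fin n × Bool) → Bool := fun c => decide (ψ c.1)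
      have hψs : Small3 ψ := by
        rintro c ((⟨rfl, -⟩ | ⟨l, rfl, -⟩) | ⟨h, -⟩ | ⟨⟨h, -⟩, -⟩)
        · simp
        · simp
        · omega
        · omega
      have hocc : Occ n (2 * (1 + θ + 2 * θ ^ 2)) y := by
        intro v
        have one : ∀ b, (univ.filter fun cl : Cl (Fin n × Bool) =>
            y cl = true ∧ (v, b) ∈ cl.1).card ≤ 1 + θ + 2 * θ ^ 2 := by
          intro b
          rw [← card_map (Function.Embedding.subtype _)]
          apply occ_fin3 hθ (v, b)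
          intro c hc
          obtain ⟨c', hc', rfl⟩ := mem_map.1 hc
          have := (mem_filter.1 hc').2
          exact ⟨this.2, (of_decide_eq_true this.1 : ψ c'.1)⟩
        have hsub : (univ.filter fun cl : Cl (Fin n × Bool) =>
            y cl = true ∧ ((v, true) ∈ cl.1 ∨ (v, false) ∈ cl.1)) ⊆
            (univ.filter fun cl : Cl (Fin n × Bool) => y cl = true ∧ (v, true) ∈ cl.1) ∪
            (univ.filter fun cl : Cl (Fin n × Bool) => y cl = true ∧ (v, false) ∈ cl.1) := by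
          intro c hc
          simp only [mem_filter, mem_univ, true_and, mem_union] at hc ⊢
          tauto
        have := (card_le_card hsub).trans (card_union_le _ _)
        have := one true
        have := one false
        omega
      rw [← hsat y ψ hψs (fun c => by simp [y]), ← h8 y hocc, sem_bool C o y]
      simp only [y, decide_eq_true_eq]
    obtain ⟨g, hg⟩ := D.exists_sem (fun i => x i = true)
    have e1 : (∃ g, D.Sem (fun i => x i = true) g ∧ g o') ↔ g o' :=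
      ⟨fun ⟨g', hg', h⟩ => (Circ.sem_unique hg' hg o').2 h, fun h => ⟨g, hg, h⟩⟩
    rw [e1, k6 _ g hg]
    constructor
    · rintro ⟨p, hp⟩
      obtain ⟨a, ha⟩ := (hval _ _).1 hp
      exact ⟨a, sp_sound hsm ha⟩
    · rintro ⟨a, ha⟩
      obtain ⟨G0, G, a1, a2, a3⟩ := sp_complete hθ ha
      simp only [Fintype.card_prod, Fintype.card_fin, Fintype.card_bool] at a1 a2
      exact ⟨(⟨G0, by simp only [guesses, mem_filter, mem_univ, true_and]; omega⟩,
        ⟨G, by simp only [guesses, mem_filter, mem_univ, true_and]; omega⟩),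
        (hval _ _).2 ⟨a, a3⟩⟩

theorem guesses_bound {ε : ℝ} (hε : 0 < ε) :
    ∃ θ : ℕ, 1 ≤ θ ∧ ∀ n, ((guesses n θ).card : ℝ) ≤ (2 : ℝ) ^ (ε * n) := by
  have hl2 : 0 < Real.log 2 := Real.log_pos (by norm_num)
  set lam : ℝ := min 1 (ε * Real.log 2 / 4) with hlam
  have hl0 : 0 < lam := lt_min one_pos (by positivity)
  have hl1 : lam ≤ 1 := min_le_left _ _
  have hl3 : lam ≤ ε * Real.log 2 / 4 := min_le_right _ _
  have hlog : 0 ≤ - Real.log lam := by have := Real.log_nonpos hl0.le hl1; linarith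
  obtain ⟨θ, hθ⟩ := exists_nat_ge (12 * (- Real.log lam) / (ε * Real.log 2) + 1)
  have hq : 0 ≤ 12 * (- Real.log lam) / (ε * Real.log 2) := by positivity
  have hθ1 : (1 : ℝ) ≤ θ := by linarith
  refine ⟨θ, by exact_mod_cast hθ1, fun n => ?_⟩
  have key : ∀ G ∈ guesses n θ, (1 : ℝ) ≤ Real.exp (ε * Real.log 2 / 2 * n) * lam ^ G.card := by
    intro G hG
    have h1 : θ * G.card ≤ 6 * n := (mem_filter.1 hG).2
    have h1' : (θ : ℝ) * G.card ≤ 6 * n := by exact_mod_cast h1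
    rw [← Real.exp_log (pow_pos hl0 G.card), ← Real.exp_add, Real.log_pow]
    apply Real.one_le_exp
    have h2 : 12 * (- Real.log lam) ≤ θ * (ε * Real.log 2) := by
      have : 12 * (- Real.log lam) / (ε * Real.log 2) ≤ θ := by linarith
      rwa [div_le_iff₀ (by positivity)] at this
    have h3 : (G.card : ℝ) * (12 * (- Real.log lam)) ≤ 6 * n * (ε * Real.log 2) := by
      calc (G.card : ℝ) * (12 * (- Real.log lam)) ≤ G.card * (θ * (ε * Real.log 2)) := by gcongr
        _ = (θ * G.card) * (ε * Real.log 2) := by ring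
        _ ≤ _ := by gcongr
    linarith
  have hsum : ∑ G : Finset (Fin n × Bool), lam ^ G.card = (lam + 1) ^ (n * 2) := by
    have := Finset.sum_pow_mul_eq_add_pow lam 1 (univ : Finset (Fin n × Bool))
    simpa using this
  calc ((guesses n θ).card : ℝ) = ∑ _G ∈ guesses n θ, (1 : ℝ) := by simp
    _ ≤ ∑ G ∈ guesses n θ, Real.exp (ε * Real.log 2 / 2 * n) * lam ^ G.card := sum_le_sum key
    _ ≤ ∑ G : Finset (Fin n × Bool), Real.exp (ε * Real.log 2 / 2 * n) * lam ^ G.card :=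
        sum_le_sum_of_subset_of_nonneg (subset_univ _) (fun _ _ _ => by positivity)
    _ = Real.exp (ε * Real.log 2 / 2 * n) * (lam + 1) ^ (n * 2) := by rw [← mul_sum, hsum]
    _ ≤ Real.exp (ε * Real.log 2 / 2 * n) * Real.exp lam ^ (n * 2) := by
        gcongr; exact Real.add_one_le_exp _
    _ = Real.exp (ε * Real.log 2 / 2 * n + (n * 2 : ℕ) * lam) := by
        rw [← Real.exp_nat_mul, ← Real.exp_add]
    _ ≤ Real.exp (Real.log 2 * (ε * n)) := by
        apply Real.exp_le_exp.2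
        push_cast
        have : (0 : ℝ) ≤ n := by positivity
        nlinarith
    _ = _ := by rw [Real.rpow_def_of_pos (by norm_num)]

def SubExp (a : ℕ → ℕ) : Prop :=
  ∀ ε : ℝ, 0 < ε → ∃ N, ∀ n, N ≤ n → (a n : ℝ) ≤ (2 : ℝ) ^ (ε * n)

theorem SubExp.mul {a b : ℕ → ℕ} (ha : SubExp a) (hb : SubExp b) : SubExp (fun n => a n * b n) := by
  intro ε hε
  obtain ⟨N, h⟩ := ha (ε / 2) (by positivity)
  obtain ⟨N', h'⟩ := hb (ε / 2) (by positivity)
  refine ⟨max N N', fun n hn => ?_⟩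
  push_cast
  calc (a n : ℝ) * b n ≤ (2 : ℝ) ^ (ε / 2 * n) * (2 : ℝ) ^ (ε / 2 * n) :=
        mul_le_mul (h n (le_of_max_le_left hn)) (h' n (le_of_max_le_right hn)) (by positivity)
          (by positivity)
    _ = _ := by rw [← Real.rpow_add (by norm_num)]; congr 1; ring

theorem subExp_const (c : ℕ) : SubExp (fun _ => c) := by
  intro ε hε
  obtain ⟨N, hN⟩ := exists_nat_ge (c / ε)
  refine ⟨N, fun n hn => ?_⟩
  have h1 : (c : ℝ) ≤ ε * n := by
    rw [div_le_iff₀ hε] at hN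
    have : (N : ℝ) ≤ n := by exact_mod_cast hn
    nlinarith
  calc (c : ℝ) ≤ (2 : ℝ) ^ (c : ℝ) := by
        rw [Real.rpow_natCast]; exact_mod_cast (Nat.lt_two_pow_self).le
    _ ≤ _ := Real.rpow_le_rpow_of_exponent_le (by norm_num) h1

theorem SubExp.add {a b : ℕ → ℕ} (ha : SubExp a) (hb : SubExp b) : SubExp (fun n => a n + b n) := by
  intro ε hε
  obtain ⟨N, h⟩ := ha (ε / 2) (by positivity)
  obtain ⟨N', h'⟩ := hb (ε / 2) (by positivity)
  obtain ⟨N'', h''⟩ := subExp_const 2 (ε / 2) (by positivity)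
  refine ⟨max (max N N') N'', fun n hn => ?_⟩
  have a1 := h n (le_of_max_le_left (le_of_max_le_left hn))
  have a2 := h' n (le_of_max_le_right (le_of_max_le_left hn))
  have a3 := h'' n (le_of_max_le_right hn)
  push_cast at a3 ⊢
  calc (a n : ℝ) + b n ≤ 2 * (2 : ℝ) ^ (ε / 2 * n) := by linarith
    _ ≤ (2 : ℝ) ^ (ε / 2 * n) * (2 : ℝ) ^ (ε / 2 * n) := by gcongr
    _ = _ := by rw [← Real.rpow_add (by norm_num)]; congr 1; ring

theorem SubExp.pow {a : ℕ → ℕ} (ha : SubExp a) (k : ℕ) : SubExp (fun n => a n ^ k) := by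
  induction k with
  | zero => simpa using subExp_const 1
  | succ k ih => simpa [pow_succ] using ih.mul ha

theorem subExp_cl : SubExp (fun n => Fintype.card (Cl (Fin n × Bool))) := by
  intro ε hε
  obtain ⟨θ, -, h⟩ := guesses_bound hε
  refine ⟨θ, fun n hn => le_trans ?_ (h n)⟩
  have : Fintype.card (Cl (Fin n × Bool)) ≤ (guesses n θ).card := by
    rw [← card_univ, ← card_map (Function.Embedding.subtype _)]
    apply card_le_card
    intro c hc
    obtain ⟨c', -, rfl⟩ := mem_map.1 hc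
    simp only [guesses, mem_filter, mem_univ, true_and, Function.Embedding.subtype_apply]
    have := c'.2
    nlinarith
  exact_mod_cast this

theorem big_ok (L : Type) [Fintype L] [DecidableEq L] {θ : ℕ} (hθ : 1 ≤ θ) :
    Big L ((Fintype.card (Cl L) + 2 * θ ^ 2) ^ (2 * θ ^ 2) + 2) θ := by
  have hL : Fintype.card L ≤ Fintype.card (Cl L) :=
    Fintype.card_le_of_injective (fun l => ⟨{l}, by simp⟩) (fun a b h => by simpa using h)
  set N := Fintype.card (Cl L)
  have h1 : θ ≤ θ ^ 2 := Nat.le_self_pow (by norm_num) _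
  set K := 2 * θ ^ 2 with hK
  have hK2 : 2 ≤ K := by omega
  have h2 : N + K ≤ (N + K) ^ K := Nat.le_self_pow (by omega) _
  refine ⟨by omega, by omega, by omega, ?_, by omega, ?_, by omega⟩
  · have : Fintype.card L ^ θ ≤ (N + K) ^ K :=
      (Nat.pow_le_pow_left (by omega) _).trans (Nat.pow_le_pow_right (by omega) (by omega))
    omega
  · have : N ^ K ≤ (N + K) ^ K := Nat.pow_le_pow_left (by omega) _
    exact Nat.add_le_add_right this 2

theorem Solves.mono {n d : ℕ} {s s' : ℝ} {P P' : (Cl (Fin n × Bool) → Bool) → Prop}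
    (h : Solves n d s P) (hs : s ≤ s') (hP : ∀ x, P' x → P x) : Solves n d s' P' := by
  obtain ⟨m, kind, predIn, predG, o, h1, h2, h3, h4, h7, h8⟩ := h
  exact ⟨m, kind, predIn, predG, o, h1, h2, h3, h4, h7.trans hs, fun x hx => h8 x (hP x hx)⟩

/-- constant-depth sparsification lemma -/
theorem sparsify {ε : ℝ} (hε : 0 < ε) : ∃ c N₀ : ℕ, ∀ n, N₀ ≤ n → ∀ (d : ℕ) (s : ℝ),
    Solves n d s (Occ n c) → Solves n (d + 28) ((2 : ℝ) ^ (ε * n) * s) (fun _ => True) := by
  obtain ⟨θ, hθ, hg⟩ := guesses_bound (ε := ε / 3) (by positivity)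
  obtain ⟨N₀, hN⟩ := ((subExp_cl.add (subExp_const 2)).add (subExp_cl.mul
    ((((subExp_cl.add (subExp_const (2 * θ ^ 2))).pow (2 * θ ^ 2)).add (subExp_const 2)).pow 27)))
    (ε / 3) (by positivity)
  refine ⟨2 * (1 + θ + 2 * θ ^ 2), N₀, fun n hn d s h => ?_⟩
  have hs : 0 ≤ s := by
    obtain ⟨m, -, -, -, -, -, -, -, -, h7, -⟩ := h
    exact le_trans (by positivity) h7
  refine (lift_solve hθ (big_ok _ hθ) h).mono ?_ (fun _ h => h)
  have h1 := hN n hn
  have h2 := hg n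
  calc _ ≤ ((2 : ℝ) ^ (ε / 3 * n)) ^ 2 * s * (2 : ℝ) ^ (ε / 3 * n) :=
        mul_le_mul (mul_le_mul_of_nonneg_right (pow_le_pow_left₀ (Nat.cast_nonneg _) h2 2) hs) h1
          (Nat.cast_nonneg _) (by positivity)
    _ = ((2 : ℝ) ^ (ε / 3 * n) * (2 : ℝ) ^ (ε / 3 * n) * (2 : ℝ) ^ (ε / 3 * n)) * s := by ring
    _ = _ := by
      rw [← Real.rpow_add (by norm_num), ← Real.rpow_add (by norm_num)]; congr 2; ring

theorem sparse_equiv :
    (∃ δ : ℝ, 0 < δ ∧ ∀ d : ℕ, ∀ N₀ : ℕ, ∃ n : ℕ, N₀ ≤ n ∧ 1 ≤ n ∧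
      ¬ Solves n d ((2 : ℝ) ^ (δ * (n : ℝ))) (fun _ => True)) ↔
    (∃ δ : ℝ, 0 < δ ∧ ∃ c : ℕ, ∀ d : ℕ, ∀ N₀ : ℕ, ∃ n : ℕ, N₀ ≤ n ∧ 1 ≤ n ∧
      ¬ Solves n d ((2 : ℝ) ^ (δ * (n : ℝ))) (Occ n c)) := by
  constructor
  · rintro ⟨δ, hδ, h⟩
    obtain ⟨c, N₁, hc⟩ := sparsify (ε := δ / 2) (by positivity)
    refine ⟨δ / 2, by positivity, c, fun d N₀ => ?_⟩
    obtain ⟨n, h1, h2, h3⟩ := h (d + 28) (max N₀ N₁)
    refine ⟨n, le_of_max_le_left h1, h2, fun h4 => h3 ?_⟩
    refine (hc n (le_of_max_le_right h1) d _ h4).mono (le_of_eq ?_) (fun _ h => h)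
    rw [← Real.rpow_add (by norm_num)]; congr 1; ring
  · rintro ⟨δ, hδ, c, h⟩
    refine ⟨δ, hδ, fun d N₀ => ?_⟩
    obtain ⟨n, h1, h2, h3⟩ := h d N₀
    exact ⟨n, h1, h2, fun h4 => h3 (h4.mono le_rfl fun _ _ => trivial)⟩

end Pool.Agent.P.MP_b53add_lc
end
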