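import Pool.Agent.K.MP_b53add_lc.C0
import Pool.Agent.K.MP_b53add_lc.C3

-- part Pool.Agent.P.MP_b53add_lc.Depth4
section

set_option autoImplicit false

namespace Pool.Agent.P.MP_b53add_lc

open Finset Classical

def Anti {X : Type} (f : (X → Bool) → Prop) : Prop :=
  ∀ y y', (∀ i, y i = true → y' i = true) → f y' → f y

/-- a positive clause joined with a decreasing function -/
def CL {X : Type} (f : (X → Bool) → Prop) : Prop :=
  ∃ (A : (X → Bool) → Prop) (S : Finset X), Anti A ∧ ∀ y, f y ↔ A y ∨ ∃ p ∈ S, y p = true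

theorem Anti.cl {X : Type} {f : (X → Bool) → Prop} (h : Anti f) : CL f :=
  ⟨f, ∅, h, fun y => by simp⟩

theorem CL.congr {X : Type} {f g : (X → Bool) → Prop} (hf : CL f) (h : ∀ y, g y ↔ f y) : CL g := by
  have : g = f := funext fun y => propext (h y)
  rwa [this]

theorem cl_union {X U : Type} [Fintype X] {P : U → Prop} {F : U → (X → Bool) → Prop}
    (hF : ∀ u, P u → CL (F u)) {f : (X → Bool) → Prop} (hf : ∀ y, f y ↔ ∃ u, P u ∧ F u y) :
    CL f := by
  choose A S hA hS using hF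
  refine ⟨fun y => ∃ u, ∃ h : P u, A u h y, univ.filter fun p => ∃ u, ∃ h : P u, p ∈ S u h,
    ?_, fun y => ?_⟩
  · rintro y y' h ⟨u, hu, h'⟩
    exact ⟨u, hu, hA u hu y y' h h'⟩
  · rw [hf]
    simp only [mem_filter, mem_univ, true_and]
    constructor
    · rintro ⟨u, hu, h⟩
      rcases (hS u hu y).1 h with h | ⟨p, hp, h⟩
      · exact Or.inl ⟨u, hu, h⟩
      · exact Or.inr ⟨p, ⟨u, hu, hp⟩, h⟩
    · rintro (⟨u, hu, h⟩ | ⟨p, ⟨u, hu, hp⟩, h⟩)
      · exact ⟨u, hu, (hS u hu y).2 (Or.inl h)⟩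
      · exact ⟨u, hu, (hS u hu y).2 (Or.inr ⟨p, hp, h⟩)⟩

theorem ucert_all {X U : Type} {w : ℕ} {P : U → Prop} {F : U → (X → Bool) → Prop}
    (hF : ∀ u, P u → UCert w (F u)) {f : (X → Bool) → Prop}
    (hf : ∀ y, f y ↔ ∀ u, P u → F u y) : UCert w f := by
  intro y hy
  rw [hf] at hy
  push Not at hy
  obtain ⟨u, hu, h⟩ := hy
  obtain ⟨S, hS, h'⟩ := hF u hu y h
  exact ⟨S, hS, fun y' a b c => h' y' a b ((hf y').1 c u hu)⟩

theorem UCert.congr {X : Type} {w : ℕ} {f g : (X → Bool) → Prop} (hf : UCert w f)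
    (h : ∀ y, g y ↔ f y) : UCert w g := by
  have : g = f := funext fun y => propext (h y)
  rwa [this]

def starB {Gp : Type} (k : Gp → Bool) (y : Gp → Bool) : Gp × Bool → Bool :=
  fun p => if p.2 = k p.1 then y p.1 else true

theorem restrict_family {Gp J : Type} [Fintype Gp] [Fintype J] {t : ℕ}
    (S : J → Finset (Gp × Bool)) (hJ : Fintype.card J < 2 ^ (t + 1)) :
    ∃ k : Gp → Bool, ∀ j, (∃ p ∈ S j, p.2 ≠ k p.1) ∨ ((S j).image Prod.fst).card ≤ t := by
  by_contra hcon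
  push Not at hcon
  let B : J → Finset (Gp → Bool) := fun j => univ.filter fun k =>
    (∀ p ∈ S j, p.2 = k p.1) ∧ t < ((S j).image Prod.fst).card
  have hsub : (univ : Finset (Gp → Bool)) ⊆ univ.biUnion B := by
    intro k _
    obtain ⟨j, hj⟩ := hcon k
    exact mem_biUnion.2 ⟨j, mem_univ _, by simp only [B, mem_filter, mem_univ, true_and]; exact hj⟩
  have hB : ∀ j, (B j).card * 2 ^ (t + 1) ≤ 2 ^ Fintype.card Gp := by
    intro j
    rcases (B j).eq_empty_or_nonempty with h | ⟨k0, hk0⟩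
    · rw [h]; simp
    obtain ⟨h1, h2⟩ := (mem_filter.1 hk0).2
    have h3 := agree_card ((S j).image Prod.fst)ᶜ k0 (B j) (by
      intro k hk g hg
      simp only [mem_compl, not_not, mem_image] at hg
      obtain ⟨p, hp, rfl⟩ := hg
      rw [← (mem_filter.1 hk).2.1 p hp, h1 p hp])
    rw [Fintype.card_bool, card_compl] at h3
    have h4 : ((S j).image Prod.fst).card ≤ Fintype.card Gp := card_le_univ _
    calc _ ≤ 2 ^ (Fintype.card Gp - ((S j).image Prod.fst).card) * 2 ^ (t + 1) :=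
          Nat.mul_le_mul_right _ h3
      _ = 2 ^ (Fintype.card Gp - ((S j).image Prod.fst).card + (t + 1)) := by rw [← pow_add]
      _ ≤ _ := Nat.pow_le_pow_right (by norm_num) (by omega)
  have h1 := (card_le_card hsub).trans card_biUnion_le
  rw [card_univ, Fintype.card_fun, Fintype.card_bool] at h1
  have h2 : 2 ^ Fintype.card Gp * 2 ^ (t + 1) ≤ Fintype.card J * 2 ^ Fintype.card Gp := by
    calc _ ≤ (∑ j, (B j).card) * 2 ^ (t + 1) := Nat.mul_le_mul_right _ h1
      _ = ∑ j, (B j).card * 2 ^ (t + 1) := Finset.sum_mul _ _ _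
      _ ≤ ∑ _j : J, 2 ^ Fintype.card Gp := Finset.sum_le_sum fun j _ => hB j
      _ = _ := by simp
  have h3 : 0 < 2 ^ Fintype.card Gp := by positivity
  nlinarith

theorem restrict_cl {Gp J : Type} [Fintype Gp] [Fintype J] {t : ℕ}
    (H : J → (Gp × Bool → Bool) → Prop) (hJ : Fintype.card J < 2 ^ (t + 1)) :
    ∃ k : Gp → Bool, ∀ j, CL (H j) → UCert t (fun y => H j (starB k y)) := by
  have : ∀ j, ∃ S : Finset (Gp × Bool), CL (H j) →
      ∃ A, Anti A ∧ ∀ y, H j y ↔ A y ∨ ∃ p ∈ S, y p = true := by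
    intro j
    by_cases h : CL (H j)
    · obtain ⟨A, S, h1, h2⟩ := h
      exact ⟨S, fun _ => ⟨A, h1, h2⟩⟩
    · exact ⟨∅, fun h' => absurd h' h⟩
  choose S hS using this
  obtain ⟨k, hk⟩ := restrict_family S hJ
  refine ⟨k, fun j hj y hy => ?_⟩
  obtain ⟨A, hA, hH⟩ := hS j hj
  rcases hk j with ⟨p, hp, hne⟩ | hc
  · exact absurd ((hH _).2 (Or.inr ⟨p, hp, by simp [starB, hne]⟩)) hy
  · refine ⟨_, hc, fun y' hup hag h => hy ?_⟩
    rcases (hH _).1 h with h | ⟨p, hp, h⟩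
    · refine (hH _).2 (Or.inl (hA _ _ ?_ h))
      intro q hq
      by_cases hqk : q.2 = k q.1
      · simp only [starB, hqk, if_true] at hq ⊢; exact hup _ hq
      · simp [starB, hqk]
    · refine (hH _).2 (Or.inr ⟨p, hp, ?_⟩)
      have := hag p.1 (mem_image_of_mem _ hp)
      simpa [starB, this] using h

variable {I : Type}

/-- level function counting every gate -/
def Circ.FullLvl (C : Circ I) (lvl : Fin C.m → ℕ) : Prop :=
  (∀ j, 1 ≤ lvl j) ∧ ∀ j, ∀ k ∈ C.prd j, lvl k + 1 ≤ lvl j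

def Circ.GoodTop (C : Circ I) (lvl : Fin C.m → ℕ) (o : Fin C.m) : Prop :=
  lvl o ≤ 3 ∨ (lvl o ≤ 4 ∧ (C.kind o = 0 ∨ (C.kind o = 2 ∧ ∀ k ∈ C.prd o, C.kind k ≠ 0)))

theorem full_sig {C : Circ I} {lvl : Fin C.m → ℕ} (hl : C.FullLvl lvl) {X Y : Type} [Fintype X]
    {ξ : (X → Bool) → I → Prop} {G : (X → Bool) → Fin C.m → Prop}
    (hs : ∀ y, C.Sem (ξ y) (G y))
    (hi : ∀ i, (∃ v : Prop, ∀ z, ξ z i ↔ v) ∨ ∃ p, ∀ z, ξ z i ↔ z p = false)
    {t : ℕ} (ρ : (Y → Bool) → (X → Bool))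
    (hU : ∀ q, CL (sv ξ G q) → UCert t (fun y => sv ξ G q (ρ y))) {o : Fin C.m}
    (ho : C.GoodTop lvl o) :
    Sig (fun q => UCert t (fun y => sv ξ G q (ρ y))) (fun q y => sv ξ G q (ρ y))
      (fun y => G (ρ y) o) := by
  let nl : I ⊕ Fin C.m → ℕ := Sum.elim (fun _ => 0) lvl
  have hch : ∀ j u, C.Child j u → nl u + 1 ≤ lvl j := by
    intro j u hu
    rcases u with i | k
    · exact hl.1 j
    · exact hl.2 j k hu
  have exP : ∀ j, C.kind j = 0 → ∀ y, sv ξ G (Sum.inr j, true) y ↔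
      ∃ u, C.Child j u ∧ sv ξ G (u, true) y := by
    intro j hj y; simp only [sv_true]; exact (hs y).ex hj
  have exN : ∀ j, C.kind j = 0 → ∀ y, sv ξ G (Sum.inr j, false) y ↔
      ∀ u, C.Child j u → sv ξ G (u, false) y := by
    intro j hj y; simp only [sv_false, Sum.elim_inr]; rw [(hs y).ex hj]; push Not; rfl
  have allP : ∀ j, C.kind j = 1 → ∀ y, sv ξ G (Sum.inr j, true) y ↔
      ∀ u, C.Child j u → sv ξ G (u, true) y := by
    intro j hj y; simp only [sv_true]; exact (hs y).all hj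
  have allN : ∀ j, C.kind j = 1 → ∀ y, sv ξ G (Sum.inr j, false) y ↔
      ∃ u, C.Child j u ∧ sv ξ G (u, false) y := by
    intro j hj y; simp only [sv_false, Sum.elim_inr]; rw [(hs y).all hj]; push Not; rfl
  have negB : ∀ j, C.kind j = 2 → ∃ u, C.Child j u ∧
      (∀ y, sv ξ G (Sum.inr j, true) y ↔ sv ξ G (u, false) y) ∧
      (∀ y, sv ξ G (Sum.inr j, false) y ↔ sv ξ G (u, true) y) := by
    intro j hj
    obtain ⟨u, hu, hu'⟩ := C.neg_child hj
    refine ⟨u, hu, fun y => ?_, fun y => ?_⟩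
    · simp only [sv_true, sv_false]; exact hu' _ _ (hs y)
    · simp only [sv_true, sv_false, Sum.elim_inr]; rw [hu' _ _ (hs y)]; simp
  have A0 : ∀ u, nl u ≤ 0 → Anti (sv ξ G (u, true)) := by
    intro u hu
    rcases u with i | k
    · intro y y' h
      simp only [sv_true, Sum.elim_inl]
      rcases hi i with ⟨v, hv⟩ | ⟨p, hp⟩
      · rw [hv, hv]; exact id
      · rw [hp, hp]
        intro h'
        cases hy : y p
        · rfl
        · rw [h p hy] at h'; exact absurd h' (by simp)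
    · have := hl.1 k; simp only [nl, Sum.elim_inr] at hu; omega
  have N0 : ∀ u, nl u ≤ 0 → CL (sv ξ G (u, false)) := by
    intro u hu
    rcases u with i | k
    · rcases hi i with ⟨v, hv⟩ | ⟨p, hp⟩
      · apply Anti.cl
        intro y y' _
        simp only [sv_false, Sum.elim_inl, hv]; exact id
      · refine ⟨fun _ => False, {p}, fun _ _ _ h => h, fun y => ?_⟩
        simp [sv_false, hp]
    · have := hl.1 k; simp only [nl, Sum.elim_inr] at hu; omega
  have P1 : ∀ u, nl u ≤ 1 → CL (sv ξ G (u, true)) := by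
    intro u hu
    rcases u with i | j
    · exact (A0 (Sum.inl i) le_rfl).cl
    · have hu' : lvl j ≤ 1 := hu
      rcases fin3_cases (C.kind j) with hc | hc | hc
      · exact cl_union (fun u hu => (A0 u (by have := hch j u hu; omega)).cl) (exP j hc)
      · apply Anti.cl
        intro y y' h h'
        rw [allP j hc] at h' ⊢
        exact fun u hu => A0 u (by have := hch j u hu; omega) y y' h (h' u hu)
      · obtain ⟨u, hu, h1, -⟩ := negB j hc
        exact (N0 u (by have := hch j u hu; omega)).congr h1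
  have N1 : ∀ u, nl u ≤ 1 → UCert t (fun y => sv ξ G (u, false) (ρ y)) := by
    intro u hu
    rcases u with i | j
    · exact hU _ (N0 (Sum.inl i) le_rfl)
    · have hu' : lvl j ≤ 1 := hu
      rcases fin3_cases (C.kind j) with hc | hc | hc
      · exact ucert_all (fun u hu => hU _ (N0 u (by have := hch j u hu; omega)))
          (fun y => exN j hc _)
      · exact hU _ (cl_union (fun u hu => N0 u (by have := hch j u hu; omega)) (allN j hc))
      · obtain ⟨u, hu, -, h1⟩ := negB j hc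
        exact hU _ ((A0 u (by have := hch j u hu; omega)).cl.congr h1)
  have P2 : ∀ u, nl u ≤ 2 → UCert t (fun y => sv ξ G (u, true) (ρ y)) := by
    intro u hu
    rcases u with i | j
    · exact hU _ (P1 (Sum.inl i) (by simp [nl]))
    · have hu' : lvl j ≤ 2 := hu
      rcases fin3_cases (C.kind j) with hc | hc | hc
      · exact hU _ (cl_union (fun u hu => P1 u (by have := hch j u hu; omega)) (exP j hc))
      · exact ucert_all (fun u hu => hU _ (P1 u (by have := hch j u hu; omega)))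
          (fun y => allP j hc _)
      · obtain ⟨u, hu, h1, -⟩ := negB j hc
        exact (N1 u (by have := hch j u hu; omega)).congr fun y => h1 _
  have N2 : ∀ u, nl u ≤ 2 → Sig (fun q => UCert t (fun y => sv ξ G q (ρ y)))
      (fun q y => sv ξ G q (ρ y)) (fun y => sv ξ G (u, false) (ρ y)) := by
    intro u hu
    rcases u with i | j
    · exact Sig.self (q := (Sum.inl i, false)) (N1 _ (by simp [nl])) (fun y => Iff.rfl)
    · have hu' : lvl j ≤ 2 := hu
      rcases fin3_cases (C.kind j) with hc | hc | hc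
      · exact Sig.self (q := (Sum.inr j, false))
          (ucert_all (fun u hu => N1 u (by have := hch j u hu; omega)) (fun y => exN j hc _))
          (fun y => Iff.rfl)
      · intro y hy
        obtain ⟨u, hu, h⟩ := (allN j hc _).1 hy
        exact ⟨(u, false), N1 u (by have := hch j u hu; omega), h,
          fun y' h' => (allN j hc _).2 ⟨u, hu, h'⟩⟩
      · obtain ⟨u, hu, -, h1⟩ := negB j hc
        exact Sig.self (q := (u, true)) (P2 u (by have := hch j u hu; omega)) (fun y => h1 _)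
  have P3 : ∀ u, nl u ≤ 3 → Sig (fun q => UCert t (fun y => sv ξ G q (ρ y)))
      (fun q y => sv ξ G q (ρ y)) (fun y => sv ξ G (u, true) (ρ y)) := by
    intro u hu
    rcases u with i | j
    · exact Sig.self (q := (Sum.inl i, true)) (P2 _ (by simp [nl])) (fun y => Iff.rfl)
    · have hu' : lvl j ≤ 3 := hu
      rcases fin3_cases (C.kind j) with hc | hc | hc
      · intro y hy
        obtain ⟨u, hu, h⟩ := (exP j hc _).1 hy
        exact ⟨(u, true), P2 u (by have := hch j u hu; omega), h,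
          fun y' h' => (exP j hc _).2 ⟨u, hu, h'⟩⟩
      · exact Sig.self (q := (Sum.inr j, true))
          (ucert_all (fun u hu => P2 u (by have := hch j u hu; omega)) (fun y => allP j hc _))
          (fun y => Iff.rfl)
      · obtain ⟨u, hu, h1, -⟩ := negB j hc
        exact (N2 u (by have := hch j u hu; omega)).congr fun y => h1 _
  have fin : Sig (fun q => UCert t (fun y => sv ξ G q (ρ y)))
      (fun q y => sv ξ G q (ρ y)) (fun y => sv ξ G (Sum.inr o, true) (ρ y)) := by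
    rcases ho with ho | ⟨ho, hc | ⟨hc, hk⟩⟩
    · exact P3 (Sum.inr o) ho
    · refine Sig.cover fun y hy => ?_
      obtain ⟨u, hu, h⟩ := (exP o hc _).1 hy
      exact ⟨_, P3 u (by have := hch o u hu; omega), h, fun y' h' => (exP o hc _).2 ⟨u, hu, h'⟩⟩
    · obtain ⟨u, hu, h1, -⟩ := negB o hc
      refine Sig.congr ?_ fun y => h1 _
      rcases u with i | j
      · exact N2 _ (by simp [nl])
      · have hj : lvl j ≤ 3 := by have := hl.2 o j hu; omega
        rcases fin3_cases (C.kind j) with hc' | hc' | hc'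
        · exact absurd hc' (hk j hu)
        · refine Sig.cover fun y hy => ?_
          obtain ⟨u, hu, h⟩ := (allN j hc' _).1 hy
          exact ⟨_, N2 u (by have := hch j u hu; omega), h,
            fun y' h' => (allN j hc' _).2 ⟨u, hu, h'⟩⟩
        · obtain ⟨u, hu, -, h2⟩ := negB j hc'
          exact (P3 u (by have := hch j u hu; omega)).congr fun y => h2 _
  exact fin.congr fun y => by simp [sv_true]

theorem full_core [Fintype I] {C : Circ I} {lvl : Fin C.m → ℕ} (hl : C.FullLvl lvl)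
    {R T : Type} [Fintype R] [Fintype T]
    {ξ : ((R × T) × Bool → Bool) → I → Prop} {G : ((R × T) × Bool → Bool) → Fin C.m → Prop}
    (hs : ∀ y, C.Sem (ξ y) (G y))
    (hi : ∀ i, (∃ v : Prop, ∀ z, ξ z i ↔ v) ∨ ∃ p, ∀ z, ξ z i ↔ z p = false)
    {t : ℕ} (hm : (Fintype.card I + C.m) * 2 < 2 ^ (t + 1)) {o : Fin C.m}
    (ho : C.GoodTop lvl o) (hG : ∀ z, G z o ↔ ∀ i, ∃ j, ∀ β, z ((i, j), β) = true) :
    Fintype.card T ^ Fintype.card R ≤ (Fintype.card I + C.m) * 2 * t ^ Fintype.card R := by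
  obtain ⟨k, hk⟩ := restrict_cl (t := t) (sv ξ G)
    (by simpa [Fintype.card_prod, Fintype.card_sum] using hm)
  have h1 := full_sig hl hs hi (starB k) hk ho
  have h2 := limit (R := R) (T := T) (w := t) (pool := fun q y => sv ξ G q (starB k y))
    (h1.congr fun y => by
      rw [hG]
      refine forall_congr' fun i => exists_congr fun j => ⟨fun h β => ?_, fun h => ?_⟩
      · by_cases hb : β = k (i, j) <;> simp [starB, hb, h]
      · simpa [starB] using h (k (i, j)))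
  simpa [Fintype.card_prod, Fintype.card_sum] using h2

theorem goodTop_or_dual {C : Circ I} {lvl : Fin C.m → ℕ} {o : Fin C.m} (ho : lvl o ≤ 4) :
    C.GoodTop lvl o ∨ C.dual.GoodTop lvl o := by
  rcases fin3_cases (C.kind o) with hc | hc | hc
  · exact Or.inl (Or.inr ⟨ho, Or.inl hc⟩)
  · exact Or.inr (Or.inr ⟨ho, Or.inl (by simp [Circ.dual, hc])⟩)
  · by_cases h : ∀ k ∈ C.prd o, C.kind k ≠ 0
    · exact Or.inl (Or.inr ⟨ho, Or.inr ⟨hc, h⟩⟩)
    · push Not at h
      obtain ⟨k, hk, hk0⟩ := h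
      refine Or.inr (Or.inr ⟨ho, Or.inr ⟨by simp [Circ.dual, hc], fun k' hk' => ?_⟩⟩)
      have h1 : (C.prd o).card ≤ 1 := by have := C.fan o hc; omega
      have : k' = k := card_le_one.1 h1 k' hk' k hk
      simp [Circ.dual, this, hk0]

end Pool.Agent.P.MP_b53add_lc
end

-- part Pool.Agent.P.MP_b53add_lc.Embed
section

set_option autoImplicit false

namespace Pool.Agent.P.MP_b53add_lc

open Finset Classical

abbrev Clause (n : ℕ) := {c : Finset (Fin n × Bool) // c.card ≤ 3}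

def SAT {n : ℕ} (x : Clause n → Bool) : Prop :=
  ∃ a : Fin n → Bool, ∀ c : Clause n, x c = true → ∃ l ∈ c.1, a l.1 = l.2

theorem embed {W X : Type} [Fintype W] {n : ℕ} (hn : Fintype.card W ≤ n)
    (Good : (W → Bool) → Prop) (hG : Cert1 3 (fun a => ¬ Good a))
    (use : X → Bool → Prop) (ψ : X → Bool → Finset (W × Bool))
    (hψ : ∀ p b, (ψ p b).card ≤ 3)
    (hsep : ∀ p b p' b', use p b → use p' b' → ψ p b = ψ p' b' → p = p' ∧ b = b') :
    ∃ e : (X → Bool) → Clause n → Bool,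
      (∀ c, (∃ v : Prop, ∀ z, e z c = true ↔ v) ∨
        ∃ p b, use p b ∧ ∀ z, e z c = true ↔ z p = b) ∧
      ∀ z, SAT (e z) ↔ ∃ a : W → Bool, Good a ∧
        ∀ p, use p (z p) → ∃ l ∈ ψ p (z p), a l.1 = l.2 := by
  obtain ⟨ι⟩ : Nonempty (W ↪ Fin n) := Function.Embedding.nonempty_of_card_le (by simpa using hn)
  let κ : W × Bool ↪ Fin n × Bool := ι.prodMap (Function.Embedding.refl Bool)
  have hκ : ∀ l, κ l = (ι l.1, l.2) := fun l => rfl
  let Fx : Clause n → Prop := fun c => ∃ c0 : Finset (W × Bool), c.1 = c0.map κ ∧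
    ∀ a, Good a → ∃ l ∈ c0, a l.1 = l.2
  let e : (X → Bool) → Clause n → Bool := fun z c =>
    decide (Fx c ∨ ∃ p, use p (z p) ∧ c.1 = (ψ p (z p)).map κ)
  refine ⟨e, fun c => ?_, fun z => ⟨?_, ?_⟩⟩
  · by_cases hF : Fx c
    · exact Or.inl ⟨True, fun z => by simp [e, hF]⟩
    by_cases hp : ∃ p b, use p b ∧ c.1 = (ψ p b).map κ
    · obtain ⟨p, b, hu, hc⟩ := hp
      refine Or.inr ⟨p, b, hu, fun z => ?_⟩
      simp only [e, hF, false_or, decide_eq_true_eq]
      constructor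
      · rintro ⟨p', hu', hc'⟩
        obtain ⟨rfl, h⟩ := hsep p b p' (z p') hu hu' (map_injective κ (hc.symm.trans hc'))
        exact h.symm
      · rintro rfl
        exact ⟨p, hu, hc⟩
    · refine Or.inl ⟨False, fun z => ?_⟩
      simp only [e, hF, false_or, decide_eq_true_eq, iff_false]
      rintro ⟨p, h1, h2⟩
      exact hp ⟨p, _, h1, h2⟩
  · rintro ⟨a, ha⟩
    refine ⟨fun w => a (ι w), ?_, fun p hu => ?_⟩
    · by_contra hbad
      obtain ⟨S, hS, hS'⟩ := hG _ hbad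
      let c0 : Finset (W × Bool) := S.image fun w => (w, !a (ι w))
      have hc0 : (c0.map κ).card ≤ 3 := by rw [card_map]; exact card_image_le.trans hS
      have hF : Fx ⟨c0.map κ, hc0⟩ := by
        refine ⟨c0, rfl, fun a' ha' => ?_⟩
        by_contra hno
        push Not at hno
        apply hS' a' _ ha'
        intro w hw
        have := hno (w, !a (ι w)) (mem_image_of_mem _ hw)
        simpa using this
      obtain ⟨l, hl, h⟩ := ha ⟨c0.map κ, hc0⟩ (by simp [e, hF])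
      obtain ⟨l0, hl0, rfl⟩ := mem_map.1 hl
      obtain ⟨w, -, rfl⟩ := mem_image.1 hl0
      simp [hκ] at h
    · have hc : ((ψ p (z p)).map κ).card ≤ 3 := by rw [card_map]; exact hψ _ _
      obtain ⟨l, hl, h⟩ := ha ⟨_, hc⟩ (by
        simp only [e, decide_eq_true_eq]; exact Or.inr ⟨p, hu, rfl⟩)
      obtain ⟨l0, hl0, rfl⟩ := mem_map.1 hl
      exact ⟨l0, hl0, h⟩
  · rintro ⟨a, hg, ha⟩
    let a' : Fin n → Bool := Function.extend ι a (fun _ => false)
    have ha' : ∀ w, a' (ι w) = a w := fun w => ι.injective.extend_apply _ _ w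
    refine ⟨a', fun c hc => ?_⟩
    simp only [e, decide_eq_true_eq] at hc
    rcases hc with ⟨c0, h1, h2⟩ | ⟨p, h1, h2⟩
    · obtain ⟨l, hl, h⟩ := h2 a hg
      exact ⟨κ l, h1 ▸ mem_map_of_mem κ hl, by rw [hκ]; simpa [ha'] using h⟩
    · obtain ⟨l, hl, h⟩ := ha p h1
      exact ⟨κ l, h2 ▸ mem_map_of_mem κ hl, by rw [hκ]; simpa [ha'] using h⟩

/-- a chain of auxiliary values folding `op` over `v` -/
def Chain (op : Bool → Bool → Bool) {L : ℕ} (c : Fin (L + 1) → Bool) (v : Fin L → Bool) : Prop :=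
  c 0 = false ∧ c (Fin.last L) = true ∧ ∀ i : Fin L, c i.succ = op (c i.castSucc) (v i)

theorem chain_cert {W : Type} (op : Bool → Bool → Bool) {L : ℕ} (cv : Fin (L + 1) → W)
    (vv : Fin L → W) : Cert1 3 (fun a : W → Bool => ¬ Chain op (fun i => a (cv i)) (fun i => a (vv i))) := by
  intro a ha
  unfold Chain at ha
  by_cases h0 : a (cv 0) = false
  · by_cases h1 : a (cv (Fin.last L)) = true
    · have : ∃ i : Fin L, a (cv i.succ) ≠ op (a (cv i.castSucc)) (a (vv i)) := by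
        by_contra h; push Not at h; exact ha ⟨h0, h1, h⟩
      obtain ⟨i, hi⟩ := this
      refine ⟨{cv i.succ, cv i.castSucc, vv i}, card_le_three, fun a' h' hc => hi ?_⟩
      rw [← h' (cv i.succ) (by simp), ← h' (cv i.castSucc) (by simp), ← h' (vv i) (by simp)]
      exact hc.2.2 i
    · refine ⟨{cv (Fin.last L)}, by simp, fun a' h' hc => h1 ?_⟩
      rw [← h' _ (by simp)]; exact hc.2.1
  · refine ⟨{cv 0}, by simp, fun a' h' hc => h0 ?_⟩
    rw [← h' _ (by simp)]; exact hc.1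

theorem cert1_not_and {W : Type} {w : ℕ} {f g : (W → Bool) → Prop}
    (hf : Cert1 w (fun a => ¬ f a)) (hg : Cert1 w (fun a => ¬ g a)) :
    Cert1 w (fun a => ¬ (f a ∧ g a)) := by
  apply cert1_of_cover
  intro a ha
  by_cases h : f a
  · exact ⟨_, hg, fun h' => ha ⟨h, h'⟩, fun a' h1 h2 => h1 h2.2⟩
  · exact ⟨_, hf, h, fun a' h1 h2 => h1 h2.1⟩

theorem cert1_not_all {W U : Type} {w : ℕ} {f : U → (W → Bool) → Prop}
    (hf : ∀ u, Cert1 w (fun a => ¬ f u a)) : Cert1 w (fun a => ¬ ∀ u, f u a) := by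
  apply cert1_of_cover
  intro a ha
  push Not at ha
  obtain ⟨u, hu⟩ := ha
  exact ⟨_, hf u, hu, fun a' h1 h2 => h1 (h2 u)⟩

theorem filter_lt_succ {L : ℕ} (i : Fin L) :
    (univ.filter fun j : Fin L => j.val < i.succ.val) =
      (univ.filter fun j : Fin L => j.val < i.castSucc.val).cons i (by simp) := by
  ext j
  simp only [mem_filter, mem_univ, true_and, mem_cons, Fin.val_succ, Fin.val_castSucc, Fin.ext_iff]
  omega

theorem chain_xor_iff {L : ℕ} (v : Fin L → Bool) :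
    (∃ c, Chain xor c v) ↔ ∑ i, b2z (v i) = 1 := by
  have hall : (univ.filter fun j : Fin L => j.val < (Fin.last L).val) = univ := by
    ext j; simp
  constructor
  · rintro ⟨c, h0, h1, h⟩
    have : ∀ i : Fin (L + 1),
        b2z (c i) = ∑ j ∈ univ.filter (fun j : Fin L => j.val < i.val), b2z (v j) := by
      intro i
      induction i using Fin.induction with
      | zero => simp [h0, b2z]
      | succ i ih => rw [filter_lt_succ, sum_cons, h i, b2z_xor, ih, add_comm]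
    have h2 := this (Fin.last L)
    rw [hall, h1] at h2
    exact h2.symm
  · intro h
    choose c hc using fun i : Fin (L + 1) =>
      b2z_surj (∑ j ∈ univ.filter (fun j : Fin L => j.val < i.val), b2z (v j))
    have binj : ∀ a b : Bool, b2z a = b2z b → a = b := by decide
    refine ⟨c, binj _ _ ?_, binj _ _ ?_, fun i => binj _ _ ?_⟩
    · rw [hc]; simp [b2z]
    · rw [hc, hall, h]; rfl
    · rw [b2z_xor, hc, hc, filter_lt_succ, sum_cons, add_comm]

theorem chain_or_iff {L : ℕ} (v : Fin L → Bool) :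
    (∃ c, Chain or c v) ↔ ∃ i, v i = true := by
  constructor
  · rintro ⟨c, h0, h1, h⟩
    have : ∀ i : Fin (L + 1), c i = true → ∃ j, v j = true := by
      intro i
      induction i using Fin.induction with
      | zero => simp [h0]
      | succ i ih =>
        rw [h i, Bool.or_eq_true]
        rintro (h' | h')
        · exact ih h'
        · exact ⟨i, h'⟩
    exact this _ h1
  · rintro ⟨j, hj⟩
    refine ⟨fun i => decide (∃ j : Fin L, j.val < i.val ∧ v j = true), by simp, ?_, fun i => ?_⟩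
    · simp only [Fin.val_last, decide_eq_true_eq]; exact ⟨j, j.2, hj⟩
    · rw [Bool.eq_iff_iff]
      simp only [Fin.val_succ, Fin.val_castSucc, decide_eq_true_eq, Bool.or_eq_true]
      constructor
      · rintro ⟨j', h1, h2⟩
        by_cases h : j' = i
        · exact Or.inr (h ▸ h2)
        · exact Or.inl ⟨j', by have : j'.val ≠ i.val := fun e => h (Fin.ext e); omega, h2⟩
      · rintro (⟨j', h1, h2⟩ | h)
        · exact ⟨j', by omega, h2⟩
        · exact ⟨i, by omega, h⟩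

/-- tree of fan-in `T` over parities -/
theorem embed_tree {n T : ℕ} (P : Type) [Fintype P]
    (hn : T + (T + 1) + T * T + T * (T + 1) + T * Fintype.card P + T * (Fintype.card P + 1) ≤ n) :
    ∃ e : ((Fin T × Fin T × Fin T) × P → Bool) → Clause n → Bool,
      (∀ c, Cert 1 (fun z => e z c = true)) ∧
      ∀ z, SAT (e z) ↔ ∃ i, ∀ j, ∃ k, ∑ p, b2z (z ((i, j, k), p)) = 1 := by
  let en := (Fintype.equivFin P).symm
  let W := (Fin T ⊕ Fin (T + 1)) ⊕ ((Fin T × Fin T) ⊕ (Fin T × Fin (T + 1))) ⊕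
    ((Fin T × P) ⊕ (Fin T × Fin (Fintype.card P + 1)))
  let s0 : Fin T → W := fun i => Sum.inl (Sum.inl i)
  let c0 : Fin (T + 1) → W := fun i => Sum.inl (Sum.inr i)
  let s2 : Fin T × Fin T → W := fun i => Sum.inr (Sum.inl (Sum.inl i))
  let c2 : Fin T × Fin (T + 1) → W := fun i => Sum.inr (Sum.inl (Sum.inr i))
  let g : Fin T × P → W := fun i => Sum.inr (Sum.inr (Sum.inl i))
  let cp : Fin T × Fin (Fintype.card P + 1) → W := fun i => Sum.inr (Sum.inr (Sum.inr i))
  obtain ⟨e, h1, h2⟩ := embed (W := W) (X := (Fin T × Fin T × Fin T) × P) (n := n)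
    (by simp only [W, Fintype.card_sum, Fintype.card_prod, Fintype.card_fin]; omega)
    (fun a => Chain or (fun i => a (c0 i)) (fun i => a (s0 i)) ∧
      (∀ j, Chain or (fun i => a (c2 (j, i))) (fun i => a (s2 (j, i)))) ∧
      ∀ j, Chain xor (fun i => a (cp (j, i))) (fun i => a (g (j, en i))))
    (cert1_not_and (chain_cert _ _ _) (cert1_not_and
      (cert1_not_all fun j => chain_cert _ (fun i => c2 (j, i)) (fun i => s2 (j, i)))
      (cert1_not_all fun j => chain_cert _ (fun i => cp (j, i)) (fun i => g (j, en i)))))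
    (fun _ _ => True)
    (fun q b => {(s0 q.1.1, false), (s2 q.1.2, false), (g (q.1.2.1, q.2), b)})
    (fun _ _ => card_le_three)
    (by
      rintro ⟨⟨i, j, k⟩, p⟩ b ⟨⟨i', j', k'⟩, p'⟩ b' - - h
      have e1 : (s0 i, false) ∈ ({(s0 i', false), (s2 (j', k'), false), (g (j', p'), b')} :
        Finset (W × Bool)) := by rw [← h]; simp
      have e2 : (s2 (j, k), false) ∈ ({(s0 i', false), (s2 (j', k'), false), (g (j', p'), b')} :
        Finset (W × Bool)) := by rw [← h]; simp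
      have e3 : (g (j, p), b) ∈ ({(s0 i', false), (s2 (j', k'), false), (g (j', p'), b')} :
        Finset (W × Bool)) := by rw [← h]; simp
      simp [s0, s2, g, W] at e1 e2 e3
      obtain ⟨⟨-, rfl⟩, rfl⟩ := e3
      obtain ⟨rfl, rfl⟩ := e2
      subst e1
      exact ⟨rfl, rfl⟩)
  refine ⟨e, fun c => ?_, fun z => ?_⟩
  · rcases h1 c with ⟨v, hv⟩ | ⟨p, b, -, hp⟩
    · exact fun y => ⟨∅, by simp, fun y' _ => by beta_reduce; rw [hv, hv]⟩
    · exact fun y => ⟨{p}, by simp, fun y' h => by beta_reduce; rw [hp, hp, h p (by simp)]⟩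
  · rw [h2]
    constructor
    · rintro ⟨a, ⟨g0, g2, gp⟩, hl⟩
      obtain ⟨i, hi⟩ := (chain_or_iff _).1 ⟨_, g0⟩
      refine ⟨i, fun j => ?_⟩
      obtain ⟨k, hk⟩ := (chain_or_iff _).1 ⟨_, g2 j⟩
      refine ⟨k, ?_⟩
      have h3 := (chain_xor_iff _).1 ⟨_, gp j⟩
      rw [← h3, ← Equiv.sum_comp en]
      refine Finset.sum_congr rfl fun p _ => ?_
      have := hl ((i, j, k), en p) trivial
      simp only [mem_insert, mem_singleton, exists_eq_or_imp, exists_eq_left, hi, hk] at this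
      simp at this
      rw [this]
    · rintro ⟨i, h⟩
      choose k hk using h
      obtain ⟨d0, hd0⟩ := (chain_or_iff (fun i' => decide (i' = i))).2 ⟨i, by simp⟩
      have := fun j => (chain_or_iff (fun k' => decide (k' = k j))).2 ⟨k j, by simp⟩
      choose d2 hd2 using this
      have := fun j => (chain_xor_iff (fun p => z ((i, j, k j), en p))).2 (by
        rw [← hk j]; exact Equiv.sum_comp en (fun p => b2z (z ((i, j, k j), p))))
      choose dp hdp using this
      refine ⟨Sum.elim (Sum.elim (fun i' => decide (i' = i)) d0)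
        (Sum.elim (Sum.elim (fun q => decide (q.2 = k q.1)) (fun q => d2 q.1 q.2))
          (Sum.elim (fun q => z ((i, q.1, k q.1), q.2)) (fun q => dp q.1 q.2))),
        ⟨hd0, hd2, hdp⟩, ?_⟩
      rintro ⟨⟨i', j, k'⟩, p⟩ -
      simp only [mem_insert, mem_singleton, exists_eq_or_imp, exists_eq_left, s0, s2, g,
        Sum.elim_inl, Sum.elim_inr]
      by_cases hi : i' = i
      · by_cases hk' : k' = k j
        · subst hi; subst hk'; simp
        · simp [hk']
      · simp [hi]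

/-- AND of OR of AND with triples of selectors -/
theorem embed_triple {n r s : ℕ} (hn : r * s * 4 + r * (s + 1) * 3 ≤ n) :
    ∃ e : ((Fin r × (Fin s × Fin s × Fin s)) × Bool → Bool) → Clause n → Bool,
      (∀ c, (∃ v : Prop, ∀ z, e z c = true ↔ v) ∨ ∃ p, ∀ z, e z c = true ↔ z p = false) ∧
      ∀ z, SAT (e z) ↔ ∀ i, ∃ j, ∀ β, z ((i, j), β) = true := by
  let W := ((Fin r × Fin s × Bool) ⊕ (Fin r × Fin s) ⊕ (Fin r × Fin s)) ⊕
    ((Fin r × Fin (s + 1)) ⊕ (Fin r × Fin (s + 1)) ⊕ (Fin r × Fin (s + 1)))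
  let u : Fin r × Fin s × Bool → W := fun i => Sum.inl (Sum.inl i)
  let v : Fin r × Fin s → W := fun i => Sum.inl (Sum.inr (Sum.inl i))
  let w : Fin r × Fin s → W := fun i => Sum.inl (Sum.inr (Sum.inr i))
  let cu : Fin r × Fin (s + 1) → W := fun i => Sum.inr (Sum.inl i)
  let cv : Fin r × Fin (s + 1) → W := fun i => Sum.inr (Sum.inr (Sum.inl i))
  let cw : Fin r × Fin (s + 1) → W := fun i => Sum.inr (Sum.inr (Sum.inr i))
  obtain ⟨e, h1, h2⟩ := embed (W := W) (X := (Fin r × (Fin s × Fin s × Fin s)) × Bool) (n := n)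
    (by simp only [W, Fintype.card_sum, Fintype.card_prod, Fintype.card_fin, Fintype.card_bool]
        nlinarith)
    (fun a => (∀ q : Fin r × Fin s, a (u (q.1, q.2, false)) = a (u (q.1, q.2, true))) ∧
      (∀ j, Chain or (fun i => a (cu (j, i))) (fun i => a (u (j, i, false)))) ∧
      (∀ j, Chain or (fun i => a (cv (j, i))) (fun i => a (v (j, i)))) ∧
      ∀ j, Chain or (fun i => a (cw (j, i))) (fun i => a (w (j, i))))
    (cert1_not_and (cert1_not_all fun q a ha =>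
        ⟨{u (q.1, q.2, false), u (q.1, q.2, true)}, card_le_two.trans (by norm_num),
          fun a' h' hc => ha (by
            rw [← h' (u (q.1, q.2, false)) (by simp), ← h' (u (q.1, q.2, true)) (by simp)]
            exact hc)⟩)
      (cert1_not_and
      (cert1_not_all fun j => chain_cert _ (fun i => cu (j, i)) (fun i => u (j, i, false)))
      (cert1_not_and
      (cert1_not_all fun j => chain_cert _ (fun i => cv (j, i)) (fun i => v (j, i)))
      (cert1_not_all fun j => chain_cert _ (fun i => cw (j, i)) (fun i => w (j, i))))))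
    (fun _ b => b = false)
    (fun q _ => {(u (q.1.1, q.1.2.1, q.2), false), (v (q.1.1, q.1.2.2.1), false),
      (w (q.1.1, q.1.2.2.2), false)})
    (fun _ _ => card_le_three)
    (by
      rintro ⟨⟨i, a, b, c⟩, β⟩ _ ⟨⟨i', a', b', c'⟩, β'⟩ _ rfl rfl h
      have e1 : (u (i, a, β), false) ∈ ({(u (i', a', β'), false), (v (i', b'), false),
        (w (i', c'), false)} : Finset (W × Bool)) := by rw [← h]; simp
      have e2 : (v (i, b), false) ∈ ({(u (i', a', β'), false), (v (i', b'), false),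
        (w (i', c'), false)} : Finset (W × Bool)) := by rw [← h]; simp
      have e3 : (w (i, c), false) ∈ ({(u (i', a', β'), false), (v (i', b'), false),
        (w (i', c'), false)} : Finset (W × Bool)) := by rw [← h]; simp
      simp [u, v, w, W] at e1 e2 e3
      obtain ⟨rfl, rfl, rfl⟩ := e1
      obtain ⟨-, rfl⟩ := e2
      obtain ⟨-, rfl⟩ := e3
      exact ⟨rfl, rfl⟩)
  refine ⟨e, fun c => ?_, fun z => ?_⟩
  · rcases h1 c with h | ⟨p, b, rfl, hp⟩
    · exact Or.inl h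
    · exact Or.inr ⟨p, hp⟩
  · rw [h2]
    constructor
    · rintro ⟨a, ⟨ge, gu, gv, gw⟩, hl⟩ i
      obtain ⟨a1, h1⟩ := (chain_or_iff _).1 ⟨_, gu i⟩
      obtain ⟨a2, h2⟩ := (chain_or_iff _).1 ⟨_, gv i⟩
      obtain ⟨a3, h3⟩ := (chain_or_iff _).1 ⟨_, gw i⟩
      refine ⟨(a1, a2, a3), fun β => ?_⟩
      by_contra hz
      have := hl ((i, a1, a2, a3), β) (by simpa using hz)
      have h4 : a (u (i, a1, β)) = true := by
        cases β
        · exact h1
        · rw [← ge (i, a1)]; exact h1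
      simp only [mem_insert, mem_singleton, exists_eq_or_imp, exists_eq_left, h2, h3, h4] at this
      simp at this
    · intro h
      choose j hj using h
      have := fun i => (chain_or_iff (fun k' => decide (k' = (j i).1))).2 ⟨(j i).1, by simp⟩
      choose du hdu using this
      have := fun i => (chain_or_iff (fun k' => decide (k' = (j i).2.1))).2 ⟨(j i).2.1, by simp⟩
      choose dv hdv using this
      have := fun i => (chain_or_iff (fun k' => decide (k' = (j i).2.2))).2 ⟨(j i).2.2, by simp⟩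
      choose dw hdw using this
      refine ⟨Sum.elim (Sum.elim (fun q => decide (q.2.1 = (j q.1).1))
          (Sum.elim (fun q => decide (q.2 = (j q.1).2.1)) (fun q => decide (q.2 = (j q.1).2.2))))
        (Sum.elim (fun q => du q.1 q.2) (Sum.elim (fun q => dv q.1 q.2) (fun q => dw q.1 q.2))),
        ⟨fun q => rfl, hdu, hdv, hdw⟩, ?_⟩
      rintro ⟨⟨i, a1, a2, a3⟩, β⟩ hz
      simp only [mem_insert, mem_singleton, exists_eq_or_imp, exists_eq_left, u, v, w,
        Sum.elim_inl, Sum.elim_inr, decide_eq_false_iff_not]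
      by_contra hcon
      push Not at hcon
      have : (a1, a2, a3) = j i := Prod.ext hcon.1 (Prod.ext hcon.2.1 hcon.2.2)
      rw [this, hj i β] at hz
      exact absurd hz (by simp)

/-- OR of AND of OR with linearly many variables -/
theorem embed_lin {n r T : ℕ} (hn : r + (r + 1) + T ≤ n) :
    ∃ e : ((Fin r × Fin T) × Bool → Bool) → Clause n → Bool,
      (∀ c, (∃ v : Prop, ∀ z, ¬ e z c = true ↔ v) ∨ ∃ p, ∀ z, ¬ e z c = true ↔ z p = false) ∧
      ∀ z, ¬ SAT (e z) ↔ ∀ i, ∃ j, ∀ β, z ((i, j), β) = true := by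
  let W := (Fin r ⊕ Fin (r + 1)) ⊕ Fin T
  let s0 : Fin r → W := fun i => Sum.inl (Sum.inl i)
  let c0 : Fin (r + 1) → W := fun i => Sum.inl (Sum.inr i)
  let σ : Fin T → W := fun i => Sum.inr i
  obtain ⟨e, h1, h2⟩ := embed (W := W) (X := (Fin r × Fin T) × Bool) (n := n)
    (by simp only [W, Fintype.card_sum, Fintype.card_fin]; omega)
    (fun a => Chain or (fun i => a (c0 i)) (fun i => a (s0 i))) (chain_cert _ _ _)
    (fun _ b => b = true)
    (fun q _ => {(s0 q.1.1, false), (σ q.1.2, !q.2)})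
    (fun _ _ => card_le_two.trans (by norm_num))
    (by
      rintro ⟨⟨i, j⟩, β⟩ _ ⟨⟨i', j'⟩, β'⟩ _ rfl rfl h
      have e1 : (s0 i, false) ∈ ({(s0 i', false), (σ j', !β')} : Finset (W × Bool)) := by
        rw [← h]; simp
      have e2 : (σ j, !β) ∈ ({(s0 i', false), (σ j', !β')} : Finset (W × Bool)) := by
        rw [← h]; simp
      simp [s0, σ, W] at e1 e2
      obtain ⟨rfl, rfl⟩ := e2
      subst e1
      exact ⟨rfl, rfl⟩)
  refine ⟨e, fun c => ?_, fun z => ?_⟩
  · rcases h1 c with ⟨v, h⟩ | ⟨p, b, rfl, hp⟩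
    · exact Or.inl ⟨¬ v, fun z => not_congr (h z)⟩
    · exact Or.inr ⟨p, fun z => by rw [hp]; simp⟩
  · rw [h2]
    constructor
    · intro h i
      by_contra hcon
      push Not at hcon
      choose β hβ using hcon
      apply h
      obtain ⟨d0, hd0⟩ := (chain_or_iff (fun i' => decide (i' = i))).2 ⟨i, by simp⟩
      refine ⟨Sum.elim (Sum.elim (fun i' => decide (i' = i)) d0) β, hd0, ?_⟩
      rintro ⟨⟨i', j⟩, b⟩ hz
      simp only [mem_insert, mem_singleton, exists_eq_or_imp, exists_eq_left, s0, σ,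
        Sum.elim_inl, Sum.elim_inr, decide_eq_false_iff_not]
      by_cases hi : i' = i
      · right
        subst hi
        have := hβ j
        by_contra hb
        have : β j = b := by simpa using hb
        exact hβ j (this ▸ hz)
      · exact Or.inl hi
    · rintro h ⟨a, g0, hl⟩
      obtain ⟨i, hi⟩ := (chain_or_iff _).1 ⟨_, g0⟩
      obtain ⟨j, hj⟩ := h i
      have := hl ((i, j), a (σ j)) (hj _)
      simp only [mem_insert, mem_singleton, exists_eq_or_imp, exists_eq_left, hi] at this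
      simp at this

end Pool.Agent.P.MP_b53add_lc
end

-- part Pool.Agent.P.MP_b53add_lc.Main
section

set_option autoImplicit false

namespace Pool.Agent.P.MP_b53add_lc

open Finset Classical

/-- the circuit decides satisfiability, phrased with Boolean gate values -/
def Decides {n : ℕ} (C : Circ (Clause n)) (o : Fin C.m) : Prop :=
  ∀ x : Clause n → Bool,
    ((∃ v : Fin C.m → Bool,
      (∀ j : Fin C.m,
        (C.kind j = 0 → (v j = true ↔
          ((∃ i ∈ C.inp j, x i = true) ∨ ∃ k ∈ C.prd j, v k = true))) ∧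
        (C.kind j = 1 → (v j = true ↔
          ((∀ i ∈ C.inp j, x i = true) ∧ ∀ k ∈ C.prd j, v k = true))) ∧
        (C.kind j = 2 → (v j = true ↔
          ¬ ((∀ i ∈ C.inp j, x i = true) ∧ ∀ k ∈ C.prd j, v k = true)))) ∧
      v o = true) ↔
    ∃ a : Fin n → Bool, ∀ c : Clause n, x c = true → ∃ l ∈ c.1, a l.1 = l.2)

theorem Decides.sem {n : ℕ} {C : Circ (Clause n)} {o : Fin C.m} (h : Decides C o) :
    ∃ G : (Clause n → Bool) → Fin C.m → Prop,
      (∀ x, C.Sem (fun i => x i = true) (G x)) ∧ ∀ x, G x o ↔ SAT x := by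
  choose G hG using fun x : Clause n → Bool => C.exists_sem (fun i => x i = true)
  refine ⟨G, hG, fun x => Iff.trans ?_ (h x)⟩
  constructor
  · intro ho
    refine ⟨fun j => decide (G x j), fun j => ?_, by simpa using ho⟩
    simp only [decide_eq_true_eq]
    exact hG x j
  · rintro ⟨v, hv, ho⟩
    exact (Circ.sem_unique (g' := G x) (g := fun j => v j = true) hv (hG x) o).2 ho

theorem two_le_size {n : ℕ} (C : Circ (Clause n)) (o : Fin C.m) :
    2 ≤ Fintype.card (Clause n) + C.m := by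
  have h1 : 0 < Fintype.card (Clause n) := Fintype.card_pos_iff.2 ⟨⟨∅, by simp⟩⟩
  have h2 : 0 < C.m := o.pos
  omega

theorem pow_cancel {a t r M : ℕ} (ht : 1 ≤ t) (ha : 2 * t ≤ a) (h : a ^ r ≤ M * t ^ r) :
    2 ^ r ≤ M := by
  have h1 : (2 * t) ^ r ≤ a ^ r := Nat.pow_le_pow_left ha r
  rw [mul_pow] at h1
  exact Nat.le_of_mul_le_mul_right (h1.trans h) (by positivity)

theorem free_nat {n : ℕ} {C : Circ (Clause n)} {o : Fin C.m} (h : Decides C o)
    {lvl : Fin C.m → ℕ} (hl : C.FreeLvl lvl) {r t : ℕ} (hr : 1 ≤ r) (ho : lvl o ≤ r + 3)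
    (ht : 1 ≤ t) (hn : 5 * (16 * t) ^ (r + 1) ≤ n) : 2 ^ t ≤ Fintype.card (Clause n) + C.m := by
  by_contra hcon
  push Not at hcon
  obtain ⟨G, hG, hGo⟩ := h.sem
  obtain ⟨P, _, hP, hred⟩ := red_many hl ht (by rw [pow_succ]; omega) r
  have hu : 16 * t ≤ (16 * t) ^ r := Nat.le_self_pow (by omega) _
  obtain ⟨e, he, hsat⟩ := embed_tree (n := n) (T := 2 * t) P (by
    rw [hP]; rw [pow_succ] at hn
    set u := (16 * t) ^ r
    nlinarith)
  have : Nonempty (Fin (2 * t)) := ⟨⟨0, by omega⟩⟩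
  have := free_core hl hred (Fin (2 * t)) (fun z i => e z i = true) (fun z => G (e z))
    (fun z => hG _) he o ho (fun z => (hGo _).trans (hsat z))
  rw [Fintype.card_fin] at this
  have h2 := pow_cancel ht le_rfl this
  have h3 : 2 ^ (t + 1) ≤ 2 ^ (2 * t) := Nat.pow_le_pow_right (by norm_num) (by omega)
  rw [pow_succ] at h3
  omega

theorem lin_nat {n : ℕ} {C : Circ (Clause n)} {o : Fin C.m} (h : Decides C o)
    {lvl : Fin C.m → ℕ} (hl : C.FullLvl lvl) (ho : C.dual.GoodTop lvl o) {t : ℕ}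
    (ht : 1 ≤ t) (hn : 4 * t + 3 ≤ n) : 2 ^ t ≤ Fintype.card (Clause n) + C.m := by
  by_contra hcon
  push Not at hcon
  obtain ⟨G, hG, hGo⟩ := h.sem
  obtain ⟨e, he, hsat⟩ := embed_lin (n := n) (r := t + 1) (T := 2 * t) (by omega)
  have := full_core (C := C.dual) (lvl := lvl) hl (ξ := fun z i => ¬ e z i = true)
    (G := fun z j => ¬ G (e z) j) (fun z => (hG _).dual) he (t := t)
    (by change (Fintype.card (Clause n) + C.m) * 2 < _; rw [pow_succ]; omega) ho
    (fun z => (not_congr (hGo _)).trans (hsat z))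
  rw [Fintype.card_fin, Fintype.card_fin] at this
  have h2 := pow_cancel ht le_rfl this
  change _ ≤ (Fintype.card (Clause n) + C.m) * 2 at h2
  rw [pow_succ] at h2
  omega

theorem triple_nat {n : ℕ} {C : Circ (Clause n)} {o : Fin C.m} (h : Decides C o)
    {lvl : Fin C.m → ℕ} (hl : C.FullLvl lvl) (ho : lvl o ≤ 4) {s t : ℕ}
    (ht : 1 ≤ t) (hs : 2 * t ≤ s ^ 3) (hn : 10 * s ^ 4 ≤ n) :
    2 ^ t ≤ Fintype.card (Clause n) + C.m := by
  have hs1 : 1 ≤ s := by
    rcases Nat.eq_zero_or_pos s with rfl | h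
    · simp at hs; omega
    · exact h
  have h4 : s ^ 3 ≤ s ^ 4 := Nat.pow_le_pow_right hs1 (by norm_num)
  rcases goodTop_or_dual (C := C) (lvl := lvl) ho with hg | hg
  swap
  · exact lin_nat h hl hg ht (by omega)
  by_contra hcon
  push Not at hcon
  obtain ⟨G, hG, hGo⟩ := h.sem
  obtain ⟨e, he, hsat⟩ := embed_triple (n := n) (r := t + 1) (s := s) (by
    have h5 : t + 1 ≤ s ^ 3 := by omega
    have h6 : (t + 1) * s ≤ s ^ 4 := by rw [pow_succ s 3]; exact Nat.mul_le_mul_right _ h5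
    nlinarith)
  have := full_core hl (ξ := fun z i => e z i = true)
    (G := fun z j => G (e z) j) (fun z => hG _) he (t := t)
    (by rw [pow_succ]; omega) hg (fun z => (hGo _).trans (hsat z))
  have h2 := pow_cancel ht (a := Fintype.card (Fin s × Fin s × Fin s))
    (by simp only [Fintype.card_prod, Fintype.card_fin]; nlinarith) this
  rw [Fintype.card_fin, pow_succ] at h2
  omega

theorem rpow_lt_of {S t : ℕ} {y : ℝ} (h2 : 2 ≤ S) (h : y < 1 ∨ (y < t ∧ 2 ^ t ≤ S)) :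
    (2 : ℝ) ^ y < S := by
  rcases h with h | ⟨h, h'⟩
  · calc (2 : ℝ) ^ y < (2 : ℝ) ^ (1 : ℝ) := Real.rpow_lt_rpow_of_exponent_lt (by norm_num) h
      _ = 2 := by simp
      _ ≤ S := by exact_mod_cast h2
  · calc (2 : ℝ) ^ y < (2 : ℝ) ^ (t : ℝ) := Real.rpow_lt_rpow_of_exponent_lt (by norm_num) h
      _ = ((2 ^ t : ℕ) : ℝ) := by rw [Real.rpow_natCast]; push_cast; rfl
      _ ≤ S := by exact_mod_cast h'

theorem free_real {n : ℕ} {C : Circ (Clause n)} {o : Fin C.m} (h : Decides C o)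
    {lvl : Fin C.m → ℕ} (hl : C.FreeLvl lvl) {d : ℕ} (hd : 4 ≤ d) (ho : lvl o ≤ d) :
    (2 : ℝ) ^ ((1 / 100 : ℝ) * (n : ℝ) ^ (1 / ((d : ℝ) - 2))) <
      (Fintype.card (Clause n) : ℝ) + (C.m : ℝ) := by
  obtain ⟨r, rfl⟩ : ∃ r, d = r + 3 := ⟨d - 3, by omega⟩
  have hr : 1 ≤ r := by omega
  have e : (1 / (((r + 3 : ℕ) : ℝ) - 2)) = (((r + 1 : ℕ) : ℝ))⁻¹ := by
    push_cast; rw [one_div]; congr 1; ring
  rw [e]
  set x := (n : ℝ) ^ (((r + 1 : ℕ) : ℝ))⁻¹ with hx
  have hx0 : 0 ≤ x := by positivity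
  have hxn : x ^ (r + 1) = n := Real.rpow_inv_natCast_pow (by positivity) (by omega)
  rw [← Nat.cast_add]
  apply rpow_lt_of (t := ⌊x / 48⌋₊) (two_le_size C o)
  by_cases h96 : x < 96
  · left; linarith
  right
  push Not at h96
  have h1 : x / 48 < ⌊x / 48⌋₊ + 1 := Nat.lt_floor_add_one _
  have h2 : (⌊x / 48⌋₊ : ℝ) ≤ x / 48 := Nat.floor_le (by positivity)
  refine ⟨by linarith, free_nat h hl hr ho ?_ ?_⟩
  · have : (1 : ℝ) ≤ ⌊x / 48⌋₊ := by linarith
    exact_mod_cast this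
  · have h3 : ((16 : ℝ) * ⌊x / 48⌋₊) ^ (r + 1) ≤ (x / 3) ^ (r + 1) :=
      pow_le_pow_left₀ (by positivity) (by linarith) _
    rw [div_pow, hxn] at h3
    have h4 : (9 : ℝ) ≤ 3 ^ (r + 1) := by
      calc (9 : ℝ) = 3 ^ 2 := by norm_num
        _ ≤ _ := pow_le_pow_right₀ (by norm_num) (by omega)
    have h5 : (n : ℝ) / 3 ^ (r + 1) ≤ n / 9 := div_le_div_of_nonneg_left (by positivity) (by norm_num) h4
    have h6 : (5 : ℝ) * ((16 : ℝ) * ⌊x / 48⌋₊) ^ (r + 1) ≤ n := by
      have : (0 : ℝ) ≤ n := by positivity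
      linarith
    exact_mod_cast h6

theorem triple_real {n : ℕ} {C : Circ (Clause n)} {o : Fin C.m} (h : Decides C o)
    {lvl : Fin C.m → ℕ} (hl : C.FullLvl lvl) (ho : lvl o ≤ 4) :
    (2 : ℝ) ^ ((1 / 600 : ℝ) * (n : ℝ) ^ (3 / 4 : ℝ)) <
      (Fintype.card (Clause n) : ℝ) + (C.m : ℝ) := by
  set x := (n : ℝ) ^ (((4 : ℕ) : ℝ))⁻¹ with hx
  have hx0 : 0 ≤ x := by positivity
  have hxn : x ^ 4 = n := Real.rpow_inv_natCast_pow (by positivity) (by omega)
  have hx3 : (n : ℝ) ^ (3 / 4 : ℝ) = x ^ 3 := by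
    rw [hx, ← Real.rpow_natCast, ← Real.rpow_mul (by positivity)]; norm_num
  rw [hx3, ← Nat.cast_add]
  set s := ⌊x / 2⌋₊
  apply rpow_lt_of (t := s ^ 3 / 2) (two_le_size C o)
  by_cases h8 : x < 8
  · left
    have : x ^ 3 < 8 ^ 3 := pow_lt_pow_left₀ h8 hx0 (by norm_num)
    linarith
  right
  push Not at h8
  have h1 : x / 2 < s + 1 := Nat.lt_floor_add_one _
  have h2 : (s : ℝ) ≤ x / 2 := Nat.floor_le (by positivity)
  have h3 : (3 * x / 8) ^ 3 ≤ (s : ℝ) ^ 3 := pow_le_pow_left₀ (by positivity) (by linarith) _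
  have h4 : (8 : ℝ) ^ 3 ≤ x ^ 3 := pow_le_pow_left₀ (by norm_num) h8 _
  have h5 : (s : ℝ) ^ 3 ≤ 2 * ((s ^ 3 / 2 : ℕ) : ℝ) + 1 := by
    have : s ^ 3 ≤ 2 * (s ^ 3 / 2) + 1 := by omega
    exact_mod_cast this
  have h6 : (3 * x / 8) ^ 3 = 27 / 512 * x ^ 3 := by ring
  refine ⟨by linarith, triple_nat h hl ho (s := s) ?_ (by omega) ?_⟩
  · have : (1 : ℝ) ≤ ((s ^ 3 / 2 : ℕ) : ℝ) := by linarith
    exact_mod_cast this
  · have h7 : (s : ℝ) ^ 4 ≤ (x / 2) ^ 4 := pow_le_pow_left₀ (by positivity) h2 _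
    rw [div_pow, hxn] at h7
    have h9 : (10 : ℝ) * (s : ℝ) ^ 4 ≤ n := by
      have : (0 : ℝ) ≤ n := by positivity
      linarith
    exact_mod_cast h9

theorem lin_real {n : ℕ} {C : Circ (Clause n)} {o : Fin C.m} (h : Decides C o)
    {lvl : Fin C.m → ℕ} (hl : C.FullLvl lvl) (ho : lvl o ≤ 3 ∨ (lvl o ≤ 4 ∧ C.kind o = 1)) :
    (2 : ℝ) ^ ((1 / 16 : ℝ) * (n : ℝ)) < (Fintype.card (Clause n) : ℝ) + (C.m : ℝ) := by
  rw [← Nat.cast_add]
  apply rpow_lt_of (t := (n - 3) / 4) (two_le_size C o)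
  by_cases h8 : n < 16
  · left
    have : (n : ℝ) < 16 := by exact_mod_cast h8
    linarith
  right
  refine ⟨?_, lin_nat h hl ?_ (by omega) (by omega)⟩
  · have : n < 16 * ((n - 3) / 4) := by omega
    have : (n : ℝ) < 16 * (((n - 3) / 4 : ℕ) : ℝ) := by exact_mod_cast this
    linarith
  · rcases ho with ho | ⟨ho, hk⟩
    · exact Or.inl ho
    · exact Or.inr ⟨ho, Or.inl (by simp [Circ.dual, hk])⟩

end Pool.Agent.P.MP_b53add_lc
end

-- part Pool.Agent.P.MP_b53add_lc.MonoLines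
section

set_option autoImplicit false

namespace Pool.Agent.P.MP_b53add_lc.Mono

open Finset Classical

/-- points lying in a thin slice -/
def Light {n : ℕ} (T : ℕ) (Y : (Fin n → Bool) → Prop) (x : Fin n → Bool) : Prop :=
  Y x ∧ ∃ τ : Finset (Fin n × Bool), τ.card ≤ T ∧ Ag x τ ∧
    cnt (fun x' => Y x' ∧ Ag x' τ) * (24 * 10 ^ 18) ^ T < 2 ^ n

theorem lit_count {n T : ℕ} (hn : n ≤ 2 * 10 ^ 18 * T) :
    cnt (fun τ : Finset (Fin n × Bool) => τ.card ≤ T) ≤ (12 * 10 ^ 18) ^ T := by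
  have h := count_small (β := Fin n × Bool) (T := T) (c := 4 * 10 ^ 18) (by norm_num) (by
    have : (n : ℝ) ≤ 2 * 10 ^ 18 * T := by exact_mod_cast hn
    simp only [Fintype.card_prod, Fintype.card_fin, Fintype.card_bool]
    push_cast
    linarith) (fun τ => τ.card ≤ T) fun S hS => hS
  exact h.trans (le_of_eq (by norm_num))

theorem light_count {n T : ℕ} (hn : n ≤ 2 * 10 ^ 18 * T) (Y : (Fin n → Bool) → Prop) :
    cnt (Light T Y) * 2 ^ T ≤ 2 ^ n := by
  have h1 := cnt_exists_le (fun τ : Finset (Fin n × Bool) => τ.card ≤ T)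
    (fun τ x => (Y x ∧ Ag x τ) ∧ cnt (fun x' => Y x' ∧ Ag x' τ) * (24 * 10 ^ 18) ^ T < 2 ^ n)
    (Light T Y) (w := 2 ^ n / (24 * 10 ^ 18) ^ T)
    (fun x ⟨h1, τ, h2, h3, h4⟩ => ⟨τ, h2, ⟨h1, h3⟩, h4⟩) (by
      intro τ _
      by_cases h : cnt (fun x' => Y x' ∧ Ag x' τ) * (24 * 10 ^ 18) ^ T < 2 ^ n
      · refine (cnt_mono fun x hx => hx.1).trans ?_
        rw [le_div_iff₀ (by positivity)]
        exact h.le
      · refine (cnt_le_card (A := ∅) fun x hx => absurd hx.2 h).trans ?_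
        rw [card_empty, Nat.cast_zero]
        positivity)
  have h2 := h1.trans (mul_le_mul_of_nonneg_right (lit_count hn) (by positivity))
  refine (mul_le_mul_of_nonneg_right h2 (by positivity)).trans (le_of_eq ?_)
  have : ((24 : ℝ) * 10 ^ 18) ^ T = (12 * 10 ^ 18) ^ T * 2 ^ T := by
    rw [← mul_pow]; norm_num
  rw [this]
  field_simp

theorem removal {β ι : Type} (rk : ι → ℕ) (B : ι → β → Prop) (L : (β → Prop) → β → Prop) :
    ∃ B' : ι → β → Prop, (∀ k x, B' k x → B k x) ∧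
      (∀ k i x, rk i < rk k → B' k x → B i x → B' i x ∧ ¬ L (B' i) x) ∧
      ∀ k x, B k x → ¬ B' k x → ∃ i, L (B' i) x := by
  let E : ℕ → β → Prop := fun t => Nat.rec (fun _ => False)
    (fun t Et x => Et x ∨ ∃ i, rk i = t ∧ L (fun x => B i x ∧ ¬ Et x) x) t
  have hE : ∀ t x, E (t + 1) x ↔ E t x ∨ ∃ i, rk i = t ∧ L (fun x => B i x ∧ ¬ E t x) x :=
    fun t x => Iff.rfl
  have hmono : ∀ t t' x, t ≤ t' → E t x → E t' x := by
    intro t t' x h
    induction h with
    | refl => exact id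
    | step _ ih => exact fun h => (hE _ _).2 (Or.inl (ih h))
  refine ⟨fun k x => B k x ∧ ¬ E (rk k) x, fun k x h => h.1, fun k i x h h1 h2 =>
    ⟨⟨h2, fun h3 => h1.2 (hmono _ _ x h.le h3)⟩, fun h3 =>
      h1.2 (hmono _ _ x h ((hE _ _).2 (Or.inr ⟨i, rfl, h3⟩)))⟩, fun k x h1 h2 => ?_⟩
  have h3 : E (rk k) x := by
    by_contra h4
    exact h2 ⟨h1, h4⟩
  generalize rk k = t at h3
  induction t with
  | zero => exact h3.elim
  | succ t ih =>
    rcases (hE _ _).1 h3 with h4 | ⟨i, rfl, h4⟩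
    · exact ih h4
    · exact ⟨i, h4⟩

theorem choose_g {n T n0 : ℕ} (hT : 1 ≤ T) (hn : 10 ^ 18 * T ≤ n) (hn' : n ≤ 2 * 10 ^ 18 * T)
    (hn0 : n0 = 10 ^ 12 * T) {ι : Type} [Fintype ι] (hι : 2 * (Fintype.card ι : ℝ) ≤ 2 ^ T)
    (B : ι → (Fin n → Bool) → Prop) :
    ∃ g : Fin n0 → Fin n, (∀ k (τ : Finset (Fin n × Bool)) x, τ.card ≤ T → B k x → Ag x τ →
      ¬ Light T (B k) x → ∃ Z : Finset (Fin n0 × Bool), Z.card ≤ 9 * T ∧ (∃ y, Ag y Z) ∧
        ∀ y, Ag y Z → ∃ x, (B k x ∧ Ag x τ) ∧ ∀ i, x (g i) = y i) ∧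
      ∀ y : Fin n0 → Bool, ∃ x, (¬ ∃ i, Light T (B i) x) ∧ ∀ i, x (g i) = y i := by
  have h2T : (0 : ℝ) < 2 ^ T := by positivity
  have hX0 : (2 : ℝ) ^ n ≤ cnt (fun x => ¬ ∃ i, Light T (B i) x) * 2 := by
    have h1 := cnt_add_not (fun x => ∃ i, Light T (B i) x)
    have h2 := (cnt_exists_sum univ (fun i => Light T (B i)) (fun x => ∃ i, Light T (B i) x)
      fun x ⟨i, hi⟩ => ⟨i, mem_univ _, hi⟩).trans (sum_le_sum (g := fun _ => 2 ^ n / 2 ^ T)
        fun i _ => by rw [le_div_iff₀ h2T]; exact light_count hn' _)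
    rw [sum_const, card_univ, nsmul_eq_mul] at h2
    rw [Fintype.card_fun, Fintype.card_bool, Fintype.card_fin] at h1
    push_cast at h1
    have h3 := mul_le_mul_of_nonneg_right hι (show (0 : ℝ) ≤ 2 ^ n / 2 ^ T by positivity)
    rw [mul_div_cancel₀ _ h2T.ne'] at h3
    linarith
  obtain ⟨A, hA1, hA2, hA3⟩ : ∃ A : Finset (ι × Finset (Fin n × Bool)),
      (A.card : ℝ) ≤ (24 * 10 ^ 18) ^ T ∧
      (∀ q ∈ A, (2 : ℝ) ^ n ≤ cnt (fun x => B q.1 x ∧ Ag x q.2) * (24 * 10 ^ 18) ^ T) ∧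
      ∀ k τ, τ.card ≤ T → (2 : ℝ) ^ n ≤ cnt (fun x => B k x ∧ Ag x τ) * (24 * 10 ^ 18) ^ T →
        (k, τ) ∈ A := by
    refine ⟨(univ ×ˢ univ.filter fun τ : Finset (Fin n × Bool) => τ.card ≤ T).filter
      fun q : ι × Finset (Fin n × Bool) =>
        (2 : ℝ) ^ n ≤ cnt (fun x => B q.1 x ∧ Ag x q.2) * (24 * 10 ^ 18) ^ T, ?_, ?_, ?_⟩
    · have h1 := card_le_cnt (P := fun τ : Finset (Fin n × Bool) => τ.card ≤ T)
        (A := univ.filter fun τ : Finset (Fin n × Bool) => τ.card ≤ T)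
        fun τ hτ => (mem_filter.1 hτ).2
      refine le_trans (Nat.cast_le.2 (card_filter_le _ _)) ?_
      rw [card_product, card_univ]
      push_cast
      have h2 : (Fintype.card ι : ℝ) ≤ 2 ^ T := by linarith
      refine (mul_le_mul h2 (h1.trans (lit_count hn')) (by positivity) (by positivity)).trans ?_
      rw [← mul_pow]; norm_num
    · intro q hq
      rw [mem_filter] at hq
      exact hq.2
    · intro k τ h1 h2
      rw [mem_filter, mem_product, mem_filter]
      exact ⟨⟨mem_univ _, mem_univ _, h1⟩, h2⟩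
  obtain ⟨V, hV, hS, hS0⟩ := choose_V hT hn A hA1 (fun q x => B q.1 x ∧ Ag x q.2) hA2 _ hX0
  obtain ⟨g, hginj, hgV⟩ : ∃ g : Fin n0 → Fin n, Function.Injective g ∧ ∀ i, V (g i) = true := by
    obtain ⟨e⟩ : Nonempty (Fin n0 ↪ {i // V i = true}) :=
      Function.Embedding.nonempty_of_card_le (by
        rw [Fintype.card_fin, Fintype.card_subtype, hn0]; exact hV)
    exact ⟨fun i => (e i).1, Subtype.val_injective.comp e.injective, fun i => (e i).2⟩
  refine ⟨g, fun k τ x h1 h2 h3 h4 => ?_, fun y => ?_⟩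
  · exact (hS (k, τ) (hA3 k τ h1 (not_lt.1 fun hl => h4 ⟨h2, τ, h1, h3, hl⟩))).restrict hginj hgV
  · obtain ⟨Z, hZ, -, hZ'⟩ := hS0.restrict hginj hgV
    refine hZ' y ?_
    rw [card_eq_zero.1 (Nat.le_zero.1 hZ)]
    intro l hl
    simp at hl

theorem lines {n T : ℕ} (hT : 1 ≤ T) (hn : 10 ^ 18 * T ≤ n) (hn' : n ≤ 2 * 10 ^ 18 * T)
    {ι : Type} [Fintype ι] (rk : ι → ℕ) (B : ι → (Fin n → Bool) → Prop)
    (h : ∀ Φ : Finset (Cl (Fin n)), (∀ y, ∃ c ∈ Φ, ¬ Sat y c) → ∃ A : ι → Prop,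
      (∀ k, A k → ∃ X : Bool → (Fin n → Bool) → Prop, (∀ x, B k x → ∃ b, X b x) ∧ ∀ b,
        (∃ i, A i ∧ rk i < rk k ∧ ∀ x, X b x → B i x) ∨ (∃ c ∈ Φ, ∀ x, X b x → ¬ Sat x c) ∨
          ∀ x, ¬ X b x) ∧ ∃ k, A k ∧ ∀ x, B k x) :
    2 ^ T < 2 * Fintype.card ι := by
  by_contra hcon
  push Not at hcon
  have hι : 2 * (Fintype.card ι : ℝ) ≤ 2 ^ T := by exact_mod_cast hcon
  obtain ⟨B', hB1, hB2, hB3⟩ := removal rk B (Light T)
  obtain ⟨n0, hn0⟩ : ∃ n0, n0 = 10 ^ 12 * T := ⟨_, rfl⟩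
  obtain ⟨g, hS, hS0⟩ := choose_g hT hn hn' hn0 hι B'
  obtain ⟨φ, hφ, hgap, hfin⟩ := small_world hT ((Fintype.card_fin _).trans hn0) (ι := ι) (by omega)
    (fun k => {y | ∃ x, B' k x ∧ ∀ i, x (g i) = y i})
    (fun k => {y | ∃ x, (B' k x ∧ ¬ Light T (B' k) x) ∧ ∀ i, x (g i) = y i}) (by
      rintro k τ hτ ⟨y, ⟨x, ⟨hx1, hx2⟩, hx3⟩, hy⟩
      have hc : (τ.image fun l => (g l.1, l.2)).card ≤ T := card_image_le.trans hτ
      have hag : Ag x (τ.image fun l => (g l.1, l.2)) := by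
        intro l hl
        obtain ⟨l', hl', rfl⟩ := mem_image.1 hl
        exact (hx3 _).trans (hy l' hl')
      obtain ⟨Z, hZ, ⟨y0, hy0⟩, hZ'⟩ := hS k _ x hc hx1 hag hx2
      refine ⟨Z, ⟨hZ, fun y' hy' => ?_⟩, y0, fun l hl => ?_⟩
      · obtain ⟨x', h1, h2⟩ := hZ' y' hy'
        exact ⟨x', h1.1, h2⟩
      · rcases mem_union.1 hl with h1 | h1
        · exact hy0 l h1
        · obtain ⟨x', h2, h3⟩ := hZ' y0 hy0
          exact (h3 _).symm.trans (h2.2 (g l.1, l.2) (mem_image.2 ⟨l, h1, rfl⟩)))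
  obtain ⟨A, hA, k0, hk0, hk0'⟩ := h (φ.image fun c j => (g (c j).1, (c j).2)) (by
    intro x
    obtain ⟨c, hc, hs⟩ := hφ fun i => x (g i)
    exact ⟨_, mem_image.2 ⟨c, hc, rfl⟩, hs⟩)
  have main : ∀ t k, rk k < t → A k → Q φ (2 * T) {y | ∃ x, B' k x ∧ ∀ i, x (g i) = y i} := by
    intro t
    induction t with
    | zero => intro k hk; omega
    | succ t ih =>
      intro k hk hAk
      obtain ⟨X, hX, hp⟩ := hA k hAk
      have h1 : ∀ b, Q φ T {y | ∃ x, (B' k x ∧ X b x) ∧ ∀ i, x (g i) = y i} := by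
        intro b
        rcases hp b with ⟨i, h1, h2, h3⟩ | ⟨c, hc, h3⟩ | h3
        · refine (hgap i (ih i (by omega) h1)).mono ?_
          rintro y ⟨x, ⟨h4, h5⟩, h6⟩
          exact ⟨x, hB2 k i x h2 h4 (h3 x h5), h6⟩
        · obtain ⟨d, hd, rfl⟩ := mem_image.1 hc
          refine ((Q_fals hd).le hT).mono ?_
          rintro y ⟨x, ⟨-, h5⟩, h6⟩ ⟨j, hj⟩
          exact h3 x h5 ⟨j, (h6 _).trans hj⟩
        · refine (Q_empty φ T).mono ?_
          rintro y ⟨x, ⟨-, h5⟩, -⟩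
          exact h3 x h5
      rw [two_mul]
      refine ((h1 false).union (h1 true)).mono ?_
      rintro y ⟨x, h2, h3⟩
      obtain ⟨b, hb⟩ := hX x (hB1 k x h2)
      cases b
      · exact Or.inl ⟨x, ⟨h2, hb⟩, h3⟩
      · exact Or.inr ⟨x, ⟨h2, hb⟩, h3⟩
  refine hfin ((main _ k0 (Nat.lt_succ_self _) hk0).mono fun y _ => ?_)
  obtain ⟨x, h1, h2⟩ := hS0 y
  refine ⟨x, ?_, h2⟩
  by_contra h3
  exact h1 (hB3 k0 x (hk0' x) h3)

/-- signed gate values of a unate circuit are monotone -/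
theorem unate_gate {I : Type} (C : Circ I) (s : Fin C.m → Bool)
    (hs : ∀ j, (∀ k ∈ C.prd j, s k = xor (s j) (decide (C.kind j = 2))) ∧
      ((C.inp j).Nonempty → s j = decide (C.kind j = 2))) (j : Fin C.m) :
    (∀ ξ G, C.Sem ξ G → ((G j ↔ s j = false) ↔
      ∀ u, C.Child j u → Sum.elim ξ (fun k => (G k ↔ s k = false)) u)) ∨
    (∀ ξ G, C.Sem ξ G → ((G j ↔ s j = false) ↔
      ∃ u, C.Child j u ∧ Sum.elim ξ (fun k => (G k ↔ s k = false)) u)) := by
  obtain ⟨h1, h2⟩ := hs j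
  have hall : ∀ (ξ : I → Prop) (w : Fin C.m → Prop), (∀ u, C.Child j u → Sum.elim ξ w u) ↔
      (∀ i ∈ C.inp j, ξ i) ∧ ∀ k ∈ C.prd j, w k := fun ξ w => by simp [Circ.Child]
  have hex : ∀ (ξ : I → Prop) (w : Fin C.m → Prop), (∃ u, C.Child j u ∧ Sum.elim ξ w u) ↔
      (∃ i ∈ C.inp j, ξ i) ∨ ∃ k ∈ C.prd j, w k := fun ξ w => by simp [Circ.Child]
  simp only [hall, hex]
  have hf : ∀ G : Fin C.m → Prop, (∀ k ∈ C.prd j, s k = false) →
      ((∀ k ∈ C.prd j, (G k ↔ s k = false)) ↔ ∀ k ∈ C.prd j, G k) ∧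
      ((∃ k ∈ C.prd j, (G k ↔ s k = false)) ↔ ∃ k ∈ C.prd j, G k) := fun G h =>
    ⟨forall₂_congr fun k hk => by simp [h k hk],
      exists_congr fun k => and_congr_right fun hk => by simp [h k hk]⟩
  have ht : ∀ G : Fin C.m → Prop, (∀ k ∈ C.prd j, s k = true) →
      ((∀ k ∈ C.prd j, (G k ↔ s k = false)) ↔ ∀ k ∈ C.prd j, ¬ G k) ∧
      ((∃ k ∈ C.prd j, (G k ↔ s k = false)) ↔ ∃ k ∈ C.prd j, ¬ G k) := fun G h =>
    ⟨forall₂_congr fun k hk => by simp [h k hk],
      exists_congr fun k => and_congr_right fun hk => by simp [h k hk]⟩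
  rcases fin3_cases (C.kind j) with hc | hc | hc <;> cases hsj : s j
  · right
    intro ξ G hG
    rw [(hf G fun k hk => by rw [h1 k hk, hsj, hc]; rfl).2, ← (hG j).1 hc]
    simp
  · left
    intro ξ G hG
    have hi : C.inp j = ∅ := not_nonempty_iff_eq_empty.1 fun h => by
      have := h2 h; rw [hsj, hc] at this; exact absurd this (by decide)
    rw [(ht G fun k hk => by rw [h1 k hk, hsj, hc]; rfl).1, (hG j).1 hc, hi]
    simp
  · left
    intro ξ G hG
    rw [(hf G fun k hk => by rw [h1 k hk, hsj, hc]; rfl).1, ← (hG j).2.1 hc]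
    simp
  · right
    intro ξ G hG
    have hi : C.inp j = ∅ := not_nonempty_iff_eq_empty.1 fun h => by
      have := h2 h; rw [hsj, hc] at this; exact absurd this (by decide)
    rw [(ht G fun k hk => by rw [h1 k hk, hsj, hc]; rfl).2, (hG j).2.1 hc, hi]
    simp
  · right
    intro ξ G hG
    have hi : C.inp j = ∅ := not_nonempty_iff_eq_empty.1 fun h => by
      have := h2 h; rw [hsj, hc] at this; exact absurd this (by decide)
    rw [(ht G fun k hk => by rw [h1 k hk, hsj, hc]; rfl).2, (hG j).2.2 hc, hi]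
    simp
  · left
    intro ξ G hG
    rw [(hf G fun k hk => by rw [h1 k hk, hsj, hc]; rfl).1, (hG j).2.2 hc]
    simp

theorem mono_nat {n T : ℕ} (hT : 1 ≤ T) (hn : 10 ^ 18 * T ≤ n) (hn' : n ≤ 2 * 10 ^ 18 * T)
    {C : Circ (Clause n)} {o : Fin C.m} (h : Decides C o) (s : Fin C.m → Bool) (ho : s o = true)
    (hs : ∀ j, (∀ k ∈ C.prd j, s k = xor (s j) (decide (C.kind j = 2))) ∧
      ((C.inp j).Nonempty → s j = decide (C.kind j = 2))) :
    2 ^ T < 2 * (Fintype.card (Clause n) + C.m) ^ 2 := by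
  obtain ⟨G, hG, hGo⟩ := h.sem
  obtain ⟨S, hS⟩ : ∃ S, S = Fintype.card (Clause n ⊕ Fin C.m) := ⟨_, rfl⟩
  let e : Clause n ⊕ Fin C.m ≃ Fin S := Fintype.equivFinOfCardEq hS.symm
  let W : (Clause n → Bool) → Clause n ⊕ Fin C.m → Prop := fun x =>
    Sum.elim (fun i => x i = true) (fun k => (G x k ↔ s k = false))
  let tr : (Fin n → Bool) → Clause n → Bool := fun y c => decide (∃ l ∈ c.1, y l.1 = l.2)
  let AndT : Fin C.m → Prop := fun j => ∀ x, W x (Sum.inr j) ↔ ∀ u, C.Child j u → W x u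
  have hor : ∀ j, ¬ AndT j → ∀ x, W x (Sum.inr j) ↔ ∃ u, C.Child j u ∧ W x u := fun j hj x =>
    (unate_gate C s hs j).resolve_left (fun h => hj fun x => h _ _ (hG x)) _ _ (hG x)
  let B : Fin C.m × Fin (S + 1) → (Fin n → Bool) → Prop := fun q y =>
    ¬ W (tr y) (Sum.inr q.1) ∧
      (AndT q.1 → ∃ u, C.Child q.1 u ∧ (e u).val < q.2.val ∧ ¬ W (tr y) u)
  have hlast : ∀ k y, ¬ W (tr y) (Sum.inr k) → B (k, Fin.last S) y := by
    intro k y hy
    refine ⟨hy, fun ha => ?_⟩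
    rw [ha] at hy
    push Not at hy
    obtain ⟨u, h1, h2⟩ := hy
    exact ⟨u, h1, (e u).2, h2⟩
  have hl := lines hT hn hn' (fun q : Fin C.m × Fin (S + 1) => q.1.val * (S + 1) + q.2.val) B (by
    intro Φ hΦ
    let x : Clause n → Bool := fun c => decide (∃ d ∈ Φ, c.1 = univ.image d)
    have piece : ∀ (q : Fin C.m × Fin (S + 1)) u, C.Child q.1 u → W x u →
        (∃ i : Fin C.m × Fin (S + 1), W x (Sum.inr i.1) ∧
          i.1.val * (S + 1) + i.2.val < q.1.val * (S + 1) + q.2.val ∧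
          ∀ y, ¬ W (tr y) u → B i y) ∨ (∃ c ∈ Φ, ∀ y, ¬ W (tr y) u → ¬ Sat y c) ∨
          ∀ y, ¬ ¬ W (tr y) u := by
      rintro q (c | k) hu hw
      · obtain ⟨d, hd, hc⟩ := of_decide_eq_true (show x c = true from hw)
        refine Or.inr (Or.inl ⟨d, hd, fun y hy ⟨j, hj⟩ => hy ?_⟩)
        exact decide_eq_true ⟨d j, hc ▸ mem_image_of_mem _ (mem_univ _), hj⟩
      · refine Or.inl ⟨(k, Fin.last S), hw, ?_, hlast k⟩
        have h1 : k.val + 1 ≤ q.1.val := C.acyc _ _ hu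
        have h2 := Nat.mul_le_mul_right (S + 1) h1
        simp only [Fin.val_last]
        nlinarith
    refine ⟨fun q => W x (Sum.inr q.1), fun q hq => ?_, (o, Fin.last S), ?_, fun y => hlast o y ?_⟩
    · by_cases ha : AndT q.1
      · rcases Nat.eq_zero_or_pos q.2.val with h0 | h0
        · refine ⟨fun _ _ => False, fun y hy => ?_, fun b => Or.inr (Or.inr fun _ => id)⟩
          obtain ⟨u, -, h1, -⟩ := hy.2 ha
          omega
        have ht : q.2.val - 1 < S := by have := q.2.2; omega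
        refine ⟨fun b y => if b = true then B (q.1, ⟨q.2.val - 1, by omega⟩) y else
          C.Child q.1 (e.symm ⟨q.2.val - 1, ht⟩) ∧ ¬ W (tr y) (e.symm ⟨q.2.val - 1, ht⟩),
          fun y hy => ?_, fun b => ?_⟩
        · obtain ⟨u, h1, h2, h3⟩ := hy.2 ha
          by_cases h4 : (e u).val < q.2.val - 1
          · exact ⟨true, by simpa using ⟨hy.1, fun _ => ⟨u, h1, h4, h3⟩⟩⟩
          · have h5 : e.symm ⟨q.2.val - 1, ht⟩ = u := by
              rw [Equiv.symm_apply_eq]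
              exact Fin.ext (by simp only; omega)
            exact ⟨false, by simpa [h5] using ⟨h1, h3⟩⟩
        · cases b
          · simp only [Bool.false_eq_true, if_false]
            by_cases h1 : C.Child q.1 (e.symm ⟨q.2.val - 1, ht⟩)
            · simp only [h1, true_and]
              exact piece q _ h1 ((ha x).1 hq _ h1)
            · exact Or.inr (Or.inr fun y hy => h1 hy.1)
          · simp only [if_true]
            exact Or.inl ⟨(q.1, ⟨q.2.val - 1, by omega⟩), hq, by simp only; omega, fun y hy => hy⟩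
      · obtain ⟨u, h1, h2⟩ := (hor _ ha x).1 hq
        exact ⟨fun _ y => ¬ W (tr y) u, fun y hy =>
          ⟨true, fun h3 => hy.1 ((hor _ ha _).2 ⟨u, h1, h3⟩)⟩, fun _ => piece q u h1 h2⟩
    · change G x o ↔ s o = false
      rw [hGo, ho]
      refine iff_of_false ?_ (by simp)
      rintro ⟨a, ha⟩
      obtain ⟨d, hd, hs⟩ := hΦ a
      obtain ⟨l, hl, hl'⟩ := ha ⟨univ.image d, card_image_le.trans (by simp)⟩
        (decide_eq_true ⟨d, hd, rfl⟩)
      obtain ⟨j, -, rfl⟩ := mem_image.1 hl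
      exact hs ⟨j, hl'⟩
    · change ¬ (G (tr y) o ↔ s o = false)
      rw [hGo, ho]
      intro h1
      exact absurd (h1.1 ⟨y, fun c hc => of_decide_eq_true hc⟩) (by simp))
  rw [Fintype.card_prod, Fintype.card_fin, Fintype.card_fin] at hl
  rw [Fintype.card_sum, Fintype.card_fin] at hS
  have h1 : 0 < Fintype.card (Clause n) := Fintype.card_pos_iff.2 ⟨⟨∅, by simp⟩⟩
  rw [← hS]
  refine hl.trans_le (Nat.mul_le_mul_left _ ?_)
  have h2 : C.m + 1 ≤ S := by omega
  nlinarith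

theorem mono_real {n : ℕ} {C : Circ (Clause n)} {o : Fin C.m} (h : Decides C o)
    (s : Fin C.m → Bool) (ho : s o = true)
    (hs : ∀ j, (∀ k ∈ C.prd j, s k = xor (s j) (decide (C.kind j = 2))) ∧
      ((C.inp j).Nonempty → s j = decide (C.kind j = 2))) :
    (2 : ℝ) ^ ((1 / (8 * 10 ^ 18) : ℝ) * (n : ℝ)) <
      (Fintype.card (Clause n) : ℝ) + (C.m : ℝ) := by
  rw [← Nat.cast_add]
  apply rpow_lt_of (t := n / 10 ^ 18 / 4) (two_le_size C o)
  by_cases h8 : n < 8 * 10 ^ 18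
  · left
    have : (n : ℝ) < 8 * 10 ^ 18 := by exact_mod_cast h8
    linarith
  right
  refine ⟨?_, ?_⟩
  · have : n < 8 * 10 ^ 18 * (n / 10 ^ 18 / 4) := by omega
    have : (n : ℝ) < 8 * 10 ^ 18 * ((n / 10 ^ 18 / 4 : ℕ) : ℝ) := by exact_mod_cast this
    linarith
  · have h1 := mono_nat (T := n / 10 ^ 18) (by omega) (by omega) (by omega) h s ho hs
    by_contra h2
    push Not at h2
    have h3 := Nat.pow_le_pow_left h2.le 2
    have h4 : 2 ^ (n / 10 ^ 18 / 4 * 2 + 1) ≤ 2 ^ (n / 10 ^ 18) :=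
      Nat.pow_le_pow_right (by norm_num) (by omega)
    rw [pow_succ, pow_mul] at h4
    omega

end Pool.Agent.P.MP_b53add_lc.Mono
end

-- part Pool.Agent.P.MP_b53add_lc.NegCount
section

set_option autoImplicit false

namespace Pool.Agent.P.MP_b53add_lc.Neg

open Finset Classical

variable {I : Type}

/-- levels counting negations along paths -/
def NLvl (C : Circ I) (lvl : Fin C.m → ℕ) : Prop :=
  ∀ j, ∀ i ∈ C.prd j, lvl i + (if C.kind j = 2 then 1 else 0) ≤ lvl j

theorem mono_step {C : Circ I} {lvl : Fin C.m → ℕ} (hl : NLvl C lvl) {ξ ξ' : I → Prop}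
    {g g' : Fin C.m → Prop} (h : C.Sem ξ g) (h' : C.Sem ξ' g') (hξ : ∀ i, ξ i → ξ' i) {e : ℕ}
    (hag : ∀ i, C.kind i = 2 → lvl i < e → (g i ↔ g' i)) (j : Fin C.m) :
    lvl j < e → g j → g' j := by
  induction j using (wellFounded_lt (α := Fin C.m)).induction with
  | _ j ih =>
  intro hj hg
  have hk : ∀ k ∈ C.prd j, g k → g' k := fun k hk =>
    ih k (C.acyc j k hk) (by have := hl j k hk; omega)
  rcases fin3_cases (C.kind j) with hc | hc | hc
  · rw [(h' j).1 hc]
    rcases ((h j).1 hc).1 hg with ⟨i, h1, h2⟩ | ⟨k, h1, h2⟩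
    · exact Or.inl ⟨i, h1, hξ i h2⟩
    · exact Or.inr ⟨k, h1, hk k h1 h2⟩
  · rw [(h' j).2.1 hc]
    obtain ⟨h1, h2⟩ := ((h j).2.1 hc).1 hg
    exact ⟨fun i hi => hξ i (h1 i hi), fun k h3 => hk k h3 (h2 k h3)⟩
  · exact (hag j hc hj).1 hg

theorem anti_step {C : Circ I} {lvl : Fin C.m → ℕ} (hl : NLvl C lvl) {ξ ξ' : I → Prop}
    {g g' : Fin C.m → Prop} (h : C.Sem ξ g) (h' : C.Sem ξ' g') (hξ : ∀ i, ξ i → ξ' i) {e : ℕ}
    (hag : ∀ i, C.kind i = 2 → lvl i < e → (g i ↔ g' i)) {j : Fin C.m} (hc : C.kind j = 2)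
    (hj : lvl j ≤ e) : g' j → g j := by
  rw [(h j).2.2 hc, (h' j).2.2 hc]
  rintro h1 ⟨h2, h3⟩
  refine h1 ⟨fun i hi => hξ i (h2 i hi), fun k hk => mono_step hl h h' hξ hag k ?_ (h3 k hk)⟩
  have := hl j k hk
  rw [if_pos hc] at this
  omega

/-- along a chain the negation pattern changes only few times -/
theorem chain_count {C : Circ I} {lvl : Fin C.m → ℕ} (hl : NLvl C lvl) (ξ : ℕ → I → Prop)
    (g : ℕ → Fin C.m → Prop) (h : ∀ a, C.Sem (ξ a) (g a)) (hξ : ∀ a i, ξ a i → ξ (a + 1) i)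
    (L e : ℕ) : ((range L).filter fun a =>
      ∃ i, C.kind i = 2 ∧ lvl i < e ∧ ¬ (g a i ↔ g (a + 1) i)).card + 1 ≤
      ∏ e' ∈ range e, ((univ.filter fun i => C.kind i = 2 ∧ lvl i = e').card + 1) := by
  induction e with
  | zero => simp
  | succ e ih =>
    rw [prod_range_succ]
    refine le_trans ?_ (Nat.mul_le_mul_right _ ih)
    set X := (range L).filter fun a => ∃ i, C.kind i = 2 ∧ lvl i < e ∧ ¬ (g a i ↔ g (a + 1) i)
      with hX
    have hst : ∀ a < L, a ∉ X → ∀ i, C.kind i = 2 → lvl i = e → g (a + 1) i → g a i := by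
      intro a h1 h2 i h3 h4
      refine anti_step hl (h a) (h (a + 1)) (hξ a) (fun i' h5 h6 => ?_) h3 h4.le
      by_contra h7
      exact h2 (mem_filter.2 ⟨mem_range.2 h1, i', h5, h6, h7⟩)
    have hD : ∀ i ∈ univ.filter fun i => C.kind i = 2 ∧ lvl i = e,
        ((range L).filter fun a => a ∉ X ∧ ¬ (g a i ↔ g (a + 1) i)).card ≤ X.card + 1 := by
      intro i hi
      obtain ⟨-, h3, h4⟩ := mem_filter.1 hi
      have key : ∀ a b, a < b → b < L → a ∉ X → b ∉ X → ¬ (g a i ↔ g (a + 1) i) →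
          ¬ (g b i ↔ g (b + 1) i) → (X.filter (· < a)).card < (X.filter (· < b)).card := by
        intro a b hab hb ha' hb' h5 h6
        have hsub : X.filter (· < a) ⊆ X.filter (· < b) := fun c hc =>
          mem_filter.2 ⟨(mem_filter.1 hc).1, (mem_filter.1 hc).2.trans hab⟩
        by_contra hcon
        have heq := eq_of_subset_of_card_le hsub (not_lt.1 hcon)
        have h7 : ¬ g (a + 1) i := fun h8 =>
          h5 ⟨fun _ => h8, fun _ => hst a (by omega) ha' i h3 h4 h8⟩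
        have h8 : ∀ c, a + 1 ≤ c → c ≤ b → ¬ g c i := by
          intro c h9
          induction c, h9 using Nat.le_induction with
          | base => exact fun _ => h7
          | succ c h9 ih' =>
            intro h10 h11
            refine ih' (by omega) (hst c (by omega) (fun h12 => ?_) i h3 h4 h11)
            have h13 : c ∈ X.filter (· < b) := mem_filter.2 ⟨h12, by omega⟩
            rw [← heq] at h13
            have := (mem_filter.1 h13).2
            omega
        exact h6 ⟨fun h9 => absurd h9 (h8 b hab le_rfl), fun h9 => hst b hb hb' i h3 h4 h9⟩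
      rw [← card_range (X.card + 1)]
      refine card_le_card_of_injOn (fun a => (X.filter (· < a)).card)
        (fun a _ => by
          simp only [coe_range, Set.mem_Iio]
          exact Nat.lt_succ_of_le (card_filter_le _ _)) fun a ha b hb hab => ?_
      obtain ⟨a1, a2, a3⟩ := mem_filter.1 (mem_coe.1 ha)
      obtain ⟨b1, b2, b3⟩ := mem_filter.1 (mem_coe.1 hb)
      rcases lt_trichotomy a b with h5 | h5 | h5
      · exact absurd hab (key a b h5 (mem_range.1 b1) a2 b2 a3 b3).ne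
      · exact h5
      · exact absurd hab (key b a h5 (mem_range.1 a1) b2 a2 b3 a3).ne'
    have hsub : ((range L).filter fun a =>
        ∃ i, C.kind i = 2 ∧ lvl i < e + 1 ∧ ¬ (g a i ↔ g (a + 1) i)) ⊆
        X ∪ (univ.filter fun i => C.kind i = 2 ∧ lvl i = e).biUnion fun i =>
          (range L).filter fun a => a ∉ X ∧ ¬ (g a i ↔ g (a + 1) i) := by
      intro a ha
      obtain ⟨h1, i, h2, h3, h4⟩ := mem_filter.1 ha
      by_cases h5 : a ∈ X
      · exact mem_union_left _ h5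
      refine mem_union_right _ (mem_biUnion.2 ⟨i, mem_filter.2 ⟨mem_univ _, h2, ?_⟩,
        mem_filter.2 ⟨h1, h5, h4⟩⟩)
      by_contra h6
      exact h5 (mem_filter.2 ⟨h1, i, h2, by omega, h4⟩)
    have h1 := (card_le_card hsub).trans ((card_union_le _ _).trans
      (Nat.add_le_add_left (card_biUnion_le_card_mul _ _ _ hD) _))
    nlinarith

/-- negations replaced by constants -/
noncomputable def freeze (C : Circ I) (a : Fin C.m → Prop) : Circ I where
  m := C.m
  kind := fun j => if C.kind j = 2 then (if a j then 1 else 0) else C.kind j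
  inp := fun j => if C.kind j = 2 then ∅ else C.inp j
  prd := fun j => if C.kind j = 2 then ∅ else C.prd j
  acyc := fun j k hk => by
    split_ifs at hk
    · simp at hk
    · exact C.acyc j k hk
  fan := fun j hj => by
    split_ifs at hj with h1 h2
    · simp at hj
    · simp at hj
    · exact absurd hj h1

theorem freeze_kind (C : Circ I) (a : Fin C.m → Prop) (j : Fin C.m) :
    (freeze C a).kind j ≠ 2 := by
  intro hj
  simp only [freeze] at hj
  split_ifs at hj with h1 h2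
  · simp at hj
  · simp at hj
  · exact absurd hj h1

theorem freeze_sem {C : Circ I} {a : Fin C.m → Prop} {ξ : I → Prop} {g : Fin C.m → Prop}
    (h : (freeze C a).Sem ξ g) (j : Fin C.m) :
    (C.kind j = 0 → (g j ↔ (∃ i ∈ C.inp j, ξ i) ∨ ∃ k ∈ C.prd j, g k)) ∧
    (C.kind j = 1 → (g j ↔ (∀ i ∈ C.inp j, ξ i) ∧ ∀ k ∈ C.prd j, g k)) ∧
    (C.kind j = 2 → (g j ↔ a j)) := by
  have h1 : ((if C.kind j = 2 then (if a j then 1 else 0) else C.kind j : Fin 3) = 0 →
      (g j ↔ (∃ i ∈ (if C.kind j = 2 then ∅ else C.inp j : Finset I), ξ i) ∨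
        ∃ k ∈ (if C.kind j = 2 then ∅ else C.prd j : Finset (Fin C.m)), g k)) := (h j).1
  have h2 : ((if C.kind j = 2 then (if a j then 1 else 0) else C.kind j : Fin 3) = 1 →
      (g j ↔ (∀ i ∈ (if C.kind j = 2 then ∅ else C.inp j : Finset I), ξ i) ∧
        ∀ k ∈ (if C.kind j = 2 then ∅ else C.prd j : Finset (Fin C.m)), g k)) := (h j).2.1
  refine ⟨fun hc => by simpa [hc] using h1, fun hc => by simpa [hc] using h2, fun hc => ?_⟩
  by_cases ha : a j
  · simpa [hc, ha] using h2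
  · simpa [hc, ha] using h1

theorem freeze_mono {C : Circ I} {a : Fin C.m → Prop} {ξ ξ' : I → Prop} {g g' : Fin C.m → Prop}
    (h : (freeze C a).Sem ξ g) (h' : (freeze C a).Sem ξ' g') (hξ : ∀ i, ξ i → ξ' i)
    (j : Fin C.m) : g j → g' j :=
  mono_step (C := freeze C a) (lvl := fun _ => 0) (fun j i _ => by rw [if_neg (freeze_kind C a j)]) h h' hξ
    (e := 1) (fun i hi => absurd hi (freeze_kind C a i)) j (by simp)

theorem freeze_agree {C : Circ I} {lvl : Fin C.m → ℕ} (hl : NLvl C lvl) {a : Fin C.m → Prop}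
    {ξ : I → Prop} {g g' : Fin C.m → Prop} (h : C.Sem ξ g) (h' : (freeze C a).Sem ξ g') {e : ℕ}
    (hag : ∀ i, C.kind i = 2 → lvl i < e → (g i ↔ a i)) (j : Fin C.m) :
    lvl j < e → (g' j ↔ g j) := by
  induction j using (wellFounded_lt (α := Fin C.m)).induction with
  | _ j ih =>
  intro hj
  have hk : ∀ k ∈ C.prd j, (g' k ↔ g k) := fun k hk =>
    ih k (C.acyc j k hk) (by have := hl j k hk; omega)
  have e1 : (∃ k ∈ C.prd j, g' k) ↔ ∃ k ∈ C.prd j, g k :=
    ⟨fun ⟨k, a, b⟩ => ⟨k, a, (hk k a).1 b⟩, fun ⟨k, a, b⟩ => ⟨k, a, (hk k a).2 b⟩⟩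
  have e2 : (∀ k ∈ C.prd j, g' k) ↔ ∀ k ∈ C.prd j, g k :=
    ⟨fun a k b => (hk k b).1 (a k b), fun a k b => (hk k b).2 (a k b)⟩
  obtain ⟨b0, b1, b2⟩ := freeze_sem h' j
  rcases fin3_cases (C.kind j) with hc | hc | hc
  · rw [(h j).1 hc, ← e1, b0 hc]
  · rw [(h j).2.1 hc, ← e2, b1 hc]
  · rw [hag j hc hj, b2 hc]

end Pool.Agent.P.MP_b53add_lc.Neg
end

-- part Pool.Agent.P.MP_b53add_lc.NegMain
section

set_option autoImplicit false

namespace Pool.Agent.P.MP_b53add_lc.Neg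

open Finset Classical Mono

theorem mono_core {k T : ℕ} (hT : 1 ≤ T) (hk : 10 ^ 18 * T ≤ k) (hk' : k ≤ 2 * 10 ^ 18 * T)
    {I : Type} [Fintype I] [Nonempty I] (C : Circ I) (hC : ∀ j, C.kind j ≠ 2)
    (G : (I → Bool) → Fin C.m → Prop) (hG : ∀ x, C.Sem (fun i => x i = true) (G x))
    (tr : (Fin k → Bool) → I → Bool)
    (h : ∀ Φ : Finset (Cl (Fin k)), (∀ y, ∃ c ∈ Φ, ¬ Sat y c) → ∃ x : I → Bool,
      (∀ c, x c = true → (∃ d ∈ Φ, ∀ y, Sat y d → tr y c = true) ∨ ∀ y, tr y c = true) ∧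
      ∃ j, G x j ∧ ∀ y, ¬ G (tr y) j) :
    2 ^ T < 2 * (Fintype.card I + C.m) ^ 2 := by
  obtain ⟨S, hS⟩ : ∃ S, S = Fintype.card (I ⊕ Fin C.m) := ⟨_, rfl⟩
  let e : I ⊕ Fin C.m ≃ Fin S := Fintype.equivFinOfCardEq hS.symm
  let W : (I → Bool) → I ⊕ Fin C.m → Prop := fun x => Sum.elim (fun i => x i = true) (G x)
  let AndT : Fin C.m → Prop := fun j => ∀ x, W x (Sum.inr j) ↔ ∀ u, C.Child j u → W x u
  have hor : ∀ j, ¬ AndT j → ∀ x, W x (Sum.inr j) ↔ ∃ u, C.Child j u ∧ W x u := by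
    intro j hj x
    rcases fin3_cases (C.kind j) with hc | hc | hc
    · exact (hG x).ex hc
    · exact absurd (fun x => (hG x).all hc) hj
    · exact absurd hc (hC j)
  let B : Fin C.m × Fin (S + 1) → (Fin k → Bool) → Prop := fun q y =>
    ¬ W (tr y) (Sum.inr q.1) ∧
      (AndT q.1 → ∃ u, C.Child q.1 u ∧ (e u).val < q.2.val ∧ ¬ W (tr y) u)
  have hlast : ∀ k y, ¬ W (tr y) (Sum.inr k) → B (k, Fin.last S) y := by
    intro k y hy
    refine ⟨hy, fun ha => ?_⟩
    rw [ha] at hy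
    push Not at hy
    obtain ⟨u, h1, h2⟩ := hy
    exact ⟨u, h1, (e u).2, h2⟩
  have hl := lines hT hk hk' (fun q : Fin C.m × Fin (S + 1) => q.1.val * (S + 1) + q.2.val) B (by
    intro Φ hΦ
    obtain ⟨x, hx, o, ho, ho'⟩ := h Φ hΦ
    have piece : ∀ (q : Fin C.m × Fin (S + 1)) u, C.Child q.1 u → W x u →
        (∃ i : Fin C.m × Fin (S + 1), W x (Sum.inr i.1) ∧
          i.1.val * (S + 1) + i.2.val < q.1.val * (S + 1) + q.2.val ∧
          ∀ y, ¬ W (tr y) u → B i y) ∨ (∃ c ∈ Φ, ∀ y, ¬ W (tr y) u → ¬ Sat y c) ∨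
          ∀ y, ¬ ¬ W (tr y) u := by
      rintro q (c | k) hu hw
      · rcases hx c hw with ⟨d, hd, hc⟩ | hc
        · exact Or.inr (Or.inl ⟨d, hd, fun y hy hs => hy (hc y hs)⟩)
        · exact Or.inr (Or.inr fun y hy => hy (hc y))
      · refine Or.inl ⟨(k, Fin.last S), hw, ?_, hlast k⟩
        have h1 : k.val + 1 ≤ q.1.val := C.acyc _ _ hu
        have h2 := Nat.mul_le_mul_right (S + 1) h1
        simp only [Fin.val_last]
        nlinarith
    refine ⟨fun q => W x (Sum.inr q.1), fun q hq => ?_, (o, Fin.last S), ho,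
      fun y => hlast o y (ho' y)⟩
    by_cases ha : AndT q.1
    · rcases Nat.eq_zero_or_pos q.2.val with h0 | h0
      · refine ⟨fun _ _ => False, fun y hy => ?_, fun b => Or.inr (Or.inr fun _ => id)⟩
        obtain ⟨u, -, h1, -⟩ := hy.2 ha
        omega
      have ht : q.2.val - 1 < S := by have := q.2.2; omega
      refine ⟨fun b y => if b = true then B (q.1, ⟨q.2.val - 1, by omega⟩) y else
        C.Child q.1 (e.symm ⟨q.2.val - 1, ht⟩) ∧ ¬ W (tr y) (e.symm ⟨q.2.val - 1, ht⟩),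
        fun y hy => ?_, fun b => ?_⟩
      · obtain ⟨u, h1, h2, h3⟩ := hy.2 ha
        by_cases h4 : (e u).val < q.2.val - 1
        · exact ⟨true, by simpa using ⟨hy.1, fun _ => ⟨u, h1, h4, h3⟩⟩⟩
        · have h5 : e.symm ⟨q.2.val - 1, ht⟩ = u := by
            rw [Equiv.symm_apply_eq]
            exact Fin.ext (by simp only; omega)
          exact ⟨false, by simpa [h5] using ⟨h1, h3⟩⟩
      · cases b
        · simp only [Bool.false_eq_true, if_false]
          by_cases h1 : C.Child q.1 (e.symm ⟨q.2.val - 1, ht⟩)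
          · simp only [h1, true_and]
            exact piece q _ h1 ((ha x).1 hq _ h1)
          · exact Or.inr (Or.inr fun y hy => h1 hy.1)
        · simp only [if_true]
          exact Or.inl ⟨(q.1, ⟨q.2.val - 1, by omega⟩), hq, by simp only; omega, fun y hy => hy⟩
    · obtain ⟨u, h1, h2⟩ := (hor _ ha x).1 hq
      exact ⟨fun _ y => ¬ W (tr y) u, fun y hy =>
        ⟨true, fun h3 => hy.1 ((hor _ ha _).2 ⟨u, h1, h3⟩)⟩, fun _ => piece q u h1 h2⟩)
  rw [Fintype.card_prod, Fintype.card_fin, Fintype.card_fin] at hl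
  rw [Fintype.card_sum, Fintype.card_fin] at hS
  have h1 : 0 < Fintype.card I := Fintype.card_pos
  rw [← hS]
  refine hl.trans_le (Nat.mul_le_mul_left _ ?_)
  have h2 : C.m + 1 ≤ S := by omega
  nlinarith

/-- every clause lies inside one block of variables -/
def Blk {n : ℕ} (k : ℕ) (x : Clause n → Bool) : Prop :=
  ∀ c, x c = true → ∀ l ∈ c.1, ∀ l' ∈ c.1, l.1.val / k = l'.1.val / k

/-- the true clauses inside the first blocks -/
noncomputable def Zt {n : ℕ} (k j : ℕ) (a : Fin n → Bool) : Clause n → Bool := fun c =>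
  decide (∃ b < j, (∀ l ∈ c.1, l.1.val / k = b) ∧ ∃ l ∈ c.1, a l.1 = l.2)

/-- overwrite one block -/
def upd {n k : ℕ} (hk : 0 < k) (j : ℕ) (a : Fin n → Bool) (y : Fin k → Bool) : Fin n → Bool :=
  fun v => if v.val / k = j then y ⟨v.val % k, Nat.mod_lt _ hk⟩ else a v

theorem Zt_le {n k : ℕ} (hk : 0 < k) (j : ℕ) (a : Fin n → Bool) (y : Fin k → Bool) (c : Clause n)
    (h : Zt k j a c = true) : Zt k (j + 1) (upd hk j a y) c = true := by
  obtain ⟨b, h1, h2, l, h3, h4⟩ := of_decide_eq_true h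
  refine decide_eq_true ⟨b, by omega, h2, l, h3, ?_⟩
  rw [upd, if_neg (by rw [h2 l h3]; omega), h4]

theorem Zt_blk {n : ℕ} (k j : ℕ) (a : Fin n → Bool) : Blk k (Zt k j a) := by
  intro c h l hl l' hl'
  obtain ⟨b, -, h2, -⟩ := of_decide_eq_true h
  rw [h2 l hl, h2 l' hl']

theorem neg_nat {n k T : ℕ} (hT : 1 ≤ T) (hk : 10 ^ 18 * T ≤ k) (hk' : k ≤ 2 * 10 ^ 18 * T)
    (C : Circ (Clause n)) (o : Fin C.m) {lvl : Fin C.m → ℕ} (hl : NLvl C lvl)
    (G : (Clause n → Bool) → Fin C.m → Prop) (hG : ∀ x, C.Sem (fun i => x i = true) (G x))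
    (hGo : ∀ x, Blk k x → (G x o ↔ SAT x))
    (hn : (∏ e ∈ range (lvl o + 1),
      ((univ.filter fun i => C.kind i = 2 ∧ lvl i = e).card + 1)) * k ≤ n) :
    2 ^ T < 2 * (Fintype.card (Clause n) + C.m) ^ 2 := by
  have hk0 : 0 < k := by omega
  obtain ⟨L, hL⟩ : ∃ L, L = ∏ e ∈ range (lvl o + 1),
    ((univ.filter fun i => C.kind i = 2 ∧ lvl i = e).card + 1) := ⟨_, rfl⟩
  rw [← hL] at hn
  have hstop : ∃ j < L, ∃ a : Fin n → Bool, ∀ y : Fin k → Bool, ∀ i, C.kind i = 2 →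
      lvl i < lvl o + 1 → (G (Zt k j a) i ↔ G (Zt k (j + 1) (upd hk0 j a y)) i) := by
    by_contra hcon
    have h1 : ∀ (j : ℕ) (a : Fin n → Bool), ∃ y : Fin k → Bool, j < L → ∃ i, C.kind i = 2 ∧
        lvl i < lvl o + 1 ∧ ¬ (G (Zt k j a) i ↔ G (Zt k (j + 1) (upd hk0 j a y)) i) := by
      intro j a
      by_contra h2
      refine hcon ⟨j, by_contra fun h3 => h2 ⟨fun _ => true, fun h4 => absurd h4 h3⟩, a,
        fun y i h3 h4 => by_contra fun h5 => h2 ⟨y, fun _ => ⟨i, h3, h4, h5⟩⟩⟩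
    choose y hy using h1
    let a : ℕ → Fin n → Bool := fun j => Nat.rec (fun _ => true) (fun j a => upd hk0 j a (y j a)) j
    have h2 := chain_count hl (fun j i => Zt k j (a j) i = true) (fun j => G (Zt k j (a j)))
      (fun j => hG _) (fun j i => Zt_le hk0 j (a j) (y j (a j)) i) L (lvl o + 1)
    rw [← hL, filter_true_of_mem fun j hj => hy j (a j) (mem_range.1 hj), card_range] at h2
    omega
  obtain ⟨j, hj, a, hst⟩ := hstop
  have hlt : ∀ v : Fin k, j * k + v.val < n := fun v => by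
    have h1 := Nat.mul_le_mul_right k (show j + 1 ≤ L from hj)
    have h2 := v.2
    nlinarith
  let em : Fin k × Bool → Fin n × Bool := fun l => (⟨j * k + l.1.val, hlt l.1⟩, l.2)
  have hdiv : ∀ l, (em l).1.val / k = j := fun l => by
    change (j * k + l.1.val) / k = j
    rw [add_comm, Nat.add_mul_div_right _ _ hk0, Nat.div_eq_of_lt l.1.2, zero_add]
  have hupd : ∀ (b : Fin n → Bool) y l, upd hk0 j b y (em l).1 = y l.1 := fun b y l => by
    rw [upd, if_pos (hdiv l)]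
    congr 1
    exact Fin.ext (by
      change (j * k + l.1.val) % k = l.1.val
      rw [add_comm, Nat.add_mul_mod_self_right, Nat.mod_eq_of_lt l.1.2])
  choose G' hG' using fun x : Clause n → Bool =>
    (freeze C (G (Zt k j a))).exists_sem fun i => x i = true
  have : Nonempty (Clause n) := ⟨⟨∅, by simp⟩⟩
  refine mono_core hT hk hk' (freeze C (G (Zt k j a))) (freeze_kind C _) G' hG'
    (fun y => Zt k (j + 1) (upd hk0 j a y)) fun Φ hΦ => ?_
  let x : Clause n → Bool := fun c =>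
    decide (Zt k j a c = true ∨ ∃ d ∈ Φ, c.1 = univ.image fun i => em (d i))
  have hzx : ∀ c, Zt k j a c = true → x c = true := fun c hc => decide_eq_true (Or.inl hc)
  have htr : ∀ (c : Clause n) (d : Cl (Fin k)), (c.1 = univ.image fun i => em (d i)) →
      ∀ y, Sat y d → Zt k (j + 1) (upd hk0 j a y) c = true := by
    rintro c d hc y ⟨i, hi⟩
    refine decide_eq_true ⟨j, by omega, fun l hl => ?_, em (d i),
      hc ▸ mem_image_of_mem (fun i => em (d i)) (mem_univ _), (hupd a y _).trans hi⟩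
    rw [hc] at hl
    obtain ⟨i, -, rfl⟩ := mem_image.1 hl
    exact hdiv _
  refine ⟨x, fun c hc => ?_, ?_⟩
  · rcases of_decide_eq_true hc with h1 | ⟨d, hd, h1⟩
    · exact Or.inr fun y => Zt_le hk0 j a y c h1
    · exact Or.inl ⟨d, hd, htr c d h1⟩
  have hz : G (Zt k j a) o := by
    refine (hGo _ (Zt_blk _ _ _)).2 ⟨a, fun c hc => ?_⟩
    obtain ⟨b, -, -, h1⟩ := of_decide_eq_true hc
    exact h1
  have hx : ¬ G x o := by
    rw [hGo x]
    · rintro ⟨b, hb⟩
      obtain ⟨d, hd, hs⟩ := hΦ fun v => b (em (v, true)).1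
      obtain ⟨l, h1, h2⟩ := hb ⟨univ.image fun i => em (d i), card_image_le.trans (by simp)⟩
        (decide_eq_true (Or.inr ⟨d, hd, rfl⟩))
      obtain ⟨i, -, rfl⟩ := mem_image.1 h1
      exact hs ⟨i, h2⟩
    · intro c hc l h1 l' h2
      rcases of_decide_eq_true hc with h3 | ⟨d, -, h3⟩
      · exact Zt_blk k j a c h3 l h1 l' h2
      · rw [h3] at h1 h2
        obtain ⟨i, -, rfl⟩ := mem_image.1 h1
        obtain ⟨i', -, rfl⟩ := mem_image.1 h2
        rw [hdiv, hdiv]
  have hex : ∃ e, ∃ i, C.kind i = 2 ∧ lvl i = e ∧ e < lvl o + 1 ∧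
      ¬ (G (Zt k j a) i ↔ G x i) := by
    by_contra hcon
    refine hx (mono_step hl (hG _) (hG x) hzx (e := lvl o + 1) (fun i h1 h2 => ?_) o
      (Nat.lt_succ_self _) hz)
    by_contra h3
    exact hcon ⟨_, i, h1, rfl, h2, h3⟩
  obtain ⟨i, h1, h2, h3, h4⟩ := Nat.find_spec hex
  have hlow : ∀ i', C.kind i' = 2 → lvl i' < lvl i → (G (Zt k j a) i' ↔ G x i') := by
    intro i' h5 h6
    by_contra h7
    exact Nat.find_min hex (h2 ▸ h6) ⟨i', h5, rfl, by omega, h7⟩
  have h5 := anti_step hl (hG _) (hG x) hzx hlow h1 le_rfl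
  have h6 : ¬ G x i := fun h => h4 ⟨fun _ => h, fun _ => h5 h⟩
  have h7 : G (Zt k j a) i := by_contra fun h => h4 ⟨fun h' => absurd h' h, fun h' => absurd h' h6⟩
  obtain ⟨u, hu, hu'⟩ := C.neg_child h1
  have h8 := not_not.1 fun h => h6 ((hu' _ _ (hG x)).2 h)
  have h9 := fun y => (hu' _ _ (hG _)).1 ((hst y i h1 (by omega)).1 h7)
  rcases u with c | i'
  · exfalso
    rcases of_decide_eq_true (show x c = true from h8) with h10 | ⟨d, -, h10⟩
    · exact h9 (fun _ => true) (Zt_le hk0 j a _ c h10)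
    · exact h9 (fun _ => (d 0).2) (htr c d h10 _ ⟨0, rfl⟩)
  · have h10 := hl i i' hu
    rw [if_pos h1] at h10
    refine ⟨i', (freeze_agree hl (hG x) (hG' x) (e := lvl i)
      (fun i'' g1 g2 => (hlow i'' g1 g2).symm) i' (by omega)).2 h8, fun y h11 => h9 y ?_⟩
    exact (freeze_agree hl (hG _) (hG' _) (e := lvl o + 1)
      (fun i'' g1 g2 => (hst y i'' g1 g2).symm) i' (by omega)).1 h11

theorem neg_real {n k : ℕ} (C : Circ (Clause n)) (o : Fin C.m) {lvl : Fin C.m → ℕ}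
    (hl : NLvl C lvl)
    (h : ∀ x : Clause n → Bool, Blk k x →
      ((∃ v : Fin C.m → Bool,
        (∀ j : Fin C.m,
          (C.kind j = 0 → (v j = true ↔
            ((∃ i ∈ C.inp j, x i = true) ∨ ∃ k ∈ C.prd j, v k = true))) ∧
          (C.kind j = 1 → (v j = true ↔
            ((∀ i ∈ C.inp j, x i = true) ∧ ∀ k ∈ C.prd j, v k = true))) ∧
          (C.kind j = 2 → (v j = true ↔
            ¬ ((∀ i ∈ C.inp j, x i = true) ∧ ∀ k ∈ C.prd j, v k = true)))) ∧
        v o = true) ↔ SAT x))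
    (hn : (∏ e ∈ range (lvl o + 1),
      ((univ.filter fun i => C.kind i = 2 ∧ lvl i = e).card + 1)) * k ≤ n) :
    (2 : ℝ) ^ ((1 / (8 * 10 ^ 18) : ℝ) * (k : ℝ)) <
      (Fintype.card (Clause n) : ℝ) + (C.m : ℝ) := by
  choose G hG using fun x : Clause n → Bool => C.exists_sem (fun i => x i = true)
  have hGo : ∀ x, Blk k x → (G x o ↔ SAT x) := by
    refine fun x hx => Iff.trans ?_ (h x hx)
    constructor
    · intro ho
      refine ⟨fun j => decide (G x j), fun j => ?_, by simpa using ho⟩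
      simp only [decide_eq_true_eq]
      exact hG x j
    · rintro ⟨v, hv, ho⟩
      exact (Circ.sem_unique (g' := G x) (g := fun j => v j = true) hv (hG x) o).2 ho
  rw [← Nat.cast_add]
  apply rpow_lt_of (t := k / 10 ^ 18 / 4) (two_le_size C o)
  by_cases h8 : k < 8 * 10 ^ 18
  · left
    have : (k : ℝ) < 8 * 10 ^ 18 := by exact_mod_cast h8
    linarith
  right
  refine ⟨?_, ?_⟩
  · have : k < 8 * 10 ^ 18 * (k / 10 ^ 18 / 4) := by omega
    have : (k : ℝ) < 8 * 10 ^ 18 * ((k / 10 ^ 18 / 4 : ℕ) : ℝ) := by exact_mod_cast this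
    linarith
  · have h1 := neg_nat (T := k / 10 ^ 18) (by omega) (by omega) (by omega) C o hl G hG hGo hn
    by_contra h2
    push Not at h2
    have h3 := Nat.pow_le_pow_left h2.le 2
    have h4 : 2 ^ (k / 10 ^ 18 / 4 * 2 + 1) ≤ 2 ^ (k / 10 ^ 18) :=
      Nat.pow_le_pow_right (by norm_num) (by omega)
    rw [pow_succ, pow_mul] at h4
    omega

end Pool.Agent.P.MP_b53add_lc.Neg
end
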