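import Pool.Agent.K.MP_b53add_lc.C6

-- part Pool.Agent.P.MP_b53add_lc.SpGame
section

set_option autoImplicit false
set_option linter.unusedSectionVars false

namespace Pool.Agent.P.MP_b53add_lc.Sp

open Finset Classical Mono

variable {α : Type} [DecidableEq α]

/-- the points satisfying a literal -/
def lit (u : α × Bool) : Set (α → Bool) := {y | y u.1 = u.2}

/-- the game with clause moves and moves on large sets of literals -/
def G (w : ℕ) (φ : Finset (Cl α)) : ℕ → Set (α → Bool) → Prop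
  | 0, B => B = ∅
  | k + 1, B => B = ∅ ∨ (∃ c ∈ φ, ∀ j, G w φ k (B ∩ lit (c j))) ∨
      ∃ X : Finset (α × Bool), w < X.card ∧ ∀ u ∈ X, G w φ k (B ∩ lit u)

theorem G_realize : True := by have := @G.eq_def; trivial

variable {w : ℕ} {φ : Finset (Cl α)}

omit [DecidableEq α] in
theorem G_empty (k : ℕ) : G w φ k ∅ := by
  cases k with
  | zero => rfl
  | succ k => exact Or.inl rfl

omit [DecidableEq α] in
theorem G.mono2 {ψ : Finset (Cl α)} (hψ : φ ⊆ ψ) : ∀ {k : ℕ} {B B' : Set (α → Bool)},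
    G w φ k B → B' ⊆ B → G w ψ k B'
  | 0, _, _, h, hs => Set.subset_eq_empty hs h
  | _ + 1, _, _, h, hs => by
    rcases h with h | ⟨c, hc, h⟩ | ⟨X, hX, h⟩
    · exact Or.inl (Set.subset_eq_empty hs h)
    · exact Or.inr (Or.inl ⟨c, hψ hc, fun j =>
        (h j).mono2 hψ (Set.inter_subset_inter_left _ hs)⟩)
    · exact Or.inr (Or.inr ⟨X, hX, fun u hu =>
        (h u hu).mono2 hψ (Set.inter_subset_inter_left _ hs)⟩)

omit [DecidableEq α] in
theorem G.mono {k : ℕ} {B B' : Set (α → Bool)} (h : G w φ k B) (hs : B' ⊆ B) : G w φ k B' :=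
  h.mono2 subset_rfl hs

omit [DecidableEq α] in
theorem G.succ : ∀ {k : ℕ} {B : Set (α → Bool)}, G w φ k B → G w φ (k + 1) B
  | 0, _, h => Or.inl h
  | _ + 1, _, h => by
    rcases h with h | ⟨c, hc, h⟩ | ⟨X, hX, h⟩
    · exact Or.inl h
    · exact Or.inr (Or.inl ⟨c, hc, fun j => (h j).succ⟩)
    · exact Or.inr (Or.inr ⟨X, hX, fun u hu => (h u hu).succ⟩)

omit [DecidableEq α] in
theorem G.le {k k' : ℕ} {B : Set (α → Bool)} (h : G w φ k B) (hk : k ≤ k') : G w φ k' B := by
  induction hk with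
  | refl => exact h
  | step _ ih => exact ih.succ

omit [DecidableEq α] in
theorem G.union {b : ℕ} : ∀ {a : ℕ} {X Y : Set (α → Bool)}, G w φ a X →
    G w φ b Y → G w φ (a + b) (X ∪ Y)
  | 0, X, Y, h, h' => by
    have : X = ∅ := h
    simpa [this] using h'
  | a + 1, X, Y, h, h' => by
    rcases h with h | ⟨c, hc, h⟩ | ⟨D, hD, h⟩
    · rw [h, Set.empty_union]; exact h'.le (by omega)
    · rw [show a + 1 + b = (a + b) + 1 by omega]
      refine Or.inr (Or.inl ⟨c, hc, fun j => ?_⟩)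
      rw [Set.union_inter_distrib_right]
      exact (h j).union (h'.mono Set.inter_subset_left)
    · rw [show a + 1 + b = (a + b) + 1 by omega]
      refine Or.inr (Or.inr ⟨D, hD, fun u hu => ?_⟩)
      rw [Set.union_inter_distrib_right]
      exact (h u hu).union (h'.mono Set.inter_subset_left)

omit [DecidableEq α] in
theorem G_fals {c : Cl α} (hc : c ∈ φ) : G w φ 1 {y | ¬ Sat y c} := by
  refine Or.inr (Or.inl ⟨c, hc, fun j => ?_⟩)
  change _ = ∅
  ext y
  simp only [lit, Set.mem_inter_iff, Set.mem_ofPred_eq, Set.mem_empty_iff_false, iff_false, not_and]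
  exact fun h h' => h ⟨j, h'⟩

/-- a literal that kills an alive set has its variable in a small set -/
theorem kill_lit {r : ℕ} {p : Finset (Cl α)} (hp : Exp r p) (W : Finset (α × Bool))
    (hW : 2 * W.card < r) (h : Al r p W) :
    ∃ U : Finset α, U.card ≤ 3 * W.card ∧ ∀ l, ¬ Al r p (insert l W) → l.1 ∈ U := by
  obtain ⟨S, U, hSp, hSr, hU, hWU, hSU, hext⟩ := closure hp W hW
  refine ⟨U, hU, fun l hl => ?_⟩
  by_contra hz
  apply hl
  obtain ⟨y0, hy0, hs⟩ := h S hSp hSr.le
  intro K hK hKr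
  have hne : ∀ v ∈ U, Function.update y0 l.1 l.2 v = y0 v := fun v hv =>
    Function.update_of_ne (fun e : v = l.1 => hz (e ▸ hv)) _ _
  obtain ⟨y, hy, hK'⟩ := hext (Function.update y0 l.1 l.2) l.1
    (fun d hd => (hs d hd).congr fun v hv => hne v (hSU d hd hv)) K hK hKr
  refine ⟨y, fun u hu => ?_, hK'⟩
  rcases mem_insert.1 hu with rfl | hu
  · exact (hy _ (mem_insert_self _ _)).trans (Function.update_self _ _ _)
  · exact (hy _ (mem_insert_of_mem (hWU u hu))).trans ((hne _ (hWU u hu)).trans (hy0 u hu))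

theorem card_lits {X : Finset (α × Bool)} {U : Finset α} (h : ∀ l ∈ X, l.1 ∈ U) :
    X.card ≤ 2 * U.card := by
  have h1 : X ⊆ U ×ˢ univ := fun l hl => mem_product.2 ⟨h l hl, mem_univ _⟩
  have h2 := card_le_card h1
  rw [card_product, card_univ, Fintype.card_bool] at h2
  omega

theorem not_G_of_al {r : ℕ} (hφ : Exp r φ) : ∀ (k : ℕ)
    (W : Finset (α × Bool)) (B : Set (α → Bool)), 2 * (W.card + k) < r →
    6 * (W.card + k) ≤ w → Al r φ W → (∀ y, Ag y W → y ∈ B) → ¬ G w φ k B := by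
  intro k
  have hne : ∀ (W : Finset (α × Bool)) (B : Set (α → Bool)), Al r φ W →
      (∀ y, Ag y W → y ∈ B) → B ≠ ∅ := by
    intro W B h hB
    obtain ⟨y, hy, -⟩ := h ∅ (empty_subset _) (by simp)
    exact Set.Nonempty.ne_empty ⟨y, hB y hy⟩
  induction k with
  | zero => exact fun W B _ _ h hB => hne W B h hB
  | succ k ih =>
    intro W B hW hw h hB hG
    have key : ∀ u, Al r φ (insert u W) → ¬ G w φ k (B ∩ lit u) := by
      intro u hu
      have := card_insert_le u W
      exact ih (insert u W) _ (by omega) (by omega) hu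
        (fun y hy => ⟨hB y fun l hl => hy l (mem_insert_of_mem hl), hy _ (mem_insert_self _ _)⟩)
    rcases hG with h0 | ⟨c, hc, hq⟩ | ⟨X, hX, hq⟩
    · exact hne W B h hB h0
    · obtain ⟨j, hj⟩ := h.step hφ (by omega) hc
      exact key _ hj (hq j)
    · obtain ⟨U, hU, hk⟩ := kill_lit hφ W (by omega) h
      have := card_lits (X := X) (U := U) fun l hl => hk l fun hal => key l hal (hq l hl)
      omega

end Pool.Agent.P.MP_b53add_lc.Sp
end

-- part Pool.Agent.P.MP_b53add_lc.SpGap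
section

set_option autoImplicit false
set_option linter.unusedSectionVars false

namespace Pool.Agent.P.MP_b53add_lc.Sp

open Finset Classical Mono

variable {α : Type} [DecidableEq α] [Fintype α]

/-- a subcube -/
def cyl (R : Finset (α × Bool)) : Set (α → Bool) := {y | Ag y R}

theorem cyl_insert (B : Set (α → Bool)) (R : Finset (α × Bool)) (u : α × Bool) :
    B ∩ cyl R ∩ lit u = B ∩ cyl (insert u R) := by
  ext y
  simp only [cyl, lit, Ag, Set.mem_inter_iff, Set.mem_ofPred_eq, mem_insert, forall_eq_or_imp]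
  tauto

theorem cyl_anti {R R' : Finset (α × Bool)} (h : R ⊆ R') : cyl R' ⊆ cyl R :=
  fun _ hy l hl => hy l (h hl)

/-- a chain of sets with its cores -/
structure Fam (T : ℕ) (core : ℝ → Finset (α × Bool) → Prop) (B : ℝ → Set (α → Bool)) : Prop where
  card : ∀ s Z, core s Z → Z.card ≤ 9 * T
  cm : ∀ s s' Z, s ≤ s' → core s Z → core s' Z
  bm : ∀ s s', s ≤ s' → B s ⊆ B s'
  base : ∀ s τ, τ.card ≤ T → (∃ y ∈ B s, Ag y τ) → ∃ Z, core s Z ∧ ∃ y, Ag y (Z ∪ τ)

/-- dead and still hard -/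
def E (T : ℕ) (core : ℝ → Finset (α × Bool) → Prop) (B : ℝ → Set (α → Bool)) (j : ℕ)
    (p : Finset (Cl α)) (R : Finset (α × Bool)) : Prop :=
  Exp (23 * T) p ∧ R.card + j ≤ T ∧
    ∃ s, Mono.Inv (23 * T) (core s) p R ∧ ¬ G (66 * T) p j (B s ∩ cyl R)

/-- the valuable literals -/
noncomputable def Yv (T : ℕ) (B : ℝ → Set (α → Bool)) (j : ℕ) (p : Finset (Cl α))
    (R : Finset (α × Bool)) : Finset (α × Bool) :=
  univ.filter fun u => ∃ s, ¬ G (66 * T) p (j + 1) (B s ∩ cyl R) ∧
    G (66 * T) p j (B s ∩ cyl (insert u R))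

variable {T : ℕ} {core : ℝ → Finset (α × Bool) → Prop} {B : ℝ → Set (α → Bool)}

theorem E.pred {j : ℕ} {p : Finset (Cl α)} {R : Finset (α × Bool)} (h : E T core B (j + 1) p R) :
    E T core B j p R := by
  obtain ⟨h1, h2, s, h3, h4⟩ := h
  exact ⟨h1, by omega, s, h3, fun h => h4 h.succ⟩

theorem not_E_empty (hF : Fam T core B) (j : ℕ) (R : Finset (α × Bool)) :
    ¬ E T core B j ∅ R := by
  rintro ⟨-, h2, s, h3, h4⟩
  apply h4
  have : B s ∩ cyl R = ∅ := by
    by_contra hne
    obtain ⟨y, hy1, hy2⟩ := Set.nonempty_iff_ne_empty.2 hne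
    obtain ⟨Z, hZ, y', hy'⟩ := hF.base s R (by omega) ⟨y, hy1, hy2⟩
    refine h3 Z hZ fun K hK _ => ⟨y', hy', fun c hc => ?_⟩
    simpa using hK hc
  rw [this]
  exact G_empty j

theorem Yv_card (hF : Fam T core B) (j : ℕ) (p : Finset (Cl α)) (R : Finset (α × Bool)) :
    (Yv T B j p R).card ≤ 66 * T := by
  by_contra hc
  push Not at hc
  have h1 : ∀ u : Yv T B j p R, ∃ s, ¬ G (66 * T) p (j + 1) (B s ∩ cyl R) ∧
      G (66 * T) p j (B s ∩ cyl (insert u.1 R)) := fun u => (mem_filter.1 u.2).2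
  choose f hf hf' using h1
  obtain ⟨u0, hu0⟩ := card_pos.1 (show 0 < (Yv T B j p R).card by omega)
  obtain ⟨u1, -, hu1⟩ := exists_min_image univ f ⟨⟨u0, hu0⟩, mem_univ _⟩
  refine hf u1 (Or.inr (Or.inr ⟨_, hc, fun u hu => ?_⟩))
  rw [cyl_insert]
  exact (hf' ⟨u, hu⟩).mono (Set.inter_subset_inter_left _ (hF.bm _ _ (hu1 _ (mem_univ _))))

theorem exists_U (hF : Fam T core B) (hT : 1 ≤ T) (p : Finset (Cl α)) {R : Finset (α × Bool)}
    (hR : R.card ≤ T) : ∃ U : Finset α, U.card ≤ 30 * T ∧ ∀ l s, Exp (23 * T) p →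
      ¬ Mono.Inv (23 * T) (core s) p R → Mono.Inv (23 * T) (core s) p (insert l R) → l.1 ∈ U := by
  by_cases hp : Exp (23 * T) p ∧ ∃ s, ¬ Mono.Inv (23 * T) (core s) p R
  swap
  · exact ⟨∅, by simp, fun l s h1 h2 _ => absurd ⟨h1, s, h2⟩ hp⟩
  obtain ⟨s0, h1, h2⟩ := RealC.chain_inf core hF.cm
    (fun s => ¬ Mono.Inv (23 * T) (core s) p R) hp.2
  unfold Mono.Inv at h1
  push Not at h1
  obtain ⟨Z, hZ, hal⟩ := h1
  have hc : (Z ∪ R).card ≤ 10 * T :=
    (card_union_le _ _).trans (by have := hF.card _ Z hZ; omega)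
  obtain ⟨U, hU, hkill⟩ := kill_lit hp.1 (Z ∪ R) (by omega) hal
  refine ⟨U, by omega, fun l s _ h3 h4 => hkill l ?_⟩
  rw [← union_insert]
  exact h4 Z (h2 s Z h3 hZ)

theorem trich {p : Finset (Cl α)} {R : Finset (α × Bool)} {U : Finset α}
    (hU : ∀ l s, Exp (23 * T) p → ¬ Mono.Inv (23 * T) (core s) p R →
      Mono.Inv (23 * T) (core s) p (insert l R) → l.1 ∈ U) {j : ℕ} {c : Cl α}
    (h : E T core B (j + 2) (insert c p) R) : E T core B (j + 2) p R ∨
      ((∀ i, (c i).1 ∈ U) ∧ ∃ i i', i ≠ i' ∧ (c i ∉ R ∧ E T core B j p (insert (c i) R)) ∧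
        (c i' ∉ R ∧ E T core B j p (insert (c i') R))) ∨
      ∃ i, (c i ∉ R ∧ E T core B (j + 1) p (insert (c i) R)) ∧
        ∀ i', c i' ∈ insert (c i) R ∪ Yv T B j p (insert (c i) R) := by
  obtain ⟨h1, h2, s, h3, h4⟩ := h
  have hp : Exp (23 * T) p := h1.mono (subset_insert _ _)
  by_cases hd : Mono.Inv (23 * T) (core s) p R
  · exact Or.inl ⟨hp, h2, s, hd, fun h => h4 (h.mono2 (subset_insert _ _) subset_rfl)⟩
  right
  have hn : ∀ i, c i ∉ R := fun i hi => hd (by
    have := h3.step i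
    rwa [insert_eq_of_mem hi] at this)
  have hc : ∀ i, (insert (c i) R).card = R.card + 1 := fun i => card_insert_of_notMem (hn i)
  have h5 : ∃ i, ¬ G (66 * T) p (j + 1) (B s ∩ cyl (insert (c i) R)) := by
    by_contra h5
    push Not at h5
    refine h4 (Or.inr (Or.inl ⟨c, mem_insert_self _ _, fun i => ?_⟩))
    rw [cyl_insert]
    exact (h5 i).mono2 (subset_insert _ _) subset_rfl
  obtain ⟨i, hi⟩ := h5
  have hE : E T core B (j + 1) p (insert (c i) R) := ⟨hp, by rw [hc]; omega, s, h3.step i, hi⟩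
  by_cases hb : ∃ i', i ≠ i' ∧ ¬ G (66 * T) p j (B s ∩ cyl (insert (c i') R))
  · obtain ⟨i', h6, h7⟩ := hb
    exact Or.inl ⟨fun k => hU _ s hp hd (h3.step k), i, i', h6, ⟨hn i, hE.pred⟩, hn i', hp,
      by rw [hc]; omega, s, h3.step i', h7⟩
  · push Not at hb
    refine Or.inr ⟨i, ⟨hn i, hE⟩, fun i' => ?_⟩
    by_cases e : i = i'
    · rw [← e]; exact mem_union_left _ (mem_insert_self _ _)
    · exact mem_union_right _ (mem_filter.2 ⟨mem_univ _, s, hi, (hb i' e).mono
        (Set.inter_subset_inter_right _ (cyl_anti (insert_subset_insert _ (subset_insert _ _))))⟩)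

/-- indicator -/
noncomputable def ind (P : Prop) : ℝ := if P then 1 else 0

theorem ind_nonneg (P : Prop) : 0 ≤ ind P := by unfold ind; split_ifs <;> norm_num

theorem ind_mono {P Q : Prop} (h : P → Q) : ind P ≤ ind Q := by
  unfold ind
  by_cases h1 : P
  · simp [h1, h h1]
  · simp only [h1, if_false]; split_ifs <;> norm_num

theorem cnt_ind {β : Type} [Fintype β] (P : β → Prop) : cnt P = ∑ b, ind (P b) := by
  rw [cnt_eq_sum]; rfl

theorem transfer {β : Type} [Fintype β] [DecidableEq β] (z : ℝ) (g : Finset β → β → ℝ) :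
    z * ∑ R : Finset β, z ^ R.card * ∑ l, ind (l ∉ R) * g (insert l R) l =
      ∑ R : Finset β, z ^ R.card * ∑ l ∈ R, g R l := by
  have h1 : ∀ R : Finset β, ∑ l ∈ R, g R l = ∑ l, if l ∈ R then g R l else 0 := by
    intro R
    rw [← sum_filter, filter_mem_eq_inter, univ_inter]
  simp only [h1, mul_sum]
  rw [sum_comm, sum_comm (f := fun (R : Finset β) l => z ^ R.card * if l ∈ R then g R l else 0)]
  refine sum_congr rfl fun l _ => ?_
  have h2 : ∀ R : Finset β, z * (z ^ R.card * (ind (l ∉ R) * g (insert l R) l)) =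
      if l ∉ R then z ^ (R.card + 1) * g (insert l R) l else 0 := by
    intro R
    unfold ind
    split_ifs <;> ring
  simp only [h2, mul_ite, mul_zero]
  rw [← sum_filter, ← sum_filter]
  refine sum_nbij' (fun R => insert l R) (fun R => R.erase l) ?_ ?_ ?_ ?_ ?_
  · intro R _; simp
  · intro R _; simp
  · intro R hR; exact erase_insert (by simpa using hR)
  · intro R hR; exact insert_erase (by simpa using hR)
  · intro R hR
    rw [card_insert_of_notMem (by simpa using hR)]

/-- sparsity of a pool of clauses -/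
structure Pl {Θ : Type} [Fintype Θ] (cl : Θ → Cl α) (T : ℕ) (x e : ℝ) : Prop where
  bal : ∀ (U : Finset α) (S : Finset (α × Bool)), U.card ≤ 30 * T →
    cnt (fun θ => (∀ i, (cl θ i).1 ∈ U) ∧ ∃ i i', i ≠ i' ∧ cl θ i ∈ S ∧ cl θ i' ∈ S) ≤ x * S.card
  ins : ∀ X : Finset (α × Bool), X.card ≤ 67 * T → cnt (fun θ => ∀ i, cl θ i ∈ X) ≤ e

variable {Θ : Type} [Fintype Θ] {cl : Θ → Cl α} {x e : ℝ}

theorem step_R (hF : Fam T core B) (hT : 1 ≤ T) (hP : Pl cl T x e) (hx : 0 ≤ x) (j : ℕ)
    (p : Finset (Cl α)) (R : Finset (α × Bool)) :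
    ∑ θ, ind (E T core B (j + 2) (insert (cl θ) p) R) ≤
      Fintype.card Θ * ind (E T core B (j + 2) p R) +
      x * ∑ l, ind (l ∉ R) * ind (E T core B j p (insert l R)) +
      ∑ l, ind (l ∉ R) * (ind (E T core B (j + 1) p (insert l R)) *
        cnt fun θ => (∃ i, cl θ i = l) ∧ ∀ i, cl θ i ∈ insert l R ∪ Yv T B j p (insert l R)) := by
  have n1 : (0 : ℝ) ≤ Fintype.card Θ * ind (E T core B (j + 2) p R) :=
    mul_nonneg (Nat.cast_nonneg _) (ind_nonneg _)
  have n2 : 0 ≤ x * ∑ l, ind (l ∉ R) * ind (E T core B j p (insert l R)) :=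
    mul_nonneg hx (sum_nonneg fun _ _ => mul_nonneg (ind_nonneg _) (ind_nonneg _))
  have n3 : 0 ≤ ∑ l, ind (l ∉ R) * (ind (E T core B (j + 1) p (insert l R)) *
        cnt fun θ => (∃ i, cl θ i = l) ∧ ∀ i, cl θ i ∈ insert l R ∪ Yv T B j p (insert l R)) :=
    sum_nonneg fun _ _ => mul_nonneg (ind_nonneg _) (mul_nonneg (ind_nonneg _) (cnt_nonneg _))
  rw [← cnt_ind]
  by_cases hR : R.card ≤ T
  swap
  · refine (cnt_le_card (A := ∅) fun θ h => absurd (by have := h.2.1; omega) hR).trans ?_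
    rw [card_empty, Nat.cast_zero]
    linarith
  by_cases h0 : E T core B (j + 2) p R
  · refine (cnt_le_card (A := univ) fun θ _ => mem_univ _).trans ?_
    rw [card_univ]
    have : ind (E T core B (j + 2) p R) = 1 := if_pos h0
    rw [this] at n1 ⊢
    linarith
  obtain ⟨U, hU, hU'⟩ := exists_U hF hT p hR
  set S : Finset (α × Bool) := univ.filter fun l => l ∉ R ∧ E T core B j p (insert l R) with hS
  have h1 := hP.bal U S hU
  have h2 : (S.card : ℝ) = ∑ l, ind (l ∉ R) * ind (E T core B j p (insert l R)) := by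
    rw [hS, card_filter]
    push_cast
    refine sum_congr rfl fun l _ => ?_
    unfold ind
    by_cases a1 : l ∈ R <;> by_cases a2 : E T core B j p (insert l R) <;> simp [a1, a2]
  have h3 := cnt_exists_sum univ (fun (l : α × Bool) θ =>
      (l ∉ R ∧ E T core B (j + 1) p (insert l R)) ∧
      (∃ i, cl θ i = l) ∧ ∀ i, cl θ i ∈ insert l R ∪ Yv T B j p (insert l R))
    (fun θ => ∃ i, (cl θ i ∉ R ∧ E T core B (j + 1) p (insert (cl θ i) R)) ∧
        ∀ i', cl θ i' ∈ insert (cl θ i) R ∪ Yv T B j p (insert (cl θ i) R))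
    (fun θ ⟨i, a1, a2⟩ => ⟨cl θ i, mem_univ _, a1, ⟨i, rfl⟩, a2⟩)
  have h4 := h3.trans (sum_le_sum (g := fun l => ind (l ∉ R) *
      (ind (E T core B (j + 1) p (insert l R)) *
        cnt fun θ => (∃ i, cl θ i = l) ∧ ∀ i, cl θ i ∈ insert l R ∪ Yv T B j p (insert l R)))
    fun l _ => by
      by_cases a : l ∉ R ∧ E T core B (j + 1) p (insert l R)
      · have b1 : ind (l ∉ R) = 1 := if_pos a.1
        have b2 : ind (E T core B (j + 1) p (insert l R)) = 1 := if_pos a.2
        rw [b1, b2, one_mul, one_mul]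
        exact cnt_mono fun θ h => h.2
      · refine (cnt_le_card (A := ∅) fun θ h => absurd h.1 a).trans ?_
        rw [card_empty, Nat.cast_zero]
        exact mul_nonneg (ind_nonneg _) (mul_nonneg (ind_nonneg _) (cnt_nonneg _)))
  rw [h2] at h1
  refine ((cnt_mono fun θ h => ?_).trans (cnt_or _ _)).trans
    ((add_le_add h1 h4).trans (by linarith))
  rcases trich hU' h with a | ⟨a1, i, i', a2, a3, a4⟩ | a
  · exact absurd a h0
  · exact Or.inl ⟨a1, i, i', a2, mem_filter.2 ⟨mem_univ _, a3⟩, mem_filter.2 ⟨mem_univ _, a4⟩⟩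
  · exact Or.inr a

theorem sum_deg (hF : Fam T core B) (hP : Pl cl T x e) (j : ℕ) (p : Finset (Cl α))
    {R : Finset (α × Bool)} (hR : R.card ≤ T) :
    ∑ l ∈ R, cnt (fun θ => (∃ i, cl θ i = l) ∧ ∀ i, cl θ i ∈ R ∪ Yv T B j p R) ≤ 3 * e := by
  have h1 := hP.ins (R ∪ Yv T B j p R) ((card_union_le _ _).trans (by
    have := Yv_card hF j p R; omega))
  refine le_trans ?_ (mul_le_mul_of_nonneg_left h1 (by norm_num))
  simp only [cnt_ind]
  rw [sum_comm, mul_sum]
  refine sum_le_sum fun θ _ => ?_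
  by_cases h : ∀ i, cl θ i ∈ R ∪ Yv T B j p R
  · have b1 : ind (∀ i, cl θ i ∈ R ∪ Yv T B j p R) = 1 := if_pos h
    rw [b1]
    refine (sum_le_sum_of_subset_of_nonneg (subset_univ R) fun _ _ _ => ind_nonneg _).trans ?_
    rw [← cnt_ind]
    refine (cnt_le_card (A := univ.image (cl θ)) fun l hl => ?_).trans ?_
    · obtain ⟨i, hi⟩ := hl.1
      exact mem_image.2 ⟨i, mem_univ _, hi⟩
    · have : (univ.image (cl θ)).card ≤ 3 := card_image_le.trans (by simp)
      exact_mod_cast this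
  · refine le_trans (le_of_eq (sum_eq_zero fun l _ => if_neg fun a => h a.2))
      (mul_nonneg (by norm_num) (ind_nonneg _))

end Pool.Agent.P.MP_b53add_lc.Sp
end

-- part Pool.Agent.P.MP_b53add_lc.SpIter
section

set_option autoImplicit false
set_option linter.unusedSectionVars false

namespace Pool.Agent.P.MP_b53add_lc.Sp

open Finset Classical Mono

variable {α : Type} [DecidableEq α] [Fintype α]

/-- the level functions, with trivial levels zero and one -/
noncomputable def lv (T : ℕ) (core : ℝ → Finset (α × Bool) → Prop) (B : ℝ → Set (α → Bool))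
    (j : ℕ) (p : Finset (Cl α)) (R : Finset (α × Bool)) : ℝ := ind (j ≤ 1 ∨ E T core B j p R)

/-- the generating function -/
noncomputable def Psi (T : ℕ) (core : ℝ → Finset (α × Bool) → Prop) (B : ℝ → Set (α → Bool))
    (p : Finset (Cl α)) (z : ℝ) : ℝ :=
  ∑ j ∈ range (T + 2), 4 ^ j * ∑ R : Finset (α × Bool), z ^ R.card * lv T core B j p R

variable {T : ℕ} {core : ℝ → Finset (α × Bool) → Prop} {B : ℝ → Set (α → Bool)}
variable {Θ : Type} [Fintype Θ] {cl : Θ → Cl α} {x e : ℝ}

theorem lv_nonneg (j : ℕ) (p : Finset (Cl α)) (R : Finset (α × Bool)) :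
    0 ≤ lv T core B j p R := ind_nonneg _

theorem lv_two (j : ℕ) (p : Finset (Cl α)) (R : Finset (α × Bool)) :
    lv T core B (j + 2) p R = ind (E T core B (j + 2) p R) := by
  unfold lv
  congr 1
  exact propext ⟨fun h => h.resolve_left (by omega), Or.inr⟩

theorem step_j (hF : Fam T core B) (hT : 1 ≤ T) (hP : Pl cl T x e) (hx : 0 ≤ x) (he : 0 ≤ e)
    (j : ℕ) (p : Finset (Cl α)) {z : ℝ} (hz : 0 < z) :
    ∑ θ, ∑ R : Finset (α × Bool), z ^ R.card * lv T core B (j + 2) (insert (cl θ) p) R ≤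
      Fintype.card Θ * ∑ R : Finset (α × Bool), z ^ R.card * lv T core B (j + 2) p R +
      x / z * ∑ R : Finset (α × Bool), z ^ R.card * (R.card * lv T core B j p R) +
      3 * e / z * ∑ R : Finset (α × Bool), z ^ R.card * lv T core B (j + 1) p R := by
  have h1 := transfer z fun (R : Finset (α × Bool)) _ => ind (E T core B j p R)
  have h2 := transfer z fun (R : Finset (α × Bool)) l => ind (E T core B (j + 1) p R) *
    cnt fun θ => (∃ i, cl θ i = l) ∧ ∀ i, cl θ i ∈ R ∪ Yv T B j p R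
  have h3 : ∑ R : Finset (α × Bool), z ^ R.card * ∑ _l ∈ R, ind (E T core B j p R) ≤
      ∑ R : Finset (α × Bool), z ^ R.card * (R.card * lv T core B j p R) := by
    refine sum_le_sum fun R _ => mul_le_mul_of_nonneg_left ?_ (by positivity)
    rw [sum_const, nsmul_eq_mul]
    exact mul_le_mul_of_nonneg_left (ind_mono Or.inr) (Nat.cast_nonneg _)
  have h4 : ∑ R : Finset (α × Bool), z ^ R.card * ∑ l ∈ R, ind (E T core B (j + 1) p R) *
      cnt (fun θ => (∃ i, cl θ i = l) ∧ ∀ i, cl θ i ∈ R ∪ Yv T B j p R) ≤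
      3 * e * ∑ R : Finset (α × Bool), z ^ R.card * lv T core B (j + 1) p R := by
    rw [mul_sum]
    refine sum_le_sum fun R _ => ?_
    rw [mul_left_comm, ← mul_sum]
    refine mul_le_mul_of_nonneg_left ?_ (by positivity)
    by_cases h : E T core B (j + 1) p R
    · rw [mul_comm]
      exact mul_le_mul (sum_deg hF hP j p (by have := h.2.1; omega)) (ind_mono Or.inr)
        (ind_nonneg _) (by positivity)
    · have : ind (E T core B (j + 1) p R) = 0 := if_neg h
      rw [this, zero_mul]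
      exact mul_nonneg (by positivity) (lv_nonneg _ _ _)
  rw [← h1] at h3
  rw [← h2] at h4
  have h5 := (le_div_iff₀' hz).2 h3
  have h6 := (le_div_iff₀' hz).2 h4
  have h7 := mul_le_mul_of_nonneg_left h5 hx
  rw [sum_comm]
  simp only [← mul_sum, lv_two]
  refine (sum_le_sum fun R _ => mul_le_mul_of_nonneg_left (step_R hF hT hP hx j p R)
    (by positivity)).trans ?_
  simp only [mul_add, sum_add_distrib]
  refine add_le_add (add_le_add (le_of_eq ?_) ?_) (h6.trans (le_of_eq (by ring)))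
  · rw [mul_sum]
    exact sum_congr rfl fun R _ => by ring
  · refine le_trans (le_of_eq ?_) (h7.trans (le_of_eq (by ring)))
    rw [mul_sum]
    exact sum_congr rfl fun R _ => by ring

theorem level_sum {a b d : ℕ → ℝ} {M u v : ℝ} (hb : ∀ j, 0 ≤ b j) (hv : 0 ≤ v)
    (h0 : a 0 ≤ M * b 0) (h1 : a 1 ≤ M * b 1)
    (h2 : ∀ j, a (j + 2) ≤ M * b (j + 2) + u * d j + v * b (j + 1)) (n : ℕ) :
    ∑ j ∈ range (n + 2), 4 ^ j * a j ≤ M * ∑ j ∈ range (n + 2), 4 ^ j * b j +
      16 * u * ∑ j ∈ range n, 4 ^ j * d j + 4 * v * ∑ j ∈ range (n + 1), 4 ^ j * b j := by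
  induction n with
  | zero =>
    have := mul_nonneg hv (hb 0)
    simp only [zero_add, sum_range_succ, range_zero, sum_empty]
    nlinarith
  | succ n ih =>
    rw [sum_range_succ (fun j => 4 ^ j * a j) (n + 2), sum_range_succ (fun j => 4 ^ j * b j) (n + 2),
      sum_range_succ (fun j => 4 ^ j * d j) n]
    conv_rhs => rw [add_comm, sum_range_succ (fun j => 4 ^ j * b j) (n + 1)]
    have h3 := mul_le_mul_of_nonneg_left (h2 n) (show (0 : ℝ) ≤ 4 ^ (n + 2) by positivity)
    have e1 : (4 : ℝ) ^ (n + 2) = 16 * 4 ^ n := by ring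
    have e2 : (4 : ℝ) ^ (n + 1) = 4 * 4 ^ n := by ring
    rw [sum_range_succ (fun j => 4 ^ j * b j) (n + 1), e2] at ih
    rw [e1] at h3 ⊢
    rw [e2]
    linarith

theorem Psi_nonneg (p : Finset (Cl α)) {z : ℝ} (hz : 0 ≤ z) : 0 ≤ Psi T core B p z :=
  sum_nonneg fun _ _ => mul_nonneg (by positivity)
    (sum_nonneg fun _ _ => mul_nonneg (by positivity) (lv_nonneg _ _ _))

theorem Psi_shift (p : Finset (Cl α)) {z η : ℝ} (hz : 0 < z) (hη : 0 ≤ η) :
    Psi T core B p z + η / z * ∑ j ∈ range (T + 2), 4 ^ j *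
      ∑ R : Finset (α × Bool), z ^ R.card * (R.card * lv T core B j p R) ≤
      Psi T core B p (z + η) := by
  unfold Psi
  rw [mul_sum, ← sum_add_distrib]
  refine sum_le_sum fun j _ => ?_
  rw [mul_left_comm, ← mul_add, mul_sum, ← sum_add_distrib]
  refine mul_le_mul_of_nonneg_left (sum_le_sum fun R _ => ?_) (by positivity)
  have h1 := one_add_mul_le_pow (a := η / z) (by have : 0 ≤ η / z := by positivity
                                                 linarith) R.card
  have h2 : (z + η) ^ R.card = z ^ R.card * (1 + η / z) ^ R.card := by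
    rw [← mul_pow]; congr 1; field_simp
  have h3 := mul_le_mul_of_nonneg_right (mul_le_mul_of_nonneg_left h1
    (show 0 ≤ z ^ R.card by positivity)) (lv_nonneg (T := T) (core := core) (B := B) j p R)
  rw [h2]
  linarith

theorem step_Psi (hF : Fam T core B) (hT : 1 ≤ T) (hP : Pl cl T x e) (hx : 0 ≤ x) (he : 0 ≤ e)
    {η χ z0 : ℝ} (hη : 0 ≤ η) (hχ : 0 ≤ χ) (hz0 : 0 < z0) (h1 : 16 * x ≤ Fintype.card Θ * η)
    (h2 : 12 * e ≤ Fintype.card Θ * χ * z0) (p : Finset (Cl α)) {z : ℝ} (hz : z0 ≤ z) :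
    ∑ θ, Psi T core B (insert (cl θ) p) z ≤
      Fintype.card Θ * (1 + χ) * Psi T core B p (z + η) := by
  have hz' : 0 < z := hz0.trans_le hz
  have hM : (0 : ℝ) ≤ Fintype.card Θ := Nat.cast_nonneg _
  have htriv : ∀ j ≤ 1, ∑ θ, ∑ R : Finset (α × Bool), z ^ R.card *
      lv T core B j (insert (cl θ) p) R ≤
      Fintype.card Θ * ∑ R : Finset (α × Bool), z ^ R.card * lv T core B j p R := by
    intro j hj
    have : ∀ q R, lv T core B j q R = 1 := fun q R => if_pos (Or.inl hj)
    simp only [this]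
    rw [sum_const, card_univ, nsmul_eq_mul]
  have h3 := level_sum (M := Fintype.card Θ) (u := x / z) (v := 3 * e / z)
    (a := fun j => ∑ θ, ∑ R : Finset (α × Bool), z ^ R.card * lv T core B j (insert (cl θ) p) R)
    (b := fun j => ∑ R : Finset (α × Bool), z ^ R.card * lv T core B j p R)
    (d := fun j => ∑ R : Finset (α × Bool), z ^ R.card * (R.card * lv T core B j p R))
    (fun j => sum_nonneg fun _ _ => mul_nonneg (by positivity) (lv_nonneg _ _ _)) (by positivity)
    (htriv 0 (by omega)) (htriv 1 le_rfl) (fun j => step_j hF hT hP hx he j p hz') T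
  have h4 := Psi_shift (T := T) (core := core) (B := B) p hz' hη
  have h5 : ∑ j ∈ range T, 4 ^ j *
      ∑ R : Finset (α × Bool), z ^ R.card * (R.card * lv T core B j p R) ≤
      ∑ j ∈ range (T + 2), 4 ^ j *
      ∑ R : Finset (α × Bool), z ^ R.card * (R.card * lv T core B j p R) :=
    sum_le_sum_of_subset_of_nonneg (range_mono (by omega)) fun _ _ _ => mul_nonneg (by positivity)
      (sum_nonneg fun _ _ => mul_nonneg (by positivity)
        (mul_nonneg (Nat.cast_nonneg _) (lv_nonneg _ _ _)))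
  have h6 : ∑ j ∈ range (T + 1), 4 ^ j *
      ∑ R : Finset (α × Bool), z ^ R.card * lv T core B j p R ≤ Psi T core B p z :=
    sum_le_sum_of_subset_of_nonneg (range_mono (by omega)) fun _ _ _ => mul_nonneg (by positivity)
      (sum_nonneg fun _ _ => mul_nonneg (by positivity) (lv_nonneg _ _ _))
  have h7 : ∑ θ, Psi T core B (insert (cl θ) p) z = ∑ j ∈ range (T + 2), 4 ^ j *
      ∑ θ, ∑ R : Finset (α × Bool), z ^ R.card * lv T core B j (insert (cl θ) p) R := by
    unfold Psi
    rw [sum_comm]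
    simp only [← mul_sum]
  have n1 : 0 ≤ ∑ j ∈ range (T + 2), 4 ^ j *
      ∑ R : Finset (α × Bool), z ^ R.card * (R.card * lv T core B j p R) :=
    sum_nonneg fun _ _ => mul_nonneg (by positivity)
      (sum_nonneg fun _ _ => mul_nonneg (by positivity)
        (mul_nonneg (Nat.cast_nonneg _) (lv_nonneg _ _ _)))
  have n2 := Psi_nonneg (T := T) (core := core) (B := B) p hz'.le
  have a1 : 16 * (x / z) ≤ Fintype.card Θ * (η / z) := by
    rw [← mul_div_assoc, ← mul_div_assoc]
    exact div_le_div_of_nonneg_right h1 hz'.le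
  have a2 : 4 * (3 * e / z) ≤ Fintype.card Θ * χ := by
    rw [← mul_div_assoc, div_le_iff₀ hz']
    have := mul_le_mul_of_nonneg_left hz (mul_nonneg hM hχ)
    linarith
  have a3 := (mul_le_mul_of_nonneg_left h5 (show 0 ≤ 16 * (x / z) by positivity)).trans
    (mul_le_mul_of_nonneg_right a1 n1)
  have a4 := (mul_le_mul_of_nonneg_left h6 (show 0 ≤ 4 * (3 * e / z) by positivity)).trans
    (mul_le_mul_of_nonneg_right a2 n2)
  have a5 := mul_le_mul_of_nonneg_left h4 hM
  have a6 : Psi T core B p z ≤ Psi T core B p (z + η) :=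
    le_trans (le_add_of_nonneg_right (mul_nonneg (by positivity) n1)) h4
  have a7 := mul_le_mul_of_nonneg_left a6 (mul_nonneg hM hχ)
  rw [h7]
  refine h3.trans ?_
  change Fintype.card Θ * Psi T core B p z + _ + _ ≤ _
  linarith

/-- the formula made of the kept slots -/
noncomputable def build {m : ℕ} (cl : Θ → Cl α) (p : Finset (Cl α)) (k : Fin m → Prop)
    (f : Fin m → Θ) : Finset (Cl α) := p ∪ (univ.filter k).image fun i => cl (f i)

theorem mem_build {m : ℕ} {p : Finset (Cl α)} {k : Fin m → Prop} {f : Fin m → Θ} {c : Cl α} :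
    c ∈ build cl p k f ↔ c ∈ p ∨ ∃ i, k i ∧ cl (f i) = c := by
  simp [build]

theorem iter (hF : Fam T core B) (hT : 1 ≤ T) (hP : Pl cl T x e) (hx : 0 ≤ x) (he : 0 ≤ e)
    {η χ z0 : ℝ} (hη : 0 ≤ η) (hχ : 0 ≤ χ) (hz0 : 0 < z0) (h1 : 16 * x ≤ Fintype.card Θ * η)
    (h2 : 12 * e ≤ Fintype.card Θ * χ * z0) (m : ℕ) : ∀ (k : Fin m → Prop) (p : Finset (Cl α)),
    ∑ f : Fin m → Θ, Psi T core B (build cl p k f) z0 ≤
      (Fintype.card Θ * (1 + χ)) ^ m * Psi T core B p (z0 + m * η) := by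
  have hM : (0 : ℝ) ≤ Fintype.card Θ := Nat.cast_nonneg _
  induction m with
  | zero =>
    intro k p
    have : ∀ f : Fin 0 → Θ, build cl p k f = p := fun f => by
      ext c; simp [mem_build]
    simp [this]
  | succ m ih =>
    intro k p
    have hz : z0 ≤ z0 + m * η := le_add_of_nonneg_right (by positivity)
    have e1 : z0 + ((m + 1 : ℕ) : ℝ) * η = z0 + m * η + η := by push_cast; ring
    rw [Mono.sum_cons, e1, pow_succ, mul_assoc]
    by_cases h0 : k 0
    · have hb : ∀ θ (f : Fin m → Θ), build cl p k (Fin.cons θ f : Fin (m + 1) → Θ) =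
          build cl (insert (cl θ) p) (fun i => k i.succ) f := by
        intro θ f
        ext c
        simp only [mem_build, Fin.exists_fin_succ, Fin.cons_zero, Fin.cons_succ, mem_insert, h0,
          true_and, eq_comm (a := c)]
        tauto
      simp only [hb]
      refine (sum_le_sum fun θ _ => ih _ _).trans ?_
      rw [← mul_sum]
      exact mul_le_mul_of_nonneg_left (step_Psi hF hT hP hx he hη hχ hz0 h1 h2 p hz)
        (by positivity)
    · have hb : ∀ θ (f : Fin m → Θ), build cl p k (Fin.cons θ f : Fin (m + 1) → Θ) =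
          build cl p (fun i => k i.succ) f := by
        intro θ f
        ext c
        simp only [mem_build, Fin.exists_fin_succ, Fin.cons_succ, h0, false_and, false_or]
      simp only [hb]
      refine (sum_le_sum fun θ _ => ih _ _).trans ?_
      rw [sum_const, card_univ, nsmul_eq_mul, mul_left_comm]
      refine mul_le_mul_of_nonneg_left ?_ (by positivity)
      have hz' : 0 < z0 + m * η := hz0.trans_le hz
      have a1 := Psi_shift (T := T) (core := core) (B := B) p hz' hη
      have n1 : 0 ≤ ∑ j ∈ range (T + 2), 4 ^ j * ∑ R : Finset (α × Bool),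
          (z0 + m * η) ^ R.card * (R.card * lv T core B j p R) :=
        sum_nonneg fun _ _ => mul_nonneg (by positivity)
          (sum_nonneg fun _ _ => mul_nonneg (by positivity)
            (mul_nonneg (Nat.cast_nonneg _) (lv_nonneg _ _ _)))
      have a2 := le_trans (le_add_of_nonneg_right (mul_nonneg (by positivity) n1)) a1
      refine mul_le_mul (le_mul_of_one_le_right hM (by linarith)) a2 (Psi_nonneg _ hz'.le)
        (by positivity)

theorem Psi_empty (hF : Fam T core B) {z : ℝ} (hz : 0 ≤ z) :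
    Psi T core B ∅ z ≤ 5 * Real.exp (z * Fintype.card (α × Bool)) := by
  have h1 : ∑ S : Finset (α × Bool), z ^ S.card = (1 + z) ^ Fintype.card (α × Bool) := by
    have := prod_one_add (f := fun _ : α × Bool => z) univ
    simp only [prod_const, card_univ, powerset_univ] at this
    exact this.symm
  have h2 : (1 + z) ^ Fintype.card (α × Bool) ≤ Real.exp (z * Fintype.card (α × Bool)) := by
    rw [mul_comm, Real.exp_nat_mul]
    exact pow_le_pow_left₀ (by positivity) (by linarith [Real.add_one_le_exp z]) _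
  have h3 : ∀ j R, lv T core B (j + 1 + 1) ∅ R = 0 := fun j R =>
    (lv_two j ∅ R).trans (if_neg (not_E_empty hF _ _))
  have h4 : ∀ j ≤ 1, ∀ R, lv T core B j ∅ R = 1 := fun j hj R => if_pos (Or.inl hj)
  unfold Psi
  rw [sum_range_succ', sum_range_succ']
  simp only [h3, h4 0 (by omega), h4 (0 + 1) le_rfl, mul_zero, sum_const_zero, mul_one, h1]
  norm_num only
  linarith

theorem gap (hF : Fam T core B) (hT : 1 ≤ T) (hP : Pl cl T x e) (hx : 0 ≤ x) (he : 0 ≤ e)
    {η χ z0 : ℝ} (hη : 0 ≤ η) (hχ : 0 ≤ χ) (hz0 : 0 < z0) (h1 : 16 * x ≤ Fintype.card Θ * η)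
    (h2 : 12 * e ≤ Fintype.card Θ * χ * z0) (m : ℕ) (k : Fin m → Prop) :
    cnt (fun f : Fin m → Θ => E T core B T (build cl ∅ k f) ∅) * 4 ^ T ≤
      (Fintype.card Θ : ℝ) ^ m *
        (5 * Real.exp (m * χ + (z0 + m * η) * Fintype.card (α × Bool))) := by
  have h3 := iter hF hT hP hx he hη hχ hz0 h1 h2 m k ∅
  have h4 := Psi_empty hF (z := z0 + m * η) (by positivity)
  have h5 : (1 + χ) ^ m ≤ Real.exp (m * χ) := by
    rw [Real.exp_nat_mul]
    exact pow_le_pow_left₀ (by positivity) (by linarith [Real.add_one_le_exp χ]) _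
  refine le_trans ?_ (h3.trans ?_)
  · rw [cnt_ind, sum_mul]
    refine sum_le_sum fun f _ => ?_
    refine le_trans ?_ (single_le_sum (f := fun j => 4 ^ j * ∑ R : Finset (α × Bool),
      z0 ^ R.card * lv T core B j (build cl ∅ k f) R) (fun _ _ => mul_nonneg (by positivity)
        (sum_nonneg fun _ _ => mul_nonneg (by positivity) (lv_nonneg _ _ _)))
      (mem_range.2 (show T < T + 2 by omega)))
    rw [mul_comm]
    refine mul_le_mul_of_nonneg_left (le_trans ?_ (single_le_sum (f := fun R : Finset (α × Bool) =>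
      z0 ^ R.card * lv T core B T (build cl ∅ k f) R)
      (fun _ _ => mul_nonneg (by positivity) (lv_nonneg _ _ _)) (mem_univ ∅))) (by positivity)
    simp only [card_empty, pow_zero, one_mul]
    exact ind_mono Or.inr
  · rw [mul_pow, mul_assoc, Real.exp_add, mul_left_comm 5]
    exact mul_le_mul_of_nonneg_left (mul_le_mul h5 h4 (Psi_nonneg _ (by positivity))
      (by positivity)) (by positivity)

end Pool.Agent.P.MP_b53add_lc.Sp
end
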